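import Mathlib

/-! Evaluating sections of a scheme at ring-valued points. -/

set_option autoImplicit false

namespace Pool.Agent.P.MP_f6c533_ag

open AlgebraicGeometry CategoryTheory

variable {X Y : Scheme.{0}} {Λ Λ' : Type} [CommRing Λ] [CommRing Λ']

/-- Value of a section at a point with values in `Λ`. -/
noncomputable def ev (t : Spec (CommRingCat.of Λ) ⟶ X) (W : X.Opens) (h : ⊤ ≤ t ⁻¹ᵁ W) :
    Γ(X, W) →+* Λ :=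
  (t.appLE W ⊤ h ≫ (Scheme.ΓSpecIso (CommRingCat.of Λ)).hom).hom

theorem ev_congr {t t' : Spec (CommRingCat.of Λ) ⟶ X} (e : t = t') (W : X.Opens)
    (h : ⊤ ≤ t ⁻¹ᵁ W) (h' : ⊤ ≤ t' ⁻¹ᵁ W) : ev t W h = ev t' W h' := by
  subst e; rfl

theorem ev_appLE (t : Spec (CommRingCat.of Λ) ⟶ X) (g : X ⟶ Y) {W : Y.Opens} {W' : X.Opens}
    (e : W' ≤ g ⁻¹ᵁ W) (h' : ⊤ ≤ t ⁻¹ᵁ W') (h : ⊤ ≤ (t ≫ g) ⁻¹ᵁ W) (a : Γ(Y, W)) :
    ev t W' h' (g.appLE W W' e a) = ev (t ≫ g) W h a := by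
  rw [ev, ev, ← Scheme.Hom.appLE_comp_appLE t g W W' ⊤ e h']
  rfl

theorem ev_res (t : Spec (CommRingCat.of Λ) ⟶ X) {W W' : X.Opens}
    (e : W' ≤ W) (h' : ⊤ ≤ t ⁻¹ᵁ W') (h : ⊤ ≤ t ⁻¹ᵁ W) (a : Γ(X, W)) :
    ev t W' h' (X.presheaf.map (homOfLE e).op a) = ev t W h a := by
  rw [ev, ev, ← Scheme.Hom.map_appLE t h' (homOfLE e).op]
  rfl

theorem isUnit_ev_iff (t : Spec (CommRingCat.of Λ) ⟶ X) {W : X.Opens} (h : ⊤ ≤ t ⁻¹ᵁ W)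
    (a : Γ(X, W)) : IsUnit (ev t W h a) ↔ ⊤ ≤ t ⁻¹ᵁ X.basicOpen a := by
  have h1 : IsUnit (ev t W h a) ↔ IsUnit (t.appLE W ⊤ h a) :=
    MulEquiv.isUnit_map (Scheme.ΓSpecIso (CommRingCat.of Λ)).commRingCatIsoToRingEquiv
  have h2 := Scheme.basicOpen_appLE t ⊤ W h a
  rw [top_inf_eq] at h2
  rw [h1, ← h2]
  refine ⟨fun h3 => (Scheme.basicOpen_of_isUnit _ h3).ge, fun h3 => ?_⟩
  exact RingedSpace.isUnit_of_isUnit_germ _ _ _ fun x hx =>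
    (Scheme.mem_basicOpen _ _ _ hx).1 (h3 hx)

theorem eq_fromSpec {W : X.Opens} (hW : IsAffineOpen W) (t : Spec (CommRingCat.of Λ) ⟶ X)
    (h : ⊤ ≤ t ⁻¹ᵁ W) : t = Spec.map (CommRingCat.ofHom (ev t W h)) ≫ hW.fromSpec := by
  have := IsAffineOpen.SpecMap_appLE_fromSpec t hW (isAffineOpen_top _) h
  rw [IsAffineOpen.fromSpec_top, Iso.eq_inv_comp, Scheme.isoSpec_Spec_hom] at this
  conv_lhs => rw [← this]
  rw [← Spec.map_comp_assoc]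
  rfl

theorem le_fromSpec {W : X.Opens} (hW : IsAffineOpen W) (φ : Γ(X, W) →+* Λ) :
    ⊤ ≤ (Spec.map (CommRingCat.ofHom φ) ≫ hW.fromSpec) ⁻¹ᵁ W := by
  rw [Scheme.Hom.comp_preimage, hW.fromSpec_preimage_self]
  exact le_rfl

theorem ev_fromSpec {W : X.Opens} (hW : IsAffineOpen W) (φ : Γ(X, W) →+* Λ)
    (h : ⊤ ≤ (Spec.map (CommRingCat.ofHom φ) ≫ hW.fromSpec) ⁻¹ᵁ W) :
    ev (Spec.map (CommRingCat.ofHom φ) ≫ hW.fromSpec) W h = φ := by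
  have h1 := eq_fromSpec hW _ h
  rw [cancel_mono] at h1
  exact congrArg CommRingCat.Hom.hom (Spec.map_injective h1).symm

theorem le_SpecMap (ψ : Λ →+* Λ') {t : Spec (CommRingCat.of Λ) ⟶ X} {W : X.Opens}
    (h : ⊤ ≤ t ⁻¹ᵁ W) : ⊤ ≤ (Spec.map (CommRingCat.ofHom ψ) ≫ t) ⁻¹ᵁ W := fun _ _ => h trivial

theorem ev_SpecMap (ψ : Λ →+* Λ') (t : Spec (CommRingCat.of Λ) ⟶ X) {W : X.Opens}
    (h : ⊤ ≤ t ⁻¹ᵁ W) (h' : ⊤ ≤ (Spec.map (CommRingCat.ofHom ψ) ≫ t) ⁻¹ᵁ W) :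
    ev (Spec.map (CommRingCat.ofHom ψ) ≫ t) W h' = ψ.comp (ev t W h) := by
  have h1 : (Spec.map (CommRingCat.ofHom ψ) ≫ t).appLE W ⊤ h' =
      t.appLE W ⊤ h ≫ (Spec.map (CommRingCat.ofHom ψ)).appTop := by
    rw [← Scheme.Hom.appLE_comp_appLE _ t W ⊤ ⊤ h le_rfl, Scheme.Hom.appTop,
      Scheme.Hom.app_eq_appLE]
    rfl
  rw [ev, h1, Category.assoc, Scheme.ΓSpecIso_naturality]
  rfl

theorem le_preimage_iff {L : Type} [Field L] (t : Spec (CommRingCat.of L) ⟶ X) (W : X.Opens) :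
    ⊤ ≤ t ⁻¹ᵁ W ↔ t (IsLocalRing.closedPoint L) ∈ W :=
  ⟨fun h => h trivial, fun h => (Scheme.preimage_eq_top_of_closedPoint_mem t h).ge⟩

theorem isNilpotent_of_ev {W : X.Opens} (hW : IsAffineOpen W) {a : Γ(X, W)}
    (h : ∀ (L : Type) [Field L] (t : Spec (CommRingCat.of L) ⟶ X) (h : ⊤ ≤ t ⁻¹ᵁ W),
      ev t W h a = 0) : IsNilpotent a := by
  refine nilpotent_iff_mem_prime.2 fun q hq => ?_
  have h1 := h q.ResidueField _ (le_fromSpec hW (algebraMap _ q.ResidueField))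
  rw [ev_fromSpec] at h1
  exact Ideal.algebraMap_residueField_eq_zero.1 h1

end Pool.Agent.P.MP_f6c533_ag
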