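import Mathlib

/-!
First Cech cohomology of a finite module over a Noetherian ring, for the cover of the punctured
spectrum by the basic opens of generators of a maximal ideal, is Artinian.
Cochains are written with numerators, as eventually recurrent sequences.
-/

set_option autoImplicit false

namespace Pool.Agent.P.MP_f6c533_ag.Cech

open Filter

variable {S : Type*} [CommRing S]

theorem stab_of_le {N : Type*} [AddCommGroup N] [Module S N] (K : Submodule S N)
    [IsArtinian S K] (F : ℕ → Submodule S N) (hF : Antitone F) (hK : ∀ n, F n ≤ K) :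
    ∃ k, ∀ n, k ≤ n → F n = F k := by
  obtain ⟨k, hk⟩ := IsArtinian.monotone_stabilizes (R := S) (M := K)
    ⟨fun n => OrderDual.toDual ((F n).comap K.subtype),
      fun a b hab => Submodule.comap_mono (hF hab)⟩
  refine ⟨k, fun n hn => ?_⟩
  have h1 : (F k).comap K.subtype = (F n).comap K.subtype := hk n hn
  have h2 := congrArg (Submodule.map K.subtype) h1
  rw [Submodule.map_comap_subtype, Submodule.map_comap_subtype, inf_eq_right.2 (hK _),
    inf_eq_right.2 (hK _)] at h2
  exact h2.symm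

/-- Melkersson's criterion. -/
theorem melkersson {N : Type*} [AddCommGroup N] [Module S N] (y : S)
    (ht : ∀ n : N, ∃ k : ℕ, y ^ k • n = 0)
    (hA : IsArtinian S (LinearMap.ker (LinearMap.lsmul S N y))) : IsArtinian S N := by
  rw [← monotone_stabilizes_iff_artinian]
  intro L₀
  let L : ℕ → Submodule S N := fun n => OrderDual.ofDual (L₀ n)
  have hL : Antitone L := fun a b hab => L₀.monotone hab
  let E : ℕ → ℕ → Submodule S N := fun n i =>
    (L n ⊓ LinearMap.ker (LinearMap.lsmul S N (y ^ (i + 1)))).map (LinearMap.lsmul S N (y ^ i))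
  have memE : ∀ n i w, w ∈ E n i ↔ ∃ z ∈ L n, y ^ (i + 1) • z = 0 ∧ y ^ i • z = w := by
    intro n i w
    simp [E, Submodule.mem_map, and_assoc]
  have hK : ∀ n i, E n i ≤ LinearMap.ker (LinearMap.lsmul S N y) := by
    intro n i w hw
    obtain ⟨z, -, h1, rfl⟩ := (memE n i w).1 hw
    simp only [LinearMap.mem_ker, LinearMap.lsmul_apply, smul_smul]
    rwa [← pow_succ']
  have h1 : ∀ i, Antitone fun n => E n i := fun i a b hab =>
    Submodule.map_mono (inf_le_inf_right _ (hL hab))
  have h2 : ∀ n, Antitone fun i => E n i := by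
    intro n
    refine antitone_nat_of_succ_le fun i w hw => ?_
    obtain ⟨z, hz, h1, rfl⟩ := (memE n (i + 1) w).1 hw
    refine (memE n i _).2 ⟨y • z, (L n).smul_mem _ hz, ?_, ?_⟩
    · rw [smul_smul, ← pow_succ, h1]
    · rw [smul_smul, ← pow_succ]
  obtain ⟨k, hk⟩ := stab_of_le _ (fun n => E n n)
    (fun a b hab => (h1 b hab).trans (h2 a hab)) (fun n => hK n n)
  choose τ hτ using fun i => stab_of_le _ (fun n => E n i) (h1 i) (fun n => hK n i)
  let t := max k ((Finset.range k).sup τ)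
  have hE : ∀ n, t ≤ n → ∀ i, E n i = E t i := by
    intro n hn i
    by_cases hi : i < k
    · have : τ i ≤ t := le_max_of_le_right (Finset.le_sup (f := τ) (Finset.mem_range.2 hi))
      exact (hτ i n (this.trans hn)).trans (hτ i t this).symm
    · push Not at hi
      have key : ∀ m, k ≤ m → E m i = E k k := by
        intro m hm
        apply le_antisymm ((h1 i hm).trans (h2 k hi))
        have := hk (max m i) (le_max_of_le_left hm)
        exact this.ge.trans ((h1 _ (le_max_left m i)).trans (h2 m (le_max_right m i)))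
      rw [key n ((le_max_left _ _).trans hn), key t (le_max_left _ _)]
  refine ⟨t, fun n hn => ?_⟩
  change L t = L n
  refine le_antisymm (fun z hz => ?_) (hL hn)
  obtain ⟨i, hi⟩ := ht z
  induction i generalizing z with
  | zero => simp only [pow_zero, one_smul] at hi; rw [hi]; exact (L n).zero_mem
  | succ i ih =>
    have : y ^ i • z ∈ E n i := by
      rw [hE n hn]; exact (memE t i _).2 ⟨z, hz, hi, rfl⟩
    obtain ⟨z', hz', -, h⟩ := (memE n i _).1 this
    have h3 : z - z' ∈ L n := ih _ ((L t).sub_mem hz (hL hn hz')) (by rw [smul_sub, h, sub_self])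
    simpa using (L n).add_mem h3 hz'

theorem isArtinian_range_of_ker_le {W A C : Type*} [AddCommGroup W] [Module S W]
    [AddCommGroup A] [Module S A] [AddCommGroup C] [Module S C] [IsArtinian S A]
    (f : W →ₗ[S] A) (g : W →ₗ[S] C) (h : LinearMap.ker f ≤ LinearMap.ker g) :
    IsArtinian S (LinearMap.range g) := by
  have : IsArtinian S (W ⧸ LinearMap.ker f) :=
    isArtinian_of_linearEquiv f.quotKerEquivRange.symm
  refine isArtinian_of_surjective _ ((LinearMap.ker f).liftQ g.rangeRestrict (by simpa using h)) ?_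
  intro c
  obtain ⟨w, rfl⟩ := g.surjective_rangeRestrict c
  exact ⟨Submodule.Quotient.mk w, rfl⟩

theorem isArtinian_subquot {V V' : Type*} [AddCommGroup V] [Module S V]
    [AddCommGroup V'] [Module S V'] (Z B : Submodule S V) (Z' B' : Submodule S V')
    (hA : IsArtinian S (Z'.map B'.mkQ)) (y : S) (W : Submodule S (V' × V))
    (ht : ∀ u ∈ Z, ∃ k : ℕ, y ^ k • u ∈ B)
    (h1 : ∀ u ∈ Z, y • u ∈ B → ∃ a ∈ Z', (a, u) ∈ W)
    (h2 : ∀ a u, (a, u) ∈ W → a ∈ B' → u ∈ B) : IsArtinian S (Z.map B.mkQ) := by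
  apply melkersson y
  · rintro ⟨_, u, hu, rfl⟩
    obtain ⟨k, hk⟩ := ht u hu
    refine ⟨k, Subtype.ext ?_⟩
    change y ^ k • B.mkQ u = 0
    rw [← map_smul]
    exact (Submodule.Quotient.mk_eq_zero B).2 hk
  · let W' : Submodule S (V' × V) := W ⊓ Z'.comap (LinearMap.fst S V' V)
    let π₁ : W' →ₗ[S] Z'.map B'.mkQ :=
      (B'.mkQ ∘ₗ LinearMap.fst S V' V ∘ₗ W'.subtype).codRestrict _
        (fun w => Submodule.mem_map_of_mem w.2.2)
    let π₂ : W' →ₗ[S] V ⧸ B := B.mkQ ∘ₗ LinearMap.snd S V' V ∘ₗ W'.subtype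
    have hker : LinearMap.ker π₁ ≤ LinearMap.ker π₂ := by
      intro w hw
      have h3 : B'.mkQ w.1.1 = 0 := congrArg Subtype.val hw
      exact (Submodule.Quotient.mk_eq_zero B).2
        (h2 w.1.1 w.1.2 w.2.1 ((Submodule.Quotient.mk_eq_zero B').1 h3))
    have := isArtinian_range_of_ker_le π₁ π₂ hker
    refine isArtinian_of_injective
      (((Z.map B.mkQ).subtype ∘ₗ (LinearMap.ker (LinearMap.lsmul S (Z.map B.mkQ) y)).subtype
        ).codRestrict (LinearMap.range π₂) ?_) ?_
    · rintro ⟨⟨_, u, hu, rfl⟩, hy⟩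
      have h3 : y • B.mkQ u = 0 := congrArg Subtype.val hy
      rw [← map_smul] at h3
      obtain ⟨a, ha, hw⟩ := h1 u hu ((Submodule.Quotient.mk_eq_zero B).1 h3)
      exact ⟨⟨(a, u), hw, ha⟩, rfl⟩
    · intro a b hab
      have := congrArg Subtype.val hab
      exact Subtype.ext (Subtype.ext this)

variable {ι : Type*} (x : ι → S)

/-- Elements killed by a power of each `x j`. -/
def Gam (M : Type*) [AddCommGroup M] [Module S M] : Submodule S M where
  carrier := {m | ∀ j, ∃ t : ℕ, x j ^ t • m = 0}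
  zero_mem' := fun _ => ⟨0, smul_zero _⟩
  add_mem' := by
    intro a b ha hb j
    obtain ⟨s, hs⟩ := ha j
    obtain ⟨t, ht⟩ := hb j
    refine ⟨s + t, ?_⟩
    rw [smul_add, pow_add, mul_smul, mul_smul, ht, smul_comm, hs]
    simp
  smul_mem' := by
    intro c a ha j
    obtain ⟨s, hs⟩ := ha j
    exact ⟨s, by rw [smul_comm, hs, smul_zero]⟩

theorem Gam.eventually [Finite ι] {M : Type*} [AddCommGroup M] [Module S M] {m : M}
    (hm : m ∈ Gam x M) : ∀ᶠ t in atTop, ∀ j, x j ^ t • m = 0 := by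
  refine eventually_all.2 fun j => ?_
  obtain ⟨s, hs⟩ := hm j
  filter_upwards [eventually_ge_atTop s] with t ht
  obtain ⟨r, rfl⟩ := Nat.exists_eq_add_of_le' ht
  rw [pow_add, mul_smul, hs, smul_zero]

universe v

theorem isArtinian_of_torsion [IsNoetherianRing S] (hx : (Ideal.span (Set.range x)).IsMaximal)
    (M : Type v) [AddCommGroup M] [Module S M] [Module.Finite S M] :
    (∀ m : M, m ∈ Gam x M) → IsArtinian S M := by
  induction ‹Module.Finite S M› using
    IsNoetherianRing.induction_on_isQuotientEquivQuotientPrime S with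
  | subsingleton N => intro _; infer_instance
  | quotient N p f =>
    intro h
    have hle : Ideal.span (Set.range x) ≤ p.asIdeal := by
      rw [Ideal.span_le]
      rintro _ ⟨j, rfl⟩
      obtain ⟨t, ht⟩ := h (f.symm 1) j
      rw [← map_smul, map_eq_zero_iff _ f.symm.injective] at ht
      apply p.2.mem_of_pow_mem t
      rw [← Ideal.Quotient.eq_zero_iff_mem, ← ht, Algebra.smul_def, mul_one]
      rfl
    have hp : p.asIdeal.IsMaximal := hx.eq_of_le p.2.ne_top hle ▸ hx
    have : IsSimpleModule S (S ⧸ p.asIdeal) :=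
      isSimpleModule_iff_isCoatom.2 hp.out
    exact isArtinian_of_linearEquiv f.symm
  | exact N₁ N₂ N₃ f g hf hg hfg h₁ h₃ =>
    intro h
    have := h₁ fun m j => by
      obtain ⟨t, ht⟩ := h (f m) j
      exact ⟨t, hf (by rw [map_smul, ht, map_zero])⟩
    have := h₃ fun m j => by
      obtain ⟨m, rfl⟩ := hg m
      obtain ⟨t, ht⟩ := h m j
      exact ⟨t, by rw [← map_smul, ht, map_zero]⟩
    exact isArtinian_of_range_eq_ker f g hfg.linearMap_ker_eq.symm

theorem isArtinian_Gam [IsNoetherianRing S] (hx : (Ideal.span (Set.range x)).IsMaximal)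
    (M : Type v) [AddCommGroup M] [Module S M] [Module.Finite S M] : IsArtinian S (Gam x M) := by
  refine isArtinian_of_torsion x hx _ fun m j => ?_
  obtain ⟨t, ht⟩ := m.2 j
  exact ⟨t, Subtype.ext ht⟩

/-- Existence of a filter-regular element. -/
theorem exists_filter_regular [IsNoetherianRing S]
    (M : Type v) [AddCommGroup M] [Module S M] [Module.Finite S M] :
    ∃ y ∈ Ideal.span (Set.range x), ∀ m : M, y • m = 0 → m ∈ Gam x M := by
  by_contra! H
  obtain ⟨P, hP, hle⟩ : ∃ P ∈ associatedPrimes S (M ⧸ Gam x M), Ideal.span (Set.range x) ≤ P := by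
    refine ((Ideal.span (Set.range x)).subset_union_prime_finite
      (associatedPrimes.finite S (M ⧸ Gam x M)) (f := id) 0 0 fun _ h _ _ ↦ h.1).1 ?_
    simp only [id]
    rw [biUnion_associatedPrimes_eq_zero_divisors]
    intro y hy
    obtain ⟨m, h1, h2⟩ := H y hy
    refine ⟨Submodule.Quotient.mk m, ?_, ?_⟩
    · rwa [Ne, Submodule.Quotient.mk_eq_zero]
    · rw [← Submodule.Quotient.mk_smul, h1, Submodule.Quotient.mk_zero]
  rw [AssociatedPrimes.mem_iff, isAssociatedPrime_iff] at hP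
  obtain ⟨hprime, m, rfl⟩ := hP
  obtain ⟨m, rfl⟩ := Submodule.Quotient.mk_surjective _ m
  apply hprime.ne_top
  have : m ∈ Gam x M := by
    intro j
    have h1 := hle (Ideal.subset_span ⟨j, rfl⟩)
    rw [Submodule.mem_colon_singleton, Submodule.mem_bot, ← Submodule.Quotient.mk_smul,
      Submodule.Quotient.mk_eq_zero] at h1
    obtain ⟨t, ht⟩ := h1 j
    exact ⟨t + 1, by rw [pow_succ, mul_smul, ht]⟩
  rw [(Submodule.Quotient.mk_eq_zero _).2 this]
  simp

theorem pow_smul_mem_of_forall {V : Type*} [AddCommGroup V] [Module S V] (B : Submodule S V)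
    (u : V) (h : ∀ l, ∃ t : ℕ, x l ^ t • u ∈ B) {y : S} (hy : y ∈ Ideal.span (Set.range x)) :
    ∃ k : ℕ, y ^ k • u ∈ B := by
  have : Ideal.span (Set.range x) ≤ (B.colon {u}).radical := by
    rw [Ideal.span_le]
    rintro _ ⟨l, rfl⟩
    obtain ⟨t, ht⟩ := h l
    exact ⟨t, Submodule.mem_colon_singleton.2 ht⟩
  obtain ⟨k, hk⟩ := this hy
  exact ⟨k, Submodule.mem_colon_singleton.1 hk⟩

section defs

variable (M : Type*) [AddCommGroup M] [Module S M]

/-- Degree zero cocycles. -/
def Z0 : Submodule S (ℕ → ι → M) where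
  carrier := {a | ∀ᶠ t in atTop, (∀ j, a (t + 1) j = x j • a t j) ∧
    ∀ j k, x k ^ t • a t j = x j ^ t • a t k}
  zero_mem' := Eventually.of_forall fun t => by simp
  add_mem' := by
    intro a b ha hb
    filter_upwards [ha, hb] with t h1 h2
    refine ⟨fun j => ?_, fun j k => ?_⟩
    · simp only [Pi.add_apply, smul_add, h1.1, h2.1]
    · simp only [Pi.add_apply, smul_add, h1.2 j k, h2.2 j k]
  smul_mem' := by
    intro c a ha
    filter_upwards [ha] with t h1
    refine ⟨fun j => ?_, fun j k => ?_⟩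
    · simp only [Pi.smul_apply, h1.1, smul_comm c]
    · simp only [Pi.smul_apply, ← smul_comm c, h1.2 j k]

/-- Degree zero cocycles coming from the module. -/
def B0 : Submodule S (ℕ → ι → M) where
  carrier := {a | ∃ μ : M, ∀ᶠ t in atTop, ∀ j, a t j = x j ^ t • μ}
  zero_mem' := ⟨0, Eventually.of_forall fun t => by simp⟩
  add_mem' := by
    rintro a b ⟨μ, ha⟩ ⟨ν, hb⟩
    refine ⟨μ + ν, ?_⟩
    filter_upwards [ha, hb] with t h1 h2 j
    simp only [Pi.add_apply, smul_add, h1, h2]
  smul_mem' := by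
    rintro c a ⟨μ, ha⟩
    refine ⟨c • μ, ?_⟩
    filter_upwards [ha] with t h1 j
    simp only [Pi.smul_apply, h1, smul_comm c]

/-- Degree one cocycles. -/
def Z1 : Submodule S (ℕ → ι → ι → M) where
  carrier := {u | ∀ᶠ t in atTop, (∀ j k, u (t + 1) j k = (x j * x k) • u t j k) ∧
    ∀ j k l, x l ^ t • u t j k + x j ^ t • u t k l = x k ^ t • u t j l}
  zero_mem' := Eventually.of_forall fun t => by simp
  add_mem' := by
    intro a b ha hb
    filter_upwards [ha, hb] with t h1 h2
    refine ⟨fun j k => ?_, fun j k l => ?_⟩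
    · simp only [Pi.add_apply, smul_add, h1.1, h2.1]
    · simp only [Pi.add_apply, smul_add, ← h1.2 j k l, ← h2.2 j k l]; abel
  smul_mem' := by
    intro c a ha
    filter_upwards [ha] with t h1
    refine ⟨fun j k => ?_, fun j k l => ?_⟩
    · simp only [Pi.smul_apply, h1.1, smul_comm c]
    · simp only [Pi.smul_apply, ← smul_comm c, ← h1.2 j k l, smul_add]

/-- Degree one coboundaries. -/
def B1 : Submodule S (ℕ → ι → ι → M) where
  carrier := {u | ∃ a : ℕ → ι → M, ∀ᶠ t in atTop, (∀ j, a (t + 1) j = x j • a t j) ∧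
    ∀ j k, u t j k = x k ^ t • a t j - x j ^ t • a t k}
  zero_mem' := ⟨0, Eventually.of_forall fun t => by simp⟩
  add_mem' := by
    rintro a b ⟨μ, ha⟩ ⟨ν, hb⟩
    refine ⟨μ + ν, ?_⟩
    filter_upwards [ha, hb] with t h1 h2
    refine ⟨fun j => ?_, fun j k => ?_⟩
    · simp only [Pi.add_apply, smul_add, h1.1, h2.1]
    · simp only [Pi.add_apply, smul_add, h1.2, h2.2]; abel
  smul_mem' := by
    rintro c a ⟨μ, ha⟩
    refine ⟨c • μ, ?_⟩
    filter_upwards [ha] with t h1
    refine ⟨fun j => ?_, fun j k => ?_⟩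
    · simp only [Pi.smul_apply, h1.1, smul_comm c]
    · simp only [Pi.smul_apply, h1.2, smul_sub, smul_comm c]

end defs

/-- A recurrent sequence is determined by one term. -/
theorem rec_eq {M : Type*} [AddCommGroup M] [Module S M] (c : S) (a : ℕ → M) (T : ℕ)
    (h : ∀ t, T ≤ t → a (t + 1) = c • a t) (t : ℕ) (ht : T ≤ t) : a t = c ^ (t - T) • a T := by
  induction t, ht using Nat.le_induction with
  | base => simp
  | succ t ht ih => rw [h t ht, ih, smul_smul, ← pow_succ', Nat.succ_sub ht]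

theorem rec_pow {M : Type*} [AddCommGroup M] [Module S M] (c : S) (m : M) (T t : ℕ)
    (ht : T ≤ t) : c ^ (t + 1 - T) • m = c • c ^ (t - T) • m := by
  rw [smul_smul, ← pow_succ', Nat.succ_sub ht]

theorem eventually_pow_sub_smul [Finite ι] {M : Type*} [AddCommGroup M] [Module S M] {m : M}
    (hm : m ∈ Gam x M) (T : ℕ) : ∀ᶠ t in atTop, ∀ j, x j ^ (t - T) • m = 0 :=
  (tendsto_sub_atTop_nat T).eventually (Gam.eventually x hm)

theorem isArtinian_H0 [Finite ι] [IsNoetherianRing S] (hx : (Ideal.span (Set.range x)).IsMaximal)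
    (M : Type v) [AddCommGroup M] [Module S M] [Module.Finite S M] :
    IsArtinian S ((Z0 x M).map (B0 x M).mkQ) := by
  obtain ⟨y, hy, hreg⟩ := exists_filter_regular x M
  let Y : Submodule S M := LinearMap.range (LinearMap.lsmul S M y)
  have hA : IsArtinian S ((Gam x (M ⧸ Y)).map (⊥ : Submodule S (M ⧸ Y)).mkQ) := by
    have := isArtinian_Gam x hx (M ⧸ Y)
    exact isArtinian_of_surjective _ ((⊥ : Submodule S (M ⧸ Y)).mkQ.submoduleMap _)
      (LinearMap.submoduleMap_surjective _ _)
  let W : Submodule S ((M ⧸ Y) × (ℕ → ι → M)) :=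
    { carrier := {w | ∃ μ : M, Y.mkQ μ = w.1 ∧ ∀ᶠ t in atTop,
        (∀ j, w.2 (t + 1) j = x j • w.2 t j) ∧ ∀ j, y • w.2 t j = x j ^ t • μ}
      zero_mem' := ⟨0, by simp, Eventually.of_forall fun t => by simp⟩
      add_mem' := by
        rintro a b ⟨μ, e1, ha⟩ ⟨ν, e2, hb⟩
        refine ⟨μ + ν, by rw [map_add, e1, e2]; rfl, ?_⟩
        filter_upwards [ha, hb] with t h1 h2
        refine ⟨fun j => ?_, fun j => ?_⟩
        · simp only [Prod.snd_add, Pi.add_apply, smul_add, h1.1, h2.1]
        · simp only [Prod.snd_add, Pi.add_apply, smul_add, h1.2, h2.2]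
      smul_mem' := by
        rintro c a ⟨μ, e1, ha⟩
        refine ⟨c • μ, by rw [map_smul, e1]; rfl, ?_⟩
        filter_upwards [ha] with t h1
        refine ⟨fun j => ?_, fun j => ?_⟩
        · simp only [Prod.smul_snd, Pi.smul_apply, h1.1, smul_comm c]
        · simp only [Prod.smul_snd, Pi.smul_apply, ← smul_comm c, h1.2] }
  refine isArtinian_subquot _ _ _ _ hA y W ?_ ?_ ?_
  · intro a ha
    refine pow_smul_mem_of_forall x _ a (fun l => ?_) hy
    obtain ⟨T, hT⟩ := eventually_atTop.1 ha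
    refine ⟨T, a T l, ?_⟩
    filter_upwards [eventually_ge_atTop T] with t ht j
    have h1 := rec_eq (x j) (fun t => a t j) T (fun t ht => (hT t ht).1 j) t ht
    simp only [Pi.smul_apply]
    rw [h1, smul_comm, (hT T le_rfl).2 j l, smul_smul, ← pow_add, Nat.sub_add_cancel ht]
  · rintro a ha ⟨μ, hμ⟩
    refine ⟨Y.mkQ μ, fun j => ?_, μ, rfl, ?_⟩
    · obtain ⟨t, ht⟩ := hμ.exists
      refine ⟨t, ?_⟩
      rw [← map_smul, ← ht j]
      exact (Submodule.Quotient.mk_eq_zero Y).2 ⟨a t j, rfl⟩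
    · filter_upwards [ha, hμ] with t h1 h2
      exact ⟨h1.1, h2⟩
  · rintro m a ⟨μ, e1, ha⟩ hm
    rw [Submodule.mem_bot] at hm
    obtain ⟨ν, hν⟩ := (Submodule.Quotient.mk_eq_zero Y).1 (e1.trans hm)
    have hν : y • ν = μ := hν
    obtain ⟨T, hT⟩ := eventually_atTop.1 ha
    refine ⟨ν, ?_⟩
    have h2 : ∀ j, a T j - x j ^ T • ν ∈ Gam x M := fun j => hreg _ (by
      rw [smul_sub, smul_comm, hν]; exact sub_eq_zero.2 ((hT T le_rfl).2 j))
    filter_upwards [eventually_ge_atTop T,
      eventually_all.2 fun j => eventually_pow_sub_smul x (h2 j) T] with t ht h3 j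
    have h1 := rec_eq (x j) (fun t => a t j) T (fun t ht => (hT t ht).1 j) t ht
    have h4 := h3 j j
    rw [smul_sub, sub_eq_zero, smul_smul, ← pow_add, Nat.sub_add_cancel ht] at h4
    rw [h1, h4]

theorem isArtinian_H1 [Finite ι] [IsNoetherianRing S] (hx : (Ideal.span (Set.range x)).IsMaximal)
    (M : Type v) [AddCommGroup M] [Module S M] [Module.Finite S M] :
    IsArtinian S ((Z1 x M).map (B1 x M).mkQ) := by
  obtain ⟨y, hy, hreg⟩ := exists_filter_regular x M
  let Y : Submodule S M := LinearMap.range (LinearMap.lsmul S M y)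
  have hA := isArtinian_H0 x hx (M ⧸ Y)
  let W : Submodule S ((ℕ → ι → M ⧸ Y) × (ℕ → ι → ι → M)) :=
    { carrier := {w | ∃ a : ℕ → ι → M, ∀ᶠ t in atTop, (∀ j, Y.mkQ (a t j) = w.1 t j) ∧
        (∀ j, a (t + 1) j = x j • a t j) ∧
        (∀ j k, w.2 (t + 1) j k = (x j * x k) • w.2 t j k) ∧
        ∀ j k, y • w.2 t j k = x k ^ t • a t j - x j ^ t • a t k}
      zero_mem' := ⟨0, Eventually.of_forall fun t => by simp⟩
      add_mem' := by
        rintro a b ⟨μ, ha⟩ ⟨ν, hb⟩
        refine ⟨μ + ν, ?_⟩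
        filter_upwards [ha, hb] with t h1 h2
        refine ⟨fun j => ?_, fun j => ?_, fun j k => ?_, fun j k => ?_⟩
        · simp only [Prod.fst_add, Pi.add_apply, map_add, h1.1, h2.1]
        · simp only [Pi.add_apply, smul_add, h1.2.1, h2.2.1]
        · simp only [Prod.snd_add, Pi.add_apply, smul_add, h1.2.2.1, h2.2.2.1]
        · simp only [Prod.snd_add, Pi.add_apply, smul_add, h1.2.2.2, h2.2.2.2]; abel
      smul_mem' := by
        rintro c a ⟨μ, ha⟩
        refine ⟨c • μ, ?_⟩
        filter_upwards [ha] with t h1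
        refine ⟨fun j => ?_, fun j => ?_, fun j k => ?_, fun j k => ?_⟩
        · simp only [Prod.smul_fst, Pi.smul_apply, map_smul, h1.1]
        · simp only [Pi.smul_apply, h1.2.1, smul_comm c]
        · simp only [Prod.smul_snd, Pi.smul_apply, h1.2.2.1, smul_comm c]
        · simp only [Prod.smul_snd, Pi.smul_apply, ← smul_comm c, h1.2.2.2, smul_sub] }
  refine isArtinian_subquot _ _ _ _ hA y W ?_ ?_ ?_
  · intro u hu
    refine pow_smul_mem_of_forall x _ u (fun l => ?_) hy
    obtain ⟨T, hT⟩ := eventually_atTop.1 hu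
    refine ⟨T, fun t j => x j ^ (t - T) • u T j l, ?_⟩
    filter_upwards [eventually_ge_atTop T] with t ht
    refine ⟨fun j => rec_pow _ _ _ _ ht, fun j k => ?_⟩
    have h1 := rec_eq (x j * x k) (fun t => u t j k) T (fun t ht => (hT t ht).1 j k) t ht
    simp only [Pi.smul_apply]
    obtain ⟨s, rfl⟩ := Nat.exists_eq_add_of_le ht
    rw [h1, smul_comm, eq_sub_of_add_eq ((hT T le_rfl).2 j k l)]
    simp only [Nat.add_sub_cancel_left, smul_sub, smul_smul, mul_pow, pow_add]
    congr 2 <;> ring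
  · rintro u hu ⟨a, ha⟩
    refine ⟨fun t j => Y.mkQ (a t j), ?_, a, ?_⟩
    · filter_upwards [ha] with t h1
      refine ⟨fun j => by rw [h1.1, map_smul], fun j k => ?_⟩
      rw [← map_smul, ← map_smul, ← sub_eq_zero, ← map_sub, ← h1.2]
      exact (Submodule.Quotient.mk_eq_zero Y).2 ⟨u t j k, rfl⟩
    · filter_upwards [ha, hu] with t h1 h2
      exact ⟨fun _ => rfl, h1.1, h2.1, h1.2⟩
  · rintro b u ⟨a, ha⟩ ⟨μ, hμ⟩
    obtain ⟨μ, rfl⟩ := Y.mkQ_surjective μ
    obtain ⟨T, hT⟩ := eventually_atTop.1 (ha.and hμ)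
    have h0 : ∀ j, ∃ ν, y • ν = a T j - x j ^ T • μ := fun j => by
      have := ((hT T le_rfl).1.1 j).trans ((hT T le_rfl).2 j)
      rw [← map_smul, ← sub_eq_zero, ← map_sub] at this
      exact (Submodule.Quotient.mk_eq_zero Y).1 this
    choose ν hν using h0
    have h2 : ∀ j k, u T j k - (x k ^ T • ν j - x j ^ T • ν k) ∈ Gam x M := fun j k => hreg _ (by
      have := (hT T le_rfl).1.2.2.2 j k
      dsimp only at this
      rw [smul_sub, this, smul_sub, smul_comm y, smul_comm y, hν, hν, smul_sub, smul_sub,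
        smul_comm (x k ^ T) (x j ^ T)]
      abel)
    refine ⟨fun t j => x j ^ (t - T) • ν j, ?_⟩
    filter_upwards [eventually_ge_atTop T, eventually_all.2 fun j => eventually_all.2 fun k =>
      eventually_pow_sub_smul x (h2 j k) T] with t ht h3
    refine ⟨fun j => rec_pow _ _ _ _ ht, fun j k => ?_⟩
    have h1 := rec_eq (x j * x k) (fun t => u t j k) T (fun t ht => (hT t ht).1.2.2.1 j k) t ht
    have h4 := h3 j k j
    rw [smul_sub, sub_eq_zero] at h4
    obtain ⟨s, rfl⟩ := Nat.exists_eq_add_of_le ht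
    simp only [Nat.add_sub_cancel_left] at h1 h4 ⊢
    rw [h1, mul_pow, mul_comm, mul_smul, h4]
    simp only [smul_sub, smul_smul, pow_add]
    congr 2 <;> ring

/-- In any sequence of degree one cocycles, some term is cohomologous to a combination of the
later terms. -/
theorem exists_mem_span_later [Finite ι] [IsNoetherianRing S]
    (hx : (Ideal.span (Set.range x)).IsMaximal)
    (M : Type v) [AddCommGroup M] [Module S M] [Module.Finite S M]
    (c : ℕ → ℕ → ι → ι → M) (hc : ∀ i, c i ∈ Z1 x M) :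
    ∃ r, c r ∈ B1 x M ⊔ Submodule.span S (c '' Set.Ioi r) := by
  have := isArtinian_H1 x hx M
  obtain ⟨r, hr⟩ := stab_of_le ((Z1 x M).map (B1 x M).mkQ)
    (fun k => (Submodule.span S (c '' Set.Ici k)).map (B1 x M).mkQ)
    (fun a b hab => Submodule.map_mono (Submodule.span_mono (Set.image_mono (Set.Ici_subset_Ici.2 hab))))
    (fun k => Submodule.map_mono (Submodule.span_le.2 (by rintro _ ⟨i, -, rfl⟩; exact hc i)))
  refine ⟨r, ?_⟩
  have h1 : (B1 x M).mkQ (c r) ∈ (Submodule.span S (c '' Set.Ici (r + 1))).map (B1 x M).mkQ := by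
    rw [hr (r + 1) (Nat.le_succ r)]
    exact Submodule.mem_map_of_mem (Submodule.subset_span ⟨r, Set.mem_Ici.2 le_rfl, rfl⟩)
  rw [← Submodule.mem_comap, Submodule.comap_map_mkQ] at h1
  exact h1

end Pool.Agent.P.MP_f6c533_ag.Cech
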