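import Mathlib

/-! Small lemmas on homogeneous polynomials. -/

set_option autoImplicit false

namespace Pool.Agent.P.MP_f6c533_ag

open MvPolynomial

theorem eval₂_smul_of_isHomogeneous {σ R Λ : Type*} [CommSemiring R] [CommSemiring Λ]
    {P : MvPolynomial σ R} {d : ℕ} (hP : P.IsHomogeneous d) (φ : R →+* Λ) (c : Λ) (v : σ → Λ) :
    eval₂ φ (fun a => c * v a) P = c ^ d * eval₂ φ v P := by
  classical
  rw [eval₂_eq, eval₂_eq, Finset.mul_sum]
  refine Finset.sum_congr rfl fun m hm => ?_
  have h1 := hP.degree_eq_sum_deg_support hm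
  simp only [mul_pow, Finset.prod_mul_distrib, Finset.prod_pow_eq_pow_sum]
  rw [h1]
  ring

end Pool.Agent.P.MP_f6c533_ag
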