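import Mathlib
import Pool.Agent.P.MP_f6c533_ag.Basic

/-!
Projective dynamical systems written with homogeneous polynomials, and their points with
values in local rings.
-/

set_option autoImplicit false

namespace Pool.Agent.P.MP_f6c533_ag

open MvPolynomial

/-- Equations `G` of a closed subset of projective space over `R`, and a self-map given by the
finitely many pairwise proportional tuples `W l` of forms without common zero. -/
structure Sys (R : Type) [CommRing R] (σ ι κ : Type) where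
  G : ι → MvPolynomial σ R
  dG : ι → ℕ
  hG : ∀ i, (G i).IsHomogeneous (dG i)
  W : κ → σ → MvPolynomial σ R
  d : ℕ
  hW : ∀ l a, (W l a).IsHomogeneous d
  prop : ∀ l l' a a', W l a * W l' a' - W l a' * W l' a ∈ Ideal.span (Set.range G)
  col : ∀ l i, bind₁ (W l) (G i) ∈ Ideal.span (Set.range G)
  cover : ∀ j, ∃ N : ℕ, X j ^ N ∈
    Ideal.span (Set.range G) ⊔ Ideal.span (Set.range fun p : κ × σ => W p.1 p.2)

variable {R : Type} [CommRing R] {σ ι κ : Type} (S : Sys R σ ι κ)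

/-- Homogeneous coordinates of a point. -/
@[ext]
structure PV (Λ : Type) [CommRing Λ] where
  φ : R →+* Λ
  v : σ → Λ
  unit : ∃ j, IsUnit (v j)
  zero : ∀ i, eval₂ φ v (S.G i) = 0

variable {Λ Λ' Λ'' : Type} [CommRing Λ] [CommRing Λ'] [CommRing Λ'']

instance PV.setoid (Λ : Type) [CommRing Λ] : Setoid (PV S Λ) where
  r p q := p.φ = q.φ ∧ ∃ u : Λˣ, ∀ a, q.v a = u * p.v a
  iseqv :=
    { refl := fun p => ⟨rfl, 1, fun a => by simp⟩
      symm := by
        rintro p q ⟨h, u, hu⟩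
        exact ⟨h.symm, u⁻¹, fun a => by simp [hu]⟩
      trans := by
        rintro p q r ⟨h, u, hu⟩ ⟨h', u', hu'⟩
        exact ⟨h.trans h', u' * u, fun a => by simp [hu, hu', mul_assoc]⟩ }

/-- Points with values in `Λ`. -/
def Pt (Λ : Type) [CommRing Λ] : Type := Quotient (PV.setoid S Λ)

variable {S}

theorem PV.eval_eq_zero (p : PV S Λ) {P : MvPolynomial σ R} (hP : P ∈ Ideal.span (Set.range S.G)) :
    eval₂ p.φ p.v P = 0 := by
  have : Ideal.span (Set.range S.G) ≤ RingHom.ker (eval₂Hom p.φ p.v) := by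
    rw [Ideal.span_le]
    rintro _ ⟨i, rfl⟩
    exact p.zero i
  exact this hP

namespace Pt

/-- The point with given homogeneous coordinates. -/
def mk (p : PV S Λ) : Pt S Λ := Quotient.mk _ p

theorem mk_eq_iff {p q : PV S Λ} : mk p = mk q ↔ p.φ = q.φ ∧ ∃ u : Λˣ, ∀ a, q.v a = u * p.v a :=
  Quotient.eq

theorem mk_surjective (z : Pt S Λ) : ∃ p, mk p = z := Quotient.exists_rep z

/-- The point of the base below a point. -/
def base (z : Pt S Λ) : R →+* Λ := Quotient.liftOn z PV.φ fun _ _ h => h.1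

@[simp] theorem base_mk (p : PV S Λ) : (mk p).base = p.φ := rfl

/-- The `j`-th coordinate is a unit. -/
def U (z : Pt S Λ) (j : σ) : Prop :=
  Quotient.liftOn z (fun p => IsUnit (p.v j)) (by
    rintro p q ⟨-, u, hu⟩
    simp [hu])

@[simp] theorem U_mk (p : PV S Λ) (j : σ) : (mk p).U j ↔ IsUnit (p.v j) := Iff.rfl

/-- Coordinates normalised at `j`. -/
noncomputable def nv (z : Pt S Λ) (j : σ) : σ → Λ :=
  Quotient.liftOn z (fun p a => p.v a * Ring.inverse (p.v j)) (by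
    rintro p q ⟨-, u, hu⟩
    ext a
    rw [hu, hu, Ring.mul_inverse_rev, Ring.inverse_unit]
    linear_combination (-(p.v a * Ring.inverse (p.v j))) * u.mul_inv)

theorem nv_mk (p : PV S Λ) (j a : σ) : (mk p).nv j a = p.v a * Ring.inverse (p.v j) := rfl

theorem nv_mk_of_eq_one (p : PV S Λ) {j : σ} (h : p.v j = 1) : (mk p).nv j = p.v := by
  ext a; rw [nv_mk, h]; simp

theorem exists_U (z : Pt S Λ) : ∃ j, z.U j := by
  obtain ⟨p, rfl⟩ := mk_surjective z
  exact p.unit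

theorem nv_self {z : Pt S Λ} {j : σ} (h : z.U j) : z.nv j j = 1 := by
  obtain ⟨p, rfl⟩ := mk_surjective z
  exact Ring.mul_inverse_cancel _ h

theorem nv_zero (z : Pt S Λ) (j : σ) (i : ι) : eval₂ z.base (z.nv j) (S.G i) = 0 := by
  obtain ⟨p, rfl⟩ := mk_surjective z
  have : (mk p).nv j = fun a => Ring.inverse (p.v j) * p.v a := by
    ext a; rw [nv_mk, mul_comm]
  rw [this, eval₂_smul_of_isHomogeneous (S.hG i), base_mk, p.zero, mul_zero]

/-- The normalised representative. -/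
noncomputable def rep (z : Pt S Λ) {j : σ} (h : z.U j) : PV S Λ :=
  ⟨z.base, z.nv j, ⟨j, by rw [nv_self h]; exact isUnit_one⟩, nv_zero z j⟩

theorem mk_rep (z : Pt S Λ) {j : σ} (h : z.U j) : mk (z.rep h) = z := by
  obtain ⟨p, rfl⟩ := mk_surjective z
  have h' : IsUnit (p.v j) := h
  refine mk_eq_iff.2 ⟨rfl, h'.unit, fun a => ?_⟩
  change p.v a = p.v j * (p.v a * Ring.inverse (p.v j))
  rw [mul_left_comm, Ring.mul_inverse_cancel _ h', mul_one]

theorem ext_nv {z z' : Pt S Λ} {j : σ} (hb : z.base = z'.base) (h : z.U j) (h' : z'.U j)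
    (hv : z.nv j = z'.nv j) : z = z' := by
  rw [← mk_rep z h, ← mk_rep z' h']
  congr 1
  exact PV.ext hb hv

end Pt

/-- Push coordinates along a ring map. -/
def PV.map (ψ : Λ →+* Λ') (p : PV S Λ) : PV S Λ' where
  φ := ψ.comp p.φ
  v := fun a => ψ (p.v a)
  unit := let ⟨j, hj⟩ := p.unit; ⟨j, hj.map ψ⟩
  zero := fun i => by
    have := eval₂_comp_left ψ p.φ p.v (S.G i)
    rw [p.zero, map_zero] at this
    exact this.symm

theorem PV.map_eval (ψ : Λ →+* Λ') (p : PV S Λ) (P : MvPolynomial σ R) :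
    eval₂ (p.map ψ).φ (p.map ψ).v P = ψ (eval₂ p.φ p.v P) :=
  (eval₂_comp_left ψ p.φ p.v P).symm

namespace Pt

/-- Push a point along a ring map. -/
def map (ψ : Λ →+* Λ') (z : Pt S Λ) : Pt S Λ' :=
  Quotient.map (PV.map ψ) (by
    rintro p q ⟨h, u, hu⟩
    exact ⟨congrArg ψ.comp h, Units.map (ψ : Λ →* Λ') u, fun a => by simp [PV.map, hu]⟩) z

theorem map_mk (ψ : Λ →+* Λ') (p : PV S Λ) : (mk p).map ψ = mk (p.map ψ) := rfl

theorem map_map (ψ : Λ →+* Λ') (χ : Λ' →+* Λ'') (z : Pt S Λ) :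
    (z.map ψ).map χ = z.map (χ.comp ψ) := by
  obtain ⟨p, rfl⟩ := mk_surjective z
  rfl

theorem map_id (z : Pt S Λ) : z.map (RingHom.id Λ) = z := by
  obtain ⟨p, rfl⟩ := mk_surjective z
  rfl

theorem base_map (ψ : Λ →+* Λ') (z : Pt S Λ) : (z.map ψ).base = ψ.comp z.base := by
  obtain ⟨p, rfl⟩ := mk_surjective z
  rfl

theorem U.map {z : Pt S Λ} {j : σ} (h : z.U j) (ψ : Λ →+* Λ') : (z.map ψ).U j := by
  obtain ⟨p, rfl⟩ := mk_surjective z
  exact IsUnit.map ψ h

theorem U.of_map {z : Pt S Λ} {j : σ} (ψ : Λ →+* Λ') [IsLocalHom ψ] (h : (z.map ψ).U j) :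
    z.U j := by
  obtain ⟨p, rfl⟩ := mk_surjective z
  exact IsUnit.of_map ψ _ h

theorem nv_map {z : Pt S Λ} {j : σ} (h : z.U j) (ψ : Λ →+* Λ') (a : σ) :
    (z.map ψ).nv j a = ψ (z.nv j a) := by
  conv_lhs => rw [← mk_rep z h, map_mk, nv_mk_of_eq_one _ (by
    change ψ (z.nv j j) = 1
    rw [nv_self h, map_one])]
  rfl

theorem map_injective {ψ : Λ →+* Λ'} (hψ : Function.Injective ψ) :
    Function.Injective (map (S := S) ψ) := by
  intro z z' h
  obtain ⟨j, hj⟩ := z.exists_U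
  obtain ⟨j', hj'⟩ := z'.exists_U
  rw [← mk_rep z hj, ← mk_rep z' hj'] at h ⊢
  obtain ⟨h1, u, hu⟩ := mk_eq_iff.1 h
  have hu : ∀ a, ψ (z'.nv j' a) = u * ψ (z.nv j a) := hu
  have h2 : ψ (z'.nv j' j) = u := by rw [hu, nv_self hj, map_one, mul_one]
  have h3 : z'.nv j' j * z.nv j j' = 1 := hψ (by rw [map_mul, h2, ← hu, nv_self hj'])
  refine mk_eq_iff.2 ⟨RingHom.ext fun r => hψ (RingHom.congr_fun h1 r),
    Units.mkOfMulEqOne _ _ h3, fun a => hψ ?_⟩
  change ψ (z'.nv j' a) = ψ (z'.nv j' j * z.nv j a)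
  rw [map_mul, h2, hu]

end Pt

theorem PV.exists_col [IsLocalRing Λ] (p : PV S Λ) :
    ∃ l a, IsUnit (eval₂ p.φ p.v (S.W l a)) := by
  by_contra! h
  obtain ⟨j, hj⟩ := p.unit
  obtain ⟨N, hN⟩ := S.cover j
  have : Ideal.span (Set.range S.G) ⊔ Ideal.span (Set.range fun p : κ × σ => S.W p.1 p.2) ≤
      (IsLocalRing.maximalIdeal Λ).comap (eval₂Hom p.φ p.v) := by
    refine sup_le ?_ ?_
    · intro P hP
      rw [Ideal.mem_comap, coe_eval₂Hom, p.eval_eq_zero hP]
      exact zero_mem _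
    · rw [Ideal.span_le]
      rintro _ ⟨q, rfl⟩
      exact h q.1 q.2
  have h1 := this hN
  rw [Ideal.mem_comap, map_pow, eval₂Hom_X'] at h1
  exact h1 (hj.pow N)

/-- The image point computed with the tuple `W l`. -/
noncomputable def PV.col (p : PV S Λ) (l : κ) (h : ∃ a, IsUnit (eval₂ p.φ p.v (S.W l a))) :
    PV S Λ where
  φ := p.φ
  v := fun a => eval₂ p.φ p.v (S.W l a)
  unit := h
  zero := fun i => by
    have := p.eval_eq_zero (S.col l i)
    rw [← coe_eval₂Hom, eval₂Hom_bind₁] at this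
    exact this

theorem PV.col_rel {p q : PV S Λ} (hpq : Pt.mk p = Pt.mk q) {l l' : κ}
    (h : ∃ a, IsUnit (eval₂ p.φ p.v (S.W l a))) (h' : ∃ a, IsUnit (eval₂ q.φ q.v (S.W l' a))) :
    Pt.mk (p.col l h) = Pt.mk (q.col l' h') := by
  obtain ⟨h1, u, hu⟩ := Pt.mk_eq_iff.1 hpq
  have h2 : ∀ a, eval₂ q.φ q.v (S.W l' a) = (u : Λ) ^ S.d * eval₂ p.φ p.v (S.W l' a) := by
    intro a
    rw [← h1, show q.v = fun a => u * p.v a from funext hu, eval₂_smul_of_isHomogeneous (S.hW l' a)]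
  have h3 : ∀ a a', eval₂ p.φ p.v (S.W l a) * eval₂ p.φ p.v (S.W l' a') =
      eval₂ p.φ p.v (S.W l a') * eval₂ p.φ p.v (S.W l' a) := by
    intro a a'
    have := p.eval_eq_zero (S.prop l l' a a')
    rwa [eval₂_sub, eval₂_mul, eval₂_mul, sub_eq_zero] at this
  obtain ⟨b, hb⟩ := h
  obtain ⟨b', hb'⟩ := h'
  obtain ⟨β, hβ⟩ := hb.exists_right_inv
  have h4 : ∀ a, eval₂ q.φ q.v (S.W l' a) =
      ((u : Λ) ^ S.d * eval₂ p.φ p.v (S.W l' b) * β) * eval₂ p.φ p.v (S.W l a) := by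
    intro a
    rw [h2]
    linear_combination (-(u : Λ) ^ S.d * β) * h3 a b - ((u : Λ) ^ S.d * eval₂ p.φ p.v (S.W l' a)) * hβ
  have h5 : IsUnit ((u : Λ) ^ S.d * eval₂ p.φ p.v (S.W l' b) * β) :=
    isUnit_of_mul_isUnit_left (h4 b' ▸ hb')
  exact Pt.mk_eq_iff.2 ⟨h1, h5.unit, h4⟩

namespace Pt

/-- The self-map on points with values in a local ring. -/
noncomputable def step [IsLocalRing Λ] (z : Pt S Λ) : Pt S Λ :=
  Quotient.liftOn z (fun p => mk (p.col p.exists_col.choose p.exists_col.choose_spec))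
    fun _ _ h => PV.col_rel (Quotient.sound h) _ _

theorem step_mk [IsLocalRing Λ] (p : PV S Λ) (l : κ)
    (h : ∃ a, IsUnit (eval₂ p.φ p.v (S.W l a))) : step (mk p) = mk (p.col l h) :=
  PV.col_rel rfl _ _

theorem base_step [IsLocalRing Λ] (z : Pt S Λ) : (step z).base = z.base := by
  obtain ⟨p, rfl⟩ := mk_surjective z
  rfl

theorem base_iterate [IsLocalRing Λ] (z : Pt S Λ) (n : ℕ) : (step^[n] z).base = z.base := by
  induction n with
  | zero => rfl
  | succ n ih => rw [Function.iterate_succ_apply', base_step, ih]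

theorem map_step [IsLocalRing Λ] [IsLocalRing Λ'] (ψ : Λ →+* Λ') (z : Pt S Λ) :
    (step z).map ψ = step (z.map ψ) := by
  obtain ⟨p, rfl⟩ := mk_surjective z
  obtain ⟨l, a, h⟩ := p.exists_col
  rw [step_mk p l ⟨a, h⟩, map_mk, map_mk,
    step_mk (p.map ψ) l ⟨a, by rw [PV.map_eval]; exact h.map ψ⟩]
  congr 1
  exact PV.ext rfl (funext fun a => (PV.map_eval ψ p _).symm)

theorem map_iterate [IsLocalRing Λ] [IsLocalRing Λ'] (ψ : Λ →+* Λ') (z : Pt S Λ) (n : ℕ) :
    (step^[n] z).map ψ = step^[n] (z.map ψ) := by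
  induction n with
  | zero => rfl
  | succ n ih => rw [Function.iterate_succ_apply', Function.iterate_succ_apply', map_step, ih]

theorem finite [Finite σ] [Algebra.FiniteType ℤ R] [Finite Λ] : Finite (Pt S Λ) := by
  have : Finite (R →+* Λ) := by
    obtain ⟨s, hs⟩ := Algebra.FiniteType.out (R := ℤ) (A := R)
    refine Finite.of_injective (fun (φ : R →+* Λ) (x : s) => φ x) fun φ ψ h => ?_
    have : φ.toIntAlgHom = ψ.toIntAlgHom :=
      AlgHom.ext_of_adjoin_eq_top hs fun x hx => congrFun h ⟨x, hx⟩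
    exact RingHom.ext fun x => AlgHom.congr_fun this x
  have : Finite (PV S Λ) :=
    Finite.of_injective (fun p : PV S Λ => (p.φ, p.v)) fun p q h =>
      PV.ext (congrArg Prod.fst h) (congrArg Prod.snd h)
  exact Quotient.finite _

end Pt

end Pool.Agent.P.MP_f6c533_ag
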