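import Mathlib
import Pool.Agent.P.MP_f6c533_ag.Sys

/-! Iterates of the self-map are again given by tuples of forms without common zero. -/

set_option autoImplicit false

namespace Pool.Agent.P.MP_f6c533_ag

open MvPolynomial

variable {R : Type} [CommRing R] {σ ι κ : Type} (S : Sys R σ ι κ)

theorem exists_rep_aux [Fintype κ] (m : ℕ) :
    ∃ (κ' : Type) (_ : Fintype κ') (W : κ' → σ → MvPolynomial σ R) (d : ℕ),
      (∀ l a, (W l a).IsHomogeneous d) ∧ ∀ (F : Type) [Field F] (p : PV S F), ∃ q : PV S F,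
        Pt.mk q = Pt.step^[m] (Pt.mk p) ∧ (∃ l a, eval₂ p.φ p.v (W l a) ≠ 0) ∧
          ∀ l, ∃ c : F, ∀ a, eval₂ p.φ p.v (W l a) = c * q.v a := by
  induction m with
  | zero =>
    refine ⟨Unit, inferInstance, fun _ a => X a, 1, fun _ a => isHomogeneous_X _ a,
      fun F _ p => ⟨p, rfl, ?_, fun _ => ⟨1, fun a => by simp⟩⟩⟩
    obtain ⟨j, hj⟩ := p.unit
    exact ⟨(), j, by simpa using hj.ne_zero⟩
  | succ m ih =>
    obtain ⟨κ', _, W, d, hW, h⟩ := ih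
    refine ⟨κ' × κ, inferInstance, fun l a => bind₁ (W l.1) (S.W l.2 a), d * S.d, fun l a => ?_,
      fun F _ p => ?_⟩
    · exact (S.hW l.2 a).aeval _ (hW l.1)
    obtain ⟨q, hq, ⟨l₁, a₁, h1⟩, h2⟩ := h F p
    obtain ⟨l₀, b₀, hb₀⟩ := q.exists_col
    have hφ : q.φ = p.φ := by
      have := congrArg Pt.base hq
      rwa [Pt.base_iterate] at this
    have key : ∀ l l' a c, (∀ a, eval₂ p.φ p.v (W l a) = c * q.v a) →
        eval₂ p.φ p.v (bind₁ (W l) (S.W l' a)) = c ^ S.d * eval₂ q.φ q.v (S.W l' a) := by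
      intro l l' a c hc
      rw [← coe_eval₂Hom, eval₂Hom_bind₁, coe_eval₂Hom, coe_eval₂Hom, funext hc,
        eval₂_smul_of_isHomogeneous (S.hW l' a), hφ]
    refine ⟨q.col l₀ ⟨b₀, hb₀⟩, ?_, ?_, fun l => ?_⟩
    · rw [Function.iterate_succ_apply', ← hq, Pt.step_mk]
    · obtain ⟨c, hc⟩ := h2 l₁
      refine ⟨(l₁, l₀), b₀, ?_⟩
      rw [key _ _ _ c hc]
      refine mul_ne_zero (pow_ne_zero _ ?_) hb₀.ne_zero
      rintro rfl
      exact h1 (by rw [hc, zero_mul])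
    · obtain ⟨c, hc⟩ := h2 l.1
      refine ⟨c ^ S.d * eval₂ q.φ q.v (S.W l.2 b₀) / eval₂ q.φ q.v (S.W l₀ b₀), fun a => ?_⟩
      rw [key _ _ _ c hc]
      have := q.eval_eq_zero (S.prop l.2 l₀ a b₀)
      rw [eval₂_sub, eval₂_mul, eval₂_mul, sub_eq_zero] at this
      change _ = _ * eval₂ q.φ q.v (S.W l₀ a)
      have h0 := hb₀.ne_zero
      field_simp
      linear_combination (c ^ S.d) * this

theorem exists_rep [Fintype σ] [Fintype κ] (m : ℕ) :
    ∃ (κ' : Type) (_ : Fintype κ') (W : κ' → σ → MvPolynomial σ R) (d N : ℕ)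
      (c : σ → κ' × σ → MvPolynomial σ R), (∀ l a, (W l a).IsHomogeneous d) ∧
      (∀ j, X j ^ N - ∑ e, c j e * W e.1 e.2 ∈ Ideal.span (Set.range S.G)) ∧
      ∀ (F : Type) [Field F] (p q : PV S F), Pt.mk q = Pt.step^[m] (Pt.mk p) →
          ∀ l, ∃ c : F, ∀ a, eval₂ p.φ p.v (W l a) = c * q.v a := by
  obtain ⟨κ', _, W, d, hW, h⟩ := exists_rep_aux S m
  let I := Ideal.span (Set.range S.G) ⊔ Ideal.span (Set.range fun e : κ' × σ => W e.1 e.2)
  have hrad : ∀ j, ∃ N : ℕ, X j ^ N ∈ I := by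
    intro j
    change X j ∈ I.radical
    rw [Ideal.radical_eq_sInf, Ideal.mem_sInf]
    rintro 𝔮 ⟨h1, h2⟩
    by_contra hj
    let F := FractionRing (MvPolynomial σ R ⧸ 𝔮)
    let π : MvPolynomial σ R →+* F :=
      (algebraMap (MvPolynomial σ R ⧸ 𝔮) F).comp (Ideal.Quotient.mk 𝔮)
    have hπ : ∀ P, π P = 0 ↔ P ∈ 𝔮 := fun P => by
      simp [π, Ideal.Quotient.eq_zero_iff_mem]
    have hev : ∀ P, eval₂ (π.comp C) (fun a => π (X a)) P = π P := fun P => by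
      have := eval₂_comp_left π C X P
      rw [eval₂_eta] at this
      exact this.symm
    let p : PV S F := ⟨π.comp C, fun a => π (X a), ⟨j, Ne.isUnit fun h => hj ((hπ _).1 h)⟩,
      fun i => by
        rw [hev, hπ]
        exact h1 (Ideal.mem_sup_left (Ideal.subset_span ⟨i, rfl⟩))⟩
    obtain ⟨q, -, ⟨l, a, h3⟩, -⟩ := h F p
    apply h3
    rw [hev, hπ]
    exact h1 (Ideal.mem_sup_right (Ideal.subset_span ⟨(l, a), rfl⟩))
  choose N hN using hrad
  have hc : ∀ j, ∃ c : κ' × σ → MvPolynomial σ R,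
      X j ^ (Finset.univ.sup N) - ∑ e, c e * W e.1 e.2 ∈ Ideal.span (Set.range S.G) := by
    intro j
    have h1 : X j ^ (Finset.univ.sup N) ∈ I :=
      Ideal.pow_mem_of_pow_mem I (hN j) (Finset.le_sup (Finset.mem_univ j))
    obtain ⟨a, ha, b, hb, hab⟩ := Submodule.mem_sup.1 h1
    obtain ⟨c, rfl⟩ := Ideal.mem_span_range_iff_exists_fun.1 hb
    exact ⟨c, by rw [← hab]; simpa using ha⟩
  choose c hc using hc
  refine ⟨κ', inferInstance, W, d, _, c, hW, hc, fun F _ p q hq l => ?_⟩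
  obtain ⟨q', hq', -, h2⟩ := h F p
  obtain ⟨c', hc'⟩ := h2 l
  obtain ⟨-, u, hu⟩ := Pt.mk_eq_iff.1 (hq.trans hq'.symm)
  exact ⟨c' * u, fun a => by rw [hc', hu, mul_assoc]⟩

end Pool.Agent.P.MP_f6c533_ag
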