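import Mathlib
import Pool.Agent.P.MP_f6c533_ag.Basic

/-!
A form of the residue theorem for function fields in one variable, in characteristic zero.
-/

set_option autoImplicit false

namespace Pool.Agent.P.MP_f6c533_ag.Residue

open Polynomial

variable {K F : Type} [Field K] [Field F] [Algebra K F]

theorem mul_lt_one_aux {Γ : Type*} [LinearOrderedCommGroupWithZero Γ] {a b : Γ} (ha : a ≤ 1)
    (hb : b < 1) : a * b < 1 := (mul_le_of_le_one_left' ha).trans_lt hb

theorem finiteDimensional_of_trdeg [Algebra.EssFiniteType K F] (htr : Algebra.trdeg K F ≤ 1)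
    [Algebra K[X] F] [IsScalarTower K K[X] F] [FaithfulSMul K[X] F]
    (L : Type) [Field L] [Algebra K[X] L] [IsFractionRing K[X] L] [Algebra L F]
    [IsScalarTower K[X] L F] : FiniteDimensional L F := by
  have h1 := trdeg_add_eq K K[X] (A := F)
  rw [Polynomial.trdeg_of_isDomain] at h1
  have h2 : Algebra.trdeg K[X] F = 0 := by
    rw [← h1] at htr
    have : Algebra.trdeg K[X] F + 1 ≤ 0 + 1 := by simpa [add_comm] using htr
    exact le_antisymm ((Cardinal.add_le_add_iff_of_lt_aleph0 Cardinal.one_lt_aleph0).1 this)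
      zero_le
  have h3 : Algebra.IsAlgebraic K[X] F := trdeg_eq_zero_iff.1 h2
  have h4 : Algebra.IsAlgebraic L F :=
    Algebra.IsAlgebraic.extendScalars (IsFractionRing.injective K[X] L)
  have h5 : Algebra.EssFiniteType K[X] F := Algebra.EssFiniteType.of_comp K K[X] F
  have h6 : Algebra.EssFiniteType L F := Algebra.EssFiniteType.of_comp K[X] L F
  exact Algebra.finite_of_essFiniteType_of_isAlgebraic

theorem exists_derivation [CharZero K] [Algebra.EssFiniteType K F] (htr : Algebra.trdeg K F ≤ 1)
    (t : F) (ht : Transcendental K t) : ∃ D : Derivation K F F, D t = 1 := by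
  let : Algebra K[X] F := (aeval t).toRingHom.toAlgebra
  have : IsScalarTower K K[X] F := IsScalarTower.of_algebraMap_eq fun k => by
    simp [RingHom.algebraMap_toAlgebra]
  have : FaithfulSMul K[X] F := (faithfulSMul_iff_algebraMap_injective _ _).2
    (transcendental_iff_injective.1 ht)
  let := FractionRing.liftAlgebra K[X] F
  have := FractionRing.isScalarTower_liftAlgebra K[X] F
  have := finiteDimensional_of_trdeg htr (FractionRing K[X])
  have : CharZero (FractionRing K[X]) := algebraRat.charZero _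
  have : Algebra.FormallyEtale K[X] (FractionRing K[X]) :=
    Algebra.FormallyEtale.of_isLocalization (nonZeroDivisors K[X])
  have : Algebra.FormallyEtale (FractionRing K[X]) F := Algebra.FormallyEtale.of_isSeparable _ _
  have : Algebra.FormallyEtale K[X] F := Algebra.FormallyEtale.comp _ (FractionRing K[X]) _
  have hb := KaehlerDifferential.isBaseChange_of_formallyEtale K K[X] F
  let ℓ := hb.lift (Algebra.linearMap K[X] F ∘ₗ (KaehlerDifferential.polynomialEquiv K).toLinearMap)
  refine ⟨ℓ.compDer (KaehlerDifferential.D K F), ?_⟩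
  have h1 : t = algebraMap K[X] F X := by simp [RingHom.algebraMap_toAlgebra]
  change ℓ (KaehlerDifferential.D K F t) = 1
  rw [h1, ← KaehlerDifferential.map_D K K K[X] F, hb.lift_eq]
  simp

theorem deriv_eq_zero_of_isAlgebraic [CharZero K] (D : Derivation K F F) {x : F}
    (hx : IsAlgebraic K x) : D x = 0 := by
  have h1 := D.map_aeval (minpoly K x) x
  rw [minpoly.aeval, map_zero, smul_eq_mul] at h1
  have h2 : aeval x (derivative (minpoly K x)) ≠ 0 :=
    (minpoly.irreducible hx.isIntegral).separable.aeval_derivative_ne_zero (minpoly.aeval K x)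
  exact (mul_eq_zero.1 h1.symm).resolve_left h2

theorem aeval_mem (O : ValuationSubring F) (hK : ∀ k, algebraMap K F k ∈ O) {x : F} (hx : x ∈ O)
    (p : K[X]) : aeval x p ∈ O := by
  induction p using Polynomial.induction_on' with
  | add p q hp hq => rw [map_add]; exact add_mem hp hq
  | monomial n a => rw [aeval_monomial]; exact mul_mem (hK a) (pow_mem hx n)

theorem val_algebraMap (O : ValuationSubring F) (hK : ∀ k, algebraMap K F k ∈ O) {k : K}
    (hk : k ≠ 0) : O.valuation (algebraMap K F k) = 1 := by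
  apply le_antisymm ((O.valuation_le_one_iff _).2 (hK k))
  have h1 := (O.valuation_le_one_iff _).2 (hK k⁻¹)
  rw [map_inv₀, map_inv₀] at h1
  exact (inv_le_one₀ (by simpa [zero_lt_iff] using hk)).1 h1

theorem val_aeval_eq_one (O : ValuationSubring F) (hK : ∀ k, algebraMap K F k ∈ O) {s : F}
    (hs : O.valuation s < 1) {H : K[X]} (hH : H.coeff 0 ≠ 0) : O.valuation (aeval s H) = 1 := by
  rw [← X_mul_divX_add H, map_add, map_mul, aeval_X, aeval_C, add_comm,
    Valuation.map_add_eq_of_lt_left, val_algebraMap O hK hH]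
  rw [val_algebraMap O hK hH, map_mul]
  exact mul_lt_one_of_lt_of_le hs
    ((O.valuation_le_one_iff _).2 (aeval_mem O hK ((O.valuation_le_one_iff _).1 hs.le) _))

theorem mem_of_isIntegral (O : ValuationSubring F) {A : Type} [CommRing A] [Algebra A F]
    (hA : ∀ a, algebraMap A F a ∈ O) {x : F} (hx : IsIntegral A x) : x ∈ O := by
  let : Algebra A O := ((algebraMap A F).codRestrict O.toSubring hA).toAlgebra
  have : IsScalarTower A O F := IsScalarTower.of_algebraMap_eq fun _ => rfl
  have h1 : IsIntegral O x := hx.tower_top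
  obtain ⟨y, rfl⟩ := (IsIntegrallyClosed.isIntegral_iff (K := F)).1 h1
  exact y.2

theorem dvr_atPrime (B L : Type) [CommRing B] [IsDedekindDomain B] [Field L] [Algebra B L]
    [IsFractionRing B L] (w : IsDedekindDomain.HeightOneSpectrum B) :
    IsDiscreteValuationRing (w.valuationSubringAtPrime L) :=
  IsLocalization.AtPrime.isDiscreteValuationRing_of_dedekind_domain B w.ne_bot _

/-- The local estimate: a derivation fixing a nonzero element of the maximal ideal maps the
valuation ring into its maximal ideal. -/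
theorem val_deriv_lt_one [CharZero K] [Algebra.EssFiniteType K F] (htr : Algebra.trdeg K F ≤ 1)
    (E : Derivation K F F) (O : ValuationSubring F) (hK : ∀ k, algebraMap K F k ∈ O)
    {π : F} (hπ : O.valuation π < 1) (hπ0 : π ≠ 0) (hE : E π = π) :
    ∀ b ∈ O, O.valuation (E b) < 1 := by
  classical
  have ht : Transcendental K π := fun h => hπ0 (hE.symm.trans (deriv_eq_zero_of_isAlgebraic E h))
  have hπO : π ∈ O := (O.valuation_le_one_iff _).1 hπ.le
  let : Algebra K[X] F := (aeval π).toRingHom.toAlgebra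
  have halg : ∀ p : K[X], algebraMap K[X] F p = aeval π p := fun _ => rfl
  have : IsScalarTower K K[X] F := IsScalarTower.of_algebraMap_eq fun k => by simp [halg]
  have : FaithfulSMul K[X] F := (faithfulSMul_iff_algebraMap_injective _ _).2
    (transcendental_iff_injective.1 ht)
  let := FractionRing.liftAlgebra K[X] F
  have := FractionRing.isScalarTower_liftAlgebra K[X] F
  have := finiteDimensional_of_trdeg htr (FractionRing K[X])
  have : CharZero (FractionRing K[X]) := algebraRat.charZero _
  let B := integralClosure K[X] F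
  have : Module.Finite K[X] B := IsIntegralClosure.finite K[X] (FractionRing K[X]) F B
  have : IsDedekindDomain B := IsIntegralClosure.isDedekindDomain K[X] (FractionRing K[X]) F B
  have : IsFractionRing B F :=
    IsIntegralClosure.isFractionRing_of_finite_extension K[X] (FractionRing K[X]) F B
  have hBO : ∀ b : B, (b : F) ∈ O := fun b =>
    mem_of_isIntegral O (fun p => aeval_mem O hK hπO p) b.2
  let ι : B →+* O := (algebraMap B F).codRestrict O.toSubring hBO
  let P : Ideal B := (IsLocalRing.maximalIdeal O).comap ι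
  have memP : ∀ b : B, b ∈ P ↔ O.valuation (b : F) < 1 := fun b =>
    O.valuation_lt_one_iff (ι b)
  have hP0 : P ≠ ⊥ := by
    intro h
    have : algebraMap K[X] B X ∈ P := (memP _).2 (by
      change O.valuation (algebraMap K[X] F X) < 1
      simpa [halg] using hπ)
    rw [h, Ideal.mem_bot] at this
    apply hπ0
    have h2 : algebraMap K[X] F X = 0 := congrArg Subtype.val this
    simpa [halg] using h2
  let w : IsDedekindDomain.HeightOneSpectrum B := ⟨P, inferInstance, hP0⟩
  have hfrac : ∀ x ∈ w.valuationSubringAtPrime F, ∃ b s : B, O.valuation (s : F) = 1 ∧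
      x = b / s := by
    intro x hx
    obtain ⟨b, s, hs, rfl⟩ := hx
    refine ⟨b, s, ?_, by rw [div_eq_mul_inv]; rfl⟩
    exact le_antisymm ((O.valuation_le_one_iff _).2 (hBO s)) (not_lt.1 fun h => hs ((memP s).2 h))
  have hO : w.valuationSubringAtPrime F = O := by
    apply ValuationSubring.eq_of_le_of_ne_top
    · intro x hx
      obtain ⟨b, s, hs, rfl⟩ := hfrac x hx
      rw [← O.valuation_le_one_iff, map_div₀, hs, div_one]
      exact (O.valuation_le_one_iff _).2 (hBO b)
    · intro h
      have : π⁻¹ ∈ O := h ▸ trivial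
      rw [← O.valuation_le_one_iff, map_inv₀, inv_le_one₀ (by simpa [zero_lt_iff] using hπ0)] at this
      exact absurd hπ (not_lt.2 this)
  have : IsDiscreteValuationRing O := by
    rw [← hO]
    exact dvr_atPrime B F w
  rw [hO] at hfrac
  -- the bound
  obtain ⟨T, hT⟩ := Module.Finite.fg_top (R := K[X]) (M := B)
  obtain ⟨b₀, hb₀, hmax⟩ := Finset.exists_max_image (insert π (T.image Subtype.val))
    (fun b => O.valuation (E b)) (Finset.insert_nonempty _ _)
  have hb₀O : b₀ ∈ O := by
    rcases Finset.mem_insert.1 hb₀ with rfl | h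
    · exact hπO
    · obtain ⟨b, -, rfl⟩ := Finset.mem_image.1 h
      exact hBO b
  have hle1 : ∀ x ∈ O, O.valuation x ≤ 1 := fun x hx => (O.valuation_le_one_iff _).2 hx
  have hbB : ∀ b : B, O.valuation (E b) ≤ O.valuation (E b₀) := by
    intro b
    have hb : b ∈ Submodule.span K[X] (T : Set B) := hT ▸ Submodule.mem_top
    induction hb using Submodule.span_induction with
    | mem x hx => exact hmax _ (Finset.mem_insert_of_mem (Finset.mem_image_of_mem _ hx))
    | zero => simp
    | add x y _ _ hx hy =>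
      rw [Subalgebra.coe_add, map_add]
      exact (O.valuation.map_add _ _).trans (max_le hx hy)
    | smul p x _ hx =>
      rw [Subalgebra.coe_smul, Algebra.smul_def, halg, Derivation.leibniz, E.map_aeval]
      refine (O.valuation.map_add _ _).trans (max_le ?_ ?_)
      · rw [smul_eq_mul, map_mul]
        exact (mul_le_of_le_one_left' (hle1 _ (aeval_mem O hK hπO p))).trans hx
      · rw [smul_eq_mul, smul_eq_mul, map_mul, map_mul]
        exact (mul_le_of_le_one_left' (hle1 _ (hBO x))).trans
          ((mul_le_of_le_one_left' (hle1 _ (aeval_mem O hK hπO _))).trans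
            (hmax π (Finset.mem_insert_self _ _)))
  have hbO : ∀ b ∈ O, O.valuation (E b) ≤ O.valuation (E b₀) := by
    intro x hx
    obtain ⟨b, s, hs, rfl⟩ := hfrac x hx
    rw [Derivation.leibniz_div, smul_eq_mul, map_mul, map_pow, map_inv₀, hs, inv_one, one_pow,
      one_mul]
    refine (O.valuation.map_sub _ _).trans (max_le ?_ ?_)
    · rw [smul_eq_mul, map_mul, hs, one_mul]; exact hbB b
    · rw [smul_eq_mul, map_mul]
      exact (mul_le_of_le_one_left' (hle1 _ (hBO b))).trans (hbB s)
  suffices h : O.valuation (E b₀) < 1 from fun b hb => (hbO b hb).trans_lt h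
  by_contra! hμ
  -- the residue of `b₀` is algebraic
  let : Algebra K O := ((algebraMap K F).codRestrict O.toSubring hK).toAlgebra
  have : IsScalarTower K O F := IsScalarTower.of_algebraMap_eq fun _ => rfl
  have hres : ∀ b : B, IsIntegral K (IsLocalRing.residue O (ι b)) := by
    intro b
    obtain ⟨Q, hQ, hQb⟩ : IsIntegral K[X] b := Algebra.IsIntegral.isIntegral b
    refine ⟨Q.map (evalRingHom 0), hQ.map _, ?_⟩
    have h1 := congrArg ((IsLocalRing.residue O).comp ι) hQb
    rw [hom_eval₂, map_zero] at h1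
    rw [eval₂_map, ← h1]
    congr 1
    ext
    · rename_i k
      have : ι (algebraMap K[X] B (C k)) = algebraMap K O k := Subtype.ext (by
        change algebraMap K[X] F (C k) = algebraMap K F k
        simp [halg])
      simp [this]; rfl
    · simp only [coe_evalRingHom, RingHom.coe_comp, Function.comp_apply, eval_X, map_zero]
      symm
      rw [IsLocalRing.residue_eq_zero_iff, O.valuation_lt_one_iff]
      change O.valuation (algebraMap K[X] F X) < 1
      simpa [halg] using hπ
  have hres₀ : IsIntegral K (IsLocalRing.residue O ⟨b₀, hb₀O⟩) := by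
    obtain ⟨b, s, hs, h⟩ := hfrac b₀ hb₀O
    have hs0 : (s : F) ≠ 0 := by rintro h; rw [h] at hs; simp at hs
    have h1 : IsLocalRing.residue O (ι s) ≠ 0 := by
      rw [Ne, IsLocalRing.residue_eq_zero_iff, O.valuation_lt_one_iff]
      exact fun h => h.ne hs
    have h2 : IsLocalRing.residue O ⟨b₀, hb₀O⟩ =
        IsLocalRing.residue O (ι b) * (IsLocalRing.residue O (ι s))⁻¹ := by
      rw [eq_mul_inv_iff_mul_eq₀ h1, ← map_mul]
      congr 1
      apply Subtype.ext
      change b₀ * s = b
      rw [h, div_mul_cancel₀ _ hs0]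
    rw [h2]
    exact (hres b).mul (hres s).inv
  set Q := minpoly K (IsLocalRing.residue O ⟨b₀, hb₀O⟩)
  have haev : ∀ p : K[X], aeval (IsLocalRing.residue O ⟨b₀, hb₀O⟩) p =
      IsLocalRing.residue O ⟨aeval b₀ p, aeval_mem O hK hb₀O p⟩ := by
    intro p
    have h1 : (⟨aeval b₀ p, aeval_mem O hK hb₀O p⟩ : O) = aeval (⟨b₀, hb₀O⟩ : O) p :=
      Subtype.ext (aeval_algebraMap_apply F (⟨b₀, hb₀O⟩ : O) p)
    rw [h1]
    exact aeval_algebraMap_apply (IsLocalRing.ResidueField O) (⟨b₀, hb₀O⟩ : O) p
  have hQ1 : (⟨aeval b₀ Q, aeval_mem O hK hb₀O Q⟩ : O) ∈ IsLocalRing.maximalIdeal O := by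
    rw [← IsLocalRing.residue_eq_zero_iff, ← haev, minpoly.aeval]
  have hQ2 : O.valuation (aeval b₀ (derivative Q)) = 1 := by
    have h1 := (minpoly.irreducible hres₀).separable.aeval_derivative_ne_zero
      (minpoly.aeval K (IsLocalRing.residue O ⟨b₀, hb₀O⟩))
    rw [haev, Ne, IsLocalRing.residue_eq_zero_iff, O.valuation_lt_one_iff] at h1
    exact le_antisymm (hle1 _ (aeval_mem O hK hb₀O _)) (not_lt.1 h1)
  obtain ⟨ϖ, hϖ⟩ := IsDiscreteValuationRing.exists_irreducible O
  have hϖ1 : O.valuation (ϖ : F) < 1 := by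
    rw [← O.valuation_lt_one_iff, hϖ.maximalIdeal_eq]; exact Ideal.mem_span_singleton_self _
  have hϖ0 : (ϖ : F) ≠ 0 := fun h => hϖ.ne_zero (Subtype.ext h)
  obtain ⟨e, u, hu⟩ := IsDiscreteValuationRing.eq_unit_mul_pow_irreducible
    (x := (⟨π, hπO⟩ : O)) (fun h => hπ0 (congrArg Subtype.val h)) hϖ
  have hu' : π = ((u : O) : F) * (ϖ : F) ^ e := congrArg Subtype.val hu
  have hu1 : O.valuation ((u : O) : F) = 1 := (O.valuation_eq_one_iff _).1 u.isUnit
  have he : e ≠ 0 := by
    rintro rfl
    rw [hu', pow_zero, mul_one, hu1] at hπ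
    exact lt_irrefl _ hπ
  have hEϖ : O.valuation (E ϖ) ≤ O.valuation (ϖ : F) * O.valuation (E b₀) := by
    obtain ⟨e, rfl⟩ := Nat.exists_eq_succ_of_ne_zero he
    have h1 := hE
    rw [hu', Derivation.leibniz, Derivation.leibniz_pow] at h1
    have h2 : ((u : O) : F) * (algebraMap K F (e + 1 : ℕ)) * E ϖ =
        ϖ * (((u : O) : F) - E ((u : O) : F)) := by
      apply mul_left_cancel₀ (pow_ne_zero e hϖ0)
      simp only [smul_eq_mul, nsmul_eq_mul, Nat.succ_eq_add_one, Nat.add_sub_cancel] at h1
      rw [map_natCast]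
      linear_combination h1
    have h3 := congrArg O.valuation h2
    rw [map_mul, map_mul, hu1, val_algebraMap O hK (Nat.cast_ne_zero.2 he), one_mul, one_mul,
      map_mul] at h3
    rw [h3]
    refine mul_le_mul_right ((O.valuation.map_sub _ _).trans (max_le ?_ (hbO _ (u : O).2))) _
    rw [hu1]; exact hμ
  rw [hϖ.maximalIdeal_eq, Ideal.mem_span_singleton] at hQ1
  obtain ⟨w', hw'⟩ := hQ1
  have hw'' : aeval b₀ Q = (ϖ : F) * w' := congrArg Subtype.val hw'
  have h1 := E.map_aeval Q b₀
  rw [hw'', Derivation.leibniz] at h1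
  have h2 := congrArg O.valuation h1
  rw [smul_eq_mul (aeval b₀ (derivative Q)), map_mul, hQ2, one_mul] at h2
  have h3 : O.valuation (E b₀) ≤ O.valuation (ϖ : F) * O.valuation (E b₀) := by
    conv_lhs => rw [← h2]
    refine (O.valuation.map_add _ _).trans (max_le ?_ ?_)
    · rw [smul_eq_mul, map_mul]
      exact mul_le_mul_right (hbO _ w'.2) _
    · rw [smul_eq_mul, map_mul]
      exact (mul_le_of_le_one_left' (hle1 _ w'.2)).trans hEϖ
  have h4 : 0 < O.valuation (E b₀) := zero_lt_one.trans_le hμ
  have h5 : O.valuation (ϖ : F) * O.valuation (E b₀) < O.valuation (E b₀) := by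
    conv_rhs => rw [← one_mul (O.valuation (E b₀))]
    exact mul_lt_mul_of_pos_right hϖ1 h4
  exact absurd h3 (not_le.2 h5)

/-- Values of the derivation `D` on differentials that are regular at `O`. -/
def Reg (D : Derivation K F F) (O : ValuationSubring F) : Submodule O F :=
  Submodule.span O (D '' (O : Set F))

theorem deriv_mem_Reg (D : Derivation K F F) (O : ValuationSubring F) {b : F} (hb : b ∈ O) :
    D b ∈ Reg D O := Submodule.subset_span ⟨b, hb, rfl⟩

theorem mul_mem_Reg (D : Derivation K F F) (O : ValuationSubring F) {b θ : F} (hb : b ∈ O)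
    (hθ : θ ∈ Reg D O) : b * θ ∈ Reg D O := (Reg D O).smul_mem ⟨b, hb⟩ hθ

theorem val_Reg_lt_one [CharZero K] [Algebra.EssFiniteType K F] (htr : Algebra.trdeg K F ≤ 1)
    (D : Derivation K F F) (O : ValuationSubring F) (hK : ∀ k, algebraMap K F k ∈ O)
    {π : F} (hπ : O.valuation π < 1) (hπ0 : π ≠ 0) (hD : D π ≠ 0) {θ : F} (hθ : θ ∈ Reg D O) :
    O.valuation (π / D π * θ) < 1 := by
  have h := val_deriv_lt_one htr ((π / D π) • D) O hK hπ hπ0 (by
    rw [Derivation.smul_apply, smul_eq_mul, div_mul_cancel₀ _ hD])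
  induction hθ using Submodule.span_induction with
  | mem x hx => obtain ⟨b, hb, rfl⟩ := hx; exact h b hb
  | zero => simp
  | add x y _ _ hx hy =>
    rw [mul_add]
    exact (O.valuation.map_add _ _).trans_lt (max_lt hx hy)
  | smul a x _ hx =>
    have : π / D π * a • x = a * (π / D π * x) := by
      change π / D π * (a * x) = _
      ring
    rw [this, map_mul]
    exact mul_lt_one_aux (O.valuation_le_one a) hx

theorem exists_valuationSubring {Ω : Type} [Field Ω] (φ : K[X] →+* Ω) (hφ : Function.Injective φ)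
    {q : K[X]} (hq : ¬IsUnit q) :
    ∃ V : ValuationSubring Ω, (∀ p, φ p ∈ V) ∧ V.valuation (φ q) < 1 := by
  let I : Ideal φ.range := (Ideal.span {q}).map φ.rangeRestrict
  have hI : I ≠ ⊤ := by
    rw [Ne, Ideal.eq_top_iff_one, Ideal.mem_map_iff_of_surjective _ φ.rangeRestrict_surjective]
    rintro ⟨a, ha, h1⟩
    have h2 : φ a = φ 1 := by rw [map_one]; exact congrArg Subtype.val h1
    rw [hφ h2, Ideal.mem_span_singleton] at ha
    exact hq (isUnit_of_dvd_one ha)
  obtain ⟨V, h1, h2⟩ := Ideal.image_subset_nonunits_valuationSubring I hI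
  refine ⟨V, fun p => h1 ⟨p, rfl⟩, V.mem_nonunits_iff.1 (h2 ?_)⟩
  exact ⟨φ.rangeRestrict q, Ideal.mem_map_of_mem _ (Ideal.mem_span_singleton_self q), rfl⟩

theorem val_comap_lt_one {Ω : Type} [Field Ω] (V : ValuationSubring Ω) (σ : F →+* Ω) (x : F) :
    (V.comap σ).valuation x < 1 ↔ V.valuation (σ x) < 1 := by
  rw [← ValuationSubring.mem_nonunits_iff, ← ValuationSubring.mem_nonunits_iff,
    ValuationSubring.mem_nonunits_iff_or, ValuationSubring.mem_nonunits_iff_or,
    ValuationSubring.mem_comap, map_inv₀, map_eq_zero]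

theorem no_residue [CharZero K] [Algebra.EssFiniteType K F] (htr : Algebra.trdeg K F ≤ 1)
    (D : Derivation K F F) {t : F} (hD : D t = 1) (η : F)
    (h1 : ∀ O : ValuationSubring F, (∀ k, algebraMap K F k ∈ O) → t ∈ O → η ∈ Reg D O)
    (h2 : ∀ O : ValuationSubring F, (∀ k, algebraMap K F k ∈ O) → t ∉ O → η - t⁻¹ ∈ Reg D O) :
    False := by
  classical
  have ht : Transcendental K t := fun h =>
    one_ne_zero (hD.symm.trans (deriv_eq_zero_of_isAlgebraic D h))
  have hinj := transcendental_iff_injective.1 ht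
  have ht0 : t ≠ 0 := by rintro rfl; simp at hD
  let : Algebra K[X] F := (aeval t).toRingHom.toAlgebra
  have halg : ∀ p : K[X], algebraMap K[X] F p = aeval t p := fun _ => rfl
  have : IsScalarTower K K[X] F := IsScalarTower.of_algebraMap_eq fun k => by simp [halg]
  have : FaithfulSMul K[X] F := (faithfulSMul_iff_algebraMap_injective _ _).2 hinj
  let L := FractionRing K[X]
  let := FractionRing.liftAlgebra K[X] F
  have := FractionRing.isScalarTower_liftAlgebra K[X] F
  have := finiteDimensional_of_trdeg htr L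
  have : CharZero L := algebraRat.charZero _
  let Ω := AlgebraicClosure L
  let φ : K[X] →+* Ω := (algebraMap L Ω).comp (algebraMap K[X] L)
  have hφ : Function.Injective φ :=
    (algebraMap L Ω).injective.comp (IsFractionRing.injective K[X] L)
  have hσ : ∀ (σ : F →ₐ[L] Ω) (p : K[X]), σ (aeval t p) = φ p := by
    intro σ p
    rw [← halg, IsScalarTower.algebraMap_apply K[X] L F, AlgHom.commutes]
    rfl
  have hσK : ∀ (σ : F →ₐ[L] Ω) (k : K), σ (algebraMap K F k) = φ (C k) := by
    intro σ k
    rw [← hσ, aeval_C]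
  have hσt : ∀ (σ : F →ₐ[L] Ω), σ t = φ X := by
    intro σ
    rw [← hσ, aeval_X]
  set τ := Algebra.trace L F η
  have hτ : algebraMap L Ω τ = ∑ σ : F →ₐ[L] Ω, σ η := trace_eq_sum_embeddings Ω
  -- the trace is a polynomial
  have hden : IsUnit ((IsFractionRing.den K[X] τ : K[X])) := by
    by_contra hden
    obtain ⟨q, hq, d', hd'⟩ := WfDvdMonoid.exists_irreducible_factor hden
      (nonZeroDivisors.ne_zero (IsFractionRing.den K[X] τ).2)
    obtain ⟨V, hV1, hV2⟩ := exists_valuationSubring φ hφ hq.not_isUnit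
    have hle : ∀ p, V.valuation (φ p) ≤ 1 := fun p => (V.valuation_le_one_iff _).2 (hV1 p)
    have hsum : V.valuation (φ q * algebraMap L Ω τ) < 1 := by
      rw [hτ, Finset.mul_sum]
      refine V.valuation.map_sum_lt one_ne_zero fun σ _ => ?_
      let O := V.comap (σ : F →+* Ω)
      have hK : ∀ k, algebraMap K F k ∈ O := fun k => by
        rw [ValuationSubring.mem_comap, RingHom.coe_coe, hσK]; exact hV1 _
      have htO : t ∈ O := by
        rw [ValuationSubring.mem_comap, RingHom.coe_coe, hσt]; exact hV1 _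
      have hπ : O.valuation (aeval t q) < 1 := by
        rw [val_comap_lt_one, RingHom.coe_coe, hσ]; exact hV2
      have hDq : D (aeval t q) = aeval t (derivative q) := by
        rw [D.map_aeval, hD, smul_eq_mul, mul_one]
      have hq' : aeval t (derivative q) ≠ 0 := by
        intro h
        have h3 : derivative q = 0 := hinj (by simpa using h)
        have h4 := hq.separable
        rw [Separable, h3, isCoprime_zero_right] at h4
        exact hq.not_isUnit h4
      have h3 := val_Reg_lt_one htr D O hK hπ (fun h => hq.ne_zero (hinj (by simpa using h)))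
        (hDq ▸ hq') (h1 O hK htO)
      rw [hDq] at h3
      have h4 : O.valuation (aeval t q * η) < 1 := by
        have : aeval t q * η = aeval t (derivative q) * (aeval t q / aeval t (derivative q) * η) := by
          field_simp
        rw [this, map_mul]
        exact mul_lt_one_aux ((O.valuation_le_one_iff _).2 (aeval_mem O hK htO _)) h3
      rw [val_comap_lt_one, map_mul, RingHom.coe_coe, hσ] at h4
      exact h4
    have hnum : φ (IsFractionRing.num K[X] τ) = φ d' * (φ q * algebraMap L Ω τ) := by
      have h4 := IsLocalization.mk'_spec L (IsFractionRing.num K[X] τ) (IsFractionRing.den K[X] τ)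
      rw [IsFractionRing.mk'_num_den, hd'] at h4
      have h5 := congrArg (algebraMap L Ω) h4
      rw [map_mul, map_mul, map_mul] at h5
      change _ * (φ q * φ d') = φ _ at h5
      rw [← h5]; ring
    have hcop : IsCoprime q (IsFractionRing.num K[X] τ) := by
      rw [hq.coprime_iff_not_dvd]
      intro h
      exact hq.not_isUnit (IsFractionRing.num_den_reduced K[X] τ h ⟨d', hd'⟩)
    obtain ⟨a, b, hab⟩ := hcop
    have h5 := congrArg (fun p => V.valuation (φ p)) hab
    simp only [map_add, map_mul, map_one] at h5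
    refine absurd h5 (ne_of_lt ((V.valuation.map_add _ _).trans_lt (max_lt ?_ ?_)))
    · rw [map_mul]; exact mul_lt_one_aux (hle a) hV2
    · rw [hnum, map_mul, map_mul]
      exact mul_lt_one_aux (hle b) (mul_lt_one_aux (hle d') hsum)
  obtain ⟨p, hp⟩ := IsFractionRing.isInteger_of_isUnit_den hden
  -- the place at infinity
  let : Algebra K Ω := (φ.comp C).toAlgebra
  have hφa : ∀ p, φ p = aeval (φ X) p := by
    intro p
    have : φ = (aeval (φ X) : K[X] →ₐ[K] Ω).toRingHom := by
      ext
      · simp; rfl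
      · simp
    conv_lhs => rw [this]
    rfl
  have hX : Transcendental K (φ X) := transcendental_iff_injective.2 fun a b hab =>
    hφ (by rw [hφa a, hφa b, hab])
  have hX0 : φ X ≠ 0 := fun h => X_ne_zero (hφ (h.trans (map_zero φ).symm))
  have hXi : Transcendental K (φ X)⁻¹ := fun h => hX (IsAlgebraic.inv_iff.1 h)
  obtain ⟨V, hV1, hV2⟩ := exists_valuationSubring (aeval (φ X)⁻¹ : K[X] →ₐ[K] Ω).toRingHom
    (transcendental_iff_injective.1 hXi) not_isUnit_X
  have hV2 : V.valuation (φ X)⁻¹ < 1 := by simpa using hV2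
  have hVK : ∀ k, algebraMap K Ω k ∈ V := fun k => by simpa using hV1 (C k)
  set n := Fintype.card (F →ₐ[L] Ω) with hn
  have hn0 : n ≠ 0 := by rw [hn, AlgHom.card]; exact Module.finrank_pos.ne'
  have hsum : V.valuation (φ (X * p - C (n : K))) < 1 := by
    have : φ (X * p - C (n : K)) = ∑ σ : F →ₐ[L] Ω, σ (t * η - 1) := by
      simp only [map_sub, map_mul, map_one, hσt, Finset.sum_sub_distrib, ← Finset.mul_sum, ← hτ,
        ← hp, map_natCast, Finset.sum_const, Finset.card_univ, nsmul_eq_mul, mul_one]
      rfl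
    rw [this]
    refine V.valuation.map_sum_lt one_ne_zero fun σ _ => ?_
    let O := V.comap (σ : F →+* Ω)
    have hK : ∀ k, algebraMap K F k ∈ O := fun k => by
      rw [ValuationSubring.mem_comap, RingHom.coe_coe, hσK]; exact hVK k
    have hπ : O.valuation t⁻¹ < 1 := by
      rw [val_comap_lt_one, RingHom.coe_coe, map_inv₀, hσt]; exact hV2
    have htO : t ∉ O := by
      intro h
      rw [map_inv₀, inv_lt_one₀ (by simpa [zero_lt_iff] using ht0)] at hπ
      exact absurd ((O.valuation_le_one_iff _).2 h) (not_le.2 hπ)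
    have hDt : D t⁻¹ = -t⁻¹ ^ 2 := by rw [Derivation.leibniz_inv, hD, smul_eq_mul, mul_one]
    have h3 := val_Reg_lt_one htr D O hK hπ (inv_ne_zero ht0)
      (by rw [hDt]; simpa using ht0) (h2 O hK htO)
    have h4 : t⁻¹ / D t⁻¹ * (η - t⁻¹) = -(t * η - 1) := by
      rw [hDt]; field_simp
    rw [h4, Valuation.map_neg, val_comap_lt_one] at h3
    exact h3
  set G : K[X] := X * p - C (n : K) with hG
  have hG0 : G ≠ 0 := by
    intro h
    have := congrArg (coeff · 0) h
    simp [hG] at this
    exact hn0 this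
  let := invertibleOfNonzero hX0
  have h3 := eval₂_reverse_mul_pow (algebraMap K Ω) (φ X) G
  rw [invOf_eq_inv, ← aeval_def, ← aeval_def, ← hφa G] at h3
  rw [← h3, map_mul, val_aeval_eq_one V hVK hV2 (by simpa using hG0), one_mul, map_pow] at hsum
  rw [map_inv₀, inv_lt_one₀ (by simpa [zero_lt_iff] using hX0)] at hV2
  exact absurd hsum (not_lt.2 (one_le_pow₀ hV2.le))

theorem exists_comb_two [CharZero K] (htr : Algebra.trdeg K F ≤ 1) (x y : F) :
    ∃ c : K, ∀ O : ValuationSubring F, (∀ k, algebraMap K F k ∈ O) →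
      O.valuation y ≤ max 1 (O.valuation (x + algebraMap K F c * y)) := by
  classical
  have hdep : ¬AlgebraicIndependent K ![x, y] := by
    intro h
    have h1 := h.cardinalMk_le_trdeg.trans htr
    rw [Cardinal.mk_fin] at h1
    norm_num at h1
  rw [algebraicIndependent_iff] at hdep
  push Not at hdep
  obtain ⟨P, hP, hP0⟩ := hdep
  set d := P.totalDegree with hd
  let Pd := MvPolynomial.homogeneousComponent d P
  have hPd : Pd.IsHomogeneous d := MvPolynomial.homogeneousComponent_isHomogeneous d P
  have hPd0 : Pd ≠ 0 := by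
    obtain ⟨m, hm, hm'⟩ := Finset.exists_mem_eq_sup P.support
      (MvPolynomial.support_nonempty.2 hP0) (fun s => s.sum fun _ e => e)
    intro h
    have h1 := congrArg (MvPolynomial.coeff m) h
    rw [MvPolynomial.coeff_homogeneousComponent, if_pos, MvPolynomial.coeff_zero] at h1
    · exact MvPolynomial.mem_support_iff.1 hm h1
    · exact hm'.symm
  obtain ⟨z, hz⟩ : ∃ z : Fin 2 → K, MvPolynomial.eval z (Pd * MvPolynomial.X 1) ≠ 0 := by
    by_contra! h
    exact mul_ne_zero hPd0 (MvPolynomial.X_ne_zero 1) (MvPolynomial.funext (by simpa using h))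
  rw [map_mul, MvPolynomial.eval_X] at hz
  have hz1 : z 1 ≠ 0 := right_ne_zero_of_mul hz
  have hα : MvPolynomial.eval ![z 0 / z 1, 1] Pd ≠ 0 := by
    have h1 := eval₂_smul_of_isHomogeneous hPd (RingHom.id K) (z 1)⁻¹ z
    have h2 : (fun a => (z 1)⁻¹ * z a) = ![z 0 / z 1, 1] := by
      ext a; fin_cases a
      · simp [div_eq_inv_mul]
      · simp [hz1]
    rw [h2] at h1
    change MvPolynomial.eval₂ (RingHom.id K) _ Pd ≠ 0
    rw [h1]
    exact mul_ne_zero (pow_ne_zero _ (inv_ne_zero hz1)) (left_ne_zero_of_mul hz)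
  refine ⟨-(z 0 / z 1), fun O hK => ?_⟩
  by_contra! h
  rw [max_lt_iff] at h
  obtain ⟨hy1, hy2⟩ := h
  have hvy : 0 < O.valuation y := zero_lt_one.trans hy1
  have hy0 : y ≠ 0 := by rintro rfl; simp at hvy
  let : Algebra K O := ((algebraMap K F).codRestrict O.toSubring hK).toAlgebra
  have : IsScalarTower K O F := IsScalarTower.of_algebraMap_eq fun _ => rfl
  have hs : O.valuation y⁻¹ < 1 := by rwa [map_inv₀, inv_lt_one₀ hvy]
  have hr : O.valuation (x / y - algebraMap K F (z 0 / z 1)) < 1 := by
    have : x / y - algebraMap K F (z 0 / z 1) = (x + algebraMap K F (-(z 0 / z 1)) * y) / y := by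
      rw [map_neg]; field_simp; ring
    rwa [this, map_div₀, div_lt_one₀ hvy]
  have hrO : x / y ∈ O := by
    have := add_mem ((O.valuation_le_one_iff _).1 hr.le) (hK (z 0 / z 1))
    simpa using this
  let s : O := ⟨y⁻¹, (O.valuation_le_one_iff _).1 hs.le⟩
  let r : O := ⟨x / y, hrO⟩
  have hsum : ∑ i ∈ Finset.range (d + 1), s ^ (d - i) *
      MvPolynomial.aeval ![r, 1] (MvPolynomial.homogeneousComponent i P) = 0 := by
    apply Subtype.val_injective
    have h1 := congrArg (fun w => y⁻¹ ^ d * w) hP
    simp only [mul_zero] at h1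
    rw [← MvPolynomial.sum_homogeneousComponent P, map_sum, Finset.mul_sum] at h1
    rw [show ((0 : O) : F) = 0 from rfl, ← h1]
    change algebraMap O F _ = _
    rw [map_sum]
    refine Finset.sum_congr rfl fun i hi => ?_
    have hi : i ≤ d := Nat.lt_succ_iff.1 (Finset.mem_range.1 hi)
    rw [map_mul, map_pow, ← MvPolynomial.aeval_algebraMap_apply]
    have h2 : (algebraMap O F ∘ ![r, 1]) = fun a => y⁻¹ * ![x, y] a := by
      ext a; fin_cases a
      · simp [r, div_eq_inv_mul]
      · simp [hy0]
    rw [h2, MvPolynomial.aeval_def, eval₂_smul_of_isHomogeneous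
      (MvPolynomial.homogeneousComponent_isHomogeneous i P), ← mul_assoc]
    change y⁻¹ ^ (d - i) * y⁻¹ ^ i * _ = _
    rw [← pow_add, Nat.sub_add_cancel hi, MvPolynomial.aeval_def]
  have h1 := congrArg (algebraMap O (IsLocalRing.ResidueField O)) hsum
  have hs0 : algebraMap O (IsLocalRing.ResidueField O) s = 0 :=
    (IsLocalRing.residue_eq_zero_iff _).2 ((O.valuation_lt_one_iff _).2 hs)
  have hr0 : algebraMap O (IsLocalRing.ResidueField O) r =
      algebraMap K (IsLocalRing.ResidueField O) (z 0 / z 1) := by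
    rw [IsScalarTower.algebraMap_apply K O (IsLocalRing.ResidueField O), ← sub_eq_zero, ← map_sub]
    exact (IsLocalRing.residue_eq_zero_iff _).2 ((O.valuation_lt_one_iff _).2 hr)
  rw [map_sum, Finset.sum_range_succ, Finset.sum_eq_zero, zero_add, Nat.sub_self, pow_zero,
    one_mul, map_zero, ← MvPolynomial.aeval_algebraMap_apply] at h1
  · have h2 : (algebraMap O (IsLocalRing.ResidueField O) ∘ ![r, 1]) =
        algebraMap K (IsLocalRing.ResidueField O) ∘ ![z 0 / z 1, 1] := by
      ext a; fin_cases a
      · simpa using hr0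
      · simp
    rw [h2, MvPolynomial.aeval_algebraMap_apply, map_eq_zero] at h1
    exact hα h1
  · intro i hi
    rw [map_mul, map_pow, hs0, zero_pow (Nat.sub_ne_zero_of_lt (Finset.mem_range.1 hi)), zero_mul]

theorem exists_comb [CharZero K] (htr : Algebra.trdeg K F ≤ 1) {σ : Type} (w : σ → F)
    (s : Finset σ) : ∃ t ∈ Submodule.span K (Set.range w), ∀ O : ValuationSubring F,
      (∀ k, algebraMap K F k ∈ O) → ∀ a ∈ s, O.valuation (w a) ≤ max 1 (O.valuation t) := by
  classical
  induction s using Finset.induction_on with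
  | empty => exact ⟨0, zero_mem _, fun O _ a ha => by simp at ha⟩
  | insert a s _ ih =>
    obtain ⟨t, ht, h⟩ := ih
    obtain ⟨c, hc⟩ := exists_comb_two htr t (w a)
    refine ⟨t + algebraMap K F c * w a, add_mem ht ?_, fun O hK b hb => ?_⟩
    · rw [← Algebra.smul_def]
      exact Submodule.smul_mem _ _ (Submodule.subset_span ⟨a, rfl⟩)
    · rcases Finset.mem_insert.1 hb with rfl | hb
      · exact hc O hK
      · refine (h O hK b hb).trans (max_le (le_max_left _ _) ?_)
        have h1 : t = (t + algebraMap K F c * w a) - algebraMap K F c * w a := by ring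
        conv_lhs => rw [h1]
        refine (O.valuation.map_sub _ _).trans (max_le (le_max_right _ _) ?_)
        rw [map_mul]
        exact (mul_le_of_le_one_left' ((O.valuation_le_one_iff _).2 (hK c))).trans (hc O hK)

/-- If the line bundle defined by `w` on the curve has a regular connection, `w` is constant. -/
theorem isAlgebraic_of_connection [CharZero K] [Algebra.EssFiniteType K F]
    (htr : Algebra.trdeg K F ≤ 1) {σ : Type} [Fintype σ] (w : σ → F) (a₀ : σ) (hw : w a₀ = 1)
    (H : ∀ D : Derivation K F F, ∃ η : F, ∀ O : ValuationSubring F,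
      (∀ k, algebraMap K F k ∈ O) →
        ∃ l, w l ≠ 0 ∧ (∀ a, w a / w l ∈ O) ∧ η - D (w l) / w l ∈ Reg D O) :
    ∀ a, IsAlgebraic K (w a) := by
  by_contra! h
  obtain ⟨a₁, ha₁⟩ := h
  obtain ⟨t, ht, hmax⟩ := exists_comb htr w Finset.univ
  have hti : Transcendental K t := by
    have h1 : Transcendental K (w a₁)⁻¹ := fun h => ha₁ (IsAlgebraic.inv_iff.1 h)
    obtain ⟨V, hV1, hV2⟩ := exists_valuationSubring (aeval (w a₁)⁻¹ : K[X] →ₐ[K] F).toRingHom
      (transcendental_iff_injective.1 h1) not_isUnit_X
    have hV2 : V.valuation (w a₁)⁻¹ < 1 := by simpa using hV2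
    have hVK : ∀ k, algebraMap K F k ∈ V := fun k => by simpa using hV1 (C k)
    have h0 : w a₁ ≠ 0 := fun h => ha₁ (h ▸ isAlgebraic_zero)
    rw [map_inv₀, inv_lt_one₀ (by simpa [zero_lt_iff] using h0)] at hV2
    intro h
    have h2 := (V.valuation_le_one_iff _).2 (mem_of_isIntegral V hVK h.isIntegral)
    exact absurd (hV2.trans_le (hmax V hVK a₁ (Finset.mem_univ _))) (not_lt.2 (max_le le_rfl h2))
  have ht0 : t ≠ 0 := fun h => hti (h ▸ isAlgebraic_zero)
  obtain ⟨D, hD⟩ := exists_derivation htr t hti
  obtain ⟨η, hη⟩ := H D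
  refine no_residue htr D hD η (fun O hK htO => ?_) (fun O hK htO => ?_)
  · obtain ⟨l, hl0, hl1, hl2⟩ := hη O hK
    have h1 : w l ∈ O := (O.valuation_le_one_iff _).1 ((hmax O hK l (Finset.mem_univ _)).trans
      (max_le le_rfl ((O.valuation_le_one_iff _).2 htO)))
    have h2 := mul_mem_Reg D O (hl1 a₀) (deriv_mem_Reg D O h1)
    have h3 := add_mem hl2 h2
    rw [hw] at h3
    convert h3 using 1
    ring
  · obtain ⟨l, hl0, hl1, hl2⟩ := hη O hK
    have h0 : 1 < O.valuation t := not_le.1 fun h => htO ((O.valuation_le_one_iff _).1 h)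
    have h1 : w l / t ∈ O := by
      rw [← O.valuation_le_one_iff, map_div₀, div_le_one₀ (zero_lt_one.trans h0)]
      exact (hmax O hK l (Finset.mem_univ _)).trans (max_le h0.le le_rfl)
    have h2 : t / w l ∈ O := by
      clear hD hti ht0 hmax h0 h1 htO
      induction ht using Submodule.span_induction with
      | mem x hx => obtain ⟨a, rfl⟩ := hx; exact hl1 a
      | zero => simp
      | add x y _ _ hx hy => rw [add_div]; exact add_mem hx hy
      | smul c x _ hx => rw [Algebra.smul_def, mul_div_assoc]; exact mul_mem (hK c) hx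
    have h3 := add_mem hl2 (mul_mem_Reg D O h2 (deriv_mem_Reg D O h1))
    convert h3 using 1
    rw [Derivation.leibniz_div, hD]
    simp only [smul_eq_mul]
    field_simp
    ring

end Pool.Agent.P.MP_f6c533_ag.Residue
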