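import Mathlib
import Pool.Agent.P.MP_f6c533_ag.Cech
import Pool.Agent.P.MP_f6c533_ag.Residue
import Pool.Agent.P.MP_f6c533_ag.Rep

/-!
A curve contracted by some iterate of the self-map is contracted by a fixed iterate.
-/

set_option autoImplicit false

namespace Pool.Agent.P.MP_f6c533_ag

open Polynomial Filter

section good

variable {F : Type} [Field F] (O : ValuationSubring F) (γ : F)

/-- The valuation ring as a submodule. -/
def OO : Submodule O F where
  carrier := O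
  zero_mem' := zero_mem O
  add_mem' := add_mem
  smul_mem' := fun c _ hx => mul_mem c.2 hx

/-- After rescaling the variable by `γ`, all coefficients lie in `N`. -/
def Good (N : Submodule O F) (p : F[X]) : Prop := ∀ t, p.coeff t / γ ^ t ∈ N

variable {O γ}

theorem Good.zero {N : Submodule O F} : Good O γ N 0 := fun t => by simp

theorem Good.add {N : Submodule O F} {p q : F[X]} (hp : Good O γ N p) (hq : Good O γ N q) :
    Good O γ N (p + q) := fun t => by
  rw [coeff_add, add_div]; exact add_mem (hp t) (hq t)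

theorem Good.mul {N : Submodule O F} {p q : F[X]} (hp : Good O γ (OO O) p) (hq : Good O γ N q) :
    Good O γ N (p * q) := fun t => by
  rw [coeff_mul, Finset.sum_div]
  refine Submodule.sum_mem _ fun e he => ?_
  have h1 := N.smul_mem ⟨_, hp e.1⟩ (hq e.2)
  rw [← Finset.HasAntidiagonal.mem_antidiagonal.1 he, pow_add, mul_div_mul_comm]
  exact h1

theorem Good.mono {N : Submodule O F} {a : F} {e : ℕ} (h : a / γ ^ e ∈ N) :
    Good O γ N (C a * X ^ e) := fun t => by
  rw [coeff_C_mul_X_pow]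
  split_ifs with h1
  · rwa [h1]
  · simp

end good

variable {R : Type} [CommRing R] {σ ι κ : Type} (S : Sys R σ ι κ)
  {K : Type} [Field K] (φK : R →+* K)

/-- A point with values in a field extension of `K` carrying a `K`-derivation. -/
structure Test : Type 1 where
  F : Type
  [fld : Field F]
  [alg : Algebra K F]
  D : Derivation K F F
  p : PV S F
  hp : p.φ = (algebraMap K F).comp φK

attribute [instance] Test.fld Test.alg

variable {S φK}

/-- Evaluation at the coordinates multiplied by an indeterminate. -/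
noncomputable def Test.Φ (τ : Test S φK) : MvPolynomial σ K →+* τ.F[X] :=
  MvPolynomial.eval₂Hom (C.comp (algebraMap K τ.F)) fun a => C (τ.p.v a) * X

/-- Evaluation at the coordinates. -/
noncomputable def Test.ev (τ : Test S φK) (P : MvPolynomial σ R) : τ.F :=
  MvPolynomial.eval₂ τ.p.φ τ.p.v P

theorem Test.Φ_X (τ : Test S φK) (a : σ) : τ.Φ (MvPolynomial.X a) = C (τ.p.v a) * X := by
  simp [Test.Φ]

theorem Test.Φ_map (τ : Test S φK) {P : MvPolynomial σ R} {e : ℕ} (hP : P.IsHomogeneous e) :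
    τ.Φ (MvPolynomial.map φK P) = C (τ.ev P) * X ^ e := by
  rw [Test.Φ, MvPolynomial.coe_eval₂Hom, MvPolynomial.eval₂_map, Test.ev,
    MvPolynomial.eval₂_comp_left C, τ.hp, mul_comm, ← eval₂_smul_of_isHomogeneous hP]
  congr 1
  ext a : 1
  exact mul_comm _ _

theorem Test.Φ_eq_zero (τ : Test S φK) {P : MvPolynomial σ R}
    (hP : P ∈ Ideal.span (Set.range S.G)) : τ.Φ (MvPolynomial.map φK P) = 0 := by
  have : Ideal.span (Set.range S.G) ≤ RingHom.ker (τ.Φ.comp (MvPolynomial.map φK)) := by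
    rw [Ideal.span_le]
    rintro _ ⟨i, rfl⟩
    change τ.Φ (MvPolynomial.map φK (S.G i)) = 0
    rw [τ.Φ_map (S.hG i), Test.ev, τ.p.zero, map_zero, zero_mul]
  exact this hP

theorem Test.Φ_pderiv (τ : Test S φK) {P : MvPolynomial σ R} {e : ℕ} (hP : P.IsHomogeneous e)
    (a : σ) : τ.Φ (MvPolynomial.map φK (MvPolynomial.pderiv a P)) * X =
      C (τ.ev (MvPolynomial.pderiv a P)) * X ^ e := by
  cases e with
  | zero =>
    have : MvPolynomial.pderiv a P = 0 := by
      rw [MvPolynomial.totalDegree_eq_zero_iff_eq_C.1 (Nat.le_zero.1 hP.totalDegree_le)]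
      exact MvPolynomial.pderiv_C
    simp [this, Test.ev]
  | succ e =>
    rw [τ.Φ_map (hP.pderiv (i := a)), Nat.add_sub_cancel, mul_assoc, ← pow_succ]

theorem Test.D_ev [Fintype σ] (τ : Test S φK) (P : MvPolynomial σ R) :
    τ.D (τ.ev P) = ∑ a, τ.ev (MvPolynomial.pderiv a P) * τ.D (τ.p.v a) := by
  classical
  induction P using MvPolynomial.induction_on with
  | C r => simp [Test.ev, τ.hp]
  | add P Q hP hQ =>
    simp only [Test.ev] at *
    simp [hP, hQ, add_mul, Finset.sum_add_distrib]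
  | mul_X P b hP =>
    simp only [Test.ev] at *
    simp only [MvPolynomial.eval₂_mul, MvPolynomial.eval₂_X, Derivation.leibniz, smul_eq_mul, hP,
      MvPolynomial.eval₂_add, MvPolynomial.pderiv_X, add_mul, Finset.sum_add_distrib,
      Finset.mul_sum]
    congr 1
    · rw [Finset.sum_eq_single b]
      · simp
      · intro a _ hab; simp [hab]
      · simp
    · exact Finset.sum_congr rfl fun a _ => by ring

theorem Test.euler [Fintype σ] (τ : Test S φK) {P : MvPolynomial σ R} {e : ℕ}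
    (hP : P.IsHomogeneous e) :
    ∑ a, τ.p.v a * τ.ev (MvPolynomial.pderiv a P) = e * τ.ev P := by
  have := congrArg (MvPolynomial.eval₂Hom τ.p.φ τ.p.v) hP.sum_X_mul_pderiv
  simpa [Test.ev] using this

theorem Test.good_Φ (τ : Test S φK) (O : ValuationSubring τ.F) (hK : ∀ k, algebraMap K τ.F k ∈ O)
    {j : σ} (hj : ∀ a, τ.p.v a / τ.p.v j ∈ O) (P : MvPolynomial σ K) :
    Good O (τ.p.v j) (OO O) (τ.Φ P) := by
  induction P using MvPolynomial.induction_on with
  | C k =>
    have : τ.Φ (MvPolynomial.C k) = C (algebraMap K τ.F k) * X ^ 0 := by simp [Test.Φ]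
    rw [this]
    exact Good.mono (by rw [pow_zero, div_one]; exact hK k)
  | add P Q hP hQ => rw [map_add]; exact hP.add hQ
  | mul_X P b hP =>
    rw [map_mul, τ.Φ_X, ← pow_one X]
    exact hP.mul (Good.mono (by rw [pow_one]; exact hj b))

variable (S φK)

/-- The product of the targets of all tests. -/
def NN : Type 1 := ∀ τ : Test S φK, τ.F[X]

noncomputable instance : CommRing (NN S φK) := Pi.commRing

noncomputable instance : Algebra (MvPolynomial σ K) (NN S φK) :=
  (RingHom.pi fun τ : Test S φK => τ.Φ).toAlgebra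

/-- The generators `x j dx a - x a dx j`. -/
noncomputable def eN (e : σ × σ) : NN S φK := fun τ =>
  C (τ.p.v e.1 * τ.D (τ.p.v e.2) - τ.p.v e.2 * τ.D (τ.p.v e.1)) * X ^ 2

/-- The module of horizontal differentials. -/
noncomputable def MM : Submodule (MvPolynomial σ K) (NN S φK) :=
  Submodule.span _ (Set.range (eN S φK))

instance [Finite σ] : Module.Finite (MvPolynomial σ K) (MM S φK) :=
  Module.Finite.span_of_finite _ (Set.finite_range _)

variable {S φK}

/-- Component at a test. -/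
noncomputable def Test.pr (τ : Test S φK) : MM S φK →+ τ.F[X] where
  toFun z := z.1 τ
  map_zero' := rfl
  map_add' _ _ := rfl

theorem Test.pr_smul (τ : Test S φK) (s : MvPolynomial σ K) (z : MM S φK) :
    τ.pr (s • z) = τ.Φ s * τ.pr z := rfl

theorem MM.ext {z z' : MM S φK} (h : ∀ τ : Test S φK, τ.pr z = τ.pr z') : z = z' :=
  Subtype.ext (funext h)

theorem Test.good_pr (τ : Test S φK) (O : ValuationSubring τ.F) (hK : ∀ k, algebraMap K τ.F k ∈ O)
    {j : σ} (hj0 : τ.p.v j ≠ 0) (hj : ∀ a, τ.p.v a / τ.p.v j ∈ O) (z : MM S φK) :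
    Good O (τ.p.v j) (Residue.Reg τ.D O) (τ.pr z) := by
  obtain ⟨z, hz⟩ := z
  change Good O (τ.p.v j) (Residue.Reg τ.D O) (z τ)
  induction hz using Submodule.span_induction with
  | mem x hx =>
    obtain ⟨⟨a, b⟩, rfl⟩ := hx
    refine Good.mono ?_
    have := sub_mem (Residue.mul_mem_Reg τ.D O (hj a) (Residue.deriv_mem_Reg τ.D O (hj b)))
      (Residue.mul_mem_Reg τ.D O (hj b) (Residue.deriv_mem_Reg τ.D O (hj a)))
    convert this using 1
    simp only [Derivation.leibniz_div, smul_eq_mul]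
    field_simp
    ring
  | zero => exact Good.zero
  | add x y _ _ hx hy => exact hx.add hy
  | smul s x _ hx => exact (τ.good_Φ O hK hj s).mul hx

section cocycle

variable [Fintype σ] {κ' : Type} [Fintype κ'] (W : κ' → σ → MvPolynomial σ R)
  (c : σ → κ' × σ → MvPolynomial σ R)

variable (S φK) in
/-- Numerators of the Atiyah cocycle. -/
noncomputable def mu (j k : σ) : MM S φK :=
  ∑ e : κ' × σ, ∑ e' : κ' × σ, ∑ a, MvPolynomial.map φK (MvPolynomial.X k * c j e * c k e' *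
    (W e.1 e.2 * MvPolynomial.pderiv a (W e'.1 e'.2) -
      W e.1 e'.2 * MvPolynomial.pderiv a (W e'.1 e.2))) •
      (⟨eN S φK (j, a), Submodule.subset_span ⟨_, rfl⟩⟩ : MM S φK)

/-- Local connection forms. -/
noncomputable def Test.θ (τ : Test S φK) (d : ℕ) (k : κ' → τ.F) (w : σ → τ.F) (j : σ) : τ.F[X] :=
  ∑ e : κ' × σ, τ.Φ (MvPolynomial.map φK (c j e)) * (C (k e.1) * X ^ d) * C (w e.2)

variable {W c}

theorem Test.θ_eq (τ : Test S φK) {d N : ℕ} (hW : ∀ l a, (W l a).IsHomogeneous d)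
    (hc : ∀ j, MvPolynomial.X j ^ N - ∑ e, c j e * W e.1 e.2 ∈ Ideal.span (Set.range S.G))
    {k : κ' → τ.F} {w : σ → τ.F} (hk : ∀ l a, τ.ev (W l a) = k l * w a) (j : σ) :
    τ.θ c d k w j = (C (τ.p.v j) * X) ^ N := by
  have := τ.Φ_eq_zero (hc j)
  rw [map_sub, map_sub, sub_eq_zero, map_pow, map_pow, MvPolynomial.map_X, τ.Φ_X] at this
  rw [this, map_sum, map_sum, Test.θ]
  refine Finset.sum_congr rfl fun e _ => ?_
  rw [map_mul, map_mul, τ.Φ_map (hW _ _), hk, map_mul]
  ring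

theorem Test.pr_mu (τ : Test S φK) {d N : ℕ} (hW : ∀ l a, (W l a).IsHomogeneous d)
    (hc : ∀ j, MvPolynomial.X j ^ N - ∑ e, c j e * W e.1 e.2 ∈ Ideal.span (Set.range S.G))
    {k : κ' → τ.F} {w : σ → τ.F} (hk : ∀ l a, τ.ev (W l a) = k l * w a) (j j' : σ) :
    τ.pr (mu S φK W c j j') = (C (τ.p.v j) * X) * (C (τ.p.v j') * X) *
      ((C (τ.p.v j) * X) ^ N * τ.θ c d k (fun a => τ.D (w a)) j' -
        (C (τ.p.v j') * X) ^ N * τ.θ c d k (fun a => τ.D (w a)) j) := by
  rw [← τ.θ_eq hW hc hk j, ← τ.θ_eq hW hc hk j', mul_comm (τ.θ c d k w j'), Test.θ, Test.θ,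
    Test.θ, Test.θ, Finset.sum_mul_sum, Finset.sum_mul_sum, ← Finset.sum_sub_distrib,
    Finset.mul_sum, mu, map_sum]
  refine Finset.sum_congr rfl fun e _ => ?_
  rw [← Finset.sum_sub_distrib, Finset.mul_sum, map_sum]
  refine Finset.sum_congr rfl fun e' _ => ?_
  rw [map_sum]
  have h1 : ∀ a, τ.pr (MvPolynomial.map φK (MvPolynomial.X j' * c j e * c j' e' *
      (W e.1 e.2 * MvPolynomial.pderiv a (W e'.1 e'.2) -
        W e.1 e'.2 * MvPolynomial.pderiv a (W e'.1 e.2))) •
      (⟨eN S φK (j, a), Submodule.subset_span ⟨_, rfl⟩⟩ : MM S φK)) =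
      (C (τ.p.v j') * X * τ.Φ (MvPolynomial.map φK (c j e)) * τ.Φ (MvPolynomial.map φK (c j' e')) *
        (X ^ d * X ^ d * X)) *
        C ((τ.ev (W e.1 e.2) * τ.ev (MvPolynomial.pderiv a (W e'.1 e'.2)) -
          τ.ev (W e.1 e'.2) * τ.ev (MvPolynomial.pderiv a (W e'.1 e.2))) *
            (τ.p.v j * τ.D (τ.p.v a) - τ.p.v a * τ.D (τ.p.v j))) := by
    intro a
    rw [τ.pr_smul]
    change _ * (C (τ.p.v j * τ.D (τ.p.v a) - τ.p.v a * τ.D (τ.p.v j)) * X ^ 2) = _
    have h2 := τ.Φ_pderiv (hW e'.1 e'.2) a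
    have h3 := τ.Φ_pderiv (hW e'.1 e.2) a
    simp only [map_mul, map_sub, MvPolynomial.map_X, τ.Φ_X, τ.Φ_map (hW _ _)]
    set A := C (τ.p.v j') * X * τ.Φ (MvPolynomial.map φK (c j e)) *
      τ.Φ (MvPolynomial.map φK (c j' e'))
    set B := C (τ.p.v j) * C (τ.D (τ.p.v a)) - C (τ.p.v a) * C (τ.D (τ.p.v j))
    linear_combination (A * B * X * X ^ d * C (τ.ev (W e.1 e.2))) * h2 -
      (A * B * X * X ^ d * C (τ.ev (W e.1 e'.2))) * h3
  rw [Finset.sum_congr rfl fun a _ => h1 a, ← Finset.mul_sum, ← map_sum]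
  have h4 : ∑ a, (τ.ev (W e.1 e.2) * τ.ev (MvPolynomial.pderiv a (W e'.1 e'.2)) -
          τ.ev (W e.1 e'.2) * τ.ev (MvPolynomial.pderiv a (W e'.1 e.2))) *
            (τ.p.v j * τ.D (τ.p.v a) - τ.p.v a * τ.D (τ.p.v j)) =
      τ.p.v j * k e.1 * k e'.1 * (w e.2 * τ.D (w e'.2) - w e'.2 * τ.D (w e.2)) := by
    have h5 := τ.D_ev (W e'.1 e'.2)
    have h6 := τ.D_ev (W e'.1 e.2)
    have h7 := τ.euler (hW e'.1 e'.2)
    have h8 := τ.euler (hW e'.1 e.2)
    have h9 : ∑ a, (τ.ev (W e.1 e.2) * τ.ev (MvPolynomial.pderiv a (W e'.1 e'.2)) -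
          τ.ev (W e.1 e'.2) * τ.ev (MvPolynomial.pderiv a (W e'.1 e.2))) *
            (τ.p.v j * τ.D (τ.p.v a) - τ.p.v a * τ.D (τ.p.v j)) =
        τ.p.v j * τ.ev (W e.1 e.2) *
          (∑ a, τ.ev (MvPolynomial.pderiv a (W e'.1 e'.2)) * τ.D (τ.p.v a)) -
        τ.p.v j * τ.ev (W e.1 e'.2) *
          (∑ a, τ.ev (MvPolynomial.pderiv a (W e'.1 e.2)) * τ.D (τ.p.v a)) -
        τ.D (τ.p.v j) * τ.ev (W e.1 e.2) *
          (∑ a, τ.p.v a * τ.ev (MvPolynomial.pderiv a (W e'.1 e'.2))) +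
        τ.D (τ.p.v j) * τ.ev (W e.1 e'.2) *
          (∑ a, τ.p.v a * τ.ev (MvPolynomial.pderiv a (W e'.1 e.2))) := by
      simp only [Finset.mul_sum, ← Finset.sum_sub_distrib, ← Finset.sum_add_distrib]
      exact Finset.sum_congr rfl fun a _ => by ring
    rw [h9, ← h5, ← h6, h7, h8]
    simp only [hk, Derivation.leibniz, smul_eq_mul]
    ring
  rw [h4]
  simp only [map_mul, map_sub]
  ring

end cocycle

theorem exists_max_coord [Fintype σ] {F : Type} [Field F] (O : ValuationSubring F) (w : σ → F)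
    (h : ∃ a, w a ≠ 0) : ∃ j, w j ≠ 0 ∧ ∀ a, w a / w j ∈ O := by
  obtain ⟨a₀, h0⟩ := h
  obtain ⟨j, -, hj⟩ := Finset.exists_max_image Finset.univ (fun a => O.valuation (w a))
    ⟨a₀, Finset.mem_univ _⟩
  have h1 : 0 < O.valuation (w j) :=
    lt_of_lt_of_le (by simpa [zero_lt_iff] using h0) (hj a₀ (Finset.mem_univ _))
  refine ⟨j, by simpa [zero_lt_iff] using h1, fun a => ?_⟩
  rw [← O.valuation_le_one_iff, map_div₀, div_le_one₀ h1]
  exact hj a (Finset.mem_univ _)

theorem isMaximal_span_X : (Ideal.span (Set.range (MvPolynomial.X : σ → MvPolynomial σ K))).IsMaximal := by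
  have : Ideal.span (Set.range (MvPolynomial.X : σ → MvPolynomial σ K)) =
      RingHom.ker (MvPolynomial.constantCoeff : MvPolynomial σ K →+* K) := by
    ext P
    rw [← Set.image_univ, MvPolynomial.mem_ideal_span_X_image, RingHom.mem_ker,
      MvPolynomial.constantCoeff_eq]
    constructor
    · intro h
      by_contra h0
      obtain ⟨i, -, hi⟩ := h 0 (MvPolynomial.mem_support_iff.2 h0)
      exact hi rfl
    · intro h m hm
      by_contra! h1
      have : m = 0 := Finsupp.ext fun i => h1 i (Set.mem_univ _)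
      exact MvPolynomial.mem_support_iff.1 hm (this ▸ h)
  rw [this]
  exact RingHom.ker_isMaximal_of_surjective _ fun k => ⟨MvPolynomial.C k, by simp⟩

variable (S φK) in
theorem exists_uniform_contraction [Fintype σ] [Fintype κ] [CharZero K] (N₀ : ℕ) :
    ∃ r : ℕ, ∀ (F : Type) [Field F] [Algebra K F] [Algebra.EssFiniteType K F],
      Algebra.trdeg K F ≤ 1 → ∀ z : Pt S F, z.base = (algebraMap K F).comp φK → ∀ y : Pt S K,
      (∀ i, r < i → (Pt.step^[N₀])^[i] z = y.map (algebraMap K F)) →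
      ∀ j, ((Pt.step^[N₀])^[r] z).U j → ∀ a, IsAlgebraic K (((Pt.step^[N₀])^[r] z).nv j a) := by
  classical
  choose κ' hκ' W d N c hW hc hrep using fun i => exists_rep S (N₀ * i)
  let x : σ → MvPolynomial σ K := MvPolynomial.X
  let u : ℕ → ℕ → σ → σ → MM S φK := fun i t j k =>
    (x j * x k) ^ (t - (N i + 1)) • mu S φK (W i) (c i) j k
  have hu : ∀ i, u i ∈ Cech.Z1 x (MM S φK) := by
    intro i
    filter_upwards [eventually_ge_atTop (N i + 1)] with t ht
    refine ⟨fun j k => Cech.rec_pow (x j * x k) (mu S φK (W i) (c i) j k) _ _ ht,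
      fun j k l => MM.ext fun τ => ?_⟩
    obtain ⟨q, hq⟩ := Pt.mk_surjective (Pt.step^[N₀ * i] (Pt.mk τ.p))
    choose k' hk' using hrep i τ.F τ.p q hq
    obtain ⟨s, rfl⟩ := Nat.exists_eq_add_of_le ht
    simp only [u, x, map_add, τ.pr_smul, τ.pr_mu (hW i) (hc i) hk', map_pow, map_mul, τ.Φ_X,
      Nat.add_sub_cancel_left]
    ring
  obtain ⟨r, hr⟩ := Cech.exists_mem_span_later x isMaximal_span_X _ u hu
  refine ⟨r, fun F _ _ _ htr z hz y hy j₀ hj₀ => ?_⟩
  refine Residue.isAlgebraic_of_connection htr _ j₀ (Pt.nv_self hj₀) fun D => ?_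
  obtain ⟨p, rfl⟩ := Pt.mk_surjective z
  let τ : Test S φK := { F := F, D := D, p := p, hp := hz }
  obtain ⟨β, ⟨α, hα⟩, w', hw', hβ⟩ := Submodule.mem_sup.1 hr
  have hw0 : ∀ t j k, τ.pr (w' t j k) = 0 := by
    clear hβ
    induction hw' using Submodule.span_induction with
    | mem v hv =>
      obtain ⟨i, hi, rfl⟩ := hv
      intro t j k
      obtain ⟨y, rfl⟩ := Pt.mk_surjective y
      have h1 := hy i hi
      rw [← Function.iterate_mul, Pt.map_mk] at h1
      choose k' hk' using hrep i F p _ h1.symm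
      have h2 : ∀ j, τ.θ (c i) (d i) k' (fun a => τ.D ((y.map (algebraMap K F)).v a)) j = 0 := by
        intro j
        refine Finset.sum_eq_zero fun e _ => ?_
        have : τ.D ((y.map (algebraMap K F)).v e.2) = 0 := D.map_algebraMap _
        simp only [this, map_zero, mul_zero]
      simp only [u, τ.pr_smul, τ.pr_mu (hW i) (hc i) hk', h2, mul_zero, sub_zero]
    | zero => intro t j k; exact map_zero _
    | add a b _ _ ha hb => intro t j k; simp only [Pi.add_apply, map_add, ha, hb, add_zero]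
    | smul s a _ ha => intro t j k; simp only [Pi.smul_apply, τ.pr_smul, ha, mul_zero]
  obtain ⟨t, ht1, ht2⟩ := (hα.and (eventually_ge_atTop (N r + 1))).exists
  obtain ⟨s, rfl⟩ := Nat.exists_eq_add_of_le ht2
  set w := ((Pt.step^[N₀])^[r] (Pt.mk p)).nv j₀ with hw
  have hq : Pt.mk (((Pt.step^[N₀])^[r] (Pt.mk p)).rep hj₀) = Pt.step^[N₀ * r] (Pt.mk p) := by
    rw [Pt.mk_rep, Function.iterate_mul]
  choose k' hk' using hrep r F p _ hq
  have hk' : ∀ l a, τ.ev (W r l a) = k' l * w a := hk'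
  let θ := τ.θ (c r) (d r) k' (fun a => D (w a))
  let B : σ → F := fun j =>
    (τ.pr (α (N r + 1 + s) j) + (C (p.v j) * X) ^ (s + 1) * θ j).coeff (N r + 1 + s)
  have hB : ∀ j k, p.v k ^ (N r + 1 + s) * B j = p.v j ^ (N r + 1 + s) * B k := by
    intro j k
    have h1 := congrArg (fun v => τ.pr (v (N r + 1 + s) j k)) hβ
    simp only [Pi.add_apply, map_add, hw0, add_zero, ht1.2, map_sub, u, x, τ.pr_smul,
      τ.pr_mu (hW r) (hc r) hk', map_pow, map_mul, τ.Φ_X, Nat.add_sub_cancel_left] at h1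
    have h2 : X ^ (N r + 1 + s) * (C (p.v k ^ (N r + 1 + s)) *
          (τ.pr (α (N r + 1 + s) j) + (C (p.v j) * X) ^ (s + 1) * θ j)) =
        X ^ (N r + 1 + s) * (C (p.v j ^ (N r + 1 + s)) *
          (τ.pr (α (N r + 1 + s) k) + (C (p.v k) * X) ^ (s + 1) * θ k)) := by
      simp only [map_pow]
      linear_combination h1
    have h3 := congrArg (coeff · (N r + 1 + s)) (mul_left_cancel₀ (pow_ne_zero _ X_ne_zero) h2)
    simpa only [coeff_C_mul] using h3
  obtain ⟨j₁, hj₁⟩ := p.unit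
  refine ⟨B j₁ / p.v j₁ ^ (N r + 1 + s), fun O hK => ?_⟩
  obtain ⟨j, hj0, hj⟩ := exists_max_coord O p.v ⟨j₁, hj₁.ne_zero⟩
  obtain ⟨l, hl0, hl⟩ := exists_max_coord O w ⟨j₀, by rw [hw, Pt.nv_self hj₀]; exact one_ne_zero⟩
  refine ⟨l, hl0, hl, ?_⟩
  have h1 : B j₁ / p.v j₁ ^ (N r + 1 + s) = B j / p.v j ^ (N r + 1 + s) := by
    rw [div_eq_div_iff (pow_ne_zero _ hj₁.ne_zero) (pow_ne_zero _ hj0)]
    linear_combination hB j₁ j
  let ρ : κ' r × σ → F := fun e =>
    (τ.Φ (MvPolynomial.map φK (c r j e)) * (C (k' e.1) * X ^ d r)).coeff (N r) / p.v j ^ N r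
  have hρ : ∀ v : σ → F, (τ.θ (c r) (d r) k' v j).coeff (N r) / p.v j ^ N r =
      ∑ e, ρ e * v e.2 := by
    intro v
    rw [Test.θ, finsetSum_coeff, Finset.sum_div]
    refine Finset.sum_congr rfl fun e _ => ?_
    rw [coeff_mul_C]
    simp only [ρ]
    ring
  have hρ1 : ∑ e, ρ e * w e.2 = 1 := by
    rw [← hρ, τ.θ_eq (hW r) (hc r) hk', mul_pow, ← map_pow, coeff_C_mul_X_pow, if_pos rfl]
    exact div_self (pow_ne_zero _ hj0)
  have hρ2 : ∀ e, ρ e * w l ∈ O := by
    intro e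
    have h2 := τ.good_Φ O hK hj (MvPolynomial.map φK (c r j e * W r e.1 l)) (N r)
    rw [map_mul, map_mul, τ.Φ_map (hW r _ _), hk', map_mul, mul_right_comm (C (k' e.1)),
      ← mul_assoc, coeff_mul_C] at h2
    simp only [ρ]
    rw [div_mul_eq_mul_div]
    exact h2
  have h2 : B j / p.v j ^ (N r + 1 + s) - D (w l) / w l =
      (τ.pr (α (N r + 1 + s) j)).coeff (N r + 1 + s) / p.v j ^ (N r + 1 + s) +
        ∑ e, ρ e * w l * D (w e.2 / w l) := by
    have h3 : ((C (p.v j) * X) ^ (s + 1) * θ j).coeff (N r + 1 + s) =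
        p.v j ^ (s + 1) * (θ j).coeff (N r) := by
      rw [mul_pow, ← map_pow, mul_assoc, coeff_C_mul, show N r + 1 + s = N r + (s + 1) by ring,
        coeff_X_pow_mul]
    have h4 : ∑ e, ρ e * w l * D (w e.2 / w l) =
        ∑ e, ρ e * D (w e.2) - (∑ e, ρ e * w e.2) * (D (w l) / w l) := by
      rw [Finset.sum_mul, ← Finset.sum_sub_distrib]
      refine Finset.sum_congr rfl fun e _ => ?_
      simp only [Derivation.leibniz_div, smul_eq_mul]
      field_simp
    rw [h4, hρ1, ← hρ fun a => D (w a)]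
    simp only [B, coeff_add, h3, θ]
    field_simp
    ring
  rw [h1, h2]
  exact add_mem (τ.good_pr O hK hj0 hj _ _) (Submodule.sum_mem _ fun e _ =>
    Residue.mul_mem_Reg D O (hρ2 e) (Residue.deriv_mem_Reg D O (hl e.2)))

end Pool.Agent.P.MP_f6c533_ag
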