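import Mathlib

/-! Curves through a rational point of an affine variety. -/

set_option autoImplicit false

namespace Pool.Agent.P.MP_f6c533_ag.Curve

open MvPolynomial

variable {K : Type} [Field K]

theorem exists_prime [Infinite K] {C : Type} [CommRing C] [IsDomain C] [Algebra K C]
    [Algebra.FiniteType K C] (η : C →ₐ[K] K) {h : C} (hh : h ≠ 0) :
    ∃ Q : Ideal C, Q.IsPrime ∧ Q ≤ RingHom.ker η ∧ h ∉ Q ∧ Algebra.trdeg K (C ⧸ Q) ≤ 1 := by
  obtain ⟨s, g, hg, hint⟩ := exists_integral_inj_algHom_of_fg K C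
  let A := MvPolynomial (Fin s) K
  let : Algebra A C := g.toRingHom.toAlgebra
  have : IsScalarTower K A C := IsScalarTower.of_algebraMap_eq fun k => (g.commutes k).symm
  have : FaithfulSMul A C := (faithfulSMul_iff_algebraMap_injective _ _).2 hg
  have : Algebra.IsIntegral A C := ⟨hint⟩
  obtain ⟨a₀, ha₀, hdvd⟩ := (Algebra.IsIntegral.isIntegral (R := A) h).isAlgebraic.exists_nonzero_dvd
    (mem_nonZeroDivisors_of_ne_zero hh)
  obtain ⟨q, hq⟩ : ∃ q : Fin s → K, eval q a₀ ≠ 0 := by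
    by_contra! h
    exact ha₀ (MvPolynomial.funext (by simpa using h))
  let o : Fin s → K := fun i => η (g (X i))
  let ℓ : A →ₐ[K] Polynomial K :=
    aeval fun i => Polynomial.C (o i) + Polynomial.C (q i - o i) * Polynomial.X
  have h0 : ∀ a, (ℓ a).eval 0 = η (g a) := by
    intro a
    have : (Polynomial.aeval (0 : K)).comp ℓ = η.comp g := by
      ext i; simp [ℓ, o]
    simpa [Polynomial.coe_aeval_eq_eval] using AlgHom.congr_fun this a
  have h1 : ∀ a, (ℓ a).eval 1 = eval q a := by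
    intro a
    have : (Polynomial.aeval (1 : K)).comp ℓ = aeval q := by
      ext i; simp [ℓ]
    have h2 := AlgHom.congr_fun this a
    rw [AlgHom.comp_apply, Polynomial.coe_aeval_eq_eval] at h2
    exact h2
  let 𝔮 : Ideal A := RingHom.ker ℓ
  have : 𝔮.IsPrime := RingHom.ker_isPrime _
  let 𝔪 : Ideal C := RingHom.ker η
  have : 𝔪.IsPrime := RingHom.ker_isPrime _
  have hle : 𝔮 ≤ 𝔪.under A := by
    intro a ha
    change η (g a) = 0
    rw [← h0, show ℓ a = 0 from ha, Polynomial.eval_zero]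
  obtain ⟨Q, hQ1, hQ2, hQ3⟩ := Ideal.exists_ideal_le_liesOver_of_le (p := 𝔮) (q := 𝔪.under A) 𝔪 hle
  refine ⟨Q, hQ2, hQ1, fun hQ => ?_, ?_⟩
  · have h2 : a₀ ∈ 𝔮 := by
      rw [Q.over_def 𝔮]
      exact Ideal.mem_of_dvd Q hdvd hQ
    apply hq
    rw [← h1, show ℓ a₀ = 0 from h2, Polynomial.eval_zero]
  · have h2 := trdeg_add_eq K (A ⧸ 𝔮) (A := C ⧸ Q)
    have h3 : Algebra.trdeg (A ⧸ 𝔮) (C ⧸ Q) = 0 := trdeg_eq_zero_iff.2 inferInstance
    rw [← h2, h3, add_zero, ← Polynomial.trdeg_of_isDomain (R := K)]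
    exact trdeg_le_of_injective (Ideal.kerLiftAlg ℓ) (Ideal.kerLiftAlg_injective ℓ)

theorem exists_curve [Infinite K] {σ : Type} [Finite σ] (y : σ → K)
    (P : Ideal (MvPolynomial σ K)) [P.IsPrime] (hP : P ≤ RingHom.ker (aeval y : _ →ₐ[K] K))
    {h : MvPolynomial σ K} (hh : h ∉ P) :
    ∃ (F : Type) (_ : Field F) (_ : Algebra K F) (_ : Algebra.EssFiniteType K F),
      Algebra.trdeg K F ≤ 1 ∧ ∃ γ : MvPolynomial σ K →ₐ[K] F, (∀ a ∈ P, γ a = 0) ∧ γ h ≠ 0 ∧
        ∀ a, γ a = 0 → aeval y a = 0 := by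
  let C := MvPolynomial σ K ⧸ P
  let η : C →ₐ[K] K := Ideal.Quotient.liftₐ P (aeval y) fun a ha => hP ha
  obtain ⟨Q, hQ, hQ1, hQ2, hQ3⟩ := exists_prime η (h := Ideal.Quotient.mk P h)
    (fun h0 => hh (Ideal.Quotient.eq_zero_iff_mem.1 h0))
  let F := FractionRing (C ⧸ Q)
  have : Algebra.EssFiniteType (C ⧸ Q) F :=
    Algebra.EssFiniteType.of_isLocalization F (nonZeroDivisors (C ⧸ Q))
  let γ : MvPolynomial σ K →ₐ[K] F := (IsScalarTower.toAlgHom K (C ⧸ Q) F).comp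
    ((Ideal.Quotient.mkₐ K Q).comp (Ideal.Quotient.mkₐ K P))
  have hγ : ∀ a, γ a = 0 ↔ Ideal.Quotient.mk P a ∈ Q := fun a => by
    simp [γ, Ideal.Quotient.eq_zero_iff_mem]
    rfl
  refine ⟨F, inferInstance, inferInstance, Algebra.EssFiniteType.comp K (C ⧸ Q) F, ?_, γ,
    fun a ha => ?_, fun h0 => hQ2 ((hγ _).1 h0), fun a ha => hQ1 ((hγ _).1 ha)⟩
  · have h2 := trdeg_add_eq K (C ⧸ Q) (A := F)
    have h3 : Algebra.trdeg (C ⧸ Q) F = 0 :=
      trdeg_eq_zero_iff.2 (IsLocalization.isAlgebraic F (nonZeroDivisors (C ⧸ Q)))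
    rwa [← h2, h3, add_zero]
  · rw [hγ, Ideal.Quotient.eq_zero_iff_mem.2 ha]
    exact Q.zero_mem

/-- An algebraic function on the curve vanishing at the point vanishes. -/
theorem eq_zero_of_isAlgebraic {A F : Type} [CommRing A] [Algebra K A] [Field F] [Algebra K F]
    (γ : A →ₐ[K] F) (η : A →ₐ[K] K) (hγ : ∀ a, γ a = 0 → η a = 0) {a s : A} (ha : η a = 0)
    (hs : η s ≠ 0) {β : F} (hβ : β * γ s = γ a) (halg : IsAlgebraic K β) : β = 0 := by
  by_contra h0
  have h1 := minpoly.coeff_zero_ne_zero halg.isIntegral h0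
  let p : Polynomial A := (minpoly K β).map (algebraMap K A)
  have h2 := Polynomial.scaleRoots_eval₂_mul (p := p) (γ : A →+* F) β s
  have h3 : Polynomial.eval₂ (γ : A →+* F) β p = 0 := by
    rw [Polynomial.eval₂_map, AlgHom.comp_algebraMap, ← Polynomial.aeval_def, minpoly.aeval]
  rw [h3, mul_zero, RingHom.coe_coe, mul_comm, hβ] at h2
  have h4 : γ (Polynomial.eval a (p.scaleRoots s)) = 0 := by
    rw [← h2]
    exact (Polynomial.eval₂_at_apply (γ : A →+* F) a).symm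
  have h5 := hγ _ h4
  have h6 := Polynomial.eval₂_at_apply (p := p.scaleRoots s) (η : A →+* K) a
  rw [RingHom.coe_coe, h5, ha, Polynomial.eval₂_at_zero, Polynomial.coeff_scaleRoots] at h6
  simp only [p, Polynomial.coeff_map, map_mul, map_pow, RingHom.coe_coe, AlgHom.commutes] at h6
  exact mul_ne_zero h1 (pow_ne_zero _ hs) h6

end Pool.Agent.P.MP_f6c533_ag.Curve
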