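import Mathlib
import Pool.Agent.P.MP_f6c533_ag.Contract
import Pool.Agent.P.MP_f6c533_ag.Curve

/-! Charts for iterates, a density lemma, and local rigidity at a fixed point. -/

set_option autoImplicit false

namespace Pool.Agent.P.MP_f6c533_ag

open MvPolynomial

variable {R : Type} [CommRing R] {σ ι κ : Type} {S : Sys R σ ι κ}

theorem Pt.mk_eq_iff_minors {Λ : Type} [CommRing Λ] {p q : PV S Λ} :
    Pt.mk p = Pt.mk q ↔ p.φ = q.φ ∧ ∀ a a', p.v a * q.v a' = p.v a' * q.v a := by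
  rw [Pt.mk_eq_iff]
  refine and_congr_right fun _ => ⟨?_, fun h => ?_⟩
  · rintro ⟨u, hu⟩ a a'
    rw [hu, hu]; ring
  · obtain ⟨b, hb⟩ := p.unit
    obtain ⟨b', hb'⟩ := q.unit
    obtain ⟨β, hβ⟩ := hb.exists_right_inv
    have h4 : ∀ a, q.v a = (q.v b * β) * p.v a := fun a => by
      linear_combination β * h b a - q.v a * hβ
    have h5 : IsUnit (q.v b * β) := isUnit_of_mul_isUnit_left (h4 b' ▸ hb')
    exact ⟨h5.unit, h4⟩

/-- Where `c` is a unit, the `n`-th iterate is given by the tuple `Ψ`. -/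
def IsChart (S : Sys R σ ι κ) (n : ℕ) (c : MvPolynomial σ R) (Ψ : σ → MvPolynomial σ R) : Prop :=
  ∀ (Λ : Type) [CommRing Λ] [IsLocalRing Λ] (p : PV S Λ), IsUnit (eval₂ p.φ p.v c) →
    ∃ q : PV S Λ, q.φ = p.φ ∧ (∀ a, q.v a = eval₂ p.φ p.v (Ψ a)) ∧
      Pt.step^[n] (Pt.mk p) = Pt.mk q

theorem exists_chart {Λ : Type} [CommRing Λ] [IsLocalRing Λ] (p : PV S Λ) (n : ℕ) :
    ∃ c Ψ, IsChart S n c Ψ ∧ IsUnit (eval₂ p.φ p.v c) := by
  induction n with
  | zero =>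
    exact ⟨1, X, fun Λ' _ _ p' _ => ⟨p', rfl, fun a => (eval₂_X _ _ _).symm, rfl⟩, by simp⟩
  | succ n ih =>
    obtain ⟨c, Ψ, hc, hu⟩ := ih
    have key : ∀ (Λ' : Type) [CommRing Λ'] (p' q' : PV S Λ'), q'.φ = p'.φ →
        (∀ a, q'.v a = eval₂ p'.φ p'.v (Ψ a)) → ∀ P : MvPolynomial σ R,
        eval₂ p'.φ p'.v (bind₁ Ψ P) = eval₂ q'.φ q'.v P := by
      intro Λ' _ p' q' h1 h2 P
      rw [← coe_eval₂Hom, eval₂Hom_bind₁, h1, show q'.v = _ from funext h2]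
      rfl
    obtain ⟨q, hq1, hq2, -⟩ := hc Λ p hu
    obtain ⟨l, a₀, hl⟩ := q.exists_col
    refine ⟨c * bind₁ Ψ (S.W l a₀), fun a => bind₁ Ψ (S.W l a), fun Λ' _ _ p' h => ?_, ?_⟩
    · rw [eval₂_mul, IsUnit.mul_iff] at h
      obtain ⟨q', h1, h2, h3⟩ := hc Λ' p' h.1
      have h4 := h.2
      rw [key Λ' p' q' h1 h2] at h4
      refine ⟨q'.col l ⟨a₀, h4⟩, h1, fun a => (key Λ' p' q' h1 h2 _).symm, ?_⟩
      rw [Function.iterate_succ_apply', h3, Pt.step_mk q' l ⟨a₀, h4⟩]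
    · rw [eval₂_mul, key Λ p q hq1 hq2]
      exact hu.mul hl

theorem density {A K D : Type} [CommRing A] [Field K] [Field D] (ψ : A →+* K)
    (E : Set (A →+* D)) (hE : ∀ a, (∀ e ∈ E, e a = 0) → ψ a = 0) (u : Pt S A) {n m : ℕ}
    (h : ∀ e ∈ E, Pt.step^[n] (u.map e) = Pt.step^[m] (u.map e)) :
    Pt.step^[n] (u.map ψ) = Pt.step^[m] (u.map ψ) := by
  obtain ⟨u, rfl⟩ := u.mk_surjective
  obtain ⟨c₁, Ψ₁, hc₁, hu₁⟩ := exists_chart (u.map ψ) n
  obtain ⟨c₂, Ψ₂, hc₂, hu₂⟩ := exists_chart (u.map ψ) m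
  obtain ⟨q₁, h₁, h₁', h₁''⟩ := hc₁ K _ hu₁
  obtain ⟨q₂, h₂, h₂', h₂''⟩ := hc₂ K _ hu₂
  rw [Pt.map_mk, h₁'', h₂'', Pt.mk_eq_iff_minors]
  refine ⟨h₁.trans h₂.symm, fun a a' => ?_⟩
  have h3 := hE (eval₂ u.φ u.v (c₁ * c₂ * (Ψ₁ a * Ψ₂ a' - Ψ₁ a' * Ψ₂ a))) fun e he => by
    rw [← PV.map_eval, eval₂_mul, eval₂_mul]
    by_cases k₁ : eval₂ (u.map e).φ (u.map e).v c₁ = 0
    · rw [k₁, zero_mul, zero_mul]
    by_cases k₂ : eval₂ (u.map e).φ (u.map e).v c₂ = 0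
    · rw [k₂, mul_zero, zero_mul]
    obtain ⟨r₁, -, l₁', l₁''⟩ := hc₁ D _ (Ne.isUnit k₁)
    obtain ⟨r₂, -, l₂', l₂''⟩ := hc₂ D _ (Ne.isUnit k₂)
    have h4 := h e he
    rw [Pt.map_mk, l₁'', l₂'', Pt.mk_eq_iff_minors] at h4
    rw [eval₂_sub, eval₂_mul, eval₂_mul, ← l₁', ← l₁', ← l₂', ← l₂', h4.2 a a', sub_self, mul_zero]
  rw [← PV.map_eval, eval₂_mul, eval₂_mul, (hu₁.mul hu₂).mul_right_eq_zero, eval₂_sub,
    eval₂_mul, eval₂_mul, ← h₁', ← h₁', ← h₂', ← h₂'] at h3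
  exact sub_eq_zero.1 h3

theorem exists_prime_map {A : Type} [CommRing A] [IsDomain A] (y : σ → A)
    (P : Ideal (MvPolynomial σ A)) [P.IsPrime] (hP : P ≤ RingHom.ker (eval y)) :
    ∃ P' : Ideal (MvPolynomial σ (FractionRing A)), P'.IsPrime ∧
      P' ≤ RingHom.ker (aeval (R := FractionRing A) fun a => algebraMap A (FractionRing A) (y a)) ∧
      ∀ q, map (algebraMap A (FractionRing A)) q ∈ P' ↔ q ∈ P := by
  let K := FractionRing A
  let : Algebra (MvPolynomial σ A) (MvPolynomial σ K) := MvPolynomial.algebraMvPolynomial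
  let M : Submonoid (MvPolynomial σ A) := (nonZeroDivisors A).map (C (σ := σ))
  have : IsLocalization M (MvPolynomial σ K) := MvPolynomial.isLocalization _ _
  have hd : Disjoint (M : Set (MvPolynomial σ A)) P := by
    rw [Set.disjoint_left]
    rintro _ ⟨a, ha, rfl⟩ h
    have h1 := hP h
    rw [RingHom.mem_ker, eval_C] at h1
    exact nonZeroDivisors.ne_zero ha h1
  refine ⟨P.map (algebraMap _ _), IsLocalization.isPrime_of_isPrime_disjoint M _ P ‹_› hd, ?_,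
    fun q => ?_⟩
  · rw [Ideal.map_le_iff_le_comap]
    intro q hq
    have h1 : eval y q = 0 := hP hq
    change aeval _ (map (algebraMap A K) q) = 0
    rw [aeval_map_algebraMap, show (fun a => algebraMap A K (y a)) = algebraMap A K ∘ y from rfl,
      aeval_algebraMap_apply, aeval_eq_eval, h1, map_zero]
  · conv_rhs => rw [← IsLocalization.under_map_of_isPrime_disjoint M (MvPolynomial σ K) ‹_› hd]
    rfl

theorem rigid [Fintype σ] [Fintype κ] {A : Type} [CommRing A] [IsDomain A] [CharZero A] (N : ℕ)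
    (y : PV S A) {j : σ} (hj : y.v j = 1)
    (hy : Pt.step^[N] ((Pt.mk y).map (algebraMap A (FractionRing A))) =
      (Pt.mk y).map (algebraMap A (FractionRing A))) :
    ∃ (r : ℕ) (c : MvPolynomial σ A), eval y.v c ≠ 0 ∧
      ∀ (D : Type) [Field D] (e : A →+* D) (w : PV S D), w.φ = e.comp y.φ → w.v j = 1 →
        eval₂ e w.v c ≠ 0 → (Pt.step^[N])^[r + 1] (Pt.mk w) = (Pt.mk y).map e →
        (Pt.step^[N])^[r] (Pt.mk w) = (Pt.mk y).map e := by
  classical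
  let K := FractionRing A
  let ψ := algebraMap A K
  have hψ : Function.Injective ψ := IsFractionRing.injective A K
  obtain ⟨r, hr⟩ := exists_uniform_contraction S (ψ.comp y.φ) N
  have hfix : ∀ i, (Pt.step^[N])^[i] (Pt.mk (y.map ψ)) = Pt.mk (y.map ψ) := fun i =>
    Function.iterate_fixed hy i
  obtain ⟨c₁, Ψ₁, hc₁, hu₁⟩ := exists_chart (y.map ψ) (N * r)
  obtain ⟨c₂, Ψ₂, hc₂, hu₂⟩ := exists_chart (y.map ψ) (N * (r + 1))
  let μ : MvPolynomial σ R →+* MvPolynomial σ A := map y.φ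
  have hμ : ∀ (D : Type) [CommRing D] (e : A →+* D) (w : PV S D), w.φ = e.comp y.φ →
      ∀ P, eval₂ e w.v (μ P) = eval₂ w.φ w.v P := by
    intro D _ e w hw P
    rw [hw, eval₂_map]
  have hη : ∀ q, ψ (eval y.v q) = eval₂ ψ (y.map ψ).v q := fun q =>
    eval₂_comp_left ψ (RingHom.id A) y.v q
  let h₁ : σ → MvPolynomial σ A := fun a => μ (Ψ₁ a) - C (y.v a) * μ (Ψ₁ j)
  let h₂ : σ → σ → MvPolynomial σ A := fun a a' =>
    μ (Ψ₂ a) * C (y.v a') - μ (Ψ₂ a') * C (y.v a)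
  let I : Ideal (MvPolynomial σ A) := Ideal.span
    (Set.range (fun i => μ (S.G i)) ∪ {X j - 1} ∪ Set.range fun p : σ × σ => h₂ p.1 p.2)
  obtain ⟨q₁, k₁, k₁', k₁''⟩ := hc₁ K _ hu₁
  rw [Function.iterate_mul, hfix, Pt.mk_eq_iff_minors] at k₁''
  have key : ∀ a, ∃ (c : MvPolynomial σ A) (M : ℕ), eval y.v c ≠ 0 ∧ c * h₁ a ^ M ∈ I := by
    intro a
    by_contra! hcon
    have : (RingHom.ker (eval y.v)).IsPrime := RingHom.ker_isPrime _
    obtain ⟨P, hP, hIP, hPd⟩ := I.exists_le_prime_disjoint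
      ((RingHom.ker (eval y.v)).primeCompl ⊔ Submonoid.powers (h₁ a)) (by
        rw [Set.disjoint_right]
        intro s hs
        obtain ⟨c, hc, _, ⟨M, rfl⟩, rfl⟩ := Submonoid.mem_sup.1 hs
        exact hcon c M hc)
    rw [Set.disjoint_left] at hPd
    have hP1 : P ≤ RingHom.ker (eval y.v) := fun s hs => by
      by_contra h
      exact hPd hs (Submonoid.mem_sup_left h)
    have hP2 : h₁ a ∉ P := fun h => hPd h (Submonoid.mem_sup_right (Submonoid.mem_powers _))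
    obtain ⟨P', hP', hle, hmem⟩ := exists_prime_map y.v P hP1
    obtain ⟨F, _, _, _, htr, γ, hγ1, hγ2, hγ3⟩ := Curve.exists_curve _ P' hle
      (h := map ψ (h₁ a)) (fun h => hP2 ((hmem _).1 h))
    let e : A →+* F := (algebraMap K F).comp ψ
    have hγ : ∀ q, γ (map ψ q) = eval₂ e (fun a => γ (X a)) q := fun q => by
      conv_lhs => rw [aeval_unique γ, aeval_def, eval₂_map]
      rfl
    have hγI : ∀ q ∈ I, eval₂ e (fun a => γ (X a)) q = 0 := fun q hq => by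
      rw [← hγ]
      exact hγ1 _ ((hmem _).2 (hIP hq))
    have hγj : γ (X j) = 1 := by
      have := hγI (X j - 1) (Ideal.subset_span (Or.inl (Or.inr rfl)))
      rwa [eval₂_sub, eval₂_X, eval₂_one, sub_eq_zero] at this
    let z : PV S F := ⟨e.comp y.φ, fun a => γ (X a), ⟨j, by rw [hγj]; exact isUnit_one⟩, fun i => by
      rw [← eval₂_map]
      exact hγI _ (Ideal.subset_span (Or.inl (Or.inl ⟨i, rfl⟩)))⟩
    have hne : ∀ P, IsUnit (eval₂ (y.map ψ).φ (y.map ψ).v P) → IsUnit (eval₂ z.φ z.v P) := by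
      intro P hP
      refine Ne.isUnit fun h => hP.ne_zero ?_
      rw [← hμ F e z rfl, ← hγ] at h
      have h1 := hγ3 _ h
      rw [← hμ K ψ _ rfl]
      rwa [aeval_def, eval₂_map] at h1
    obtain ⟨z₁, l₁, l₁', l₁''⟩ := hc₁ F z (hne _ hu₁)
    obtain ⟨z₂, l₂, l₂', l₂''⟩ := hc₂ F z (hne _ hu₂)
    rw [Function.iterate_mul] at l₁'' l₂''
    have h5 : (Pt.step^[N])^[r + 1] (Pt.mk z) = (Pt.mk (y.map ψ)).map (algebraMap K F) := by
      rw [l₂'', Pt.map_mk, Pt.mk_eq_iff_minors]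
      refine ⟨l₂, fun a a' => ?_⟩
      have := hγI (h₂ a a') (Ideal.subset_span (Or.inr ⟨(a, a'), rfl⟩))
      rw [eval₂_sub, eval₂_mul, eval₂_mul, eval₂_C, eval₂_C, sub_eq_zero] at this
      rw [l₂', l₂', ← hμ F e z rfl, ← hμ F e z rfl]
      exact this
    have h6 : IsUnit (eval₂ (y.map ψ).φ (y.map ψ).v (Ψ₁ j)) := by
      rw [← k₁']
      obtain ⟨b, hb⟩ := q₁.unit
      have h7 := k₁''.2 j b
      rw [show (y.map ψ).v j = 1 by change ψ (y.v j) = 1; rw [hj, map_one], one_mul] at h7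
      exact isUnit_of_mul_isUnit_right (h7 ▸ hb)
    have h7 : IsUnit (z₁.v j) := by rw [l₁']; exact hne _ h6
    have h8 := hr F htr (Pt.mk z) rfl (Pt.mk (y.map ψ)) (fun i hi => by
      obtain ⟨t, rfl⟩ : ∃ t, i = t + (r + 1) := ⟨i - (r + 1), by omega⟩
      rw [Function.iterate_add_apply, h5, ← Function.iterate_mul, ← Pt.map_iterate,
        Function.iterate_mul, hfix]) j (by rw [l₁'']; exact h7) a
    rw [l₁'', Pt.nv_mk] at h8
    have h9 := Curve.eq_zero_of_isAlgebraic γ _ hγ3 (a := map ψ (h₁ a)) (s := map ψ (μ (Ψ₁ j)))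
      (β := z₁.v a * Ring.inverse (z₁.v j) - algebraMap K F (ψ (y.v a))) ?_ ?_ ?_
      (h8.sub (isAlgebraic_algebraMap _))
    · apply hγ2
      rw [hγ, eval₂_sub, eval₂_mul, eval₂_C, hμ F e z rfl, hμ F e z rfl, ← l₁', ← l₁']
      have h10 := Ring.inverse_mul_cancel _ h7
      change _ - algebraMap K F (ψ (y.v a)) * _ = 0
      linear_combination z₁.v j * h9 - z₁.v a * h10
    · rw [aeval_def, eval₂_map]
      change eval₂ ψ (y.map ψ).v _ = 0
      rw [eval₂_sub, eval₂_mul, eval₂_C, hμ K ψ _ rfl, hμ K ψ _ rfl, ← k₁', ← k₁']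
      have h7 := k₁''.2 j a
      rw [show (y.map ψ).v j = 1 by change ψ (y.v j) = 1; rw [hj, map_one], one_mul] at h7
      exact sub_eq_zero.2 h7
    · rw [aeval_def, eval₂_map]
      change eval₂ ψ (y.map ψ).v _ ≠ 0
      rw [hμ K ψ _ rfl]
      exact h6.ne_zero
    · rw [hγ, hγ, eval₂_sub, eval₂_mul, eval₂_C, hμ F e z rfl, hμ F e z rfl, ← l₁', ← l₁']
      have h10 := Ring.inverse_mul_cancel _ h7
      change _ = _ - algebraMap K F (ψ (y.v a)) * _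
      linear_combination z₁.v a * h10
  choose c M hc hM using key
  refine ⟨r, μ c₁ * μ c₂ * ∏ a, c a, fun h => ?_, fun D _ e w hw hwj hne hstep => ?_⟩
  · rw [map_mul, map_mul, map_prod, mul_eq_zero, mul_eq_zero, Finset.prod_eq_zero_iff] at h
    rcases h with (h | h) | ⟨a, -, h⟩
    · exact hu₁.ne_zero (by rw [← hμ K ψ _ rfl, ← hη, h, map_zero])
    · exact hu₂.ne_zero (by rw [← hμ K ψ _ rfl, ← hη, h, map_zero])
    · exact hc a h
  · rw [eval₂_mul, eval₂_mul, eval₂_prod, hμ D e w hw, hμ D e w hw] at hne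
    obtain ⟨w₁, l₁, l₁', l₁''⟩ := hc₁ D w (Ne.isUnit (left_ne_zero_of_mul (left_ne_zero_of_mul hne)))
    obtain ⟨w₂, l₂, l₂', l₂''⟩ := hc₂ D w (Ne.isUnit (right_ne_zero_of_mul (left_ne_zero_of_mul hne)))
    rw [Function.iterate_mul] at l₁'' l₂''
    rw [l₂'', Pt.map_mk, Pt.mk_eq_iff_minors] at hstep
    have hI : I ≤ RingHom.ker (eval₂Hom e w.v) := by
      rw [Ideal.span_le]
      rintro _ ((⟨i, rfl⟩ | rfl) | ⟨⟨a, a'⟩, rfl⟩)
      · change eval₂ e w.v _ = 0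
        rw [hμ D e w hw, w.zero]
      · change eval₂ e w.v _ = 0
        rw [eval₂_sub, eval₂_X, eval₂_one, hwj, sub_self]
      · change eval₂ e w.v _ = 0
        rw [eval₂_sub, eval₂_mul, eval₂_mul, eval₂_C, eval₂_C, hμ D e w hw, hμ D e w hw, ← l₂', ← l₂']
        exact sub_eq_zero.2 (hstep.2 a a')
    have h1 : ∀ a, w₁.v a = e (y.v a) * w₁.v j := by
      intro a
      have h2 : eval₂ e w.v (c a * h₁ a ^ M a) = 0 := hI (hM a)
      rw [eval₂_mul, eval₂_pow, mul_eq_zero] at h2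
      rcases h2 with h2 | h2
      · exact absurd h2 (Finset.prod_ne_zero_iff.1 (right_ne_zero_of_mul hne) a (Finset.mem_univ a))
      · have h3 := pow_eq_zero_iff'.1 h2
        have h4 := h3.1
        rwa [eval₂_sub, eval₂_mul, eval₂_C, hμ D e w hw, hμ D e w hw, ← l₁', ← l₁',
          sub_eq_zero] at h4
    rw [l₁'', Pt.map_mk, Pt.mk_eq_iff_minors]
    refine ⟨l₁.trans hw, fun a a' => ?_⟩
    change _ * e (y.v a') = _ * e (y.v a)
    rw [h1 a, h1 a']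
    ring

end Pool.Agent.P.MP_f6c533_ag
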