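import Mathlib
import Pool.Agent.P.MP_f6c533_ag.Ev
import Pool.Agent.P.MP_f6c533_ag.Rigid

/-! From a scheme with projective coordinates and a self-map to a polynomial system. -/

set_option autoImplicit false

namespace Pool.Agent.P.MP_f6c533_ag

open AlgebraicGeometry CategoryTheory MvPolynomial Filter

theorem hom_eq_eval₂ {B Λ σ : Type} [CommRing B] [CommRing Λ] (e : MvPolynomial σ B →+* Λ)
    (P : MvPolynomial σ B) : e P = eval₂ (e.comp C) (fun a => e (X a)) P := by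
  have := eval₂_comp_left e C X P
  rwa [eval₂_eta] at this

theorem eventually_homog {B σ : Type} [CommRing B] (j : σ) (q : MvPolynomial σ B) :
    ∀ᶠ d in atTop, ∃ H : MvPolynomial σ B, H.IsHomogeneous d ∧ X j ∣ H ∧
      ∀ (Λ : Type) [CommRing Λ] (e : MvPolynomial σ B →+* Λ), e (X j) = 1 → e H = e q := by
  filter_upwards [eventually_ge_atTop (q.totalDegree + 1)] with d hd
  refine ⟨∑ i ∈ Finset.range (q.totalDegree + 1), homogeneousComponent i q * X j ^ (d - i),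
    IsHomogeneous.sum _ _ _ fun i hi => ?_, Finset.dvd_sum fun i hi => ?_, fun Λ _ e he => ?_⟩
  · have := (homogeneousComponent_isHomogeneous i q).mul ((isHomogeneous_X B j).pow (d - i))
    rwa [one_mul, Nat.add_sub_cancel' (by have := Finset.mem_range.1 hi; omega)] at this
  · exact (dvd_pow_self _ (by have := Finset.mem_range.1 hi; omega)).mul_left _
  · conv_rhs => rw [← sum_homogeneousComponent q]
    simp [he]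

/-- Affine charts with homogeneous coordinates over a base ring `B`. -/
structure Atlas (Z : Scheme.{0}) (B : Type) [CommRing B] (σ : Type) where
  O : σ → Z.Opens
  aff : ∀ j, IsAffineOpen (O j)
  θ : ∀ j, MvPolynomial σ B →+* Γ(Z, O j)
  surj : ∀ j, Function.Surjective (θ j)
  one : ∀ j, θ j (X j) = 1
  basic : ∀ j k, Z.basicOpen (θ j (X k)) = O j ⊓ O k
  evC : ∀ (Λ : Type) [CommRing Λ] (t : Spec (CommRingCat.of Λ) ⟶ Z) (j k : σ)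
    (hj : ⊤ ≤ t ⁻¹ᵁ O j) (hk : ⊤ ≤ t ⁻¹ᵁ O k) (r : B),
    ev t (O j) hj (θ j (C r)) = ev t (O k) hk (θ k (C r))
  evX : ∀ (Λ : Type) [CommRing Λ] (t : Spec (CommRingCat.of Λ) ⟶ Z) (j k : σ)
    (hj : ⊤ ≤ t ⁻¹ᵁ O j) (hk : ⊤ ≤ t ⁻¹ᵁ O k) (a : σ),
    ev t (O j) hj (θ j (X a)) = ev t (O j) hj (θ j (X k)) * ev t (O k) hk (θ k (X a))

namespace Atlas

variable {Z : Scheme.{0}} {B : Type} [CommRing B] {σ : Type} (𝒜 : Atlas Z B σ)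
  {Λ Λ' : Type} [CommRing Λ] [CommRing Λ']

/-- Evaluation of a polynomial at a point in the chart `j`. -/
noncomputable def e (t : Spec (CommRingCat.of Λ) ⟶ Z) (j : σ) (hj : ⊤ ≤ t ⁻¹ᵁ 𝒜.O j) :
    MvPolynomial σ B →+* Λ := (ev t _ hj).comp (𝒜.θ j)

theorem e_one (t : Spec (CommRingCat.of Λ) ⟶ Z) (j : σ) (hj : ⊤ ≤ t ⁻¹ᵁ 𝒜.O j) :
    𝒜.e t j hj (X j) = 1 := by
  rw [e, RingHom.comp_apply, 𝒜.one, map_one]

theorem e_C (t : Spec (CommRingCat.of Λ) ⟶ Z) (j k : σ) (hj : ⊤ ≤ t ⁻¹ᵁ 𝒜.O j)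
    (hk : ⊤ ≤ t ⁻¹ᵁ 𝒜.O k) : (𝒜.e t j hj).comp C = (𝒜.e t k hk).comp C :=
  RingHom.ext fun r => 𝒜.evC Λ t j k hj hk r

theorem e_X (t : Spec (CommRingCat.of Λ) ⟶ Z) (j k : σ) (hj : ⊤ ≤ t ⁻¹ᵁ 𝒜.O j)
    (hk : ⊤ ≤ t ⁻¹ᵁ 𝒜.O k) (a : σ) :
    𝒜.e t j hj (X a) = 𝒜.e t j hj (X k) * 𝒜.e t k hk (X a) := 𝒜.evX Λ t j k hj hk a

theorem e_homog (t : Spec (CommRingCat.of Λ) ⟶ Z) (j k : σ) (hj : ⊤ ≤ t ⁻¹ᵁ 𝒜.O j)
    (hk : ⊤ ≤ t ⁻¹ᵁ 𝒜.O k) {P : MvPolynomial σ B} {d : ℕ} (hP : P.IsHomogeneous d) :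
    𝒜.e t j hj P = 𝒜.e t j hj (X k) ^ d * 𝒜.e t k hk P := by
  rw [hom_eq_eval₂ _ P, hom_eq_eval₂ (𝒜.e t k hk) P, ← eval₂_smul_of_isHomogeneous hP,
    𝒜.e_C t j k hj hk, funext (𝒜.e_X t j k hj hk)]

theorem isUnit_e_iff (t : Spec (CommRingCat.of Λ) ⟶ Z) (j k : σ) (hj : ⊤ ≤ t ⁻¹ᵁ 𝒜.O j) :
    IsUnit (𝒜.e t j hj (X k)) ↔ ⊤ ≤ t ⁻¹ᵁ 𝒜.O k := by
  rw [e, RingHom.comp_apply, isUnit_ev_iff, 𝒜.basic, Scheme.Hom.preimage_inf, le_inf_iff,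
    and_iff_right hj]

theorem eq_of_e_eq {t t' : Spec (CommRingCat.of Λ) ⟶ Z} {j : σ} {hj : ⊤ ≤ t ⁻¹ᵁ 𝒜.O j}
    {hj' : ⊤ ≤ t' ⁻¹ᵁ 𝒜.O j} (h : 𝒜.e t j hj = 𝒜.e t' j hj') : t = t' := by
  have h1 : ev t _ hj = ev t' _ hj' := RingHom.ext fun a => by
    obtain ⟨q, rfl⟩ := 𝒜.surj j a
    exact RingHom.congr_fun h q
  rw [eq_fromSpec (𝒜.aff j) t hj, h1, ← eq_fromSpec (𝒜.aff j) t' hj']

/-- The polynomial vanishes at all points. -/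
def Van (P : MvPolynomial σ B) : Prop :=
  ∀ (L : Type) [Field L] (t : Spec (CommRingCat.of L) ⟶ Z) (j : σ) (hj : ⊤ ≤ t ⁻¹ᵁ 𝒜.O j),
    𝒜.e t j hj P = 0

theorem Van.e_eq_zero {𝒜 : Atlas Z B σ} {P : MvPolynomial σ B} (h : 𝒜.Van P) [IsReduced Λ]
    (t : Spec (CommRingCat.of Λ) ⟶ Z) (j : σ) (hj : ⊤ ≤ t ⁻¹ᵁ 𝒜.O j) : 𝒜.e t j hj P = 0 :=
  ((isNilpotent_of_ev (𝒜.aff j) fun L _ t ht => h L t j ht).map (ev t _ hj)).eq_zero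

theorem exists_point {L : Type} [Field L] (ε : MvPolynomial σ B →+* L) {j : σ} (hj : ε (X j) = 1)
    (h : ∀ P d, P.IsHomogeneous d → 𝒜.Van P → ε P = 0) :
    ∃ (t : Spec (CommRingCat.of L) ⟶ Z) (ht : ⊤ ≤ t ⁻¹ᵁ 𝒜.O j), 𝒜.e t j ht = ε := by
  have hker : RingHom.ker (𝒜.θ j) ≤ RingHom.ker ε := by
    intro q hq
    obtain ⟨d, H, hH, ⟨H', rfl⟩, hH'⟩ := (eventually_homog j q).exists
    rw [RingHom.mem_ker, ← hH' L ε hj]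
    refine h _ d hH fun L' _ t k hk => ?_
    by_cases h1 : 𝒜.e t k hk (X j) = 0
    · rw [map_mul, h1, zero_mul]
    · have h2 := (𝒜.isUnit_e_iff t k j hk).1 (Ne.isUnit h1)
      have h3 : 𝒜.e t j h2 q = 0 := by
        rw [e, RingHom.comp_apply, show 𝒜.θ j q = 0 from hq, map_zero]
      rw [𝒜.e_homog t k j hk h2 hH, hH' _ _ (𝒜.e_one t j h2), h3, mul_zero]
  let φ := (𝒜.θ j).liftOfSurjective (𝒜.surj j) ⟨ε, hker⟩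
  refine ⟨_, le_fromSpec (𝒜.aff j) φ, ?_⟩
  rw [e, ev_fromSpec]
  exact (𝒜.θ j).liftOfRightInverse_comp _ _ _

variable (f : Z ⟶ Z)

/-- The tuple `W` is proportional to the coordinates of the image point. -/
def Good (W : σ → MvPolynomial σ B) : Prop :=
  ∀ (L : Type) [Field L] (t : Spec (CommRingCat.of L) ⟶ Z) (j : σ) (hj : ⊤ ≤ t ⁻¹ᵁ 𝒜.O j)
    (k : σ) (hk : ⊤ ≤ (t ≫ f) ⁻¹ᵁ 𝒜.O k), ∃ c : L, ∀ a, 𝒜.e t j hj (W a) = c * 𝒜.e (t ≫ f) k hk (X a)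

/-- The tuple `W` has no common zero on `D`. -/
def NonVan (W : σ → MvPolynomial σ B) (D : Z.Opens) : Prop :=
  ∀ (L : Type) [Field L] (t : Spec (CommRingCat.of L) ⟶ Z) (j : σ) (hj : ⊤ ≤ t ⁻¹ᵁ 𝒜.O j),
    ⊤ ≤ t ⁻¹ᵁ D → ∃ a, 𝒜.e t j hj (W a) ≠ 0

theorem exists_column [Finite σ] {z : Z} {j k : σ} (hj : z ∈ 𝒜.O j) (hk : f z ∈ 𝒜.O k) :
    ∃ D : Z.Opens, z ∈ D ∧ ∀ᶠ d in atTop, ∃ W : σ → MvPolynomial σ B,
      (∀ a, (W a).IsHomogeneous d) ∧ 𝒜.Good f W ∧ 𝒜.NonVan W D := by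
  obtain ⟨s, hs, hzs⟩ := (𝒜.aff j).exists_basicOpen_le (V := f ⁻¹ᵁ 𝒜.O k) ⟨z, hk⟩ hj
  have := (𝒜.aff j).isLocalization_basicOpen s
  obtain ⟨⟨_, m, rfl⟩, hw⟩ := IsLocalization.exist_integer_multiples_of_finite (Submonoid.powers s)
    fun a => f.appLE (𝒜.O k) (Z.basicOpen s) hs (𝒜.θ k (X a))
  choose w hw using hw
  choose Q hQ using fun a => 𝒜.surj j (s * w a)
  have key : ∀ (L : Type) [Field L] (t : Spec (CommRingCat.of L) ⟶ Z) (h1 : ⊤ ≤ t ⁻¹ᵁ 𝒜.O j)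
      (h2 : ⊤ ≤ t ⁻¹ᵁ Z.basicOpen s) (h3 : ⊤ ≤ (t ≫ f) ⁻¹ᵁ 𝒜.O k) (a : σ),
      𝒜.e t j h1 (Q a) = ev t _ h1 s ^ (m + 1) * 𝒜.e (t ≫ f) k h3 (X a) := by
    intro L _ t h1 h2 h3 a
    have h4 := congrArg (ev t _ h2) (hw a)
    rw [Algebra.smul_def, map_mul, ev_appLE t f hs h2 h3] at h4
    have h5 : ∀ x, ev t _ h2 (algebraMap _ Γ(Z, Z.basicOpen s) x) = ev t _ h1 x := fun x =>
      ev_res t (Z.basicOpen_le s) h2 h1 x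
    rw [h5, h5] at h4
    rw [e, RingHom.comp_apply, hQ, map_mul, h4, map_pow, pow_succ', mul_assoc]
    rfl
  have hfk : ∀ (L : Type) [Field L] (t : Spec (CommRingCat.of L) ⟶ Z),
      ⊤ ≤ t ⁻¹ᵁ Z.basicOpen s → ⊤ ≤ (t ≫ f) ⁻¹ᵁ 𝒜.O k := fun L _ t h x hx => hs (h hx)
  refine ⟨Z.basicOpen s, hzs, ?_⟩
  filter_upwards [eventually_all.2 fun a => eventually_homog j (Q a)] with d hd
  choose W hW hWj hWQ using hd
  refine ⟨W, hW, fun L _ t j' hj' k' hk' => ?_, fun L _ t j' hj' hD => ?_⟩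
  · by_cases h1 : 𝒜.e t j' hj' (X j) = 0
    · refine ⟨0, fun a => ?_⟩
      obtain ⟨H, hH⟩ := hWj a
      rw [hH, map_mul, h1, zero_mul, zero_mul]
    have h2 := (𝒜.isUnit_e_iff t j' j hj').1 (Ne.isUnit h1)
    have h3 : ∀ a, 𝒜.e t j' hj' (W a) = 𝒜.e t j' hj' (X j) ^ d * 𝒜.e t j h2 (Q a) := fun a => by
      rw [𝒜.e_homog t j' j hj' h2 (hW a), hWQ _ _ _ (𝒜.e_one t j h2)]
    by_cases h4 : ev t _ h2 s = 0
    · refine ⟨0, fun a => ?_⟩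
      rw [h3, e, e, RingHom.comp_apply (ev t _ h2), hQ, map_mul, h4, zero_mul, mul_zero, zero_mul]
    have h5 := (isUnit_ev_iff t h2 s).1 (Ne.isUnit h4)
    refine ⟨𝒜.e t j' hj' (X j) ^ d * ev t _ h2 s ^ (m + 1) *
      𝒜.e (t ≫ f) k (hfk L t h5) (X k'), fun a => ?_⟩
    rw [h3, key L t h2 h5 (hfk L t h5), 𝒜.e_X (t ≫ f) k k' (hfk L t h5) hk' a]
    ring
  · have h2 : ⊤ ≤ t ⁻¹ᵁ 𝒜.O j := fun x hx => Z.basicOpen_le s (hD hx)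
    refine ⟨k, ?_⟩
    rw [𝒜.e_homog t j' j hj' h2 (hW k), hWQ _ _ _ (𝒜.e_one t j h2), key L t h2 hD (hfk L t hD),
      𝒜.e_one, mul_one]
    exact mul_ne_zero (pow_ne_zero _ ((𝒜.isUnit_e_iff t j' j hj').2 h2).ne_zero)
      (pow_ne_zero _ ((isUnit_ev_iff t h2 s).2 hD).ne_zero)

theorem exists_sys [Finite σ] [IsNoetherianRing B]
    (hmaps : ∀ j, ∀ z ∈ 𝒜.O j, ∃ k, f z ∈ 𝒜.O k)
    (hbase : ∀ (L : Type) [Field L] (t : Spec (CommRingCat.of L) ⟶ Z) (j : σ)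
      (hj : ⊤ ≤ t ⁻¹ᵁ 𝒜.O j) (k : σ) (hk : ⊤ ≤ (t ≫ f) ⁻¹ᵁ 𝒜.O k),
      (𝒜.e (t ≫ f) k hk).comp C = (𝒜.e t j hj).comp C) :
    ∃ (ι κ : Type) (_ : Finite ι) (_ : Fintype κ) (S : Sys B σ ι κ),
      (∀ i, 𝒜.Van (S.G i)) ∧ ∀ l, 𝒜.Good f (S.W l) := by
  classical
  obtain ⟨T, hT, hspan⟩ := (Submodule.fg_span_iff_fg_span_finset_subset
    {P : MvPolynomial σ B | (∃ d, P.IsHomogeneous d) ∧ 𝒜.Van P}).1
    (IsNoetherian.noetherian (R := MvPolynomial σ B) _)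
  have hmem : ∀ P d, P.IsHomogeneous d → 𝒜.Van P →
      P ∈ Ideal.span (Set.range (Subtype.val : T → MvPolynomial σ B)) := by
    intro P d h1 h2
    rw [Subtype.range_coe_subtype]
    exact hspan.le (Submodule.subset_span ⟨⟨d, h1⟩, h2⟩)
  choose dG hdG using fun i : T => (hT i.2).1
  have hcol : ∀ z : ⋃ j, (𝒜.O j : Set Z), ∃ D : Z.Opens, z.1 ∈ D ∧ ∀ᶠ d in atTop,
      ∃ W : σ → MvPolynomial σ B,
      (∀ a, (W a).IsHomogeneous d) ∧ 𝒜.Good f W ∧ 𝒜.NonVan W D := by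
    rintro ⟨z, hz⟩
    obtain ⟨j, hj⟩ := Set.mem_iUnion.1 hz
    obtain ⟨k, hk⟩ := hmaps j z hj
    exact 𝒜.exists_column f hj hk
  choose D hD hW using hcol
  obtain ⟨K, hK⟩ := (isCompact_iUnion fun j => (𝒜.aff j).isCompact).elim_finite_subcover
    (fun z => (D z : Set Z)) (fun z => (D z).isOpen) fun z hz => Set.mem_iUnion.2 ⟨⟨z, hz⟩, hD _⟩
  obtain ⟨d, hd⟩ := (eventually_all.2 fun l : K => hW l).exists
  choose W hW1 hW2 hW3 using hd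
  have himg : ∀ (L : Type) [Field L] (t : Spec (CommRingCat.of L) ⟶ Z) (j : σ),
      ⊤ ≤ t ⁻¹ᵁ 𝒜.O j → ∃ k, ⊤ ≤ (t ≫ f) ⁻¹ᵁ 𝒜.O k := by
    intro L _ t j hj
    obtain ⟨k, hk⟩ := hmaps j _ ((le_preimage_iff t _).1 hj)
    exact ⟨k, (le_preimage_iff _ _).2 hk⟩
  refine ⟨T, K, inferInstance, inferInstance, ⟨Subtype.val, dG, hdG, W, d, hW1,
    fun l l' a a' => hmem _ (d + d) (((hW1 l a).mul (hW1 l' a')).sub ((hW1 l a').mul (hW1 l' a)))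
      fun L _ t j hj => ?_,
    fun l i => hmem _ (d * dG i) ((hdG i).aeval _ (hW1 l)) fun L _ t j hj => ?_, fun j => ?_⟩,
    fun i => (hT i.2).2, hW2⟩
  · obtain ⟨k, hk⟩ := himg L t j hj
    obtain ⟨c, hc⟩ := hW2 l L t j hj k hk
    obtain ⟨c', hc'⟩ := hW2 l' L t j hj k hk
    rw [map_sub, map_mul, map_mul, hc, hc, hc', hc']
    ring
  · obtain ⟨k, hk⟩ := himg L t j hj
    obtain ⟨c, hc⟩ := hW2 l L t j hj k hk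
    have h1 := (hT i.2).2 L (t ≫ f) k hk
    rw [hom_eq_eval₂, hbase L t j hj k hk] at h1
    rw [hom_bind₁, coe_eval₂Hom, funext hc, eval₂_smul_of_isHomogeneous (hdG i), h1, mul_zero]
  · by_contra! hcon
    obtain ⟨P, hP, hIP, hPd⟩ := Ideal.exists_le_prime_disjoint _ (Submonoid.powers (X j))
      (Set.disjoint_right.2 (by rintro _ ⟨N, rfl⟩; exact hcon N))
    let L := P.ResidueField
    let ε₀ : MvPolynomial σ B →+* L := algebraMap _ L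
    have hε₀ : ∀ q, ε₀ q = 0 ↔ q ∈ P := fun q => Ideal.algebraMap_residueField_eq_zero
    have hXj : ε₀ (X j) ≠ 0 := fun h =>
      Set.disjoint_left.1 hPd ((hε₀ _).1 h) (Submonoid.mem_powers _)
    let ε : MvPolynomial σ B →+* L := eval₂Hom (ε₀.comp C) fun a => (ε₀ (X j))⁻¹ * ε₀ (X a)
    have hε : ∀ q d, q.IsHomogeneous d → q ∈ P → ε q = 0 := by
      intro q d h1 h2
      rw [coe_eval₂Hom, eval₂_smul_of_isHomogeneous h1, ← hom_eq_eval₂, (hε₀ q).2 h2, mul_zero]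
    obtain ⟨t, ht, hte⟩ := 𝒜.exists_point ε (j := j)
      (by rw [eval₂Hom_X', inv_mul_cancel₀ hXj])
      fun q d h1 h2 => hε q d h1 (hIP (Ideal.mem_sup_left (hmem q d h1 h2)))
    obtain ⟨l, hl, hl'⟩ := Set.mem_iUnion₂.1
      (hK (Set.mem_iUnion.2 ⟨j, (le_preimage_iff t _).1 ht⟩))
    obtain ⟨a, ha⟩ := hW3 ⟨l, hl⟩ L t j ht ((le_preimage_iff t _).2 hl')
    rw [hte] at ha
    exact ha (hε _ d (hW1 _ a) (hIP (Ideal.mem_sup_right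
      (Ideal.subset_span ⟨(⟨l, hl⟩, a), rfl⟩))))

variable {𝒜 f} {ι κ : Type} {S : Sys B σ ι κ} (hG : ∀ i, 𝒜.Van (S.G i))

/-- Homogeneous coordinates of a point in the chart `j`. -/
noncomputable def pv [IsReduced Λ] (t : Spec (CommRingCat.of Λ) ⟶ Z) (j : σ)
    (hj : ⊤ ≤ t ⁻¹ᵁ 𝒜.O j) : PV S Λ where
  φ := (𝒜.e t j hj).comp C
  v := fun a => 𝒜.e t j hj (X a)
  unit := ⟨j, by rw [𝒜.e_one]; exact isUnit_one⟩
  zero := fun i => by rw [← hom_eq_eval₂, (hG i).e_eq_zero]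

theorem mk_pv_eq [IsReduced Λ] (t : Spec (CommRingCat.of Λ) ⟶ Z) (j k : σ)
    (hj : ⊤ ≤ t ⁻¹ᵁ 𝒜.O j) (hk : ⊤ ≤ t ⁻¹ᵁ 𝒜.O k) :
    Pt.mk (pv hG t j hj) = Pt.mk (pv hG t k hk) :=
  Pt.mk_eq_iff.2 ⟨𝒜.e_C t j k hj hk, ((𝒜.isUnit_e_iff t k j hk).2 hj).unit, 𝒜.e_X t k j hk hj⟩

theorem eq_of_mk_pv_eq [IsReduced Λ] {t t' : Spec (CommRingCat.of Λ) ⟶ Z} {j k : σ}
    {hj : ⊤ ≤ t ⁻¹ᵁ 𝒜.O j} {hk : ⊤ ≤ t' ⁻¹ᵁ 𝒜.O k}
    (h : Pt.mk (pv hG t j hj) = Pt.mk (pv hG t' k hk)) : t = t' := by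
  have h1 : (Pt.mk (pv hG t j hj)).U j := by
    change IsUnit (𝒜.e t j hj (X j))
    rw [𝒜.e_one]; exact isUnit_one
  rw [h] at h1
  have h2 := (𝒜.isUnit_e_iff t' k j hk).1 h1
  rw [mk_pv_eq hG t' k j hk h2] at h
  have h3 := congrArg (fun z => Pt.nv z j) h
  simp only [Pt.nv_mk_of_eq_one (pv hG t j hj) (𝒜.e_one t j hj),
    Pt.nv_mk_of_eq_one (pv hG t' j h2) (𝒜.e_one t' j h2)] at h3
  exact 𝒜.eq_of_e_eq (MvPolynomial.ringHom_ext (RingHom.congr_fun (congrArg Pt.base h))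
    (congrFun h3))

theorem map_mk_pv [IsReduced Λ] [IsReduced Λ'] (ψ : Λ →+* Λ') (t : Spec (CommRingCat.of Λ) ⟶ Z)
    (j : σ) (hj : ⊤ ≤ t ⁻¹ᵁ 𝒜.O j) :
    (Pt.mk (pv hG t j hj)).map ψ =
      Pt.mk (pv hG (Spec.map (CommRingCat.ofHom ψ) ≫ t) j (le_SpecMap ψ hj)) := by
  have h1 : 𝒜.e (Spec.map (CommRingCat.ofHom ψ) ≫ t) j (le_SpecMap ψ hj) =
      ψ.comp (𝒜.e t j hj) := by
    rw [e, ev_SpecMap ψ t hj]
    rfl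
  rw [Pt.map_mk]
  congr 1
  refine PV.ext ?_ (funext fun a => ?_)
  · exact (congrArg (fun g => RingHom.comp g C) h1).symm
  · exact (RingHom.congr_fun h1 (X a)).symm

theorem iterate_eq_iff (hW : ∀ l, 𝒜.Good f (S.W l))
    (hmaps : ∀ j, ∀ z ∈ 𝒜.O j, ∃ k, f z ∈ 𝒜.O k)
    (hbase : ∀ (L : Type) [Field L] (t : Spec (CommRingCat.of L) ⟶ Z) (j : σ)
      (hj : ⊤ ≤ t ⁻¹ᵁ 𝒜.O j) (k : σ) (hk : ⊤ ≤ (t ≫ f) ⁻¹ᵁ 𝒜.O k),
      (𝒜.e (t ≫ f) k hk).comp C = (𝒜.e t j hj).comp C)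
    {L : Type} [Field L] (t : Spec (CommRingCat.of L) ⟶ Z) (j : σ) (hj : ⊤ ≤ t ⁻¹ᵁ 𝒜.O j)
    (n m : ℕ) :
    (fun g : Spec (CommRingCat.of L) ⟶ Z => g ≫ f)^[n] t =
      (fun g : Spec (CommRingCat.of L) ⟶ Z => g ≫ f)^[m] t ↔
    Pt.step^[n] (Pt.mk (pv hG t j hj)) = Pt.step^[m] (Pt.mk (pv hG t j hj)) := by
  have key : ∀ n, ∃ (k : σ)
      (hk : ⊤ ≤ ((fun g : Spec (CommRingCat.of L) ⟶ Z => g ≫ f)^[n] t) ⁻¹ᵁ 𝒜.O k),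
      Pt.step^[n] (Pt.mk (pv hG t j hj)) = Pt.mk (pv hG _ k hk) := by
    intro n
    induction n with
    | zero => exact ⟨j, hj, rfl⟩
    | succ n ih =>
      obtain ⟨k, hk, h⟩ := ih
      rw [Function.iterate_succ_apply', Function.iterate_succ_apply', h]
      generalize (fun g : Spec (CommRingCat.of L) ⟶ Z => g ≫ f)^[n] t = u at hk
      obtain ⟨k', hk'⟩ := hmaps k _ ((le_preimage_iff u _).1 hk)
      have hk'' : ⊤ ≤ (u ≫ f) ⁻¹ᵁ 𝒜.O k' := (le_preimage_iff _ _).2 hk'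
      refine ⟨k', hk'', ?_⟩
      obtain ⟨l, hl⟩ := (pv hG u k hk).exists_col
      obtain ⟨c, hc⟩ := hW l L u k hk k' hk''
      rw [Pt.step_mk _ l hl, Pt.mk_eq_iff_minors]
      refine ⟨(hbase L u k hk k' hk'').symm, fun a a' => ?_⟩
      have h1 : ∀ a, ((pv hG u k hk).col l hl).v a = c * (pv hG (u ≫ f) k' hk'').v a := fun a =>
        (hom_eq_eval₂ _ _).symm.trans (hc a)
      rw [h1, h1]
      ring
  obtain ⟨k, hk, h⟩ := key n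
  obtain ⟨k', hk', h'⟩ := key m
  rw [h, h']
  refine ⟨fun h1 => ?_, eq_of_mk_pv_eq hG⟩
  generalize (fun g : Spec (CommRingCat.of L) ⟶ Z => g ≫ f)^[n] t = u at hk h1
  subst h1
  exact mk_pv_eq hG _ _ _ _ _

end Atlas

end Pool.Agent.P.MP_f6c533_ag
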