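import Pool.Agent.P.MP_f6c533_ag.Final

/-! Integral parameters in congruence classes: `p`-adic points above them, and the fibres. -/

set_option autoImplicit false

namespace Pool.Agent.P.MP_f6c533_ag

open Polynomial

theorem exists_eval_ne {n : ℕ} {a : MvPolynomial (Fin n) ℤ} (ha : a ≠ 0) (τ₁ : Fin n → ℤ) {M : ℤ}
    (hM : M ≠ 0) : ∃ τ : Fin n → ℤ, (∀ i, M ∣ τ i - τ₁ i) ∧ MvPolynomial.eval τ a ≠ 0 := by
  by_contra! h
  refine ha (MvPolynomial.funext_set (fun i => {m | M ∣ m - τ₁ i}) (fun i => ?_)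
    fun τ hτ => by simpa using h τ fun i => hτ i (Set.mem_univ _))
  exact Set.infinite_of_injective_forall_mem (f := fun m : ℤ => τ₁ i + M * m)
    (fun a b hab => mul_left_cancel₀ hM (add_left_cancel hab)) fun m => by simp

theorem isAlgebraic_fractionRing (A W : Type) [CommRing A] [IsDomain A] [CommRing W] [IsDomain W]
    [Algebra A W] [FaithfulSMul A W] [Algebra.IsAlgebraic A W] :
    letI := FractionRing.liftAlgebra A (FractionRing W)
    Algebra.IsAlgebraic (FractionRing A) (FractionRing W) := by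
  let := FractionRing.liftAlgebra A (FractionRing W)
  have := FractionRing.isScalarTower_liftAlgebra A (FractionRing W)
  have := (IsFractionRing.isAlgebraic_iff' A W (FractionRing W)).1 inferInstance
  exact ⟨fun _ ↦ (IsFractionRing.isAlgebraic_iff A (FractionRing A) (FractionRing W)).1
    (Algebra.IsAlgebraic.isAlgebraic _)⟩

theorem exists_standardEtale (A W : Type) [CommRing A] [IsDomain A] [CharZero A]
    [IsNoetherianRing A] [CommRing W] [IsDomain W] [Algebra A W] [FaithfulSMul A W]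
    [Algebra.FiniteType A W] [Algebra.IsAlgebraic A W] :
    ∃ f : W, f ≠ 0 ∧ Algebra.IsStandardEtale A (Localization.Away f) := by
  have : Algebra.FinitePresentation A W :=
    (Algebra.FinitePresentation.of_finiteType).1 inferInstance
  have : Algebra.IsEtaleAt A (⊥ : Ideal W) := by
    let L := FractionRing W
    let K := FractionRing A
    let : Algebra K L := FractionRing.liftAlgebra A L
    have : IsScalarTower A K L := FractionRing.isScalarTower_liftAlgebra A L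
    have : Algebra.IsAlgebraic K L := isAlgebraic_fractionRing A W
    have : CharZero K := charZero_of_injective_algebraMap (IsFractionRing.injective A K)
    have : Algebra.FormallyEtale K L := .of_isSeparable K L
    have : Algebra.FormallyEtale A K := .of_isLocalization (nonZeroDivisors A)
    have : Algebra.FormallyEtale A L := .comp A K L
    have : IsLocalization (⊥ : Ideal W).primeCompl L := by
      rw [Ideal.primeCompl_bot]; infer_instance
    exact Algebra.FormallyEtale.of_equiv ((IsLocalization.algEquiv (⊥ : Ideal W).primeCompl L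
      (Localization.AtPrime (⊥ : Ideal W))).restrictScalars A)
  exact Algebra.IsEtaleAt.exists_isStandardEtale (R := A) (⊥ : Ideal W)

theorem exists_lifts {n : ℕ} (W : Type) [CommRing W] [IsDomain W]
    [Algebra (MvPolynomial (Fin n) ℤ) W] [FaithfulSMul (MvPolynomial (Fin n) ℤ) W]
    [Algebra.FiniteType (MvPolynomial (Fin n) ℤ) W]
    [Algebra.IsAlgebraic (MvPolynomial (Fin n) ℤ) W] (τ₁ : Fin n → ℤ) {M : ℤ} (hM : M ≠ 0) :
    ∃ (p : ℕ) (_ : Fact p.Prime) (U : (Fin n → ℤ) → Set (W →+* ℤ_[p])),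
      (∃ τ, (∀ i, M ∣ τ i - τ₁ i) ∧ (U τ).Nonempty) ∧
      (∀ τ, ∀ b ∈ U τ, (∀ a, b (algebraMap _ W a) = (MvPolynomial.eval τ a : ℤ)) ∧
        ∀ r, IsAlgebraic ℤ (b r)) ∧
      ∀ τ₀, ∀ b₀ ∈ U τ₀, ∀ (k : ℕ) (τ : Fin n → ℤ), (∀ i, (p : ℤ) ^ (k + 1) ∣ τ i - τ₀ i) →
        ∃ b ∈ U τ, (red p k).comp b = (red p k).comp b₀ := by
  let A := MvPolynomial (Fin n) ℤ
  obtain ⟨f, hf0, hét⟩ := exists_standardEtale A W
  let R' := Localization.Away f
  have hle : Submonoid.powers f ≤ nonZeroDivisors W := powers_le_nonZeroDivisors_of_noZeroDivisors hf0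
  have : IsDomain R' := IsLocalization.isDomain_localization hle
  have hinj : Function.Injective (algebraMap W R') := IsLocalization.injective _ hle
  obtain ⟨P⟩ := hét.nonempty_standardEtalePresentation
  have : FaithfulSMul A R' := (faithfulSMul_iff_algebraMap_injective A R').2 (by
    rw [IsScalarTower.algebraMap_eq A W R']
    exact hinj.comp (FaithfulSMul.algebraMap_injective A W))
  have hx : IsIntegral A P.x := ⟨P.f, P.monic_f, P.hasMap.1⟩
  have hint : ∀ q : A[X], IsIntegral A (aeval P.x q) := fun q =>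
    IsIntegral.of_mem_of_fg _ hx.fg_adjoin_singleton _ (aeval_mem_adjoin_singleton A P.x)
  obtain ⟨u, hu, a, ha, hua⟩ := (hint P.g).isAlgebraic.exists_nonzero_eq_adjoin_mul
    (mem_nonZeroDivisors_of_ne_zero P.hasMap.2.ne_zero)
  obtain ⟨u, rfl⟩ : ∃ q : A[X], aeval P.x q = u := by
    have h1 : Algebra.adjoin A {aeval P.x P.g} ≤ Algebra.adjoin A {P.x} :=
      Algebra.adjoin_le (Set.singleton_subset_iff.2 (aeval_mem_adjoin_singleton A P.x))
    have h2 := h1 hu
    rwa [Algebra.adjoin_singleton_eq_range_aeval] at h2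
  obtain ⟨τ₀, hτ₁, hτ₀⟩ := exists_eval_ne ha τ₁ hM
  obtain ⟨p, hp, hpa, θ, hθ⟩ := schur (m := (minpoly A P.x).map (MvPolynomial.eval τ₀))
    (by rw [(minpoly.monic hx).natDegree_map]; exact minpoly.natDegree_pos hx)
    hτ₀
  have : Fact p.Prime := ⟨hp⟩
  let φ : (Fin n → ℤ) → A →+* ℤ_[p] := fun τ => (Int.castRingHom _).comp (MvPolynomial.eval τ)
  refine ⟨p, inferInstance, fun τ => {b | ∃ b' : R' →+* ℤ_[p],
    b'.comp (algebraMap A R') = φ τ ∧ b = b'.comp (algebraMap W R')}, ?_, ?_, ?_⟩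
  · have h0 : red p 0 ((minpoly A P.x).eval₂ (φ τ₀) θ) = 0 := by
      rw [red_eq_zero_iff, zero_add, pow_one]
      have h1 := map_dvd (Int.castRingHom ℤ_[p]) hθ
      rw [eval_map, hom_eval₂] at h1
      simpa [φ] using h1
    have h1 : ∀ q : A[X], aeval P.x q = 0 → red p 0 (q.eval₂ (φ τ₀) θ) = 0 := by
      intro q hq
      obtain ⟨q', rfl⟩ := minpoly.isIntegrallyClosed_dvd hx hq
      rw [eval₂_mul, map_mul, h0, zero_mul]
    obtain ⟨b, hb, -⟩ := hensel_step P (φ τ₀) θ 0 (h1 _ P.hasMap.1) (by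
      have h2 := h1 (P.g * u - C a) (by rw [map_sub, map_mul, hua, aeval_C, sub_self])
      rw [eval₂_sub, eval₂_mul, eval₂_C, map_sub, sub_eq_zero] at h2
      refine isUnit_of_mul_isUnit_left (isUnit_of_red_eq h2 ?_)
      by_contra h3
      have h4 : φ τ₀ a ∈ IsLocalRing.maximalIdeal ℤ_[p] := h3
      rw [PadicInt.maximalIdeal_eq_span_p, Ideal.mem_span_singleton] at h4
      apply hpa
      simpa using (PadicInt.pow_p_dvd_int_iff (p := p) 1 (MvPolynomial.eval τ₀ a)).1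
        (by simpa [φ] using h4))
    exact ⟨τ₀, hτ₁, _, b, hb, rfl⟩
  · rintro τ _ ⟨b, hb, rfl⟩
    refine ⟨fun a => ?_, fun r => ?_⟩
    · rw [RingHom.comp_apply, ← IsScalarTower.algebraMap_apply]
      exact RingHom.congr_fun hb a
    have h1 : ∀ q : A[X], b (aeval P.x q) = aeval (b P.x) (q.map (MvPolynomial.eval τ)) := by
      intro q
      rw [aeval_def, hom_eval₂, hb, aeval_def, eval₂_map]
      rfl
    have h2 : IsIntegral ℤ (b P.x) :=
      ⟨P.f.map (MvPolynomial.eval τ), P.monic_f.map _, by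
        rw [← aeval_def, ← h1, P.hasMap.1, map_zero]⟩
    have h3 : ∀ q : A[X], IsIntegral ℤ (b (aeval P.x q)) := fun q => by
      rw [h1]
      exact IsIntegral.of_mem_of_fg _ h2.fg_adjoin_singleton _ (aeval_mem_adjoin_singleton ℤ _)
    obtain ⟨q, m, h⟩ := P.exists_mul_aeval_x_g_pow_eq_aeval_x (algebraMap W R' r)
    refine IsAlgebraic.of_mul
      (mem_nonZeroDivisors_of_ne_zero ((P.hasMap.2.map b).pow m).ne_zero)
      ((h3 _).pow m).isAlgebraic ?_
    rw [RingHom.comp_apply, ← map_pow, ← map_mul, mul_comm, h]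
    exact (h3 _).isAlgebraic
  · rintro τ₁ _ ⟨b₁, hb₁, rfl⟩ k τ hτ
    have h1 : (red p k).comp (φ τ) = (red p k).comp (φ τ₁) := by
      refine MvPolynomial.ringHom_ext (fun r => by simp [φ]) fun i => ?_
      simp only [φ, RingHom.comp_apply, MvPolynomial.eval_X]
      rw [red_eq_iff]
      simpa using map_dvd (Int.castRingHom ℤ_[p]) (hτ i)
    have h2 : ∀ q : A[X], red p k (q.eval₂ (φ τ) (b₁ P.x)) = red p k (b₁ (aeval P.x q)) := by
      intro q
      rw [aeval_def, hom_eval₂ _ _ b₁, hb₁, hom_eval₂, hom_eval₂, h1]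
    obtain ⟨b, hb, hbx⟩ := hensel_step P (φ τ) (b₁ P.x) k
      (by rw [h2, P.hasMap.1, map_zero, map_zero])
      (isUnit_of_red_eq (h2 _) (P.hasMap.2.map b₁))
    refine ⟨_, ⟨b, hb, rfl⟩, ?_⟩
    let : Algebra A (QQ p k) := ((red p k).comp (φ τ)).toAlgebra
    let f₁ : R' →ₐ[A] QQ p k := ⟨(red p k).comp b, fun a => by
      change (red p k) (b.comp (algebraMap A R') a) = _
      rw [hb]; rfl⟩
    let f₂ : R' →ₐ[A] QQ p k := ⟨(red p k).comp b₁, fun a => by
      change ((red p k).comp (b₁.comp (algebraMap A R'))) a = _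
      rw [hb₁, ← h1]; rfl⟩
    have h3 : f₁ = f₂ := P.hom_ext hbx
    exact RingHom.ext fun r => AlgHom.congr_fun h3 (algebraMap W R' r)

section avoid

variable {W : Type} [CommRing W] {p : ℕ} [Fact p.Prime]

theorem red_comp_mono {b b' : W →+* ℤ_[p]} {k k' : ℕ} (hk : k ≤ k')
    (h : (red p k').comp b = (red p k').comp b') : (red p k).comp b = (red p k).comp b' :=
  RingHom.ext fun r => (red_eq_iff p).2
    ((pow_dvd_pow _ (by omega)).trans ((red_eq_iff p).1 (RingHom.congr_fun h r)))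

/-- Every disc of `U` is Zariski dense. -/
def Rich (U : Set (W →+* ℤ_[p])) : Prop :=
  ∀ b₀ ∈ U, ∀ (k : ℕ) (r : W), r ≠ 0 → ∃ b ∈ U, (red p k).comp b = (red p k).comp b₀ ∧ b r ≠ 0

theorem Rich.avoid_one {U P : Set (W →+* ℤ_[p])} (hU : Rich U)
    (hP : ∀ U' ⊆ P, Rich U' → ¬U'.Nonempty) {b₀ : W →+* ℤ_[p]} (hb₀ : b₀ ∈ U) (k₀ : ℕ) :
    ∃ b₁ ∈ U, ∃ k₁, k₀ ≤ k₁ ∧ (red p k₀).comp b₁ = (red p k₀).comp b₀ ∧
      ∀ b ∈ U, (red p k₁).comp b = (red p k₁).comp b₁ → b ∉ P := by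
  by_contra! h
  refine hP {b | b ∈ P ∧ b ∈ U ∧ (red p k₀).comp b = (red p k₀).comp b₀} (fun b hb => hb.1) ?_ ?_
  · rintro b₁ ⟨-, hb₁, h₁⟩ k r hr
    obtain ⟨b₂, hb₂, h₂, hr₂⟩ := hU b₁ hb₁ (max k k₀) r hr
    obtain ⟨k', hk', hr'⟩ := exists_red_ne_zero p hr₂ (max k k₀)
    have h₃ := (red_comp_mono (le_max_right _ _) h₂).trans h₁
    obtain ⟨b₃, hb₃, h₄, h₅⟩ := h b₂ hb₂ k' ((le_max_right _ _).trans hk') h₃
    refine ⟨b₃, ⟨h₅, hb₃, (red_comp_mono ((le_max_right _ _).trans hk') h₄).trans h₃⟩,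
      (red_comp_mono ((le_max_left _ _).trans hk') h₄).trans
        (red_comp_mono (le_max_left _ _) h₂), fun h₆ => hr' ?_⟩
    rw [← RingHom.comp_apply, ← h₄, RingHom.comp_apply, h₆, map_zero]
  · obtain ⟨b, hb, h₁, h₂⟩ := h b₀ hb₀ k₀ le_rfl rfl
    exact ⟨b, h₂, hb, h₁⟩

theorem Rich.avoid {U : Set (W →+* ℤ_[p])} (hU : Rich U) (hne : U.Nonempty) {J : Type} [Finite J]
    (P : J → Set (W →+* ℤ_[p])) (hP : ∀ j, ∀ U' ⊆ P j, Rich U' → ¬U'.Nonempty) :
    ∃ b₁ ∈ U, ∃ k₁, ∀ b ∈ U, (red p k₁).comp b = (red p k₁).comp b₁ → ∀ j, b ∉ P j := by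
  classical
  have := Fintype.ofFinite J
  suffices h : ∀ s : Finset J, ∃ b₁ ∈ U, ∃ k₁, ∀ b ∈ U,
      (red p k₁).comp b = (red p k₁).comp b₁ → ∀ j ∈ s, b ∉ P j by
    obtain ⟨b₁, hb₁, k₁, h⟩ := h Finset.univ
    exact ⟨b₁, hb₁, k₁, fun b hb h' j => h b hb h' j (Finset.mem_univ j)⟩
  intro s
  induction s using Finset.induction_on with
  | empty =>
    obtain ⟨b, hb⟩ := hne
    exact ⟨b, hb, 0, fun _ _ _ j hj => absurd hj (Finset.notMem_empty j)⟩
  | insert j s _ ih =>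
    obtain ⟨b₀, hb₀, k₀, h₀⟩ := ih
    obtain ⟨b₁, hb₁, k₁, hk, h₁, h₂⟩ := hU.avoid_one (hP j) hb₀ k₀
    refine ⟨b₁, hb₁, k₁, fun b hb h' i hi => ?_⟩
    rcases Finset.mem_insert.1 hi with rfl | hi
    · exact h₂ b hb h'
    · exact h₀ b hb ((red_comp_mono hk h').trans h₁) i hi

end avoid

section fibre

variable {A R Ω : Type} [CommRing A] [IsDomain A] [CommRing R] [IsDomain R] [Algebra A R]
  [FaithfulSMul A R] [Algebra.IsAlgebraic A R] [Field Ω] [Algebra A Ω] [FaithfulSMul A Ω]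

theorem algHom_injective (σ : R →ₐ[A] Ω) : Function.Injective σ := by
  refine (injective_iff_map_eq_zero σ).2 fun r hr => by_contra fun h => ?_
  obtain ⟨a, ha, hd⟩ := (Algebra.IsAlgebraic.isAlgebraic (R := A) r).exists_nonzero_dvd
    (mem_nonZeroDivisors_of_ne_zero h)
  have := map_dvd σ hd
  rw [hr, zero_dvd_iff, σ.commutes] at this
  exact ha (FaithfulSMul.algebraMap_injective A Ω (this.trans (map_zero _).symm))

theorem finite_algHom [Algebra.FiniteType A R] : Finite (R →ₐ[A] Ω) := by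
  obtain ⟨s, hs⟩ := Algebra.FiniteType.out (R := A) (A := R)
  choose q hq hq' using fun r : R => Algebra.IsAlgebraic.isAlgebraic (R := A) r
  refine Finite.of_injective (fun (σ : R →ₐ[A] Ω) (x : s) => (⟨σ x, mem_rootSet'.2
    ⟨(Polynomial.map_ne_zero_iff (FaithfulSMul.algebraMap_injective A Ω)).2 (hq x), by
      rw [aeval_algHom_apply, hq', map_zero]⟩⟩ : (q x).rootSet Ω)) fun φ ψ h => ?_
  exact AlgHom.ext_of_adjoin_eq_top hs fun x hx => congrArg Subtype.val (congrFun h ⟨x, hx⟩)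

theorem exists_algHom_root [IsIntegrallyClosed A] [IsAlgClosed Ω] {z : R} (hz : IsIntegral A z)
    {w : Ω} (hw : aeval w (minpoly A z) = 0) : ∃ σ : R →ₐ[A] Ω, σ z = w := by
  let L := FractionRing R
  let K := FractionRing A
  let : Algebra K L := FractionRing.liftAlgebra A L
  have : IsScalarTower A K L := FractionRing.isScalarTower_liftAlgebra A L
  have : Algebra.IsAlgebraic K L := isAlgebraic_fractionRing A R
  let : Algebra K Ω := FractionRing.liftAlgebra A Ω
  have : IsScalarTower A K Ω := FractionRing.isScalarTower_liftAlgebra A Ω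
  have h : w ∈ (minpoly K (algebraMap R L z)).rootSet Ω := by
    rw [mem_rootSet_of_ne (minpoly.ne_zero (Algebra.IsIntegral.isIntegral _)),
      minpoly.isIntegrallyClosed_eq_field_fractions K L hz, aeval_map_algebraMap, hw]
  rw [← Algebra.IsAlgebraic.range_eval_eq_rootSet_minpoly] at h
  obtain ⟨ψ, hψ⟩ := h
  exact ⟨(ψ.restrictScalars A).comp (IsScalarTower.toAlgHom A R L), hψ⟩

theorem exists_denominator [Algebra.FiniteType A R] :
    ∃ a : A, a ≠ 0 ∧ ∀ y : R, ∃ N : ℕ, IsIntegral A (algebraMap A R a ^ N * y) := by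
  obtain ⟨s, hs⟩ := Algebra.FiniteType.out (R := A) (A := R)
  obtain ⟨a, ha, h⟩ := Algebra.IsAlgebraic.exists_integral_multiples A s
  refine ⟨a, ha, fun y => ?_⟩
  have hy : y ∈ Algebra.adjoin A (s : Set R) := hs ▸ Algebra.mem_top
  have ha' : ∀ N : ℕ, IsIntegral A (algebraMap A R a ^ N) := fun N => isIntegral_algebraMap.pow N
  induction hy using Algebra.adjoin_induction with
  | mem x hx => exact ⟨1, by rw [pow_one, ← Algebra.smul_def]; exact h x hx⟩
  | algebraMap c => exact ⟨0, (ha' 0).mul isIntegral_algebraMap⟩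
  | add x y _ _ hx hy =>
    obtain ⟨N, hN⟩ := hx
    obtain ⟨N', hN'⟩ := hy
    refine ⟨N + N', ?_⟩
    convert ((ha' N').mul hN).add ((ha' N).mul hN') using 1
    ring
  | mul x y _ _ hx hy =>
    obtain ⟨N, hN⟩ := hx
    obtain ⟨N', hN'⟩ := hy
    refine ⟨N + N', ?_⟩
    convert hN.mul hN' using 1
    ring

theorem exists_ker_le [IsIntegrallyClosed A] [IsAlgClosed Ω] [Algebra.FiniteType A R]
    (W : Subalgebra A Ω) (hW : ∀ (σ : R →ₐ[A] Ω) (r : R), σ r ∈ W) {a : A}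
    (ha : ∀ y : R, ∃ N : ℕ, IsIntegral A (algebraMap A R a ^ N * y))
    {D L : Type} [CommRing D] [IsDomain D] [CommRing L] (b : W →+* D) (β : R →+* L)
    (hba : b (algebraMap A W a) ≠ 0)
    (hβ : ∀ c : A, β (algebraMap A R c) = 0 → b (algebraMap A W c) = 0) :
    ∃ σ : R →ₐ[A] Ω, ∀ y, β y = 0 → b ⟨σ y, hW σ y⟩ = 0 := by
  have : Finite (R →ₐ[A] Ω) := finite_algHom
  let σ₀ : R →ₐ[A] Ω := IsAlgClosed.lift
  let P : (R →ₐ[A] Ω) → Ideal R := fun σ =>
    RingHom.ker (b.comp (σ.codRestrict W (hW σ) : R →+* W))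
  suffices h : (RingHom.ker β : Set R) ⊆ ⋃ σ ∈ (Set.univ : Set (R →ₐ[A] Ω)), P σ by
    obtain ⟨σ, -, hσ⟩ := (Ideal.subset_union_prime_finite Set.finite_univ σ₀ σ₀
      fun σ _ _ _ => RingHom.ker_isPrime _).1 h
    exact ⟨σ, fun y hy => hσ hy⟩
  intro y hy
  by_contra hcon
  have hy' : ∀ σ : R →ₐ[A] Ω, b ⟨σ y, hW σ y⟩ ≠ 0 := fun σ h =>
    hcon (Set.mem_biUnion (Set.mem_univ σ) h)
  obtain ⟨N, hz⟩ := ha y
  set z := algebraMap A R a ^ N * y with hz'
  have h1 : β (algebraMap A R ((minpoly A z).coeff 0)) = 0 := by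
    have h2 := map_dvd (aeval z) (X_dvd_sub_C (p := minpoly A z))
    rw [map_sub, minpoly.aeval, zero_sub, dvd_neg, aeval_X, aeval_C] at h2
    have h3 := map_dvd β h2
    rwa [hz', map_mul, show β y = 0 from hy, mul_zero, zero_dvd_iff] at h3
  have hker : (RingHom.ker b).IsPrime := RingHom.ker_isPrime b
  let T : Submonoid Ω := (RingHom.ker b).primeCompl.map W.val
  have h2 : algebraMap A Ω ((minpoly A z).coeff 0) ∈ T := by
    have h3 := (IsAlgClosed.splits ((minpoly A z).map (algebraMap A Ω))).eval_eq_prod_roots_of_monic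
      ((minpoly.monic hz).map _) 0
    rw [← coeff_zero_eq_eval_zero, coeff_map] at h3
    rw [h3]
    refine T.multiset_prod_mem _ fun w hw => ?_
    obtain ⟨r, hr, rfl⟩ := Multiset.mem_map.1 hw
    obtain ⟨σ, rfl⟩ := exists_algHom_root hz (mem_aroots'.1 hr).2
    refine ⟨-(algebraMap A W a ^ N * ⟨σ y, hW σ y⟩), fun h => ?_, by simp [hz']⟩
    have h4 : b (-(algebraMap A W a ^ N * ⟨σ y, hW σ y⟩)) = 0 := h
    rw [map_neg, neg_eq_zero, map_mul, map_pow] at h4
    exact mul_ne_zero (pow_ne_zero _ hba) (hy' σ) h4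
  obtain ⟨w, hw, h3⟩ := h2
  have h4 : w = algebraMap A W ((minpoly A z).coeff 0) := Subtype.ext h3
  exact hw (h4 ▸ hβ _ h1)

end fibre

end Pool.Agent.P.MP_f6c533_ag
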