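import Pool.Agent.P.MP_f6c533_ag.ClassA

/-! Whole fibres of wandering specialisations over a congruence class of integral parameters. -/

set_option autoImplicit false

namespace Pool.Agent.P.MP_f6c533_ag

section alg

open MvPolynomial Filter

theorem ker_le_of_ker_le {R k D : Type} [CommRing R] [Field k] [Algebra.IsAlgebraic ℤ k]
    [CommRing D] [CharZero D] (β : R →+* k) (b : R →+* D) (h : ∀ r, β r = 0 → b r = 0) {r : R}
    (hr : b r = 0) : β r = 0 := by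
  by_contra h0
  obtain ⟨q, hq, h1⟩ := (Algebra.IsAlgebraic.isAlgebraic (R := ℤ)
    (β r)).exists_nonzero_coeff_and_aeval_eq_zero (mem_nonZeroDivisors_of_ne_zero h0)
  have h2 := h _ ((Polynomial.aeval_algHom_apply β.toIntAlgHom r q).symm.trans h1)
  have h3 := (Polynomial.aeval_algHom_apply b.toIntAlgHom r q).trans h2
  rw [show b.toIntAlgHom r = 0 from hr, ← Polynomial.coeff_zero_eq_aeval_zero'] at h3
  exact hq (by simpa using h3)

theorem ring_class {d : ℕ} {R : Type} [CommRing R] [IsDomain R] [Algebra.FiniteType ℤ R]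
    [Algebra (MvPolynomial (Fin d) ℤ) R] [FaithfulSMul (MvPolynomial (Fin d) ℤ) R]
    [Algebra.IsAlgebraic (MvPolynomial (Fin d) ℤ) R] {I : Type} [Finite I] {σ ι κ : I → Type}
    [∀ i, Fintype (σ i)] [∀ i, Fintype (κ i)] (S : ∀ i, Sys R (σ i) (ι i) (κ i))
    (ξ : ∀ i, Pt (S i) R) {F : Type} [Field F] (ψ : R →+* F)
    (hnp : ∀ i n m, n ≠ m → Pt.step^[n] ((ξ i).map ψ) ≠ Pt.step^[m] ((ξ i).map ψ))
    {a₀ : MvPolynomial (Fin d) ℤ} (ha₀ : a₀ ≠ 0) (τ₁ : Fin d → ℤ) {M₁ : ℤ} (hM₁ : M₁ ≠ 0) :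
    ∃ (τ₀ : Fin d → ℤ) (M : ℤ), M ≠ 0 ∧ M₁ ∣ M ∧ (∀ r, M₁ ∣ τ₀ r - τ₁ r) ∧
      ∀ τ : Fin d → ℤ, (∀ r, M ∣ τ r - τ₀ r) → eval τ a₀ ≠ 0 ∧
        (∃ (D : Type) (_ : CommRing D) (_ : IsDomain D) (_ : CharZero D) (b : R →+* D),
          (∀ a, b (algebraMap _ R a) = (eval τ a : ℤ)) ∧ ∀ r, IsAlgebraic ℤ (b r)) ∧
        ∀ (L : Type) [Field L] [CharZero L] (β : R →+* L),
          (∀ a, β (algebraMap _ R a) = (eval τ a : ℤ)) →
          ∀ i n m, n ≠ m → Pt.step^[n] ((ξ i).map β) ≠ Pt.step^[m] ((ξ i).map β) := by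
  classical
  let A := MvPolynomial (Fin d) ℤ
  let Ω := AlgebraicClosure (FractionRing A)
  have : Algebra.FiniteType A R := .of_restrictScalars_finiteType ℤ A R
  have : FaithfulSMul A Ω := (faithfulSMul_iff_algebraMap_injective A Ω).2 (by
    rw [IsScalarTower.algebraMap_eq A (FractionRing A) Ω]
    exact (algebraMap (FractionRing A) Ω).injective.comp (IsFractionRing.injective A _))
  have : Algebra.IsAlgebraic A Ω :=
    (IsFractionRing.comap_isAlgebraic_iff (K := FractionRing A)).2 inferInstance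
  have : Finite (R →ₐ[A] Ω) := finite_algHom
  obtain ⟨s, hs⟩ := Algebra.FiniteType.out (R := A) (A := R)
  let W : Subalgebra A Ω := Algebra.adjoin A (⋃ φ : R →ₐ[A] Ω, φ '' s)
  have hW : ∀ (φ : R →ₐ[A] Ω) (r : R), φ r ∈ W := by
    intro φ r
    have h1 : (⊤ : Subalgebra A R) ≤ W.comap φ := by
      rw [← hs]
      exact Algebra.adjoin_le fun x hx =>
        Algebra.subset_adjoin (Set.mem_iUnion.2 ⟨φ, x, hx, rfl⟩)
    exact h1 Algebra.mem_top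
  have : Algebra.FiniteType A W := (Subalgebra.fg_iff_finiteType _).1
    (Subalgebra.fg_def.2 ⟨_, Set.finite_iUnion fun φ : R →ₐ[A] Ω => s.finite_toSet.image φ, rfl⟩)
  have hinj : Function.Injective (algebraMap A W) := fun a b h =>
    FaithfulSMul.algebraMap_injective A Ω (congrArg Subtype.val h)
  have : FaithfulSMul A W := (faithfulSMul_iff_algebraMap_injective A W).2 hinj
  have : Algebra.IsAlgebraic A W := .of_injective W.val Subtype.val_injective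
  obtain ⟨a₁, ha₁, hint⟩ := exists_denominator (A := A) (R := R)
  obtain ⟨p, _, U, hne, hU, hlift⟩ := exists_lifts W τ₁ hM₁
  have hp : ∀ k : ℕ, (p : ℤ) ^ (k + 1) ≠ 0 := fun k =>
    pow_ne_zero _ (Int.natCast_ne_zero.2 (Fact.out : p.Prime).ne_zero)
  let U₁ : Set (W →+* ℤ_[p]) := {b | ∃ τ, (∀ r, M₁ ∣ τ r - τ₁ r) ∧ b ∈ U τ}
  have hrich : Rich U₁ := by
    rintro b₀ ⟨τ₀, hτ₀, hb₀⟩ k r hr
    obtain ⟨a, ha, hd⟩ := (Algebra.IsAlgebraic.isAlgebraic (R := A) r).exists_nonzero_dvd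
      (mem_nonZeroDivisors_of_ne_zero hr)
    obtain ⟨τ, hτ, hτ'⟩ := exists_eval_ne ha τ₀ (mul_ne_zero hM₁ (hp k))
    obtain ⟨b, hb, h⟩ := hlift τ₀ b₀ hb₀ k τ fun i => (dvd_mul_left _ _).trans (hτ i)
    refine ⟨b, ⟨τ, fun i => ?_, hb⟩, h, fun h0 => hτ' ?_⟩
    · simpa using dvd_add ((dvd_mul_right _ _).trans (hτ i)) (hτ₀ i)
    · have h1 := map_dvd b hd
      rw [h0, zero_dvd_iff, (hU τ b hb).1] at h1
      exact Int.cast_eq_zero.1 h1
  let c : (R →ₐ[A] Ω) → R →+* W := fun φ => (φ.codRestrict W (hW φ) : R →+* W)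
  let P : Option (I × (R →ₐ[A] Ω)) → Set (W →+* ℤ_[p]) := fun j => j.elim
    {b | b (algebraMap A W (a₀ * a₁)) = 0} fun j => {b | ∃ n m, n ≠ m ∧
      Pt.step^[n] (((ξ j.1).map (c j.2)).map b) = Pt.step^[m] (((ξ j.1).map (c j.2)).map b)}
  obtain ⟨b₀, ⟨τ₀, hτ₀, hb₀⟩, k, h⟩ := hrich.avoid (by
    obtain ⟨τ, hτ, b, hb⟩ := hne
    exact ⟨b, τ, hτ, hb⟩) P (by
    rintro (_ | ⟨i, φ⟩) U' hU' hr hne'
    · obtain ⟨b, hb⟩ := hne'
      obtain ⟨b', hb', -, h⟩ := hr b hb 0 _ ((map_ne_zero_iff _ hinj).2 (mul_ne_zero ha₀ ha₁))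
      exact h (hU' hb')
    · obtain ⟨n, m, hnm, h⟩ := padic_main (S i) p U' hne' hr _ (fun b hb => hU' hb)
        (W.val : W →+* Ω)
      refine hnp i n m hnm (density ψ {(W.val : W →+* Ω).comp (c φ)} (fun a ha => ?_) _ ?_)
      · rw [algHom_injective φ ((ha _ rfl).trans (map_zero φ).symm), map_zero]
      · rintro _ rfl
        rwa [Pt.map_map] at h)
  refine ⟨τ₀, M₁ * (p : ℤ) ^ (k + 1), mul_ne_zero hM₁ (hp k), dvd_mul_right _ _, hτ₀,
    fun τ hτ => ?_⟩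
  obtain ⟨b, hb, hb'⟩ := hlift τ₀ b₀ hb₀ k τ fun i => (dvd_mul_left _ _).trans (hτ i)
  have hP := h b ⟨τ, fun i => by
    simpa using dvd_add ((dvd_mul_right _ _).trans (hτ i)) (hτ₀ i), hb⟩ hb'
  have h0 : b (algebraMap A W a₀) * b (algebraMap A W a₁) ≠ 0 := by
    rw [← map_mul, ← map_mul]
    exact hP none
  refine ⟨fun h1 => left_ne_zero_of_mul h0 (by rw [(hU τ b hb).1, h1, Int.cast_zero]),
    ⟨ℤ_[p], inferInstance, inferInstance, inferInstance, b.comp (c IsAlgClosed.lift), fun a => ?_,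
      fun r => (hU τ b hb).2 _⟩, fun L _ _ β hβ i n m hnm h1 => ?_⟩
  · rw [← (hU τ b hb).1]
    exact congrArg b ((AlgHom.codRestrict _ W (hW IsAlgClosed.lift)).commutes a)
  obtain ⟨φ, hφ⟩ := exists_ker_le W hW hint b β (right_ne_zero_of_mul h0) fun a ha => by
    rw [hβ, Int.cast_eq_zero] at ha
    rw [(hU τ b hb).1, ha, Int.cast_zero]
  let ρ : ℤ_[p] →+* ℚ_[p] := algebraMap _ _
  have hρ : Function.Injective ρ := IsFractionRing.injective _ _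
  refine hP (some (i, φ)) ⟨n, m, hnm, Pt.map_injective hρ ?_⟩
  rw [Pt.map_iterate, Pt.map_iterate, Pt.map_map, Pt.map_map]
  refine density _ {β} (fun a ha => ?_) _ ?_
  · exact (congrArg ρ (hφ a (ha _ rfl))).trans (map_zero ρ)
  · rintro _ rfl
    exact h1

theorem alg_class {k B : Type} [Field k] [CharZero k] [IsAlgClosed k] [Algebra.IsAlgebraic ℤ k]
    [CommRing B] [IsDomain B] [Algebra k B] [Algebra.FiniteType k B] {d : ℕ}
    [Algebra (MvPolynomial (Fin d) ℤ) B] [FaithfulSMul (MvPolynomial (Fin d) ℤ) B]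
    [Algebra.IsAlgebraic (MvPolynomial (Fin d) ℤ) B] {I : Type} [Finite I] {σ ι κ : I → Type}
    [∀ i, Fintype (σ i)] [∀ i, Finite (ι i)] [∀ i, Fintype (κ i)]
    (S : ∀ i, Sys B (σ i) (ι i) (κ i)) (ξ : ∀ i, Pt (S i) B)
    (hξ : ∀ i, (ξ i).base = RingHom.id B) {F : Type} [Field F] (ψ : B →+* F)
    (hnp : ∀ i n m, n ≠ m → Pt.step^[n] ((ξ i).map ψ) ≠ Pt.step^[m] ((ξ i).map ψ))
    {a₀ : MvPolynomial (Fin d) ℤ} (ha₀ : a₀ ≠ 0) (τ₁ : Fin d → ℤ) {M₁ : ℤ} (hM₁ : M₁ ≠ 0) :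
    ∃ (τ₀ : Fin d → ℤ) (M : ℤ), M ≠ 0 ∧ M₁ ∣ M ∧ (∀ r, M₁ ∣ τ₀ r - τ₁ r) ∧
      ∀ τ : Fin d → ℤ, (∀ r, M ∣ τ r - τ₀ r) → eval τ a₀ ≠ 0 ∧
        (∃ β : B →ₐ[k] k, ∀ r, β (algebraMap (MvPolynomial (Fin d) ℤ) B (X r)) = τ r) ∧
        ∀ (L : Type) [Field L] [CharZero L] (β : B →+* L),
          (∀ a, β (algebraMap _ B a) = (eval τ a : ℤ)) →
          ∀ i n m, n ≠ m → Pt.step^[n] ((ξ i).map β) ≠ Pt.step^[m] ((ξ i).map β) := by
  classical
  let A := MvPolynomial (Fin d) ℤ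
  choose j hj using fun i => (ξ i).exists_U
  obtain ⟨T₀, hT₀⟩ := Algebra.FiniteType.out (R := k) (A := B)
  obtain ⟨T, hS, hT1, hT2, hT3⟩ := ((eventually_all.2 fun i => eventually_over (S i)).and
    ((eventually_ge_atTop T₀).and ((eventually_all.2 fun i =>
      eventually_ge_atTop (Finset.univ.image ((ξ i).nv (j i)))).and
      (eventually_ge_atTop (Finset.univ.image fun r => algebraMap A B (X r)))))).exists
  choose S₀ hS using hS
  let R := Algebra.adjoin ℤ (T : Set B)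
  have : Algebra.FiniteType ℤ R := (Subalgebra.fg_iff_finiteType _).1 (Subalgebra.fg_adjoin_finset _)
  have hR : Algebra.adjoin k (R : Set B) = ⊤ := by
    rw [eq_top_iff, ← hT₀]
    exact Algebra.adjoin_mono fun x hx => Algebra.subset_adjoin (hT1 hx)
  have hA : ∀ a : A, algebraMap A B a ∈ R := by
    intro a
    induction a using MvPolynomial.induction_on with
    | C c => simp
    | add p q hp hq => rw [map_add]; exact add_mem hp hq
    | mul_X p r hp =>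
      rw [map_mul]
      exact mul_mem hp (Algebra.subset_adjoin (hT3 (by simp)))
  let : Algebra A R := ((algebraMap A B).codRestrict R hA).toAlgebra
  have : IsScalarTower A R B := .of_algebraMap_eq fun _ => rfl
  have : FaithfulSMul A R := (faithfulSMul_iff_algebraMap_injective A R).2 fun a b h =>
    FaithfulSMul.algebraMap_injective A B (congrArg Subtype.val h)
  have : Algebra.IsAlgebraic A R :=
    .of_injective (IsScalarTower.toAlgHom A R B) Subtype.val_injective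
  let v : ∀ i, σ i → R := fun i a =>
    ⟨(ξ i).nv (j i) a, Algebra.subset_adjoin (hT2 i (by simp))⟩
  let ξ₀ : ∀ i, PV (S₀ i) R := fun i => ⟨RingHom.id R, v i, ⟨j i, by
      rw [show v i (j i) = 1 from Subtype.ext (Pt.nv_self (hj i))]; exact isUnit_one⟩, fun e => by
    apply Subtype.val_injective
    have h1 := Pt.nv_zero (ξ i) (j i) e
    rw [← (hS i).G, eval₂_map, hξ] at h1
    exact (eval₂_comp_left (algebraMap R B) _ _ _).trans h1⟩
  have h0 : ∀ i, (Pt.mk (ξ₀ i)).map (algebraMap R B) = (ξ i).res (hS i) := by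
    intro i
    rw [← Pt.mk_rep (ξ i) (hj i), Pt.res_mk, Pt.map_mk]
    congr 1
    refine PV.ext ?_ rfl
    change _ = (ξ i).base.comp _
    rw [hξ]
    rfl
  have h1 : ∀ (L : Type) [Field L] (β : B →+* L) (i n m),
      Pt.step^[n] ((Pt.mk (ξ₀ i)).map (β.comp (algebraMap R B))) =
        Pt.step^[m] ((Pt.mk (ξ₀ i)).map (β.comp (algebraMap R B))) ↔
      Pt.step^[n] ((ξ i).map β) = Pt.step^[m] ((ξ i).map β) := by
    intro L _ β i n m
    rw [← Pt.map_map, h0, ← Pt.res_map, ← Pt.res_iterate, ← Pt.res_iterate]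
    exact ⟨Pt.eq_of_res_eq (hS i) (by rw [Pt.base_iterate, Pt.base_iterate]), fun h => by rw [h]⟩
  obtain ⟨τ₀, M, hM, hM', hτ₀, h⟩ := ring_class S₀ (fun i => Pt.mk (ξ₀ i))
    (ψ.comp (algebraMap R B)) (fun i n m hnm h => hnp i n m hnm ((h1 F ψ i n m).1 h)) ha₀ τ₁ hM₁
  refine ⟨τ₀, M, hM, hM', hτ₀, fun τ hτ => ?_⟩
  obtain ⟨h2, ⟨D, _, _, _, b, hb, hb'⟩, h3⟩ := h τ hτ
  refine ⟨h2, ?_, fun L _ _ β hβ i n m hnm h4 =>
    h3 L (β.comp (algebraMap R B)) hβ i n m hnm ((h1 L β i n m).2 h4)⟩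
  obtain ⟨β, hβ⟩ := exists_algHom R hR b hb'
  refine ⟨β, fun r => ?_⟩
  have h4 := ker_le_of_ker_le ((β : B →+* k).comp (algebraMap R B)) b hβ
    (r := algebraMap A R (X r) - τ r) (by rw [map_sub, hb, eval_X, map_intCast, sub_self])
  rw [map_sub, map_intCast, sub_eq_zero] at h4
  exact h4

end alg

open AlgebraicGeometry CategoryTheory CategoryTheory.Limits MvPolynomial

theorem exists_model {σ : Type} [Fintype σ] [GradedAlgebra (homogeneousSubmodule σ ℤ)]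
    {B Z : Scheme.{0}} (p : Z ⟶ B) (f : Z ⟶ Z) (x : B ⟶ Z)
    (π : Z ⟶ Proj (homogeneousSubmodule σ ℤ)) {V : B.Opens} (hV : IsAffineOpen V)
    [IsNoetherianRing Γ(B, V)] [_root_.IsReduced Γ(B, V)]
    (h1 : ∀ j, IsAffineOpen (chartO p π V j)) (h2 : ∀ j, Function.Surjective (chartθ p π V j))
    (hf : f ≫ p = p) (hx : x ≫ p = 𝟙 B) {j : σ} (hVj : V ≤ (x ≫ π) ⁻¹ᵁ chart j) :
    ∃ (ι κ : Type) (_ : Finite ι) (_ : Fintype κ) (S : Sys Γ(B, V) σ ι κ) (ξ : Pt S Γ(B, V)),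
      ξ.base = RingHom.id _ ∧ ∀ (L : Type) [Field L] (β : Γ(B, V) →+* L) (n m : ℕ),
        Pt.step^[n] (ξ.map β) = Pt.step^[m] (ξ.map β) ↔
          (fun g : Spec (CommRingCat.of L) ⟶ Z => g ≫ f)^[n]
            ((Spec.map (CommRingCat.ofHom β) ≫ hV.fromSpec) ≫ x) =
          (fun g : Spec (CommRingCat.of L) ⟶ Z => g ≫ f)^[m]
            ((Spec.map (CommRingCat.ofHom β) ≫ hV.fromSpec) ≫ x) := by
  let 𝒜 := projAtlas p π V h1 h2
  have hmaps : ∀ j, ∀ z ∈ 𝒜.O j, ∃ k, f z ∈ 𝒜.O k := by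
    intro j z hz
    obtain ⟨k, hk⟩ := exists_mem_chart (π (f z))
    refine ⟨k, ?_, hk⟩
    change (f ≫ p) z ∈ V
    rw [hf]
    exact hz.1
  have hbase : ∀ (L : Type) [Field L] (t : Spec (CommRingCat.of L) ⟶ Z) (j : σ)
      (hj : ⊤ ≤ t ⁻¹ᵁ 𝒜.O j) (k : σ) (hk : ⊤ ≤ (t ≫ f) ⁻¹ᵁ 𝒜.O k),
      (𝒜.e (t ≫ f) k hk).comp C = (𝒜.e t j hj).comp C := by
    intro L _ t j hj k hk
    refine RingHom.ext fun r => (ev_chartθ_C hk r).trans (Eq.trans ?_ (ev_chartθ_C hj r).symm)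
    exact RingHom.congr_fun (ev_congr (by rw [Category.assoc, hf]) _ _ _) r
  obtain ⟨ι, κ, _, _, S, hG, hW⟩ := 𝒜.exists_sys f hmaps hbase
  let u₀ : Spec (CommRingCat.of Γ(B, V)) ⟶ B :=
    Spec.map (CommRingCat.ofHom (RingHom.id Γ(B, V))) ≫ hV.fromSpec
  have hu₀ : u₀ = hV.fromSpec := by
    rw [show u₀ = Spec.map (𝟙 _) ≫ hV.fromSpec from rfl, Spec.map_id, Category.id_comp]
  have hu : ⊤ ≤ u₀ ⁻¹ᵁ V := le_fromSpec hV _
  have ht₀ : ⊤ ≤ (u₀ ≫ x) ⁻¹ᵁ 𝒜.O j := by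
    change ⊤ ≤ u₀ ⁻¹ᵁ ((x ≫ p) ⁻¹ᵁ V ⊓ (x ≫ π) ⁻¹ᵁ chart j)
    rw [hx]
    exact hu.trans (u₀.preimage_mono (le_inf le_rfl hVj))
  refine ⟨ι, κ, inferInstance, inferInstance, S, Pt.mk (Atlas.pv hG (u₀ ≫ x) j ht₀),
    RingHom.ext fun r => (ev_chartθ_C ht₀ r).trans ((RingHom.congr_fun
      (ev_congr (by rw [Category.assoc, hx, Category.comp_id]) _ _ hu) r).trans
      (RingHom.congr_fun (ev_fromSpec hV _ hu) r)), fun L _ β n m => ?_⟩
  rw [Atlas.map_mk_pv, ← Atlas.iterate_eq_iff hG hW hmaps hbase, ← Category.assoc, hu₀]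

theorem ev_eq_iff {B : Scheme.{0}} {k : Type} [CommRing k] (b : Spec (CommRingCat.of k) ⟶ B)
    (V : B.Opens) (hb : ⊤ ≤ b ⁻¹ᵁ V) (a : Γ(B, V)) (c : ℤ) :
    ev b V hb a = c ↔ b.appLE V ⊤ hb a = c := by
  rw [← (Scheme.ΓSpecIso (CommRingCat.of k)).commRingCatIsoToRingEquiv.injective.eq_iff,
    map_intCast]
  rfl

theorem scheme_class {k : Type} [Field k] [CharZero k] [IsAlgClosed k] [Algebra.IsAlgebraic ℤ k]
    {I : Type} [Finite I] {σ : I → Type} [∀ i, Fintype (σ i)]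
    [∀ i, GradedAlgebra (homogeneousSubmodule (σ i) ℤ)]
    {B : Scheme.{0}} {Z : I → Scheme.{0}} (s : B ⟶ Spec (CommRingCat.of k)) (p : ∀ i, Z i ⟶ B)
    (f : ∀ i, Z i ⟶ Z i) (x : ∀ i, B ⟶ Z i)
    [AlgebraicGeometry.IsIntegral B] [LocallyOfFiniteType s] [∀ i, IsSeparated (p i)]
    (π : ∀ i, Z i ⟶ Proj (homogeneousSubmodule (σ i) ℤ))
    (h1 : ∀ i V, IsAffineOpen V → ∀ j, IsAffineOpen (chartO (p i) (π i) V j))
    (h2 : ∀ i V, IsAffineOpen V → ∀ j, Function.Surjective (chartθ (p i) (π i) V j))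
    (hf : ∀ i, f i ≫ p i = p i) (hx : ∀ i, x i ≫ p i = 𝟙 B)
    (hnp : ∀ i n m, n ≠ m →
      (fun g : B ⟶ Z i => g ≫ f i)^[n] (x i) ≠ (fun g : B ⟶ Z i => g ≫ f i)^[m] (x i))
    {V : B.Opens} (hV : IsAffineOpen V) {d : ℕ} {t : Fin d → Γ(B, V)}
    (ht : IsTranscendenceBasis ℤ t) (τ₁ : Fin d → ℤ) {M₁ : ℤ} (hM₁ : M₁ ≠ 0) :
    ∃ (τ₀ : Fin d → ℤ) (M : ℤ), M ≠ 0 ∧ M₁ ∣ M ∧ (∀ r, M₁ ∣ τ₀ r - τ₁ r) ∧
      ∀ τ : Fin d → ℤ, (∀ r, M ∣ τ r - τ₀ r) →
        (∃ b : Spec (CommRingCat.of k) ⟶ B, b ≫ s = 𝟙 _ ∧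
          ∃ hb : ⊤ ≤ b ⁻¹ᵁ V, ∀ r, b.appLE V ⊤ hb (t r) = τ r) ∧
        ∀ (b : Spec (CommRingCat.of k) ⟶ B) (hb : ⊤ ≤ b ⁻¹ᵁ V),
          (∀ r, b.appLE V ⊤ hb (t r) = τ r) → ∀ i n m, n ≠ m →
          (fun g : Spec (CommRingCat.of k) ⟶ Z i => g ≫ f i)^[n] (b ≫ x i) ≠
            (fun g : Spec (CommRingCat.of k) ⟶ Z i => g ≫ f i)^[m] (b ≫ x i) := by
  let A := MvPolynomial (Fin d) ℤ
  have hinj : Function.Injective (aeval t : A →ₐ[ℤ] Γ(B, V)) := ht.1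
  obtain ⟨b₀, hb₀⟩ : (V : Set B).Nonempty := by
    by_contra h
    have : V = ⊥ := TopologicalSpace.Opens.coe_eq_empty.1 (Set.not_nonempty_iff_eq_empty.1 h)
    subst this
    exact zero_ne_one (hinj (Subsingleton.elim _ _))
  have : Nonempty V := ⟨⟨b₀, hb₀⟩⟩
  choose j hj using fun i => exists_mem_chart ((x i ≫ π i) b₀)
  let O : B.Opens := ⟨⋂ i, ((x i ≫ π i) ⁻¹ᵁ chart (j i) : B.Opens),
    isOpen_iInter_of_finite fun i => TopologicalSpace.Opens.isOpen _⟩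
  obtain ⟨g, hgO, hg⟩ := hV.exists_basicOpen_le (V := O) ⟨b₀, Set.mem_iInter.2 hj⟩ hb₀
  have hg0 : g ≠ 0 := by
    rintro rfl
    rw [Scheme.basicOpen_zero] at hg
    exact hg
  let V' := B.basicOpen g
  have hV' : IsAffineOpen V' := hV.basicOpen g
  have hle : V' ≤ V := B.basicOpen_le g
  have : Nonempty V' := ⟨⟨b₀, hg⟩⟩
  have := hV.isLocalization_basicOpen g
  let : Algebra A Γ(B, V) := (aeval t : A →ₐ[ℤ] Γ(B, V)).toRingHom.toAlgebra
  have : Algebra.IsAlgebraic A Γ(B, V) := by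
    have := ht.isAlgebraic
    exact Algebra.IsAlgebraic.of_ringHom_of_comp_eq ht.1.aevalEquiv.toRingEquiv (RingHom.id _)
      ht.1.aevalEquiv.surjective Function.injective_id (RingHom.ext fun _ => rfl)
  let : Algebra A Γ(B, V') := ((algebraMap Γ(B, V) Γ(B, V')).comp (algebraMap A _)).toAlgebra
  have : IsScalarTower A Γ(B, V) Γ(B, V') := .of_algebraMap_eq fun _ => rfl
  have : FaithfulSMul A Γ(B, V') := (faithfulSMul_iff_algebraMap_injective A _).2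
    ((IsLocalization.injective Γ(B, V') (powers_le_nonZeroDivisors_of_noZeroDivisors hg0)).comp hinj)
  have : Algebra.IsAlgebraic Γ(B, V) Γ(B, V') := IsLocalization.isAlgebraic _ (.powers g)
  have : Algebra.IsAlgebraic A Γ(B, V') := .trans A Γ(B, V) _
  obtain ⟨a₀, ha₀, hd⟩ := (Algebra.IsAlgebraic.isAlgebraic (R := A) g).exists_nonzero_dvd
    (mem_nonZeroDivisors_of_ne_zero hg0)
  let α : CommRingCat.of k ⟶ Γ(B, V') :=
    (Scheme.ΓSpecIso (CommRingCat.of k)).inv ≫ s.appLE ⊤ V' le_top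
  let : Algebra k Γ(B, V') := α.hom.toAlgebra
  have : Algebra.FiniteType k Γ(B, V') :=
    (s.finiteType_appLE (isAffineOpen_top _) hV' le_top).comp (RingHom.FiniteType.of_surjective _
      (Scheme.ΓSpecIso (CommRingCat.of k)).symm.commRingCatIsoToRingEquiv.surjective)
  have : IsNoetherianRing Γ(B, V') := Algebra.FiniteType.isNoetherianRing k _
  have hs : hV'.fromSpec ≫ s = Spec.map α := by
    rw [← IsAffineOpen.SpecMap_appLE_fromSpec s (isAffineOpen_top _) hV' le_top,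
      IsAffineOpen.fromSpec_top, Scheme.isoSpec_Spec_inv, ← Spec.map_comp]
  choose ι κ _ _ S ξ hξ hiff using fun i => exists_model (p i) (f i) (x i) (π i) hV' (h1 i V' hV')
    (h2 i V' hV') (hf i) (hx i) (j := j i) fun z hz => Set.mem_iInter.1 (hgO hz) i
  have : IsDominant (Spec.map (CommRingCat.ofHom (algebraMap Γ(B, V') (FractionRing Γ(B, V'))))) :=
    ⟨(PrimeSpectrum.denseRange_comap_iff_ker_le_nilRadical _).2 (by
      rw [CommRingCat.hom_ofHom, (RingHom.injective_iff_ker_eq_bot _).1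
        (IsFractionRing.injective _ _)]
      exact bot_le)⟩
  have : IsDominant hV'.fromSpec := by
    refine ⟨?_⟩
    rw [DenseRange, hV'.range_fromSpec]
    exact V'.isOpen.dense ⟨b₀, hg⟩
  obtain ⟨τ₀, M, hM, hM', hτ₀, h⟩ := alg_class (k := k) S ξ hξ
    (algebraMap Γ(B, V') (FractionRing Γ(B, V'))) (fun i n m hnm h => by
      rw [hiff, iterate_comp, iterate_comp] at h
      exact hnp i n m hnm (ext_of_isDominant_of_isSeparated (p i)
        (by rw [iterate_comp_base (hf i), iterate_comp_base (hf i)]) _ h)) ha₀ τ₁ hM₁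
  refine ⟨τ₀, M, hM, hM', hτ₀, fun τ hτ => ?_⟩
  obtain ⟨h3, ⟨β, hβ⟩, h4⟩ := h τ hτ
  constructor
  · have h5 := le_fromSpec hV' (β : Γ(B, V') →+* k)
    refine ⟨Spec.map (CommRingCat.ofHom (β : Γ(B, V') →+* k)) ≫ hV'.fromSpec, ?_,
      h5.trans (Scheme.Hom.preimage_mono _ hle), fun r => (ev_eq_iff _ _ _ _ _).1 ?_⟩
    · rw [Category.assoc, hs, ← Spec.map_comp, ← Spec.map_id]
      congr 1
      ext r
      exact β.commutes r
    · rw [← ev_res _ hle h5, ev_fromSpec, ← hβ r]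
      exact congrArg (fun y => β (algebraMap Γ(B, V) Γ(B, V') y)) (aeval_X t r).symm
  · intro b hb hτb i n m hnm h5
    have h6 : ∀ a : A, ev b V hb (algebraMap A _ a) = (eval τ a : ℤ) := fun a =>
      RingHom.congr_fun (f := (ev b V hb).comp (algebraMap A _))
        (g := (Int.castRingHom k).comp (eval τ)) (MvPolynomial.ringHom_ext (fun r => by simp)
          fun r => (congrArg (ev b V hb) (aeval_X t r)).trans
            (((ev_eq_iff _ _ _ _ _).2 (hτb r)).trans (by simp))) a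
    have hb' : ⊤ ≤ b ⁻¹ᵁ V' := (isUnit_ev_iff b hb g).1 (Ne.isUnit fun h0 => h3 (by
      have h7 := map_dvd (ev b V hb) hd
      rwa [h0, zero_dvd_iff, h6, Int.cast_eq_zero] at h7))
    refine h4 k (ev b V' hb') (fun a => (ev_res b hle hb' hb _).trans (h6 a)) i n m hnm ?_
    rwa [hiff, ← eq_fromSpec hV' b hb']

end Pool.Agent.P.MP_f6c533_ag
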