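import Pool.Agent.P.MP_f6c533_ag.ClassB

/-! Points with values in complete local rings with finite residue field. -/

set_option autoImplicit false
set_option linter.unusedSectionVars false

namespace Pool.Agent.P.MP_f6c533_ag

open IsLocalRing

section red

variable (Λ : Type) [CommRing Λ] [IsLocalRing Λ]

/-- The quotient by a power of the maximal ideal. -/
abbrev Qm (k : ℕ) : Type := Λ ⧸ maximalIdeal Λ ^ (k + 1)

/-- The reduction map. -/
abbrev rm (k : ℕ) : Λ →+* Qm Λ k := Ideal.Quotient.mk _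

instance (k : ℕ) : Nontrivial (Qm Λ k) :=
  Ideal.Quotient.nontrivial_iff.2 fun h => (maximalIdeal.isMaximal Λ).ne_top
    (top_le_iff.1 (h ▸ Ideal.pow_le_self k.succ_ne_zero))

instance (k : ℕ) : IsLocalRing (Qm Λ k) :=
  IsLocalRing.of_surjective' (rm Λ k) Ideal.Quotient.mk_surjective

instance (k : ℕ) : IsLocalHom (rm Λ k) :=
  IsLocalHom.of_surjective _ Ideal.Quotient.mk_surjective

instance [IsNoetherianRing Λ] [Finite (ResidueField Λ)] (k : ℕ) : Finite (Qm Λ k) :=
  have : Finite (Λ ⧸ maximalIdeal Λ) := ‹_›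
  Ideal.finite_quotient_pow (IsNoetherian.noetherian _) _

variable {Λ}

theorem rm_eq_iff {π : Λ} (hm : maximalIdeal Λ = Ideal.span {π}) {k : ℕ} {x y : Λ} :
    rm Λ k x = rm Λ k y ↔ π ^ (k + 1) ∣ x - y := by
  rw [Ideal.Quotient.eq, hm, Ideal.span_singleton_pow, Ideal.mem_span_singleton]

theorem rm_eq_zero_iff {π : Λ} (hm : maximalIdeal Λ = Ideal.span {π}) {k : ℕ} {x : Λ} :
    rm Λ k x = 0 ↔ π ^ (k + 1) ∣ x := by
  rw [← sub_zero x, ← rm_eq_iff hm, map_zero, sub_zero]

theorem rm_mono {k k' : ℕ} (hk : k ≤ k') {x y : Λ} (h : rm Λ k' x = rm Λ k' y) :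
    rm Λ k x = rm Λ k y :=
  Ideal.Quotient.eq.2 (Ideal.pow_le_pow_right (by omega) (Ideal.Quotient.eq.1 h))

theorem eq_of_rm [IsNoetherianRing Λ] {x y : Λ} (h : ∀ k, rm Λ k x = rm Λ k y) : x = y := by
  refine sub_eq_zero.1 (IsHausdorff.haus (inferInstance : IsHausdorff (maximalIdeal Λ) Λ) _
    fun n => ?_)
  rw [SModEq.zero, smul_eq_mul, Ideal.mul_top]
  exact Ideal.pow_le_pow_right n.le_succ (Ideal.Quotient.eq.1 (h n))

theorem exists_rm_ne_zero [IsNoetherianRing Λ] {x : Λ} (hx : x ≠ 0) (k₀ : ℕ) :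
    ∃ k, k₀ ≤ k ∧ rm Λ k x ≠ 0 := by
  by_contra! h
  exact hx (eq_of_rm fun k => rm_mono (le_max_right k₀ k)
    ((h _ (le_max_left _ _)).trans (map_zero _).symm))

end red

variable {R : Type} [CommRing R] {σ ι κ : Type} (S : Sys R σ ι κ)
  {O : Type} [CommRing O] [IsDomain O] [CharZero O] [IsLocalRing O] [IsNoetherianRing O]
  [Finite (ResidueField O)]

theorem exists_period_bound' [Finite σ] [Algebra.FiniteType ℤ R] {p : ℕ} (hp : p.Prime)
    (hO : maximalIdeal O = Ideal.span {(p : O)}) :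
    ∃ N : ℕ, 0 < N ∧ ∀ z : Pt S O, z ∈ Function.periodicPts Pt.step → Pt.step^[N] z = z := by
  classical
  let D := Qm O 1
  let E := QuadraticAlgebra D 0 0
  have : IsLocalRing E := isLocalRing_quad 0 (zero_mem _)
  have : Finite E := Finite.of_equiv _ (QuadraticAlgebra.equivProd (0 : D) 0).symm
  have : Finite (Pt S E) := Pt.finite
  let := Fintype.ofFinite (Pt S E)
  let N := (Fintype.card (Pt S E)).factorial
  have hN : 0 < N := Nat.factorial_pos _
  have hE : ∀ τ : Pt S E, τ ∈ Function.periodicPts Pt.step → Pt.step^[N] τ = τ := fun τ hτ =>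
    Function.isPeriodicPt_factorial_card_of_mem_periodicPts hτ
  have key : ∀ (m ℓ : ℕ) (z : Pt S O), 0 < m → ℓ.Prime → (Pt.step^[N * m])^[ℓ] z = z →
      Pt.step^[N * m] z = z := by
    intro m ℓ z hm hℓ hz
    have hpos : 0 < N * m * ℓ := Nat.mul_pos (Nat.mul_pos hN hm) hℓ.pos
    have hfix : ∀ (Λ : Type) [CommRing Λ] [IsLocalRing Λ] (χ : Λ →+* E) (w : Pt S Λ),
        (Pt.step^[N * m])^[ℓ] w = w → ∀ i, ((Pt.step^[N * m])^[i] w).map χ = w.map χ := by
      intro Λ _ _ χ w hw i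
      have h1 : Pt.step^[N] (w.map χ) = w.map χ := hE _ ⟨N * m * ℓ, hpos, by
        rw [Function.IsPeriodicPt, Function.IsFixedPt, ← Pt.map_iterate, Function.iterate_mul, hw]⟩
      rw [← Function.iterate_mul, Pt.map_iterate, mul_assoc, Function.iterate_mul]
      exact Function.iterate_fixed h1 _
    have hbar : ∀ i, ((Pt.step^[N * m])^[i] z).map (rm O 1) = z.map (rm O 1) := by
      intro i
      have h1 := congrArg (Pt.map (e0 (0 : D)))
        (hfix _ ((algebraMap D E).comp (rm O 1)) z hz i)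
      rw [Pt.map_map, Pt.map_map] at h1
      exact h1
    obtain ⟨j, hj⟩ := z.exists_U
    have hU : ∀ i, ((Pt.step^[N * m])^[i] z).U j := fun i =>
      Pt.U.of_map (rm O 1) (by rw [hbar]; exact hj.map _)
    have hbase : ∀ i, ((Pt.step^[N * m])^[i] z).base = z.base := fun i => by
      rw [← Function.iterate_mul, Pt.base_iterate]
    have hU1 : (Pt.step^[N * m] z).U j := hU 1
    have hbase1 : (Pt.step^[N * m] z).base = z.base := hbase 1
    by_contra hne
    let δ₀ : σ → O := fun a => (Pt.step^[N * m] z).nv j a - z.nv j a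
    have h2 : ∀ a, (p : O) ^ 2 ∣ δ₀ a := by
      intro a
      rw [← rm_eq_iff hO, ← Pt.nv_map hU1, ← Pt.nv_map hj]
      exact congrArg (fun w => Pt.nv w j a) (hbar 1)
    have h3 : ∃ k, ¬∀ a, (p : O) ^ (2 + k + 1) ∣ δ₀ a := by
      obtain ⟨a, ha⟩ : ∃ a, δ₀ a ≠ 0 := by
        by_contra! h
        exact hne (Pt.ext_nv (hbase 1) (hU 1) hj (funext fun a => sub_eq_zero.1 (h a)))
      obtain ⟨k, hk, hk'⟩ := exists_rm_ne_zero ha 2
      obtain ⟨k, rfl⟩ := Nat.exists_eq_add_of_le hk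
      exact ⟨k, fun h => hk' ((rm_eq_zero_iff hO).2 (h a))⟩
    have h4 : ∀ a, (p : O) ^ (2 + Nat.find h3) ∣ δ₀ a := by
      rcases h : Nat.find h3 with _ | k
      · exact h2
      · have := Nat.find_min h3 (m := k) (by omega)
        push Not at this
        exact this
    have h5 := Nat.find_spec h3
    set c := (p : O) ^ (2 + Nat.find h3) with hc
    choose δ hδ using h4
    have hp0 : (p : O) ≠ 0 := Nat.cast_ne_zero.2 hp.ne_zero
    have hc0 : c ≠ 0 := pow_ne_zero _ hp0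
    obtain ⟨a₀, ha₀⟩ : ∃ a, ¬(p : O) ∣ δ a := by
      by_contra! h
      exact h5 fun a => by rw [hδ, pow_succ]; exact mul_dvd_mul_left _ (h a)
    have hcm : c ∈ IsLocalRing.maximalIdeal O := by
      rw [hc, show 2 + Nat.find h3 = (1 + Nat.find h3) + 1 by ring]
      rw [hO]
      exact Ideal.pow_mem_of_mem _ (Ideal.mem_span_singleton_self _) _ (Nat.succ_pos _)
    have hcD : rm O 1 c = 0 := (rm_eq_zero_iff hO).2 (pow_dvd_pow _ (by omega))
    let Λ := QuadraticAlgebra O 0 c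
    have : IsLocalRing Λ := isLocalRing_quad c hcm
    have : IsLocalHom (e0 c) := isLocalHom_e0 c hcm
    have hv1 : ∀ a, z.nv j a + c * δ a = (Pt.step^[N * m] z).nv j a := fun a => by
      rw [← hδ]; simp [δ₀]
    have he0 : (e0 c).comp ((algebraMap O Λ).comp z.base) = z.base := RingHom.ext fun _ => rfl
    have he1 : (e1 c).comp ((algebraMap O Λ).comp z.base) = z.base := RingHom.ext fun r => by
      change z.base r + c * 0 = _
      simp
    let w₀ : PV S Λ :=
      { φ := (algebraMap O Λ).comp z.base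
        v := fun a => ⟨z.nv j a, δ a⟩
        unit := ⟨j, IsUnit.of_map (e0 c) _ (by
          change IsUnit (z.nv j j)
          rw [Pt.nv_self hj]; exact isUnit_one)⟩
        zero := fun i => quad_ext c hc0
          (by rw [MvPolynomial.eval₂_comp_left, he0, map_zero]; exact Pt.nv_zero z j i)
          (by
            rw [MvPolynomial.eval₂_comp_left, he1, map_zero, ← hbase1]
            refine Eq.trans ?_ (Pt.nv_zero (Pt.step^[N * m] z) j i)
            congr 1
            exact funext hv1) }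
    let om := Pt.mk w₀
    have hom0 : om.map (e0 c) = z := by
      conv_rhs => rw [← Pt.mk_rep z hj]
      exact congrArg Pt.mk (PV.ext he0 rfl)
    have hom1 : om.map (e1 c) = Pt.step^[N * m] z := by
      conv_rhs => rw [← Pt.mk_rep _ hU1]
      exact congrArg Pt.mk (PV.ext (he1.trans hbase1.symm) (funext hv1))
    have hi0 : ∀ i, ((Pt.step^[N * m])^[i] om).map (e0 c) = (Pt.step^[N * m])^[i] z := fun i => by
      rw [← Function.iterate_mul, Pt.map_iterate, hom0, Function.iterate_mul]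
    have hi1 : ∀ i, ((Pt.step^[N * m])^[i] om).map (e1 c) = (Pt.step^[N * m])^[i + 1] z := fun i => by
      rw [← Function.iterate_mul, Pt.map_iterate, hom1, Function.iterate_mul,
        Function.iterate_succ_apply]
    have hUom : ∀ i, ((Pt.step^[N * m])^[i] om).U j := fun i =>
      Pt.U.of_map (e0 c) (by rw [hi0]; exact hU i)
    have homℓ : (Pt.step^[N * m])^[ℓ] om = om := by
      refine Pt.ext_nv (by rw [← Function.iterate_mul, Pt.base_iterate]) (hUom ℓ) (hUom 0)
        (funext fun a => quad_ext c hc0 ?_ ?_)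
      · rw [← Pt.nv_map (hUom ℓ), ← Pt.nv_map (z := om) (hUom 0), hi0, hom0, hz]
      · rw [← Pt.nv_map (hUom ℓ), ← Pt.nv_map (z := om) (hUom 0), hi1, hom1,
          Function.iterate_succ_apply', hz]
    let im : ℕ → O := fun i => (((Pt.step^[N * m])^[i] om).nv j a₀).im
    have him : ∀ i, rm O 1 (im i) = rm O 1 (im 0) := by
      intro i
      have h1 := congrArg (fun w => (Pt.nv w j a₀).im) (hfix Λ (eD c (rm O 1) hcD) om homℓ i)
      simp only [Pt.nv_map (hUom i)] at h1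
      rw [Pt.nv_map (z := om) (hUom 0)] at h1
      exact h1
    have hstep : ∀ i, ∀ a, ((Pt.step^[N * m])^[i + 1] z).nv j a =
        ((Pt.step^[N * m])^[i] z).nv j a + c * (((Pt.step^[N * m])^[i] om).nv j a).im := by
      intro i a
      rw [← hi1, ← hi0, Pt.nv_map (hUom i), Pt.nv_map (hUom i)]
      rfl
    have him0 : im 0 = δ a₀ := by
      have h1 := hstep 0 a₀
      apply mul_left_cancel₀ hc0
      have h2 := hv1 a₀
      simp only [zero_add, Function.iterate_one, Function.iterate_zero, id_eq] at h1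
      change c * (om.nv j a₀).im = _
      linear_combination -h1 - h2
    have hsum : ∀ n, ((Pt.step^[N * m])^[n] z).nv j a₀ =
        z.nv j a₀ + c * ∑ i ∈ Finset.range n, im i := by
      intro n
      induction n with
      | zero => simp
      | succ n ih => rw [hstep, ih, Finset.sum_range_succ]; ring
    have h6 := hsum ℓ
    rw [hz, left_eq_add, mul_eq_zero, or_iff_right hc0] at h6
    have h7 := congrArg (rm O 1) h6
    rw [map_sum, Finset.sum_congr rfl fun i _ => him i, him0, Finset.sum_const, Finset.card_range,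
      map_zero, ← map_nsmul, rm_eq_zero_iff hO, nsmul_eq_mul] at h7
    have hpp : Prime (p : O) := (Ideal.span_singleton_prime hp0).1 (hO ▸ inferInstance)
    have h8 := hpp.pow_dvd_of_dvd_mul_right _ ha₀ h7
    by_cases h9 : p = ℓ
    · subst h9
      exact hpp.not_dvd_one ((mul_dvd_mul_iff_left hp0).1 (by simpa [sq] using h8))
    · have h10 := (Nat.isCoprime_iff_coprime.2 ((Nat.coprime_primes hp hℓ).2 h9)).map
        (Int.castRingHom O)
      simp only [map_natCast] at h10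
      exact hpp.not_isUnit (h10.isUnit_of_dvd ((dvd_pow_self _ two_ne_zero).trans h8))
  refine ⟨N, hN, fun z hz => ?_⟩
  obtain ⟨n, hn, hz⟩ := hz
  have h1 : z ∈ Function.periodicPts Pt.step^[N] := ⟨n, hn, by
    rw [Function.IsPeriodicPt, Function.IsFixedPt, ← Function.iterate_mul, mul_comm,
      Function.iterate_mul]
    exact Function.iterate_fixed hz _⟩
  have h2 := Function.minimalPeriod_pos_of_mem_periodicPts h1
  by_contra hne
  have h3 : Function.minimalPeriod Pt.step^[N] z ≠ 1 := fun h =>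
    hne (Function.minimalPeriod_eq_one_iff_isFixedPt.1 h)
  obtain ⟨ℓ, hℓ, m, hm⟩ := Nat.exists_prime_and_dvd h3
  have hm0 : 0 < m := Nat.pos_of_ne_zero fun h => by rw [hm, h] at h2; simp at h2
  have h4 := key m ℓ z hm0 hℓ (by
    rw [Function.iterate_mul, ← Function.iterate_mul, mul_comm m, ← hm]
    exact Function.iterate_minimalPeriod)
  have h5 : Function.IsPeriodicPt Pt.step^[N] m z := by
    rw [Function.IsPeriodicPt, Function.IsFixedPt, ← Function.iterate_mul, h4]
  have h6 := Nat.le_of_dvd hm0 h5.minimalPeriod_dvd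
  have := hℓ.two_le
  rw [hm] at h6
  nlinarith

theorem factorial_stable {α : Type} [Finite α] (g : α → α) (x : α) :
    ∃ n₀ : ℕ, ∀ n : ℕ, n₀ ≤ n → g^[n.factorial] x = g^[n₀.factorial] x := by
  classical
  have := Fintype.ofFinite α
  obtain ⟨a, b, hab, h⟩ := Finite.exists_ne_map_eq_of_infinite fun n : ℕ => g^[n] x
  obtain ⟨t, ht⟩ := mem_periodicPts_of_eq hab h
  refine ⟨max t (Fintype.card α), fun n hn => ?_⟩
  set n₀ := max t (Fintype.card α)
  have h1 : g^[n₀.factorial] x ∈ Function.periodicPts g := by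
    obtain ⟨s, hs⟩ := Nat.exists_eq_add_of_le' ((le_max_left t _).trans n₀.self_le_factorial)
    rw [hs, Function.iterate_add_apply]
    exact ((Function.bijOn_periodicPts _).mapsTo.iterate s) ht
  have h2 := (Function.isPeriodicPt_factorial_card_of_mem_periodicPts h1).trans_dvd
    (Nat.factorial_dvd_factorial (le_max_right t _))
  obtain ⟨c, hc⟩ := Nat.factorial_dvd_factorial hn
  obtain ⟨c, rfl⟩ : ∃ c', c = c' + 1 :=
    Nat.exists_eq_succ_of_ne_zero fun h => n.factorial_ne_zero (by rw [hc, h, mul_zero])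
  rw [hc, mul_add, mul_one, Function.iterate_add_apply]
  exact h2.mul_const c

variable {S} {Λ : Type} [CommRing Λ] [IsLocalRing Λ] [IsNoetherianRing Λ]

theorem Pt.eq_of_rm {z z' : Pt S Λ} (h : ∀ k, z.map (rm Λ k) = z'.map (rm Λ k)) : z = z' := by
  obtain ⟨j, hj⟩ := z.exists_U
  have hj' : z'.U j := Pt.U.of_map (rm Λ 0) (h 0 ▸ hj.map _)
  refine Pt.ext_nv (RingHom.ext fun r => MP_f6c533_ag.eq_of_rm fun k => ?_) hj hj'
    (funext fun a => MP_f6c533_ag.eq_of_rm fun k => ?_)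
  · have h1 := congrArg Pt.base (h k)
    rw [Pt.base_map, Pt.base_map] at h1
    exact RingHom.congr_fun h1 r
  · rw [← Pt.nv_map hj, ← Pt.nv_map hj', h]

theorem Pt.rm_mono {z z' : Pt S Λ} {k k' : ℕ} (hk : k ≤ k')
    (h : z.map (rm Λ k') = z'.map (rm Λ k')) : z.map (rm Λ k) = z'.map (rm Λ k) := by
  have h1 := congrArg (Pt.map (Ideal.Quotient.factor
    (Ideal.pow_le_pow_right (I := maximalIdeal Λ) (Nat.succ_le_succ hk)))) h
  rwa [Pt.map_map, Pt.map_map, Ideal.Quotient.factor_comp_mk] at h1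

theorem exists_limit [IsAdicComplete (maximalIdeal Λ) Λ] (w : ℕ → Pt S Λ)
    (hb : ∀ n, (w n).base = (w 0).base)
    (hw : ∀ k, ∃ n₀, ∀ n, n₀ ≤ n → (w n).map (rm Λ k) = (w n₀).map (rm Λ k)) :
    ∃ y : Pt S Λ, y.base = (w 0).base ∧
      ∀ k, ∃ n₀, ∀ n, n₀ ≤ n → (w n).map (rm Λ k) = y.map (rm Λ k) := by
  choose n₀ hn₀ using hw
  let m : ℕ → ℕ := fun k => (Finset.range (k + 1)).sup n₀
  have hm : ∀ {k k'}, k ≤ k' → n₀ k ≤ m k' := fun h =>
    Finset.le_sup (Finset.mem_range.2 (Nat.lt_succ_of_le h))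
  have h1 : ∀ {k k'}, k ≤ k' → (w (m k')).map (rm Λ k) = (w (n₀ k)).map (rm Λ k) :=
    fun h => hn₀ _ _ (hm h)
  obtain ⟨j, hj⟩ := (w (n₀ 0)).exists_U
  have hU : ∀ k, (w (m k)).U j := fun k =>
    Pt.U.of_map (rm Λ 0) (by rw [h1 (Nat.zero_le k)]; exact hj.map _)
  have h2 : ∀ a, ∃ L : Λ, ∀ k, rm Λ k L = rm Λ k ((w (m k)).nv j a) := by
    intro a
    have h3 : ∀ {k k'}, k ≤ k' → rm Λ k ((w (m k')).nv j a) = rm Λ k ((w (m k)).nv j a) :=
      fun h => by rw [← Pt.nv_map (hU _), ← Pt.nv_map (hU _), h1 h, h1 le_rfl]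
    obtain ⟨L, hL⟩ := IsPrecomplete.prec (inferInstance : IsPrecomplete (maximalIdeal Λ) Λ)
      (f := fun k => (w (m k)).nv j a) fun {k k'} h => by
        rw [SModEq.sub_mem, smul_eq_mul, Ideal.mul_top]
        exact Ideal.pow_le_pow_right k.le_succ (Ideal.Quotient.eq.1 (h3 h).symm)
    refine ⟨L, fun k => Eq.trans (Ideal.Quotient.eq.2 ?_).symm (h3 k.le_succ)⟩
    have h4 := hL (k + 1)
    rwa [SModEq.sub_mem, smul_eq_mul, Ideal.mul_top] at h4
  choose v hv using h2
  have hvj : v j = 1 := eq_of_rm fun k => by rw [hv, Pt.nv_self (hU k)]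
  let y : PV S Λ := ⟨(w 0).base, v, ⟨j, hvj ▸ isUnit_one⟩, fun i => eq_of_rm fun k => by
    rw [← Pt.nv_zero (w (m k)) j i, MvPolynomial.eval₂_comp_left, MvPolynomial.eval₂_comp_left,
      hb (m k)]
    congr 1
    exact funext fun a => hv a k⟩
  refine ⟨Pt.mk y, rfl, fun k => ⟨n₀ k, fun n hn => ?_⟩⟩
  rw [hn₀ k n hn, ← h1 le_rfl, ← Pt.mk_rep _ (hU k), Pt.map_mk, Pt.map_mk]
  congr 1
  exact PV.ext (congrArg (rm Λ k).comp (hb (m k))) (funext fun a => (hv a k).symm)

theorem exists_sep {z z' : Pt S Λ} (hb : z.base = z'.base) (h : z ≠ z') :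
    ∃ F : Λ, F ≠ 0 ∧ ∀ e : Λ →+* O, z.map e = z'.map e → e F = 0 := by
  obtain ⟨u, rfl⟩ := z.mk_surjective
  obtain ⟨u', rfl⟩ := z'.mk_surjective
  obtain ⟨a, a', h1⟩ : ∃ a a', u.v a * u'.v a' ≠ u.v a' * u'.v a := by
    by_contra! h1
    exact h (Pt.mk_eq_iff_minors.2 ⟨hb, h1⟩)
  refine ⟨_, sub_ne_zero.2 h1, fun e he => ?_⟩
  rw [map_sub, map_mul, map_mul, sub_eq_zero]
  exact (Pt.mk_eq_iff_minors.1 he).2 a a'

theorem Pt.rm_map {z z' : Pt S Λ} {k : ℕ} (h : z.map (rm Λ k) = z'.map (rm Λ k)) (e : Λ →+* O)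
    [IsLocalHom e] : (z.map e).map (rm O k) = (z'.map e).map (rm O k) := by
  have h1 := congrArg (Pt.map (Ideal.quotientMap (maximalIdeal O ^ (k + 1)) e
    ((Ideal.pow_right_mono (map_maximalIdeal_le e |> Ideal.map_le_iff_le_comap.1) _).trans
      (Ideal.le_comap_pow e _)))) h
  rwa [Pt.map_map, Pt.map_map, Ideal.quotientMap_comp_mk, ← Pt.map_map, ← Pt.map_map] at h1

theorem local_main [Fintype σ] [Fintype κ] [Algebra.FiniteType ℤ R] [IsDomain Λ] [CharZero Λ]
    [Finite (ResidueField Λ)] [IsAdicComplete (maximalIdeal Λ) Λ] {p : ℕ} (hp : p.Prime)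
    (hO : maximalIdeal O = Ideal.span {(p : O)}) (ξ : Pt S Λ)
    (hnp : ∀ n m, n ≠ m → Pt.step^[n] ξ ≠ Pt.step^[m] ξ) :
    ∃ F : ℕ → Λ, (∀ i, F i ≠ 0) ∧ ∀ e₀ : Λ →+* O, (∀ i, e₀ (F i) ≠ 0) → ∃ k,
      ∀ (e : Λ →+* O) [IsLocalHom e], (rm O k).comp e = (rm O k).comp e₀ →
        ∀ n m, n ≠ m → Pt.step^[n] (ξ.map e) ≠ Pt.step^[m] (ξ.map e) := by
  obtain ⟨N, hN, hper⟩ := exists_period_bound' S hp hO
  have hgmap : ∀ {A A' : Type} [CommRing A] [CommRing A'] [IsLocalRing A] [IsLocalRing A']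
      (χ : A →+* A') (z : Pt S A) (n : ℕ),
      ((Pt.step^[N])^[n] z).map χ = (Pt.step^[N])^[n] (z.map χ) := by
    intro A A' _ _ _ _ χ z n
    rw [← Function.iterate_mul, ← Function.iterate_mul, Pt.map_iterate]
  have hgb : ∀ n, ((Pt.step^[N])^[n] ξ).base = ξ.base := fun n => by
    rw [← Function.iterate_mul, Pt.base_iterate]
  obtain ⟨y, -, hy⟩ := exists_limit (fun n => (Pt.step^[N])^[n.factorial] ξ)
    (fun n => (hgb _).trans (hgb _).symm) fun k => by
      have : Finite (Pt S (Qm Λ k)) := Pt.finite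
      simpa only [hgmap] using factorial_stable Pt.step^[N] (ξ.map (rm Λ k))
  have hye : ∀ (e : Λ →+* O) [IsLocalHom e] (n m : ℕ), n ≠ m →
      Pt.step^[n] (ξ.map e) = Pt.step^[m] (ξ.map e) → Pt.step^[N] (y.map e) = y.map e ∧
        ∃ t, ∀ n, t ≤ n → (Pt.step^[N])^[n] (ξ.map e) = y.map e := by
    intro e _ n m hnm h
    obtain ⟨t, ht⟩ := mem_periodicPts_of_eq hnm h
    have h1 : (Pt.step^[N])^[t] (ξ.map e) ∈ Function.periodicPts Pt.step := by
      obtain ⟨s, hs⟩ := Nat.exists_eq_add_of_le' (Nat.le_mul_of_pos_left t hN)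
      rw [← Function.iterate_mul, hs, Function.iterate_add_apply]
      exact ((Function.bijOn_periodicPts _).mapsTo.iterate s) ht
    have h2 : ∀ n, t ≤ n → (Pt.step^[N])^[n] (ξ.map e) = (Pt.step^[N])^[t] (ξ.map e) := by
      intro n hn
      obtain ⟨s, rfl⟩ := Nat.exists_eq_add_of_le' hn
      rw [Function.iterate_add_apply]
      exact Function.iterate_fixed (hper _ h1) s
    have h3 : (Pt.step^[N])^[t] (ξ.map e) = y.map e := Pt.eq_of_rm fun k => by
      obtain ⟨n₀, h4⟩ := hy k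
      rw [← Pt.rm_map (h4 (max n₀ t) (le_max_left _ _)) e, hgmap e,
        h2 _ ((le_max_right _ _).trans (Nat.self_le_factorial _))]
    exact ⟨h3 ▸ hper _ h1, t, fun n hn => (h2 n hn).trans h3⟩
  have hne : ∀ {F : Λ} {e₀ e : Λ →+* O} {k k'}, rm O k (e₀ F) ≠ 0 → k ≤ k' →
      (rm O k').comp e = (rm O k').comp e₀ → e F ≠ 0 := fun {F e₀ e k k'} h hk he h0 =>
    h ((rm_mono hk (RingHom.congr_fun he F)).symm.trans (by rw [h0, map_zero]))
  by_cases hfix : Pt.step^[N] y = y
  swap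
  · obtain ⟨F, hF, h⟩ := exists_sep (O := O) (Pt.base_iterate y N) hfix
    refine ⟨fun _ => F, fun _ => hF, fun e₀ h0 => ?_⟩
    obtain ⟨k, -, hk⟩ := exists_rm_ne_zero (h0 0) 0
    exact ⟨k, fun e _ he n m hnm h1 =>
      hne hk le_rfl he (h e (by rw [Pt.map_iterate, (hye e n m hnm h1).1]))⟩
  obtain ⟨j, hj⟩ := y.exists_U
  obtain ⟨r, c, hc, hrig⟩ := rigid N (y.rep hj) (j := j) (Pt.nv_self hj)
    (by rw [Pt.mk_rep, ← Pt.map_iterate, hfix])
  rw [Pt.mk_rep] at hrig
  choose F hF hF' using fun m : ℕ => exists_sep (O := O) ((hgb (m + 1)).trans (hgb m).symm) (by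
    rw [← Function.iterate_mul, ← Function.iterate_mul]
    exact hnp _ _ (by rw [mul_add]; omega))
  refine ⟨fun i => i.casesOn (MvPolynomial.eval (y.nv j) c) F, fun i => i.casesOn hc hF,
    fun e₀ h0 => ?_⟩
  obtain ⟨k', -, hk'⟩ := exists_rm_ne_zero (h0 0) 0
  obtain ⟨n₁, hn₁⟩ := hy k'
  have hcong : ∀ n, n₁.factorial ≤ n →
      ((Pt.step^[N])^[n] ξ).map (rm Λ k') = y.map (rm Λ k') := by
    intro n hn
    obtain ⟨s, rfl⟩ := Nat.exists_eq_add_of_le' hn
    rw [Function.iterate_add_apply, hgmap, hn₁ n₁ le_rfl, ← hgmap, Function.iterate_fixed hfix]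
  obtain ⟨k, hk, hk''⟩ := exists_rm_ne_zero (h0 (r + n₁.factorial + 1)) k'
  refine ⟨k, fun e _ he n m hnm h1 => hne hk'' le_rfl he (hF' _ e ?_)⟩
  obtain ⟨h2, t, h3⟩ := hye e n m hnm h1
  let ρ : O →+* FractionRing O := algebraMap _ _
  have hρ : Function.Injective ρ := IsFractionRing.injective _ _
  have hstep : ∀ n, n₁.factorial ≤ n → (Pt.step^[N])^[r + 1 + n] (ξ.map e) = y.map e →
      (Pt.step^[N])^[r + n] (ξ.map e) = y.map e := by
    intro n hn h
    have h1 := Pt.rm_map (hcong n hn) e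
    rw [hgmap e] at h1
    rw [Function.iterate_add_apply] at h ⊢
    set w := (Pt.step^[N])^[n] (ξ.map e) with hw
    have hwj : w.U j := Pt.U.of_map (rm O k') (h1 ▸ (hj.map e).map _)
    have h2 : w.base = (y.map e).base := by
      rw [← h, ← Function.iterate_mul, Pt.base_iterate]
    apply Pt.map_injective hρ
    have h3 := hrig (FractionRing O) (ρ.comp e) ((w.rep hwj).map ρ) ?_ ?_ ?_ ?_
    · rwa [← Pt.map_mk, Pt.mk_rep, ← Pt.map_map, ← hgmap] at h3
    · change ρ.comp w.base = _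
      rw [h2, Pt.base_map]
      rfl
    · change ρ (w.nv j j) = 1
      rw [Pt.nv_self hwj, map_one]
    · intro h4
      apply hk'
      have h5 : MvPolynomial.eval₂ e (w.nv j) c = 0 := hρ (by
        rw [map_zero, MvPolynomial.eval₂_comp_left]; exact h4)
      have h6 := congrArg (rm O k') h5
      rw [map_zero, MvPolynomial.eval₂_comp_left] at h6
      rw [← h6, ← rm_mono hk (RingHom.congr_fun he _), ← RingHom.comp_apply]
      refine (MvPolynomial.eval₂_comp_left _ (RingHom.id Λ) (y.nv j) c).trans ?_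
      congr 1
      ext a
      have h7 := congrArg (fun z => Pt.nv z j a) h1
      simp only [Pt.nv_map hwj, Pt.nv_map (hj.map e), Pt.nv_map hj] at h7
      exact h7.symm
    · rw [← Pt.map_mk, Pt.mk_rep, ← Pt.map_map, ← hgmap, h]
  have h4 : ∀ s, (Pt.step^[N])^[r + (n₁.factorial + s)] (ξ.map e) = y.map e →
      (Pt.step^[N])^[r + n₁.factorial] (ξ.map e) = y.map e := by
    intro s
    induction s with
    | zero => exact id
    | succ s ih =>
      intro h
      refine ih (hstep _ (Nat.le_add_right _ _) ?_)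
      rwa [show r + 1 + (n₁.factorial + s) = r + (n₁.factorial + (s + 1)) by ring]
  rw [hgmap e, hgmap e, Function.iterate_succ_apply', h4 t (h3 _ (by omega)), h2]

end Pool.Agent.P.MP_f6c533_ag
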