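import Pool.Agent.P.MP_f6c533_ag.DenA

/-! Power series rings as parameter discs, null sets and counting of residue classes. -/

set_option autoImplicit false
set_option linter.unusedSectionVars false

namespace Pool.Agent.P.MP_f6c533_ag

open IsLocalRing MeasureTheory Filter Topology

section series

open PowerSeries

variable {O : Type} [CommRing O] [IsLocalRing O]

theorem mem_max_iff {F : O⟦X⟧} : F ∈ maximalIdeal O⟦X⟧ ↔ constantCoeff F ∈ maximalIdeal O := by
  rw [mem_maximalIdeal, mem_maximalIdeal, mem_nonunits_iff, mem_nonunits_iff,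
    isUnit_iff_constantCoeff]

theorem mem_max_pow_iff {n : ℕ} {F : O⟦X⟧} :
    F ∈ maximalIdeal O⟦X⟧ ^ n ↔ ∀ j, coeff j F ∈ maximalIdeal O ^ (n - j) := by
  induction n generalizing F with
  | zero => simp
  | succ n ih =>
    constructor
    · intro h
      rw [pow_succ'] at h
      refine Submodule.mul_induction_on h (fun A hA B hB j => ?_) fun A B hA hB j => ?_
      · rw [coeff_mul]
        refine Ideal.sum_mem _ fun q hq => ?_
        have h1 := Finset.HasAntidiagonal.mem_antidiagonal.1 hq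
        rcases Nat.eq_zero_or_pos q.1 with h0 | h0
        · refine Ideal.pow_le_pow_right (n := n - q.2 + 1) (by omega) ?_
          rw [pow_succ', h0, coeff_zero_eq_constantCoeff]
          exact Ideal.mul_mem_mul (mem_max_iff.1 hA) (ih.1 hB _)
        · exact Ideal.mul_mem_left _ _ (Ideal.pow_le_pow_right (by omega) (ih.1 hB q.2))
      · rw [map_add]
        exact add_mem (hA j) (hB j)
    · intro h
      rw [F.eq_X_mul_shift_add_const]
      refine add_mem ?_ ?_
      · rw [pow_succ']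
        refine Ideal.mul_mem_mul (mem_max_iff.2 (by simp)) (ih.2 fun j => ?_)
        simpa using h (j + 1)
      · have h1 : maximalIdeal O ≤ (maximalIdeal O⟦X⟧).comap C := fun a ha =>
          mem_max_iff.2 (by simpa using ha)
        exact ((Ideal.pow_right_mono h1 _).trans (Ideal.le_comap_pow _ _)) (by simpa using h 0)

variable [IsAdicComplete (maximalIdeal O) O]

theorem complete_series [IsNoetherianRing O] : IsAdicComplete (maximalIdeal O⟦X⟧) O⟦X⟧ where
  prec' f hf := by
    simp only [SModEq.sub_mem, smul_eq_mul, Ideal.mul_top, mem_max_pow_iff, map_sub] at hf ⊢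
    have h : ∀ j, ∃ L : O, ∀ k, coeff j (f (k + j)) - L ∈ maximalIdeal O ^ k := fun j => by
      simpa only [SModEq.sub_mem, smul_eq_mul, Ideal.mul_top] using
        IsPrecomplete.prec (inferInstance : IsPrecomplete (maximalIdeal O) O)
          (f := fun k => coeff j (f (k + j))) fun {k k'} h => by
            simpa only [SModEq.sub_mem, smul_eq_mul, Ideal.mul_top, Nat.add_sub_cancel] using
              hf (Nat.add_le_add_right h j) j
    choose L hL using h
    refine ⟨PowerSeries.mk L, fun n j => ?_⟩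
    rcases le_total j n with h | h
    · simpa [Nat.sub_add_cancel h] using hL j (n - j)
    · simp [Nat.sub_eq_zero_of_le h]

theorem exists_ev1 (c : maximalIdeal O) : ∃ φ : O⟦X⟧ →+* O,
    (∀ q : Polynomial O, φ q = q.eval c.1) ∧ ∀ F, ∃ G, F = C (φ F) + (X - C c.1) * G := by
  have H : (Polynomial.X - Polynomial.C c.1).IsDistinguishedAt (maximalIdeal O) :=
    ⟨⟨fun {n} hn => by
      rw [Polynomial.natDegree_X_sub_C, Nat.lt_one_iff] at hn
      simp [hn]⟩, Polynomial.monic_X_sub_C _⟩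
  let e := H.algEquivQuotient
  let e' := Polynomial.quotientSpanXSubCAlgEquiv c.1
  have he : ∀ q : Polynomial O, e (Ideal.Quotient.mk _ q) = Ideal.Quotient.mk _ (q : O⟦X⟧) :=
    fun q => by simp [e]
  refine ⟨((e.symm.trans e').toRingEquiv.toRingHom).comp (Ideal.Quotient.mk _), fun q => ?_,
    fun F => ?_⟩
  · change e' (e.symm (Ideal.Quotient.mk _ _)) = _
    rw [← he, e.symm_apply_apply]
    rfl
  · have h1 : e.symm (Ideal.Quotient.mk _ F) =
        Ideal.Quotient.mk _ (Polynomial.C (e' (e.symm (Ideal.Quotient.mk _ F)))) :=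
      e'.injective Polynomial.eval_C.symm
    rw [e.symm_apply_eq, he, Ideal.Quotient.eq, Ideal.mem_span_singleton] at h1
    obtain ⟨G, hG⟩ := h1
    refine ⟨G, ?_⟩
    simp only [Polynomial.coe_C, Polynomial.coe_sub, Polynomial.coe_X] at hG
    exact (sub_eq_iff_eq_add'.1 hG)

/-- Evaluation of a power series at an element of the maximal ideal. -/
noncomputable def ev1 (c : maximalIdeal O) : O⟦X⟧ →+* O := (exists_ev1 c).choose

theorem ev1_coe (c : maximalIdeal O) (q : Polynomial O) : ev1 c q = q.eval c.1 :=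
  (exists_ev1 c).choose_spec.1 q

theorem ev1_C (c : maximalIdeal O) (a : O) : ev1 c (C a) = a := by
  simpa using ev1_coe c (Polynomial.C a)

theorem ev1_X (c : maximalIdeal O) : ev1 c X = c.1 := by simpa using ev1_coe c Polynomial.X

instance (c : maximalIdeal O) : IsLocalHom (ev1 c) := ⟨fun F hF => by
  obtain ⟨G, hG⟩ := (exists_ev1 c).choose_spec.2 F
  by_contra h
  have h1 : constantCoeff F ∈ maximalIdeal O := mem_max_iff.1 h
  rw [hG] at h1
  simp only [map_add, map_mul, map_sub, constantCoeff_C, constantCoeff_X, zero_sub] at h1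
  exact (add_mem_cancel_right (Ideal.mul_mem_right _ _ (neg_mem c.2))).1 h1 hF⟩

theorem ev1_cong {π : O} {c c' : maximalIdeal O} {F F' : O⟦X⟧} (hc : π ∣ c.1 - c'.1)
    (hF : ∀ j, π ∣ coeff j F - coeff j F') : π ∣ ev1 c F - ev1 c' F' := by
  obtain ⟨G, hG⟩ := (exists_ev1 c').choose_spec.2 F'
  choose H hH using hF
  have h1 : F = C π * PowerSeries.mk H + F' := by
    ext j
    rw [map_add, coeff_C_mul, coeff_mk, ← hH, sub_add_cancel]
  have h2 := congrArg (ev1 c) hG
  rw [map_add, map_mul, map_sub, ev1_C, ev1_C, ev1_X] at h2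
  rw [h1, map_add, map_mul, ev1_C, h2, add_sub_assoc]
  refine dvd_add (dvd_mul_right _ _) ?_
  change π ∣ ev1 c' F' + _ - _
  rw [add_sub_cancel_left]
  exact hc.mul_right _

theorem finite_zeros [IsDomain O] [IsNoetherianRing O] {π : O}
    (hO : maximalIdeal O = Ideal.span {π}) {F : O⟦X⟧} (hF : F ≠ 0) :
    {c : maximalIdeal O | ev1 c F = 0}.Finite := by
  classical
  have h3 : ∃ k, ¬∀ j, π ^ (k + 1) ∣ coeff j F := by
    obtain ⟨j, hj⟩ : ∃ j, coeff j F ≠ 0 := by
      by_contra! h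
      exact hF (PowerSeries.ext h)
    obtain ⟨k, -, hk⟩ := exists_rm_ne_zero hj 0
    exact ⟨k, fun h => hk ((rm_eq_zero_iff hO).2 (h j))⟩
  have h4 : ∀ j, π ^ Nat.find h3 ∣ coeff j F := by
    rcases h : Nat.find h3 with _ | k
    · simp
    · exact not_not.1 (Nat.find_min h3 (m := k) (by omega))
  choose H hH using h4
  have h5 : F = C (π ^ Nat.find h3) * PowerSeries.mk H := by
    ext j
    rw [coeff_C_mul, coeff_mk, hH]
  obtain ⟨f, u, hf⟩ := exists_isWeierstrassFactorization (g := PowerSeries.mk H) fun h =>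
    Nat.find_spec h3 fun j => by
      have h6 := congrArg (coeff j) h
      rw [coeff_map, coeff_mk, map_zero, residue_eq_zero_iff, hO, Ideal.mem_span_singleton] at h6
      rw [hH, pow_succ]
      exact mul_dvd_mul_left _ h6
  refine ((Polynomial.finite_setOfPred_isRoot hf.isDistinguishedAt.monic.ne_zero).preimage
    Subtype.val_injective.injOn).subset fun c hc => ?_
  have h6 : ev1 c F = 0 := hc
  rw [h5, hf.eq_mul, map_mul, map_mul, ev1_C, ev1_coe, mul_eq_zero,
    (hf.isUnit.map _).mul_left_eq_zero] at h6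
  exact h6.resolve_left fun h => hF (by rw [h5, h, map_zero, zero_mul])

end series

section haar

variable {p : ℕ} [Fact p.Prime]

noncomputable instance : MeasureSpace ℤ_[p] :=
  letI : MeasurableSpace ℤ_[p] := borel _
  haveI : BorelSpace ℤ_[p] := ⟨rfl⟩
  ⟨Measure.addHaarMeasure ⊤⟩

instance : BorelSpace ℤ_[p] := ⟨rfl⟩

instance : (volume : Measure ℤ_[p]).IsAddHaarMeasure :=
  inferInstanceAs (Measure.addHaarMeasure ⊤).IsAddHaarMeasure

instance : IsProbabilityMeasure (volume : Measure ℤ_[p]) :=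
  ⟨Measure.addHaarMeasure_self (K₀ := ⊤)⟩

theorem measurableSet_of_cong {d : ℕ} {s : Set (Fin d → ℤ_[p])}
    (h : ∀ x ∉ s, ∃ n : ℕ, ∀ y, (∀ i, (p : ℤ_[p]) ^ n ∣ y i - x i) → y ∉ s) : MeasurableSet s := by
  refine IsClosed.measurableSet (isOpen_compl_iff.1 (isOpen_iff_mem_nhds.2 fun x hx => ?_))
  obtain ⟨n, hn⟩ := h x hx
  have h0 : (0 : ℝ) < (p : ℝ) ^ (-n : ℤ) :=
    zpow_pos (Nat.cast_pos.2 (Fact.out : p.Prime).pos) _
  refine mem_of_superset (Metric.closedBall_mem_nhds x h0) fun y hy => hn y fun i => ?_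
  rw [← Ideal.mem_span_singleton, ← PadicInt.norm_le_pow_iff_mem_span_pow, ← dist_eq_norm]
  exact (dist_le_pi_dist y x i).trans hy

theorem ae_notMem_finite {s : Set ℤ_[p]} (hs : s.Finite) : ∀ᵐ x, x ∉ s := by
  have : Filter.NeBot (𝓝[≠] (0 : ℤ_[p])) := by
    have h1 : Tendsto (fun n : ℕ => (p : ℤ_[p]) ^ n) atTop (𝓝[≠] 0) :=
      tendsto_nhdsWithin_iff.2 ⟨tendsto_pow_atTop_nhds_zero_of_norm_lt_one (by
        rw [PadicInt.norm_p]
        exact inv_lt_one_of_one_lt₀ (Nat.one_lt_cast.2 (Fact.out : p.Prime).one_lt)),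
        Eventually.of_forall fun n => pow_ne_zero _ PadicInt.prime_p.ne_zero⟩
    exact h1.neBot
  exact hs.countable.ae_notMem _

theorem volume_classes {d M n : ℕ} [NeZero M] (ρ : ℤ_[p] →+* ZMod M)
    (hρ : ∀ x, (p : ℤ_[p]) ^ n ∣ x → ρ x = 0) (G : Finset (Fin d → ZMod M)) :
    MeasurableSet {x : Fin d → ℤ_[p] | (fun i => ρ (x i)) ∈ G} ∧
      volume.real {x : Fin d → ℤ_[p] | (fun i => ρ (x i)) ∈ G} = G.card / (M : ℝ) ^ d := by
  let r : (Fin d → ℤ_[p]) → Fin d → ZMod M := fun x i => ρ (x i)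
  have hm : ∀ s : Set (Fin d → ZMod M), MeasurableSet (r ⁻¹' s) := fun s =>
    measurableSet_of_cong fun x hx => ⟨n, fun y hy h => hx (by
      have h1 : r y = r x := funext fun i => sub_eq_zero.1 ((map_sub ρ _ _).symm.trans (hρ _ (hy i)))
      rwa [Set.mem_preimage, ← h1])⟩
  have h1 : ∀ g, volume.real (r ⁻¹' {g}) = volume.real (r ⁻¹' {0}) := fun g => by
    choose u hu using fun i => ZMod.ringHom_surjective ρ (g i)
    have h2 : r ⁻¹' {0} = (fun x => u + x) ⁻¹' (r ⁻¹' {g}) := by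
      ext x
      simp [r, funext_iff, hu]
    rw [h2, Measure.real, Measure.real, measure_preimage_add]
  have h2 : ∀ G : Finset (Fin d → ZMod M),
      volume.real (r ⁻¹' G) = G.card * volume.real (r ⁻¹' {0}) := fun G => by
    rw [← sum_measureReal_preimage_singleton G fun g _ => hm _]
    simp [h1]
  have h3 := h2 Finset.univ
  simp only [Finset.coe_univ, Set.preimage_univ, probReal_univ, Finset.card_univ, Fintype.card_pi,
    ZMod.card, Finset.prod_const, Fintype.card_fin, Nat.cast_pow] at h3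
  refine ⟨hm G, (h2 G).trans ?_⟩
  rw [eq_div_iff (pow_ne_zero _ (Nat.cast_ne_zero.2 (NeZero.ne M))), mul_assoc, mul_comm _ (_ ^ d),
    ← h3, mul_one]

theorem exists_classes {d : ℕ} (Bad : Set (Fin d → ℤ)) (Z : Finset (Fin d → ZMod p))
    (h : ∀ᵐ x : Fin d → ℤ_[p], (fun i => PadicInt.toZMod (x i)) ∉ Z →
      ∃ k : ℕ, ∀ τ ∈ Bad, ¬∀ i, (p : ℤ_[p]) ^ k ∣ τ i - x i)
    {ε : ℝ} (hε : Z.card / (p : ℝ) ^ d < ε) :
    ∃ (k : ℕ) (G : Finset (Fin d → ZMod (p ^ k))), (1 - ε) * ((p ^ k : ℕ) : ℝ) ^ d ≤ G.card ∧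
      ∀ τ : Fin d → ℤ, (fun i => (τ i : ZMod (p ^ k))) ∈ G → τ ∉ Bad := by
  classical
  have hp : ∀ k, NeZero (p ^ k) := fun k => ⟨pow_ne_zero _ (Fact.out : p.Prime).ne_zero⟩
  have hker : ∀ k (x : ℤ_[p]), PadicInt.toZModPow k x = 0 ↔ (p : ℤ_[p]) ^ k ∣ x := fun k x => by
    rw [← RingHom.mem_ker, PadicInt.ker_toZModPow, Ideal.mem_span_singleton]
  let G : ∀ k, Finset (Fin d → ZMod (p ^ k)) := fun k =>
    Finset.univ.filter fun g => ∃ τ ∈ Bad, (fun i => (τ i : ZMod (p ^ k))) = g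
  let B : ℕ → Set (Fin d → ℤ_[p]) := fun k => {x | (fun i => PadicInt.toZModPow k (x i)) ∈ G k}
  have hB : ∀ k x, x ∈ B k ↔ ∃ τ ∈ Bad, ∀ i, (p : ℤ_[p]) ^ k ∣ τ i - x i := fun k x => by
    simp only [B, G, Set.mem_ofPred_eq, Finset.mem_filter, Finset.mem_univ, true_and, funext_iff,
      ← hker, map_sub, map_intCast, sub_eq_zero]
  have hv := fun k => volume_classes (PadicInt.toZModPow k) (fun x => (hker k x).2) (G k)
  have h1 := tendsto_measure_iInter_atTop (μ := volume) (s := B)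
    (fun k => (hv k).1.nullMeasurableSet) (fun k k' hk x hx => by
      obtain ⟨τ, hτ, h1⟩ := (hB _ _).1 hx
      exact (hB _ _).2 ⟨τ, hτ, fun i => (pow_dvd_pow _ hk).trans (h1 i)⟩) ⟨0, measure_ne_top _ _⟩
  have h2 : volume.real (⋂ k, B k) < ε := by
    refine lt_of_le_of_lt ?_ (((volume_classes (n := 1) PadicInt.toZMod (fun x hx => by
      rw [← RingHom.mem_ker, PadicInt.ker_toZMod, PadicInt.maximalIdeal_eq_span_p,
        Ideal.mem_span_singleton]
      simpa using hx) Z).2).trans_lt hε)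
    refine ENNReal.toReal_mono (measure_ne_top _ _) (measure_mono_ae (h.mono fun x hx h3 => ?_))
    by_contra h4
    obtain ⟨k, hk⟩ := hx h4
    obtain ⟨τ, hτ, h5⟩ := (hB k x).1 (Set.mem_iInter.1 h3 k)
    exact hk τ hτ h5
  obtain ⟨k, hk⟩ := (((ENNReal.tendsto_toReal (measure_ne_top _ _)).comp h1).eventually
    (gt_mem_nhds h2)).exists
  have h3 : ((G k).card : ℝ) / ((p ^ k : ℕ) : ℝ) ^ d < ε := (hv k).2 ▸ hk
  refine ⟨k, (G k)ᶜ, ?_, fun τ hτ h4 => Finset.mem_compl.1 hτ (by simpa [G] using ⟨τ, h4, rfl⟩)⟩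
  rw [div_lt_iff₀ (pow_pos (Nat.cast_pos.2 (NeZero.pos _)) _)] at h3
  rw [Finset.card_compl, Nat.cast_sub (Finset.card_le_univ _)]
  simp only [Fintype.card_pi, ZMod.card, Finset.prod_const, Finset.card_univ, Fintype.card_fin]
  rw [Nat.cast_pow (p ^ k)]
  linarith

variable {O : Type} [CommRing O] [IsDomain O] [CharZero O] [IsLocalRing O] [IsNoetherianRing O]
  [IsAdicComplete (maximalIdeal O) O] (hO : maximalIdeal O = Ideal.span {(p : O)})
  (z : ℤ_[p] →+* O)

open Classical in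
/-- The image of a multiple of `p` in the maximal ideal. -/
noncomputable def cl (x : ℤ_[p]) : maximalIdeal O :=
  if h : (p : ℤ_[p]) ∣ x then
    ⟨z x, by rw [hO, Ideal.mem_span_singleton]; simpa using map_dvd z h⟩ else 0

theorem cl_of_dvd {x : ℤ_[p]} (h : (p : ℤ_[p]) ∣ x) : (cl hO z x).1 = z x := by
  rw [cl, dif_pos h]

open PowerSeries in
theorem exists_pack (hz : Function.Injective z) {k : Type} [Field k] (ε₀ : O →+* k)
    (hε₀ : Function.Surjective ε₀) (d : ℕ) :
    ∃ (Λ : Type) (_ : CommRing Λ) (_ : IsDomain Λ) (_ : CharZero Λ) (_ : IsLocalRing Λ)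
      (_ : IsNoetherianRing Λ) (_ : IsAdicComplete (maximalIdeal Λ) Λ) (ε : Λ →+* k)
      (T : Fin d → Λ) (ev : (Fin d → maximalIdeal O) → Λ →+* O), Function.Surjective ε ∧
      (∀ i, ε (T i) = 0) ∧ (∀ c i, ev c (T i) = c i) ∧ (∀ c, IsLocalHom (ev c)) ∧
      (∀ (π : O) c c' F, (∀ i, π ∣ (c i).1 - c' i) → π ∣ ev c F - ev c' F) ∧
      ∀ F, F ≠ 0 → ∀ᵐ x : Fin d → ℤ_[p], (∀ i, (p : ℤ_[p]) ∣ x i) →
        ev (fun i => cl hO z (x i)) F ≠ 0 := by
  induction d with
  | zero =>
    exact ⟨O, inferInstance, inferInstance, inferInstance, inferInstance, inferInstance,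
      inferInstance, ε₀, Fin.elim0, fun _ => RingHom.id O, hε₀, fun i => i.elim0,
      fun _ i => i.elim0, fun _ => inferInstance, fun _ _ _ _ _ => by simp,
      fun F hF => Eventually.of_forall fun _ _ => hF⟩
  | succ d ih =>
    obtain ⟨Λ, _, _, _, _, _, _, ε, T, ev, h1, h2, h3, h4, h5, h6⟩ := ih
    let ev' : (Fin (d + 1) → maximalIdeal O) → Λ⟦X⟧ →+* O := fun c =>
      (ev1 (c 0)).comp (PowerSeries.map (ev fun i => c i.succ))
    have h7 : ∀ (π : O) c c' F, (∀ i, π ∣ (c i).1 - c' i) → π ∣ ev' c F - ev' c' F :=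
      fun π c c' F h => ev1_cong (h 0) fun j => h5 π _ _ _ fun i => h i.succ
    refine ⟨Λ⟦X⟧, inferInstance, inferInstance, charZero_of_injective_ringHom (C_injective (R := Λ)), inferInstance,
      inferInstance, complete_series, ε.comp constantCoeff, Fin.cons X fun i => C (T i), ev',
      h1.comp constantCoeff_surj, fun i => ?_, fun c i => ?_, fun c => ?_, h7, fun F hF => ?_⟩
    · cases i using Fin.cases <;> simp [h2]
    · cases i using Fin.cases <;> simp [ev', ev1_X, ev1_C, h3]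
    · have := h4 fun i => c i.succ
      have := PowerSeries.map.isLocalHom (ev fun i => c i.succ)
      exact RingHom.isLocalHom_comp _ _
    obtain ⟨j, hj⟩ : ∃ j, coeff j F ≠ 0 := by
      by_contra! h
      exact hF (PowerSeries.ext h)
    have hm : MeasurableSet {x : Fin (d + 1) → ℤ_[p] | (∀ i, (p : ℤ_[p]) ∣ x i) →
        ev' (fun i => cl hO z (x i)) F ≠ 0} := by
      refine MeasurableSet.of_compl (measurableSet_of_cong fun x hx => ?_)
      by_cases hpx : ∀ i, (p : ℤ_[p]) ∣ x i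
      · obtain ⟨n, -, hn⟩ := exists_rm_ne_zero (not_not.1 hx hpx) 0
        refine ⟨n + 1, fun y hy => not_not.2 fun hpy h0 => hn ?_⟩
        rw [← map_zero (rm O n), ← h0, eq_comm, rm_eq_iff hO]
        refine h7 _ (fun i => cl hO z (y i)) (fun i => cl hO z (x i)) F fun i => ?_
        rw [cl_of_dvd hO z (hpy i), cl_of_dvd hO z (hpx i), ← map_sub]
        simpa using map_dvd z (hy i)
      · refine ⟨1, fun y hy => not_not.2 fun hpy => absurd (fun i => ?_) hpx⟩
        exact (dvd_iff_dvd_of_dvd_sub (pow_one (p : ℤ_[p]) ▸ hy i)).1 (hpy i)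
    have he := ((volume_preserving_piFinSuccAbove (fun _ : Fin (d + 1) => ℤ_[p]) 0).symm _).comp
      (Measure.measurePreserving_swap (μ := volume) (ν := volume))
    rw [← he.map_eq, ae_map_iff he.measurable.aemeasurable hm]
    refine (Measure.ae_prod_iff_ae_ae (he.measurable hm)).2 ?_
    filter_upwards [h6 _ hj] with x hx
    by_cases hpx : ∀ i, (p : ℤ_[p]) ∣ x i
    swap
    · exact Eventually.of_forall fun y h => absurd (fun i : Fin d => h i.succ) hpx
    have h8 := finite_zeros hO (F := PowerSeries.map (ev fun i => cl hO z (x i)) F) fun h =>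
      hx hpx (by simpa using congrArg (coeff j) h)
    filter_upwards [ae_notMem_finite ((h8.image Subtype.val).preimage hz.injOn)] with y hy h h0
    exact hy ⟨cl hO z y, h0, cl_of_dvd hO z (h 0)⟩

end haar

end Pool.Agent.P.MP_f6c533_ag
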