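import Pool.Agent.P.MP_f6c533_ag.DenB

/-! Almost all congruence classes of integral parameters carry only wandering specialisations. -/

set_option autoImplicit false
set_option linter.unusedSectionVars false

namespace Pool.Agent.P.MP_f6c533_ag

section disc

open IsLocalRing MeasureTheory Filter Polynomial

theorem alg_values {A R' D : Type} [CommRing A] [CommRing R'] [Algebra A R'] [CommRing D]
    [IsDomain D] (P : StandardEtalePresentation A R') (φ : A →+* ℤ) (b : R' →+* D)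
    (hb : b.comp (algebraMap A R') = (Int.castRingHom D).comp φ) (r : R') :
    IsAlgebraic ℤ (b r) := by
  have h1 : ∀ q : A[X], b (aeval P.x q) = aeval (b P.x) (q.map φ) := by
    intro q
    rw [aeval_def, hom_eval₂, hb, aeval_def, eval₂_map]
    rfl
  have h2 : IsIntegral ℤ (b P.x) :=
    ⟨P.f.map φ, P.monic_f.map _, by rw [← aeval_def, ← h1, P.hasMap.1, map_zero]⟩
  have h3 : ∀ q : A[X], IsIntegral ℤ (b (aeval P.x q)) := fun q => by
    rw [h1]
    exact IsIntegral.of_mem_of_fg _ h2.fg_adjoin_singleton _ (aeval_mem_adjoin_singleton ℤ _)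
  obtain ⟨q, m, h⟩ := P.exists_mul_aeval_x_g_pow_eq_aeval_x r
  refine IsAlgebraic.of_mul
    (mem_nonZeroDivisors_of_ne_zero ((P.hasMap.2.map b).pow m).ne_zero)
    ((h3 _).pow m).isAlgebraic ?_
  rw [← map_pow, ← map_mul, mul_comm, h]
  exact (h3 _).isAlgebraic

theorem exists_etale_chart (A W : Type) [CommRing A] [IsDomain A] [CharZero A]
    [IsNoetherianRing A] [CommRing W] [IsDomain W] [Algebra A W] [FaithfulSMul A W]
    [Algebra.FiniteType A W] [Algebra.IsAlgebraic A W] :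
    ∃ (R' : Type) (_ : CommRing R') (_ : IsDomain R') (_ : Algebra A R') (_ : FaithfulSMul A R')
      (_ : Algebra.IsAlgebraic A R') (_ : Algebra.FormallySmooth A R') (w : W →ₐ[A] R')
      (P : StandardEtalePresentation A R') (u : A[X]) (a : A), Function.Injective w ∧ a ≠ 0 ∧
      aeval P.x P.g * aeval P.x u = algebraMap A R' a := by
  obtain ⟨f, hf0, hét⟩ := exists_standardEtale A W
  let R' := Localization.Away f
  have hle : Submonoid.powers f ≤ nonZeroDivisors W := powers_le_nonZeroDivisors_of_noZeroDivisors hf0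
  have : IsDomain R' := IsLocalization.isDomain_localization hle
  have hinj : Function.Injective (algebraMap W R') := IsLocalization.injective _ hle
  obtain ⟨P⟩ := hét.nonempty_standardEtalePresentation
  have : FaithfulSMul A R' := (faithfulSMul_iff_algebraMap_injective A R').2 (by
    rw [IsScalarTower.algebraMap_eq A W R']
    exact hinj.comp (FaithfulSMul.algebraMap_injective A W))
  have : Algebra.IsAlgebraic W R' := IsLocalization.isAlgebraic _ (.powers f)
  have : Algebra.IsAlgebraic A R' := .trans A W R'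
  obtain ⟨u, hu, a, ha, hua⟩ := (Algebra.IsAlgebraic.isAlgebraic (R := A)
    (aeval P.x P.g)).exists_nonzero_eq_adjoin_mul
    (mem_nonZeroDivisors_of_ne_zero P.hasMap.2.ne_zero)
  obtain ⟨u, rfl⟩ : ∃ q : A[X], aeval P.x q = u := by
    have h1 : Algebra.adjoin A {aeval P.x P.g} ≤ Algebra.adjoin A {P.x} :=
      Algebra.adjoin_le (Set.singleton_subset_iff.2 (aeval_mem_adjoin_singleton A P.x))
    have h2 := h1 hu
    rwa [Algebra.adjoin_singleton_eq_range_aeval] at h2
  exact ⟨R', inferInstance, inferInstance, inferInstance, inferInstance, inferInstance,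
    inferInstance, IsScalarTower.toAlgHom A W R', P, u, a, hinj, ha, hua⟩

theorem exists_coefficients (p : ℕ) [Fact p.Prime] (k : Type) [Field k] [Finite k]
    [Algebra (ZMod p) k] :
    ∃ (O : Type) (_ : CommRing O) (_ : IsDomain O) (_ : CharZero O) (_ : IsLocalRing O)
      (_ : IsNoetherianRing O) (_ : IsAdicComplete (maximalIdeal O) O) (z : ℤ_[p] →+* O)
      (ε : O →+* k), maximalIdeal O = Ideal.span {(p : O)} ∧ Function.Injective z ∧
      Function.Surjective ε := by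
  have : CharP k p := charP_of_injective_algebraMap (algebraMap (ZMod p) k).injective p
  have hO : maximalIdeal (WittVector p k) = Ideal.span {(p : WittVector p k)} :=
    (WittVector.irreducible p).maximalIdeal_eq
  let z := (WittVector.map (p := p) (algebraMap (ZMod p) k)).comp
    (WittVector.equiv p).symm.toRingHom
  have hz : Function.Injective z :=
    (WittVector.map_injective _ (algebraMap (ZMod p) k).injective).comp
      (WittVector.equiv p).symm.injective
  exact ⟨WittVector p k, inferInstance, inferInstance, charZero_of_injective_ringHom hz,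
    inferInstance, inferInstance, hO ▸ WittVector.isAdicCompleteIdealSpanP, z,
    WittVector.constantCoeff, hO, hz, WittVector.constantCoeff_surjective p⟩

theorem finite_residue {Λ k : Type} [CommRing Λ] [IsLocalRing Λ] [Field k] [Finite k]
    (ε : Λ →+* k) (h : Function.Surjective ε) : Finite (ResidueField Λ) := by
  change Finite (Λ ⧸ maximalIdeal Λ)
  rw [← ker_eq_maximalIdeal ε h]
  exact Finite.of_injective _ (RingHom.kerLift_injective ε)

theorem disc_main {d : ℕ} {R' : Type} [CommRing R'] [IsDomain R']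
    [Algebra (MvPolynomial (Fin d) ℤ) R'] [FaithfulSMul (MvPolynomial (Fin d) ℤ) R']
    [Algebra.IsAlgebraic (MvPolynomial (Fin d) ℤ) R']
    [Algebra.FormallySmooth (MvPolynomial (Fin d) ℤ) R']
    (P : StandardEtalePresentation (MvPolynomial (Fin d) ℤ) R') {u : (MvPolynomial (Fin d) ℤ)[X]}
    {a : MvPolynomial (Fin d) ℤ} (hua : aeval P.x P.g * aeval P.x u = algebraMap _ R' a)
    {R : Type} [CommRing R] [Algebra.FiniteType ℤ R] {J : Type} [Finite J] {σ ι κ : J → Type}
    [∀ i, Fintype (σ i)] [∀ i, Fintype (κ i)] (S : ∀ i, Sys R (σ i) (ι i) (κ i))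
    (ξ : ∀ i, Pt (S i) R')
    (hnp : ∀ (L : Type) [Field L] (ψ : R' →+* L), Function.Injective ψ → ∀ i n m, n ≠ m →
      Pt.step^[n] ((ξ i).map ψ) ≠ Pt.step^[m] ((ξ i).map ψ))
    (p : ℕ) [Fact p.Prime] (τ₀ : Fin d → ℤ) (h₀ : (MvPolynomial.eval τ₀ a : ZMod p) ≠ 0) :
    ∀ᵐ x : Fin d → ℤ_[p], (∀ i, (p : ℤ_[p]) ∣ x i - τ₀ i) → ∃ k : ℕ, ∀ τ : Fin d → ℤ,
      (∀ i, (p : ℤ_[p]) ^ k ∣ τ i - x i) →
      ∃ (L : Type) (_ : Field L) (_ : CharZero L) (b : R' →+* L),
        b.comp (algebraMap _ R') = (Int.castRingHom L).comp (MvPolynomial.eval τ) ∧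
        ∀ i n m, n ≠ m → Pt.step^[n] ((ξ i).map b) ≠ Pt.step^[m] ((ξ i).map b) := by
  let A := MvPolynomial (Fin d) ℤ
  have hx : IsIntegral A P.x := ⟨P.f, P.monic_f, P.hasMap.1⟩
  let φ : A →+* ZMod p := (Int.castRingHom _).comp (MvPolynomial.eval τ₀)
  let k := ((minpoly A P.x).map φ).SplittingField
  have : Finite k := Module.finite_of_finite (ZMod p)
  obtain ⟨θ, hθ⟩ := (SplittingField.splits ((minpoly A P.x).map φ)).exists_eval_eq_zero (by
    rw [degree_map, (minpoly.monic hx).degree_map]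
    exact (minpoly.degree_pos hx).ne')
  rw [Polynomial.map_map, eval_map] at hθ
  obtain ⟨O, _, _, _, _, _, _, z, ε₀, hO, hz, hε₀⟩ := exists_coefficients p k
  obtain ⟨Λ, _, _, _, _, _, _, ε, T, ev, h1, h2, h3, h4, h5, h6⟩ := exists_pack hO z hz ε₀ hε₀ d
  have := finite_residue ε₀ hε₀
  have := finite_residue ε h1
  let α : A →+* Λ := MvPolynomial.eval₂Hom (Int.castRingHom Λ) fun i => τ₀ i + T i
  let : Algebra A Λ := α.toAlgebra
  have hα : ε.comp α = (algebraMap (ZMod p) k).comp φ :=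
    MvPolynomial.ringHom_ext (fun r => by simp) fun i => by simp [α, φ, h2]
  obtain ⟨θ₀, rfl⟩ := h1 θ
  have h7 : ∀ q : A[X], aeval P.x q = 0 → ε (aeval θ₀ q) = 0 := by
    intro q hq
    obtain ⟨q', rfl⟩ := minpoly.isIntegrallyClosed_dvd hx hq
    rw [map_mul, map_mul, aeval_def, hom_eval₂]
    exact mul_eq_zero_of_left ((congrArg (eval₂ · _ _) hα).trans hθ) _
  have hk : ∀ y, y ∈ maximalIdeal Λ ↔ ε y = 0 := fun y => by
    rw [← ker_eq_maximalIdeal ε h1, RingHom.mem_ker]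
  have hmap : P.P.HasMap (Ideal.Quotient.mkₐ A (maximalIdeal Λ) θ₀) := by
    constructor
    · rw [aeval_algHom_apply]
      exact Ideal.Quotient.eq_zero_iff_mem.2 ((hk _).2 (h7 _ P.hasMap.1))
    · rw [aeval_algHom_apply]
      refine IsUnit.map _ (by_contra fun h => h₀ ((algebraMap (ZMod p) k).injective ?_))
      have h8 := h7 (P.g * u - C a) (by rw [map_sub, map_mul, hua, aeval_C, sub_self])
      rw [map_sub, map_mul, aeval_C, map_sub, map_mul, (hk _).1 h, zero_mul, zero_sub,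
        neg_eq_zero] at h8
      exact ((RingHom.congr_fun hα a).symm.trans h8).trans (map_zero _).symm
  obtain ⟨lam, -⟩ := Algebra.FormallySmooth.exists_mkₐ_comp_eq_of_isAdicComplete
    ((P.P.lift _ hmap).comp P.equivRing.toAlgHom)
  let e : (Fin d → ℤ_[p]) → Λ →+* O := fun x => ev fun i => cl hO z (x i - τ₀ i)
  have he : ∀ τ : Fin d → ℤ, (∀ i, (p : ℤ_[p]) ∣ τ i - τ₀ i) →
      (e fun i => τ i).comp α = (Int.castRingHom O).comp (MvPolynomial.eval τ) := fun τ hτ =>
    MvPolynomial.ringHom_ext (fun r => by simp) fun i => by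
      simp [α, e, h3, cl_of_dvd hO z (hτ i)]
  have hαi : Function.Injective (algebraMap A Λ) := (injective_iff_map_eq_zero α).2 fun c hc => by
    by_contra h
    obtain ⟨τ, hτ, h8⟩ := exists_eval_ne h τ₀ (M := p)
      (Int.natCast_ne_zero.2 (Fact.out : p.Prime).ne_zero)
    have h9 := RingHom.congr_fun (he τ fun i => by
      simpa using map_dvd (Int.castRingHom ℤ_[p]) (hτ i)) c
    rw [RingHom.comp_apply, hc, map_zero] at h9
    exact h8 (Int.cast_eq_zero.1 h9.symm)
  have : FaithfulSMul A (FractionRing Λ) := (faithfulSMul_iff_algebraMap_injective A _).2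
    ((IsFractionRing.injective Λ _).comp hαi)
  choose F hF hF' using fun i => local_main (O := O) (Fact.out : p.Prime) hO
    ((ξ i).map (lam : R' →+* Λ)) fun n m hnm h => hnp (FractionRing Λ)
      ((IsScalarTower.toAlgHom A Λ (FractionRing Λ)).comp lam : R' →ₐ[A] _)
      (algHom_injective _) i n m hnm (by
        have h8 := congrArg (Pt.map (algebraMap Λ (FractionRing Λ))) h
        rwa [Pt.map_iterate, Pt.map_iterate, Pt.map_map] at h8)
  filter_upwards [(measurePreserving_sub_right volume fun i => (τ₀ i : ℤ_[p])).quasiMeasurePreserving.ae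
    (ae_all_iff.2 fun i => ae_all_iff.2 fun n => h6 _ (hF i n))] with x hx' hpx
  choose K hK using fun i => hF' i (e x) fun n => hx' i n hpx
  obtain ⟨K₀, hK₀⟩ := (Set.finite_range K).bddAbove
  refine ⟨K₀ + 1, fun τ hτ => ?_⟩
  have hτ₀ : ∀ i, (p : ℤ_[p]) ∣ τ i - τ₀ i := fun i => by
    simpa using dvd_add ((dvd_pow_self _ K₀.succ_ne_zero).trans (hτ i)) (hpx i)
  let ρ : O →+* FractionRing O := algebraMap _ _
  have hρ : Function.Injective ρ := IsFractionRing.injective _ _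
  refine ⟨FractionRing O, inferInstance, charZero_of_injective_ringHom hρ,
    ρ.comp ((e fun i => τ i).comp (lam : R' →+* Λ)), ?_, fun i n m hnm h => ?_⟩
  · rw [RingHom.comp_assoc, RingHom.comp_assoc, lam.comp_algebraMap]
    exact (congrArg ρ.comp (he τ hτ₀)).trans (RingHom.ext fun c => map_intCast ρ _)
  · have := h4 fun i => cl hO z (τ i - τ₀ i)
    refine hK i (e fun i => τ i) (RingHom.ext fun y => rm_mono (hK₀ ⟨i, rfl⟩) ((rm_eq_iff hO).2
      (h5 _ _ _ _ fun j => ?_))) n m hnm (Pt.map_injective hρ ?_)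
    · rw [cl_of_dvd hO z (hτ₀ j), cl_of_dvd hO z (hpx j), ← map_sub, sub_sub_sub_cancel_right]
      simpa using map_dvd z (hτ j)
    · rwa [Pt.map_iterate, Pt.map_iterate, Pt.map_map, Pt.map_map]

end disc

section alg

open MvPolynomial Filter MeasureTheory

/-- The property holds on all residue classes outside a proportion as small as one likes. -/
def Most {d : ℕ} (Q : (Fin d → ℤ) → Prop) : Prop :=
  ∀ ε : ℝ, 0 < ε → ∃ (M : ℕ) (G : Finset (Fin d → ZMod M)), 0 < M ∧
    (1 - ε) * (M : ℝ) ^ d ≤ G.card ∧ ∀ τ : Fin d → ℤ, (fun r => (τ r : ZMod M)) ∈ G → Q τ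

theorem Most.mono {d : ℕ} {Q Q' : (Fin d → ℤ) → Prop} (h : Most Q) (h' : ∀ τ, Q τ → Q' τ) :
    Most Q' := fun ε hε =>
  let ⟨M, G, h1, h2, h3⟩ := h ε hε
  ⟨M, G, h1, h2, fun τ hτ => h' τ (h3 τ hτ)⟩

theorem most_of_discs {d : ℕ} {Q : (Fin d → ℤ) → Prop} {a : MvPolynomial (Fin d) ℤ} (ha : a ≠ 0)
    (h : ∀ (p : ℕ) [Fact p.Prime] (τ₀ : Fin d → ℤ), (eval τ₀ a : ZMod p) ≠ 0 →
      ∀ᵐ x : Fin d → ℤ_[p], (∀ i, (p : ℤ_[p]) ∣ x i - τ₀ i) → ∃ k : ℕ, ∀ τ : Fin d → ℤ,
        (∀ i, (p : ℤ_[p]) ^ k ∣ τ i - x i) → Q τ) : Most Q := by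
  classical
  intro ε hε
  obtain ⟨s, hs⟩ := ne_zero_iff.1 ha
  obtain ⟨n, hn⟩ := exists_nat_gt (a.totalDegree / ε)
  obtain ⟨p, hp, hp'⟩ := Nat.exists_infinite_primes (n + (coeff s a).natAbs + 1)
  have : Fact p.Prime := ⟨hp'⟩
  let a' := map (Int.castRingHom (ZMod p)) a
  have ha' : a' ≠ 0 := ne_zero_iff.2 ⟨s, fun h0 => by
    rw [coeff_map, eq_intCast, ZMod.intCast_zmod_eq_zero_iff_dvd] at h0
    have := Nat.le_of_dvd (Int.natAbs_pos.2 hs) (Int.natCast_dvd.1 h0)
    omega⟩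
  have h1 := schwartz_zippel_totalDegree ha' Finset.univ
  have h2 : a'.totalDegree ≤ a.totalDegree :=
    Finset.sup_mono (support_map_subset _ _)
  have hp0 : (0 : ℝ) < p := Nat.cast_pos.2 hp'.pos
  obtain ⟨k, G, h3, h4⟩ := exists_classes (p := p) {τ | ¬Q τ}
    {g ∈ Fintype.piFinset fun _ => Finset.univ | eval g a' = 0} (by
      filter_upwards [ae_all_iff.2 fun τ₀ : {τ₀ : Fin d → ℤ // (eval τ₀ a : ZMod p) ≠ 0} =>
        h p τ₀.1 τ₀.2] with x hx hZ
      choose τ₀ hτ₀ using fun i => ZMod.intCast_surjective (PadicInt.toZMod (x i))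
      obtain ⟨k, hk⟩ := hx ⟨τ₀, fun h0 => hZ (Finset.mem_filter.2 ⟨by simp, by
        rw [← h0, eval_map, ← funext hτ₀]
        exact (eval₂_comp_left (Int.castRingHom (ZMod p)) (RingHom.id ℤ) τ₀ a).symm⟩)⟩ fun i => by
          rw [← Ideal.mem_span_singleton, ← PadicInt.maximalIdeal_eq_span_p,
            ← PadicInt.ker_toZMod, RingHom.mem_ker, map_sub, map_intCast, hτ₀, sub_self]
      exact ⟨k, fun τ hτ h5 => hτ (hk τ h5)⟩) (ε := ε) (by
      have h5 : (({g ∈ Fintype.piFinset fun _ : Fin d => Finset.univ | eval g a' = 0} :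
          Finset _).card : ℝ) / (p : ℝ) ^ d ≤ a'.totalDegree / p := by
        rw [Finset.card_univ, ZMod.card] at h1
        simpa using (NNRat.cast_le (K := ℝ)).2 h1
      refine h5.trans_lt ?_
      rw [div_lt_iff₀ hp0]
      rw [div_lt_iff₀ hε] at hn
      have h6 : (n : ℝ) ≤ p := Nat.cast_le.2 (by omega)
      have h7 : (a'.totalDegree : ℝ) ≤ a.totalDegree := Nat.cast_le.2 h2
      nlinarith)
  exact ⟨p ^ k, G, pow_pos hp'.pos k, h3, fun τ hτ => not_not.1 (h4 τ hτ)⟩

theorem ring_density {d : ℕ} {R : Type} [CommRing R] [IsDomain R] [Algebra.FiniteType ℤ R]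
    [Algebra (MvPolynomial (Fin d) ℤ) R] [FaithfulSMul (MvPolynomial (Fin d) ℤ) R]
    [Algebra.IsAlgebraic (MvPolynomial (Fin d) ℤ) R] {I : Type} [Finite I] {σ ι κ : I → Type}
    [∀ i, Fintype (σ i)] [∀ i, Fintype (κ i)] (S : ∀ i, Sys R (σ i) (ι i) (κ i))
    (ξ : ∀ i, Pt (S i) R) {F : Type} [Field F] (ψ : R →+* F)
    (hnp : ∀ i n m, n ≠ m → Pt.step^[n] ((ξ i).map ψ) ≠ Pt.step^[m] ((ξ i).map ψ))
    {a₀ : MvPolynomial (Fin d) ℤ} (ha₀ : a₀ ≠ 0) :
    Most fun τ : Fin d → ℤ => eval τ a₀ ≠ 0 ∧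
        (∃ (D : Type) (_ : CommRing D) (_ : IsDomain D) (_ : CharZero D) (b : R →+* D),
          (∀ a, b (algebraMap _ R a) = (eval τ a : ℤ)) ∧ ∀ r, IsAlgebraic ℤ (b r)) ∧
        ∀ (L : Type) [Field L] [CharZero L] (β : R →+* L),
          (∀ a, β (algebraMap _ R a) = (eval τ a : ℤ)) →
          ∀ i n m, n ≠ m → Pt.step^[n] ((ξ i).map β) ≠ Pt.step^[m] ((ξ i).map β) := by
  classical
  let A := MvPolynomial (Fin d) ℤ
  let Ω := AlgebraicClosure (FractionRing A)
  have : Algebra.FiniteType A R := .of_restrictScalars_finiteType ℤ A R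
  have : FaithfulSMul A Ω := (faithfulSMul_iff_algebraMap_injective A Ω).2 (by
    rw [IsScalarTower.algebraMap_eq A (FractionRing A) Ω]
    exact (algebraMap (FractionRing A) Ω).injective.comp (IsFractionRing.injective A _))
  have : Algebra.IsAlgebraic A Ω :=
    (IsFractionRing.comap_isAlgebraic_iff (K := FractionRing A)).2 inferInstance
  have : Finite (R →ₐ[A] Ω) := finite_algHom
  obtain ⟨s, hs⟩ := Algebra.FiniteType.out (R := A) (A := R)
  let W : Subalgebra A Ω := Algebra.adjoin A (⋃ φ : R →ₐ[A] Ω, φ '' s)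
  have hW : ∀ (φ : R →ₐ[A] Ω) (r : R), φ r ∈ W := by
    intro φ r
    have h1 : (⊤ : Subalgebra A R) ≤ W.comap φ := by
      rw [← hs]
      exact Algebra.adjoin_le fun x hx =>
        Algebra.subset_adjoin (Set.mem_iUnion.2 ⟨φ, x, hx, rfl⟩)
    exact h1 Algebra.mem_top
  have : Algebra.FiniteType A W := (Subalgebra.fg_iff_finiteType _).1
    (Subalgebra.fg_def.2 ⟨_, Set.finite_iUnion fun φ : R →ₐ[A] Ω => s.finite_toSet.image φ, rfl⟩)
  have hinj : Function.Injective (algebraMap A W) := fun a b h =>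
    FaithfulSMul.algebraMap_injective A Ω (congrArg Subtype.val h)
  have : FaithfulSMul A W := (faithfulSMul_iff_algebraMap_injective A W).2 hinj
  have : Algebra.IsAlgebraic A W := .of_injective W.val Subtype.val_injective
  obtain ⟨a₁, ha₁, hint⟩ := exists_denominator (A := A) (R := R)
  obtain ⟨R', _, _, _, _, _, _, w, P, u, a, hinj', ha, hua⟩ := exists_etale_chart A W
  let c : (R →ₐ[A] Ω) → R →+* W := fun φ => (φ.codRestrict W (hW φ) : R →+* W)
  refine most_of_discs (mul_ne_zero (mul_ne_zero ha₀ ha₁) ha) fun p _ τ₀ h₀ => ?_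
  rw [map_mul, Int.cast_mul] at h₀
  filter_upwards [disc_main P hua (fun j : I × (R →ₐ[A] Ω) => S j.1)
    (fun j => (ξ j.1).map ((w : W →+* R').comp (c j.2))) (fun L _ χ hχ j n m hnm h => by
      refine hnp j.1 n m hnm (density ψ {χ.comp ((w : W →+* R').comp (c j.2))}
        (fun a ha => ?_) _ ?_)
      · have h1 : c j.2 a = 0 := hinj' (hχ ((ha _ rfl).trans (by rw [map_zero, map_zero])))
        rw [algHom_injective j.2 ((congrArg Subtype.val h1).trans (map_zero j.2).symm), map_zero]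
      · rintro _ rfl
        rwa [Pt.map_map] at h) p τ₀ (right_ne_zero_of_mul h₀)] with x hx hpx
  obtain ⟨k, hk⟩ := hx hpx
  refine ⟨k + 1, fun τ hτ => ?_⟩
  obtain ⟨D, _, _, b', hb', hP⟩ := hk τ fun i => (pow_dvd_pow _ k.le_succ).trans (hτ i)
  have h0 : eval τ a₀ * eval τ a₁ ≠ 0 := fun h1 => left_ne_zero_of_mul h₀ (by
    have h2 : (Int.castRingHom (ZMod p)).comp (eval τ₀) =
        (Int.castRingHom (ZMod p)).comp (eval τ) := ringHom_ext (fun r => by simp) fun i => by
      have h3 : (τ i : ℤ_[p]) - τ₀ i ∈ RingHom.ker PadicInt.toZMod := by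
        rw [PadicInt.ker_toZMod, PadicInt.maximalIdeal_eq_span_p, Ideal.mem_span_singleton]
        simpa using dvd_add ((dvd_pow_self _ k.succ_ne_zero).trans (hτ i)) (hpx i)
      rw [RingHom.mem_ker, map_sub, map_intCast, map_intCast, sub_eq_zero] at h3
      simp [h3]
    refine (RingHom.congr_fun h2 _).trans ?_
    rw [RingHom.comp_apply, map_mul, h1, map_zero])
  let b : W →+* D := b'.comp (w : W →+* R')
  have hb : ∀ a, b (algebraMap A W a) = (eval τ a : ℤ) := fun a =>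
    (congrArg b' (w.commutes a)).trans (RingHom.congr_fun hb' a)
  refine ⟨left_ne_zero_of_mul h0,
    ⟨D, inferInstance, inferInstance, inferInstance, b.comp (c IsAlgClosed.lift), fun a => ?_,
      fun r => alg_values P _ b' hb' _⟩, fun L _ _ β hβ i n m hnm h1 => ?_⟩
  · rw [← hb]
    exact congrArg b ((AlgHom.codRestrict _ W (hW IsAlgClosed.lift)).commutes a)
  obtain ⟨φ, hφ⟩ := exists_ker_le W hW hint b β
    (by rw [hb]; exact Int.cast_ne_zero.2 (right_ne_zero_of_mul h0)) fun a ha => by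
      rw [hβ, Int.cast_eq_zero] at ha
      rw [hb, ha, Int.cast_zero]
  refine hP (i, φ) n m hnm ?_
  rw [Pt.map_map]
  refine density _ {β} (fun a ha => hφ a (ha _ rfl)) _ ?_
  rintro _ rfl
  exact h1

theorem alg_density {k B : Type} [Field k] [CharZero k] [IsAlgClosed k] [Algebra.IsAlgebraic ℤ k]
    [CommRing B] [IsDomain B] [Algebra k B] [Algebra.FiniteType k B] {d : ℕ}
    [Algebra (MvPolynomial (Fin d) ℤ) B] [FaithfulSMul (MvPolynomial (Fin d) ℤ) B]
    [Algebra.IsAlgebraic (MvPolynomial (Fin d) ℤ) B] {I : Type} [Finite I] {σ ι κ : I → Type}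
    [∀ i, Fintype (σ i)] [∀ i, Finite (ι i)] [∀ i, Fintype (κ i)]
    (S : ∀ i, Sys B (σ i) (ι i) (κ i)) (ξ : ∀ i, Pt (S i) B)
    (hξ : ∀ i, (ξ i).base = RingHom.id B) {F : Type} [Field F] (ψ : B →+* F)
    (hnp : ∀ i n m, n ≠ m → Pt.step^[n] ((ξ i).map ψ) ≠ Pt.step^[m] ((ξ i).map ψ))
    {a₀ : MvPolynomial (Fin d) ℤ} (ha₀ : a₀ ≠ 0) :
    Most fun τ : Fin d → ℤ => eval τ a₀ ≠ 0 ∧
        (∃ β : B →ₐ[k] k, ∀ r, β (algebraMap (MvPolynomial (Fin d) ℤ) B (X r)) = τ r) ∧
        ∀ (L : Type) [Field L] [CharZero L] (β : B →+* L),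
          (∀ a, β (algebraMap _ B a) = (eval τ a : ℤ)) →
          ∀ i n m, n ≠ m → Pt.step^[n] ((ξ i).map β) ≠ Pt.step^[m] ((ξ i).map β) := by
  classical
  let A := MvPolynomial (Fin d) ℤ
  choose j hj using fun i => (ξ i).exists_U
  obtain ⟨T₀, hT₀⟩ := Algebra.FiniteType.out (R := k) (A := B)
  obtain ⟨T, hS, hT1, hT2, hT3⟩ := ((eventually_all.2 fun i => eventually_over (S i)).and
    ((eventually_ge_atTop T₀).and ((eventually_all.2 fun i =>
      eventually_ge_atTop (Finset.univ.image ((ξ i).nv (j i)))).and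
      (eventually_ge_atTop (Finset.univ.image fun r => algebraMap A B (X r)))))).exists
  choose S₀ hS using hS
  let R := Algebra.adjoin ℤ (T : Set B)
  have : Algebra.FiniteType ℤ R := (Subalgebra.fg_iff_finiteType _).1 (Subalgebra.fg_adjoin_finset _)
  have hR : Algebra.adjoin k (R : Set B) = ⊤ := by
    rw [eq_top_iff, ← hT₀]
    exact Algebra.adjoin_mono fun x hx => Algebra.subset_adjoin (hT1 hx)
  have hA : ∀ a : A, algebraMap A B a ∈ R := by
    intro a
    induction a using MvPolynomial.induction_on with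
    | C c => simp
    | add p q hp hq => rw [map_add]; exact add_mem hp hq
    | mul_X p r hp =>
      rw [map_mul]
      exact mul_mem hp (Algebra.subset_adjoin (hT3 (by simp)))
  let : Algebra A R := ((algebraMap A B).codRestrict R hA).toAlgebra
  have : IsScalarTower A R B := .of_algebraMap_eq fun _ => rfl
  have : FaithfulSMul A R := (faithfulSMul_iff_algebraMap_injective A R).2 fun a b h =>
    FaithfulSMul.algebraMap_injective A B (congrArg Subtype.val h)
  have : Algebra.IsAlgebraic A R :=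
    .of_injective (IsScalarTower.toAlgHom A R B) Subtype.val_injective
  let v : ∀ i, σ i → R := fun i a =>
    ⟨(ξ i).nv (j i) a, Algebra.subset_adjoin (hT2 i (by simp))⟩
  let ξ₀ : ∀ i, PV (S₀ i) R := fun i => ⟨RingHom.id R, v i, ⟨j i, by
      rw [show v i (j i) = 1 from Subtype.ext (Pt.nv_self (hj i))]; exact isUnit_one⟩, fun e => by
    apply Subtype.val_injective
    have h1 := Pt.nv_zero (ξ i) (j i) e
    rw [← (hS i).G, eval₂_map, hξ] at h1
    exact (eval₂_comp_left (algebraMap R B) _ _ _).trans h1⟩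
  have h0 : ∀ i, (Pt.mk (ξ₀ i)).map (algebraMap R B) = (ξ i).res (hS i) := by
    intro i
    rw [← Pt.mk_rep (ξ i) (hj i), Pt.res_mk, Pt.map_mk]
    congr 1
    refine PV.ext ?_ rfl
    change _ = (ξ i).base.comp _
    rw [hξ]
    rfl
  have h1 : ∀ (L : Type) [Field L] (β : B →+* L) (i n m),
      Pt.step^[n] ((Pt.mk (ξ₀ i)).map (β.comp (algebraMap R B))) =
        Pt.step^[m] ((Pt.mk (ξ₀ i)).map (β.comp (algebraMap R B))) ↔
      Pt.step^[n] ((ξ i).map β) = Pt.step^[m] ((ξ i).map β) := by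
    intro L _ β i n m
    rw [← Pt.map_map, h0, ← Pt.res_map, ← Pt.res_iterate, ← Pt.res_iterate]
    exact ⟨Pt.eq_of_res_eq (hS i) (by rw [Pt.base_iterate, Pt.base_iterate]), fun h => by rw [h]⟩
  refine (ring_density S₀ (fun i => Pt.mk (ξ₀ i)) (ψ.comp (algebraMap R B))
    (fun i n m hnm h => hnp i n m hnm ((h1 F ψ i n m).1 h)) ha₀).mono fun τ h => ?_
  obtain ⟨h2, ⟨D, _, _, _, b, hb, hb'⟩, h3⟩ := h
  refine ⟨h2, ?_, fun L _ _ β hβ i n m hnm h4 =>
    h3 L (β.comp (algebraMap R B)) hβ i n m hnm ((h1 L β i n m).2 h4)⟩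
  obtain ⟨β, hβ⟩ := exists_algHom R hR b hb'
  refine ⟨β, fun r => ?_⟩
  have h4 := ker_le_of_ker_le ((β : B →+* k).comp (algebraMap R B)) b hβ
    (r := algebraMap A R (X r) - τ r) (by rw [map_sub, hb, eval_X, map_intCast, sub_self])
  rw [map_sub, map_intCast, sub_eq_zero] at h4
  exact h4

end alg

open AlgebraicGeometry CategoryTheory CategoryTheory.Limits MvPolynomial

theorem scheme_density {k : Type} [Field k] [CharZero k] [IsAlgClosed k] [Algebra.IsAlgebraic ℤ k]
    {I : Type} [Finite I] {σ : I → Type} [∀ i, Fintype (σ i)]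
    [∀ i, GradedAlgebra (homogeneousSubmodule (σ i) ℤ)]
    {B : Scheme.{0}} {Z : I → Scheme.{0}} (s : B ⟶ Spec (CommRingCat.of k)) (p : ∀ i, Z i ⟶ B)
    (f : ∀ i, Z i ⟶ Z i) (x : ∀ i, B ⟶ Z i)
    [AlgebraicGeometry.IsIntegral B] [LocallyOfFiniteType s] [∀ i, IsSeparated (p i)]
    (π : ∀ i, Z i ⟶ Proj (homogeneousSubmodule (σ i) ℤ))
    (h1 : ∀ i V, IsAffineOpen V → ∀ j, IsAffineOpen (chartO (p i) (π i) V j))
    (h2 : ∀ i V, IsAffineOpen V → ∀ j, Function.Surjective (chartθ (p i) (π i) V j))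
    (hf : ∀ i, f i ≫ p i = p i) (hx : ∀ i, x i ≫ p i = 𝟙 B)
    (hnp : ∀ i n m, n ≠ m →
      (fun g : B ⟶ Z i => g ≫ f i)^[n] (x i) ≠ (fun g : B ⟶ Z i => g ≫ f i)^[m] (x i))
    {V : B.Opens} (hV : IsAffineOpen V) {d : ℕ} {t : Fin d → Γ(B, V)}
    (ht : IsTranscendenceBasis ℤ t) :
    Most fun τ : Fin d → ℤ =>
        (∃ b : Spec (CommRingCat.of k) ⟶ B, b ≫ s = 𝟙 _ ∧
          ∃ hb : ⊤ ≤ b ⁻¹ᵁ V, ∀ r, b.appLE V ⊤ hb (t r) = τ r) ∧
        ∀ (b : Spec (CommRingCat.of k) ⟶ B) (hb : ⊤ ≤ b ⁻¹ᵁ V),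
          (∀ r, b.appLE V ⊤ hb (t r) = τ r) → ∀ i n m, n ≠ m →
          (fun g : Spec (CommRingCat.of k) ⟶ Z i => g ≫ f i)^[n] (b ≫ x i) ≠
            (fun g : Spec (CommRingCat.of k) ⟶ Z i => g ≫ f i)^[m] (b ≫ x i) := by
  let A := MvPolynomial (Fin d) ℤ
  have hinj : Function.Injective (aeval t : A →ₐ[ℤ] Γ(B, V)) := ht.1
  obtain ⟨b₀, hb₀⟩ : (V : Set B).Nonempty := by
    by_contra h
    have : V = ⊥ := TopologicalSpace.Opens.coe_eq_empty.1 (Set.not_nonempty_iff_eq_empty.1 h)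
    subst this
    exact zero_ne_one (hinj (Subsingleton.elim _ _))
  have : Nonempty V := ⟨⟨b₀, hb₀⟩⟩
  choose j hj using fun i => exists_mem_chart ((x i ≫ π i) b₀)
  let O : B.Opens := ⟨⋂ i, ((x i ≫ π i) ⁻¹ᵁ chart (j i) : B.Opens),
    isOpen_iInter_of_finite fun i => TopologicalSpace.Opens.isOpen _⟩
  obtain ⟨g, hgO, hg⟩ := hV.exists_basicOpen_le (V := O) ⟨b₀, Set.mem_iInter.2 hj⟩ hb₀
  have hg0 : g ≠ 0 := by
    rintro rfl
    rw [Scheme.basicOpen_zero] at hg
    exact hg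
  let V' := B.basicOpen g
  have hV' : IsAffineOpen V' := hV.basicOpen g
  have hle : V' ≤ V := B.basicOpen_le g
  have : Nonempty V' := ⟨⟨b₀, hg⟩⟩
  have := hV.isLocalization_basicOpen g
  let : Algebra A Γ(B, V) := (aeval t : A →ₐ[ℤ] Γ(B, V)).toRingHom.toAlgebra
  have : Algebra.IsAlgebraic A Γ(B, V) := by
    have := ht.isAlgebraic
    exact Algebra.IsAlgebraic.of_ringHom_of_comp_eq ht.1.aevalEquiv.toRingEquiv (RingHom.id _)
      ht.1.aevalEquiv.surjective Function.injective_id (RingHom.ext fun _ => rfl)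
  let : Algebra A Γ(B, V') := ((algebraMap Γ(B, V) Γ(B, V')).comp (algebraMap A _)).toAlgebra
  have : IsScalarTower A Γ(B, V) Γ(B, V') := .of_algebraMap_eq fun _ => rfl
  have : FaithfulSMul A Γ(B, V') := (faithfulSMul_iff_algebraMap_injective A _).2
    ((IsLocalization.injective Γ(B, V') (powers_le_nonZeroDivisors_of_noZeroDivisors hg0)).comp hinj)
  have : Algebra.IsAlgebraic Γ(B, V) Γ(B, V') := IsLocalization.isAlgebraic _ (.powers g)
  have : Algebra.IsAlgebraic A Γ(B, V') := .trans A Γ(B, V) _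
  obtain ⟨a₀, ha₀, hd⟩ := (Algebra.IsAlgebraic.isAlgebraic (R := A) g).exists_nonzero_dvd
    (mem_nonZeroDivisors_of_ne_zero hg0)
  let α : CommRingCat.of k ⟶ Γ(B, V') :=
    (Scheme.ΓSpecIso (CommRingCat.of k)).inv ≫ s.appLE ⊤ V' le_top
  let : Algebra k Γ(B, V') := α.hom.toAlgebra
  have : Algebra.FiniteType k Γ(B, V') :=
    (s.finiteType_appLE (isAffineOpen_top _) hV' le_top).comp (RingHom.FiniteType.of_surjective _
      (Scheme.ΓSpecIso (CommRingCat.of k)).symm.commRingCatIsoToRingEquiv.surjective)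
  have : IsNoetherianRing Γ(B, V') := Algebra.FiniteType.isNoetherianRing k _
  have hs : hV'.fromSpec ≫ s = Spec.map α := by
    rw [← IsAffineOpen.SpecMap_appLE_fromSpec s (isAffineOpen_top _) hV' le_top,
      IsAffineOpen.fromSpec_top, Scheme.isoSpec_Spec_inv, ← Spec.map_comp]
  choose ι κ _ _ S ξ hξ hiff using fun i => exists_model (p i) (f i) (x i) (π i) hV' (h1 i V' hV')
    (h2 i V' hV') (hf i) (hx i) (j := j i) fun z hz => Set.mem_iInter.1 (hgO hz) i
  have : IsDominant (Spec.map (CommRingCat.ofHom (algebraMap Γ(B, V') (FractionRing Γ(B, V'))))) :=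
    ⟨(PrimeSpectrum.denseRange_comap_iff_ker_le_nilRadical _).2 (by
      rw [CommRingCat.hom_ofHom, (RingHom.injective_iff_ker_eq_bot _).1
        (IsFractionRing.injective _ _)]
      exact bot_le)⟩
  have : IsDominant hV'.fromSpec := by
    refine ⟨?_⟩
    rw [DenseRange, hV'.range_fromSpec]
    exact V'.isOpen.dense ⟨b₀, hg⟩
  refine (alg_density (k := k) S ξ hξ
    (algebraMap Γ(B, V') (FractionRing Γ(B, V'))) (fun i n m hnm h => by
      rw [hiff, iterate_comp, iterate_comp] at h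
      exact hnp i n m hnm (ext_of_isDominant_of_isSeparated (p i)
        (by rw [iterate_comp_base (hf i), iterate_comp_base (hf i)]) _ h)) ha₀).mono fun τ h => ?_
  obtain ⟨h3, ⟨β, hβ⟩, h4⟩ := h
  constructor
  · have h5 := le_fromSpec hV' (β : Γ(B, V') →+* k)
    refine ⟨Spec.map (CommRingCat.ofHom (β : Γ(B, V') →+* k)) ≫ hV'.fromSpec, ?_,
      h5.trans (Scheme.Hom.preimage_mono _ hle), fun r => (ev_eq_iff _ _ _ _ _).1 ?_⟩
    · rw [Category.assoc, hs, ← Spec.map_comp, ← Spec.map_id]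
      congr 1
      ext r
      exact β.commutes r
    · rw [← ev_res _ hle h5, ev_fromSpec, ← hβ r]
      exact congrArg (fun y => β (algebraMap Γ(B, V) Γ(B, V') y)) (aeval_X t r).symm
  · intro b hb hτb i n m hnm h5
    have h6 : ∀ a : A, ev b V hb (algebraMap A _ a) = (eval τ a : ℤ) := fun a =>
      RingHom.congr_fun (f := (ev b V hb).comp (algebraMap A _))
        (g := (Int.castRingHom k).comp (eval τ)) (MvPolynomial.ringHom_ext (fun r => by simp)
          fun r => (congrArg (ev b V hb) (aeval_X t r)).trans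
            (((ev_eq_iff _ _ _ _ _).2 (hτb r)).trans (by simp))) a
    have hb' : ⊤ ≤ b ⁻¹ᵁ V' := (isUnit_ev_iff b hb g).1 (Ne.isUnit fun h0 => h3 (by
      have h7 := map_dvd (ev b V hb) hd
      rwa [h0, zero_dvd_iff, h6, Int.cast_eq_zero] at h7))
    refine h4 k (ev b V' hb') (fun a => (ev_res b hle hb' hb _).trans (h6 a)) i n m hnm ?_
    rwa [hiff, ← eq_fromSpec hV' b hb']

end Pool.Agent.P.MP_f6c533_ag
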