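import Mathlib
import Pool.Agent.P.MP_f6c533_ag.Sys

/-! Periods of periodic points with values in the `p`-adic integers are bounded. -/

set_option autoImplicit false

namespace Pool.Agent.P.MP_f6c533_ag

open QuadraticAlgebra

section quad

variable {O : Type} [CommRing O] (c : O)

/-- Evaluation at `0`. -/
def e0 : QuadraticAlgebra O 0 c →+* O where
  toFun z := z.re
  map_one' := rfl
  map_mul' x y := by simp
  map_zero' := rfl
  map_add' _ _ := rfl

/-- Evaluation at `c`. -/
def e1 : QuadraticAlgebra O 0 c →+* O where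
  toFun z := z.re + c * z.im
  map_one' := by simp
  map_mul' x y := by simp; ring
  map_zero' := by simp
  map_add' x y := by simp; ring

/-- Reduction to dual numbers. -/
def eD {D : Type} [CommRing D] (π : O →+* D) (h : π c = 0) :
    QuadraticAlgebra O 0 c →+* QuadraticAlgebra D 0 0 where
  toFun z := ⟨π z.re, π z.im⟩
  map_one' := by ext <;> simp
  map_mul' x y := by ext <;> simp [h]
  map_zero' := by ext <;> simp
  map_add' x y := by ext <;> simp

theorem isLocalHom_e0 [IsLocalRing O] (hc : c ∈ IsLocalRing.maximalIdeal O) :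
    IsLocalHom (e0 c) := by
  refine ⟨fun z hz => ?_⟩
  have hz : IsUnit z.re := hz
  rw [isUnit_iff_norm_isUnit, norm_def]
  have h1 : IsUnit (z.re + c * z.im) := by
    by_contra h
    have h2 : z.re + c * z.im ∈ IsLocalRing.maximalIdeal O := h
    have h3 := sub_mem h2 (Ideal.mul_mem_right z.im _ hc)
    rw [add_sub_cancel_right] at h3
    exact h3 hz
  convert hz.mul h1 using 1
  ring

theorem isLocalRing_quad [IsLocalRing O] (hc : c ∈ IsLocalRing.maximalIdeal O) :
    IsLocalRing (QuadraticAlgebra O 0 c) :=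
  have := isLocalHom_e0 c hc
  (e0 c).domain_isLocalRing

theorem quad_ext [IsDomain O] (hc : c ≠ 0) {x y : QuadraticAlgebra O 0 c} (h0 : e0 c x = e0 c y)
    (h1 : e1 c x = e1 c y) : x = y := by
  have h0 : x.re = y.re := h0
  have h1 : x.re + c * x.im = y.re + c * y.im := h1
  rw [h0, add_right_inj] at h1
  exact QuadraticAlgebra.ext h0 (mul_left_cancel₀ hc h1)

end quad

section padic

variable (p : ℕ) [Fact p.Prime]

/-- The `p`-adic integers modulo `p ^ (k + 1)`. -/
abbrev QQ (k : ℕ) : Type := ℤ_[p] ⧸ Ideal.span {(p : ℤ_[p]) ^ (k + 1)}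

/-- The reduction map. -/
noncomputable abbrev red (k : ℕ) : ℤ_[p] →+* QQ p k := Ideal.Quotient.mk _

theorem red_eq_iff {k : ℕ} {x y : ℤ_[p]} :
    red p k x = red p k y ↔ (p : ℤ_[p]) ^ (k + 1) ∣ x - y := by
  rw [Ideal.Quotient.eq, Ideal.mem_span_singleton]

theorem red_eq_zero_iff {k : ℕ} {x : ℤ_[p]} : red p k x = 0 ↔ (p : ℤ_[p]) ^ (k + 1) ∣ x := by
  rw [Ideal.Quotient.eq_zero_iff_mem, Ideal.mem_span_singleton]

theorem pow_mem_max (k : ℕ) : (p : ℤ_[p]) ^ (k + 1) ∈ IsLocalRing.maximalIdeal ℤ_[p] := by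
  rw [PadicInt.maximalIdeal_eq_span_p]
  exact Ideal.pow_mem_of_mem _ (Ideal.mem_span_singleton_self _) _ (Nat.succ_pos k)

instance (k : ℕ) : Nontrivial (QQ p k) :=
  Ideal.Quotient.nontrivial_iff.2 fun h => pow_mem_max p k (Ideal.span_singleton_eq_top.1 h)

instance (k : ℕ) : IsLocalRing (QQ p k) :=
  IsLocalRing.of_surjective' (red p k) Ideal.Quotient.mk_surjective

instance (k : ℕ) : IsLocalHom (red p k) :=
  IsLocalHom.of_surjective _ Ideal.Quotient.mk_surjective

instance (k : ℕ) : Finite (QQ p k) := by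
  have : NeZero (p ^ (k + 1)) := ⟨pow_ne_zero _ (Fact.out : p.Prime).ne_zero⟩
  have e := Ideal.quotEquivOfEq (PadicInt.ker_toZModPow (p := p) (k + 1))
  have : Finite (ℤ_[p] ⧸ RingHom.ker (PadicInt.toZModPow (p := p) (k + 1))) :=
    Finite.of_injective _ (RingHom.kerLift_injective _)
  exact Finite.of_equiv _ e.toEquiv

theorem exists_red_ne_zero {x : ℤ_[p]} (hx : x ≠ 0) (k₀ : ℕ) : ∃ k, k₀ ≤ k ∧ red p k x ≠ 0 := by
  obtain ⟨n, hn⟩ : FiniteMultiplicity (p : ℤ_[p]) x :=
    FiniteMultiplicity.of_not_isUnit PadicInt.prime_p.not_isUnit hx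
  refine ⟨k₀ + n, Nat.le_add_right _ _, fun h => hn ?_⟩
  exact (pow_dvd_pow _ (by omega)).trans ((red_eq_zero_iff p).1 h)

end padic

variable {R : Type} [CommRing R] {σ ι κ : Type} (S : Sys R σ ι κ)

theorem exists_period_bound [Finite σ] [Algebra.FiniteType ℤ R] (p : ℕ) [Fact p.Prime] :
    ∃ N : ℕ, 0 < N ∧ ∀ z : Pt S ℤ_[p], z ∈ Function.periodicPts Pt.step → Pt.step^[N] z = z := by
  classical
  let D := QQ p 1
  let E := QuadraticAlgebra D 0 0
  have : IsLocalRing E := isLocalRing_quad 0 (zero_mem _)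
  have : Finite E := Finite.of_equiv _ (QuadraticAlgebra.equivProd (0 : D) 0).symm
  have : Finite (Pt S E) := Pt.finite
  let := Fintype.ofFinite (Pt S E)
  let N := (Fintype.card (Pt S E)).factorial
  have hN : 0 < N := Nat.factorial_pos _
  have hE : ∀ τ : Pt S E, τ ∈ Function.periodicPts Pt.step → Pt.step^[N] τ = τ := fun τ hτ =>
    Function.isPeriodicPt_factorial_card_of_mem_periodicPts hτ
  have key : ∀ (m ℓ : ℕ) (z : Pt S ℤ_[p]), 0 < m → ℓ.Prime → (Pt.step^[N * m])^[ℓ] z = z →
      Pt.step^[N * m] z = z := by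
    intro m ℓ z hm hℓ hz
    have hpos : 0 < N * m * ℓ := Nat.mul_pos (Nat.mul_pos hN hm) hℓ.pos
    have hfix : ∀ (Λ : Type) [CommRing Λ] [IsLocalRing Λ] (χ : Λ →+* E) (w : Pt S Λ),
        (Pt.step^[N * m])^[ℓ] w = w → ∀ i, ((Pt.step^[N * m])^[i] w).map χ = w.map χ := by
      intro Λ _ _ χ w hw i
      have h1 : Pt.step^[N] (w.map χ) = w.map χ := hE _ ⟨N * m * ℓ, hpos, by
        rw [Function.IsPeriodicPt, Function.IsFixedPt, ← Pt.map_iterate, Function.iterate_mul, hw]⟩
      rw [← Function.iterate_mul, Pt.map_iterate, mul_assoc, Function.iterate_mul]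
      exact Function.iterate_fixed h1 _
    have hbar : ∀ i, ((Pt.step^[N * m])^[i] z).map (red p 1) = z.map (red p 1) := by
      intro i
      have h1 := congrArg (Pt.map (e0 (0 : D)))
        (hfix _ ((algebraMap D E).comp (red p 1)) z hz i)
      rw [Pt.map_map, Pt.map_map] at h1
      exact h1
    obtain ⟨j, hj⟩ := z.exists_U
    have hU : ∀ i, ((Pt.step^[N * m])^[i] z).U j := fun i =>
      Pt.U.of_map (red p 1) (by rw [hbar]; exact hj.map _)
    have hbase : ∀ i, ((Pt.step^[N * m])^[i] z).base = z.base := fun i => by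
      rw [← Function.iterate_mul, Pt.base_iterate]
    have hU1 : (Pt.step^[N * m] z).U j := hU 1
    have hbase1 : (Pt.step^[N * m] z).base = z.base := hbase 1
    by_contra hne
    let δ₀ : σ → ℤ_[p] := fun a => (Pt.step^[N * m] z).nv j a - z.nv j a
    have h2 : ∀ a, (p : ℤ_[p]) ^ 2 ∣ δ₀ a := by
      intro a
      rw [← red_eq_iff, ← Pt.nv_map hU1, ← Pt.nv_map hj]
      exact congrArg (fun w => Pt.nv w j a) (hbar 1)
    have h3 : ∃ k, ¬∀ a, (p : ℤ_[p]) ^ (2 + k + 1) ∣ δ₀ a := by
      obtain ⟨a, ha⟩ : ∃ a, δ₀ a ≠ 0 := by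
        by_contra! h
        exact hne (Pt.ext_nv (hbase 1) (hU 1) hj (funext fun a => sub_eq_zero.1 (h a)))
      obtain ⟨k, hk, hk'⟩ := exists_red_ne_zero p ha 2
      obtain ⟨k, rfl⟩ := Nat.exists_eq_add_of_le hk
      exact ⟨k, fun h => hk' ((red_eq_zero_iff p).2 (h a))⟩
    have h4 : ∀ a, (p : ℤ_[p]) ^ (2 + Nat.find h3) ∣ δ₀ a := by
      rcases h : Nat.find h3 with _ | k
      · exact h2
      · have := Nat.find_min h3 (m := k) (by omega)
        push Not at this
        exact this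
    have h5 := Nat.find_spec h3
    set c := (p : ℤ_[p]) ^ (2 + Nat.find h3) with hc
    choose δ hδ using h4
    have hp0 : (p : ℤ_[p]) ≠ 0 := PadicInt.prime_p.ne_zero
    have hc0 : c ≠ 0 := pow_ne_zero _ hp0
    obtain ⟨a₀, ha₀⟩ : ∃ a, ¬(p : ℤ_[p]) ∣ δ a := by
      by_contra! h
      exact h5 fun a => by rw [hδ, pow_succ]; exact mul_dvd_mul_left _ (h a)
    have hcm : c ∈ IsLocalRing.maximalIdeal ℤ_[p] := by
      rw [hc, show 2 + Nat.find h3 = (1 + Nat.find h3) + 1 by ring]; exact pow_mem_max p _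
    have hcD : red p 1 c = 0 := (red_eq_zero_iff p).2 (pow_dvd_pow _ (by omega))
    let Λ := QuadraticAlgebra ℤ_[p] 0 c
    have : IsLocalRing Λ := isLocalRing_quad c hcm
    have : IsLocalHom (e0 c) := isLocalHom_e0 c hcm
    have hv1 : ∀ a, z.nv j a + c * δ a = (Pt.step^[N * m] z).nv j a := fun a => by
      rw [← hδ]; simp [δ₀]
    have he0 : (e0 c).comp ((algebraMap ℤ_[p] Λ).comp z.base) = z.base := RingHom.ext fun _ => rfl
    have he1 : (e1 c).comp ((algebraMap ℤ_[p] Λ).comp z.base) = z.base := RingHom.ext fun r => by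
      change z.base r + c * 0 = _
      simp
    let w₀ : PV S Λ :=
      { φ := (algebraMap ℤ_[p] Λ).comp z.base
        v := fun a => ⟨z.nv j a, δ a⟩
        unit := ⟨j, IsUnit.of_map (e0 c) _ (by
          change IsUnit (z.nv j j)
          rw [Pt.nv_self hj]; exact isUnit_one)⟩
        zero := fun i => quad_ext c hc0
          (by rw [MvPolynomial.eval₂_comp_left, he0, map_zero]; exact Pt.nv_zero z j i)
          (by
            rw [MvPolynomial.eval₂_comp_left, he1, map_zero, ← hbase1]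
            refine Eq.trans ?_ (Pt.nv_zero (Pt.step^[N * m] z) j i)
            congr 1
            exact funext hv1) }
    let om := Pt.mk w₀
    have hom0 : om.map (e0 c) = z := by
      conv_rhs => rw [← Pt.mk_rep z hj]
      exact congrArg Pt.mk (PV.ext he0 rfl)
    have hom1 : om.map (e1 c) = Pt.step^[N * m] z := by
      conv_rhs => rw [← Pt.mk_rep _ hU1]
      exact congrArg Pt.mk (PV.ext (he1.trans hbase1.symm) (funext hv1))
    have hi0 : ∀ i, ((Pt.step^[N * m])^[i] om).map (e0 c) = (Pt.step^[N * m])^[i] z := fun i => by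
      rw [← Function.iterate_mul, Pt.map_iterate, hom0, Function.iterate_mul]
    have hi1 : ∀ i, ((Pt.step^[N * m])^[i] om).map (e1 c) = (Pt.step^[N * m])^[i + 1] z := fun i => by
      rw [← Function.iterate_mul, Pt.map_iterate, hom1, Function.iterate_mul,
        Function.iterate_succ_apply]
    have hUom : ∀ i, ((Pt.step^[N * m])^[i] om).U j := fun i =>
      Pt.U.of_map (e0 c) (by rw [hi0]; exact hU i)
    have homℓ : (Pt.step^[N * m])^[ℓ] om = om := by
      refine Pt.ext_nv (by rw [← Function.iterate_mul, Pt.base_iterate]) (hUom ℓ) (hUom 0)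
        (funext fun a => quad_ext c hc0 ?_ ?_)
      · rw [← Pt.nv_map (hUom ℓ), ← Pt.nv_map (z := om) (hUom 0), hi0, hom0, hz]
      · rw [← Pt.nv_map (hUom ℓ), ← Pt.nv_map (z := om) (hUom 0), hi1, hom1,
          Function.iterate_succ_apply', hz]
    let im : ℕ → ℤ_[p] := fun i => (((Pt.step^[N * m])^[i] om).nv j a₀).im
    have him : ∀ i, red p 1 (im i) = red p 1 (im 0) := by
      intro i
      have h1 := congrArg (fun w => (Pt.nv w j a₀).im) (hfix Λ (eD c (red p 1) hcD) om homℓ i)
      simp only [Pt.nv_map (hUom i)] at h1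
      rw [Pt.nv_map (z := om) (hUom 0)] at h1
      exact h1
    have hstep : ∀ i, ∀ a, ((Pt.step^[N * m])^[i + 1] z).nv j a =
        ((Pt.step^[N * m])^[i] z).nv j a + c * (((Pt.step^[N * m])^[i] om).nv j a).im := by
      intro i a
      rw [← hi1, ← hi0, Pt.nv_map (hUom i), Pt.nv_map (hUom i)]
      rfl
    have him0 : im 0 = δ a₀ := by
      have h1 := hstep 0 a₀
      apply mul_left_cancel₀ hc0
      have h2 := hv1 a₀
      simp only [zero_add, Function.iterate_one, Function.iterate_zero, id_eq] at h1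
      change c * (om.nv j a₀).im = _
      linear_combination -h1 - h2
    have hsum : ∀ n, ((Pt.step^[N * m])^[n] z).nv j a₀ =
        z.nv j a₀ + c * ∑ i ∈ Finset.range n, im i := by
      intro n
      induction n with
      | zero => simp
      | succ n ih => rw [hstep, ih, Finset.sum_range_succ]; ring
    have h6 := hsum ℓ
    rw [hz, left_eq_add, mul_eq_zero, or_iff_right hc0] at h6
    have h7 := congrArg (red p 1) h6
    rw [map_sum, Finset.sum_congr rfl fun i _ => him i, him0, Finset.sum_const, Finset.card_range,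
      map_zero, ← map_nsmul, red_eq_zero_iff, nsmul_eq_mul] at h7
    have h8 := PadicInt.prime_p.pow_dvd_of_dvd_mul_right _ ha₀ h7
    have h9 : (p : ℤ) ^ 2 ∣ (ℓ : ℤ) := (PadicInt.pow_p_dvd_int_iff 2 (ℓ : ℤ)).1 (by simpa using h8)
    have h10 : p ^ 2 ∣ ℓ := by exact_mod_cast h9
    rcases (Nat.dvd_prime hℓ).1 h10 with h | h
    · exact (Fact.out : p.Prime).one_lt.ne' (by simpa using h)
    · exact absurd (h ▸ hℓ) (Nat.Prime.not_prime_pow le_rfl)
  refine ⟨N, hN, fun z hz => ?_⟩
  obtain ⟨n, hn, hz⟩ := hz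
  have h1 : z ∈ Function.periodicPts Pt.step^[N] := ⟨n, hn, by
    rw [Function.IsPeriodicPt, Function.IsFixedPt, ← Function.iterate_mul, mul_comm,
      Function.iterate_mul]
    exact Function.iterate_fixed hz _⟩
  have h2 := Function.minimalPeriod_pos_of_mem_periodicPts h1
  by_contra hne
  have h3 : Function.minimalPeriod Pt.step^[N] z ≠ 1 := fun h =>
    hne (Function.minimalPeriod_eq_one_iff_isFixedPt.1 h)
  obtain ⟨ℓ, hℓ, m, hm⟩ := Nat.exists_prime_and_dvd h3
  have hm0 : 0 < m := Nat.pos_of_ne_zero fun h => by rw [hm, h] at h2; simp at h2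
  have h4 := key m ℓ z hm0 hℓ (by
    rw [Function.iterate_mul, ← Function.iterate_mul, mul_comm m, ← hm]
    exact Function.iterate_minimalPeriod)
  have h5 : Function.IsPeriodicPt Pt.step^[N] m z := by
    rw [Function.IsPeriodicPt, Function.IsFixedPt, ← Function.iterate_mul, h4]
  have h6 := Nat.le_of_dvd hm0 h5.minimalPeriod_dvd
  have := hℓ.two_le
  rw [hm] at h6
  nlinarith

end Pool.Agent.P.MP_f6c533_ag
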