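import Mathlib
import Pool.Agent.P.MP_f6c533_ag.Period

/-! A finitely generated domain of characteristic zero has many algebraic `p`-adic points. -/

set_option autoImplicit false

namespace Pool.Agent.P.MP_f6c533_ag

open Polynomial

theorem schur {m : ℤ[X]} (hd : 0 < m.natDegree) {N : ℤ} (hN : N ≠ 0) :
    ∃ p : ℕ, p.Prime ∧ ¬(p : ℤ) ∣ N ∧ ∃ θ : ℤ, (p : ℤ) ∣ m.eval θ := by
  by_cases hc : m.coeff 0 = 0
  · obtain ⟨p, hp, hp'⟩ := Nat.exists_infinite_primes (N.natAbs + 1)
    refine ⟨p, hp', fun h => ?_, 0, by rw [← coeff_zero_eq_eval_zero, hc]; exact dvd_zero _⟩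
    have := Nat.le_of_dvd (Int.natAbs_pos.2 hN) (Int.natCast_dvd.1 h)
    omega
  set c := m.coeff 0 with hc'
  have h1 : ∀ e : ℤ, m - C e ≠ 0 := fun e h => by
    rw [sub_eq_zero.1 h, natDegree_C] at hd
    exact lt_irrefl _ hd
  obtain ⟨_, ⟨y, rfl⟩, hy⟩ := (Set.infinite_range_of_injective
    (mul_right_injective₀ (mul_ne_zero hc hN))).exists_notMem_finite
      (finite_setOfPred_isRoot (mul_ne_zero (h1 c) (h1 (-c))))
  simp only [Set.mem_ofPred_eq, IsRoot.def, eval_mul, eval_sub, eval_C, mul_eq_zero, not_or] at hy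
  have h2 : m.eval (c * N * y) = c * (1 + N * (y * m.divX.eval (c * N * y))) := by
    conv_lhs => rw [← X_mul_divX_add m]
    simp only [eval_add, eval_mul, eval_X, eval_C]
    ring
  obtain ⟨q, hq, hq'⟩ := Int.exists_prime_and_dvd
    (n := 1 + N * (y * m.divX.eval (c * N * y))) (by
      intro h
      rcases Int.natAbs_eq_iff.1 h with h | h
      · exact hy.1 (by rw [h2, h]; simp)
      · exact hy.2 (by rw [h2, h]; simp))
  refine ⟨q.natAbs, Int.prime_iff_natAbs_prime.1 hq, fun h => ?_, c * N * y, ?_⟩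
  · rw [Int.natAbs_dvd] at h
    exact hq.not_dvd_one ((dvd_add_left (h.mul_right _)).1 hq')
  · rw [Int.natAbs_dvd, h2]
    exact hq'.mul_left _

section hensel

variable {p : ℕ} [Fact p.Prime]

theorem isUnit_of_red_eq {k : ℕ} {x y : ℤ_[p]} (h : red p k x = red p k y) (hy : IsUnit y) :
    IsUnit x := IsUnit.of_map (red p k) _ (h ▸ hy.map _)

theorem hensel_step {A R' : Type} [CommRing A] [CommRing R'] [Algebra A R']
    (P : StandardEtalePresentation A R') (φ : A →+* ℤ_[p]) (θ : ℤ_[p]) (k : ℕ)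
    (hf : red p k (P.f.eval₂ φ θ) = 0) (hg : IsUnit (P.g.eval₂ φ θ)) :
    ∃ b : R' →+* ℤ_[p], b.comp (algebraMap A R') = φ ∧ red p k (b P.x) = red p k θ := by
  let : Algebra A ℤ_[p] := φ.toAlgebra
  have hf : red p k (aeval θ P.f) = 0 := hf
  have hg : IsUnit (aeval θ P.g) := hg
  have hmax : ∀ x, red p k x = 0 → x ∈ IsLocalRing.maximalIdeal ℤ_[p] := fun x hx h =>
    not_isUnit_zero (hx ▸ h.map (red p k))
  have hf' : IsUnit (aeval θ (derivative P.f)) := by
    obtain ⟨p₁, p₂, n, h⟩ := P.cond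
    have h1 := congrArg (fun q => red p k (aeval θ q)) h
    simp only [map_add, map_mul, map_pow, hf, zero_mul, add_zero] at h1
    exact IsUnit.of_map (red p k) _
      (isUnit_of_mul_isUnit_left (h1 ▸ (hg.map (red p k)).pow n))
  have hn : ‖aeval θ (derivative P.f)‖ = 1 := PadicInt.isUnit_iff.1 hf'
  obtain ⟨z, hz, hz1, -⟩ := hensels_lemma (F := P.f) (a := θ) (by
    rw [hn, one_pow]
    exact PadicInt.mem_nonunits.1 (hmax _ hf))
  rw [hn] at hz1
  have hz2 : z - θ ∈ IsLocalRing.maximalIdeal ℤ_[p] := PadicInt.mem_nonunits.2 hz1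
  have hz3 : red p k z = red p k θ := by
    obtain ⟨c, hc⟩ := (P.f.map φ).binomExpansion θ (z - θ)
    rw [add_sub_cancel, derivative_map, eval_map, eval_map, eval_map] at hc
    have h1 : (z - θ) * (aeval θ (derivative P.f) + c * (z - θ)) = -aeval θ P.f := by
      have h2 : aeval z P.f = aeval θ P.f + aeval θ (derivative P.f) * (z - θ) + c * (z - θ) ^ 2 := hc
      linear_combination hz - h2
    have h2 : IsUnit (aeval θ (derivative P.f) + c * (z - θ)) := by
      by_contra h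
      have h3 := sub_mem (show _ ∈ IsLocalRing.maximalIdeal ℤ_[p] from h)
        (Ideal.mul_mem_left _ c hz2)
      rw [add_sub_cancel_right] at h3
      exact h3 hf'
    have h3 := congrArg (red p k) h1
    rw [map_mul, map_neg, hf, neg_zero, (h2.map (red p k)).mul_left_eq_zero, map_sub] at h3
    exact sub_eq_zero.1 h3
  have hmap : P.P.HasMap z := ⟨hz, isUnit_of_red_eq (k := k) (by
    rw [aeval_def, aeval_def, hom_eval₂, hom_eval₂, hz3]) hg⟩
  refine ⟨((P.P.lift z hmap).comp P.equivRing.toAlgHom).toRingHom, RingHom.ext fun a => ?_, ?_⟩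
  · exact ((P.P.lift z hmap).comp P.equivRing.toAlgHom).commutes a
  · change red p k (P.P.lift z hmap (P.equivRing P.x)) = _
    rw [P.equivRing_x, P.P.lift_X, hz3]

end hensel

theorem exists_discs (R : Type) [CommRing R] [IsDomain R] [CharZero R] [Algebra.FiniteType ℤ R] :
    ∃ (p : ℕ) (_ : Fact p.Prime) (U : Set (R →+* ℤ_[p])), U.Nonempty ∧
      (∀ b ∈ U, ∀ r, IsAlgebraic ℤ (b r)) ∧
      ∀ b₀ ∈ U, ∀ (k : ℕ) (r : R), r ≠ 0 →
        ∃ b ∈ U, (red p k).comp b = (red p k).comp b₀ ∧ b r ≠ 0 := by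
  have : Algebra.FinitePresentation ℤ R :=
    (Algebra.FinitePresentation.of_finiteType).1 inferInstance
  have : Algebra.IsSmoothAt ℤ (⊥ : Ideal R) := by
    let L := FractionRing R
    have : Algebra.EssFiniteType R L := .of_isLocalization L (nonZeroDivisors R)
    have : Algebra.EssFiniteType ℤ L := .comp ℤ R L
    have : @IsScalarTower ℤ ℚ L Algebra.toSMul Algebra.toSMul Algebra.toSMul :=
      IsScalarTower.of_algebraMap_eq' (RingHom.ext_int _ _)
    have : Algebra.EssFiniteType ℚ L := .of_comp ℤ ℚ L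
    have : Algebra.FormallySmooth ℤ ℚ := .of_isLocalization (nonZeroDivisors ℤ)
    have : Algebra.FormallySmooth ℤ L := .comp ℤ ℚ L
    have : IsLocalization (⊥ : Ideal R).primeCompl L := by
      rw [Ideal.primeCompl_bot]; infer_instance
    exact Algebra.FormallySmooth.of_equiv ((IsLocalization.algEquiv (⊥ : Ideal R).primeCompl L
      (Localization.AtPrime (⊥ : Ideal R))).restrictScalars ℤ)
  obtain ⟨f, hf, n, _, _, hét⟩ :=
    Algebra.IsSmoothAt.exists_isStandardEtale_mvPolynomial (R := ℤ) (p := (⊥ : Ideal R))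
  have hf0 : f ≠ 0 := hf
  let R' := Localization.Away f
  let A := MvPolynomial (Fin n) ℤ
  have hle : Submonoid.powers f ≤ nonZeroDivisors R := powers_le_nonZeroDivisors_of_noZeroDivisors hf0
  have : IsDomain R' := IsLocalization.isDomain_localization hle
  have hinj : Function.Injective (algebraMap R R') := IsLocalization.injective _ hle
  obtain ⟨P⟩ := hét.nonempty_standardEtalePresentation
  have : FaithfulSMul A R' := inferInstance
  have hx : IsIntegral A P.x := ⟨P.f, P.monic_f, P.hasMap.1⟩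
  have hint : ∀ q : A[X], IsIntegral A (aeval P.x q) := fun q =>
    IsIntegral.of_mem_of_fg _ hx.fg_adjoin_singleton _ (aeval_mem_adjoin_singleton A P.x)
  have halg : ∀ r : R', IsAlgebraic A r := by
    intro r
    obtain ⟨q, m, h⟩ := P.exists_mul_aeval_x_g_pow_eq_aeval_x r
    refine IsAlgebraic.of_mul (mem_nonZeroDivisors_of_ne_zero (P.hasMap.2.pow m).ne_zero)
      ((hint _).pow m).isAlgebraic ?_
    rw [mul_comm, h]
    exact (hint _).isAlgebraic
  obtain ⟨u, hu, a, ha, hua⟩ := (halg (aeval P.x P.g)).exists_nonzero_eq_adjoin_mul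
    (mem_nonZeroDivisors_of_ne_zero P.hasMap.2.ne_zero)
  obtain ⟨u, rfl⟩ : ∃ q : A[X], aeval P.x q = u := by
    have h1 : Algebra.adjoin A {aeval P.x P.g} ≤ Algebra.adjoin A {P.x} :=
      Algebra.adjoin_le (Set.singleton_subset_iff.2 (aeval_mem_adjoin_singleton A P.x))
    have h2 := h1 hu
    rwa [Algebra.adjoin_singleton_eq_range_aeval] at h2
  obtain ⟨τ₀, hτ₀⟩ : ∃ τ : Fin n → ℤ, MvPolynomial.eval τ a ≠ 0 := by
    by_contra! h
    exact ha (MvPolynomial.funext (by simpa using h))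
  obtain ⟨p, hp, hpa, θ, hθ⟩ := schur (m := (minpoly A P.x).map (MvPolynomial.eval τ₀))
    (by rw [(minpoly.monic hx).natDegree_map]; exact minpoly.natDegree_pos hx)
    hτ₀
  have : Fact p.Prime := ⟨hp⟩
  let φ : (Fin n → ℤ) → A →+* ℤ_[p] := fun τ => (Int.castRingHom _).comp (MvPolynomial.eval τ)
  refine ⟨p, inferInstance, {b | ∃ (τ : Fin n → ℤ) (b' : R' →+* ℤ_[p]),
    b'.comp (algebraMap A R') = φ τ ∧ b = b'.comp (algebraMap R R')}, ?_, ?_, ?_⟩
  · have h0 : red p 0 ((minpoly A P.x).eval₂ (φ τ₀) θ) = 0 := by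
      rw [red_eq_zero_iff, zero_add, pow_one]
      have h1 := map_dvd (Int.castRingHom ℤ_[p]) hθ
      rw [eval_map, hom_eval₂] at h1
      simpa [φ] using h1
    have h1 : ∀ q : A[X], aeval P.x q = 0 → red p 0 (q.eval₂ (φ τ₀) θ) = 0 := by
      intro q hq
      obtain ⟨q', rfl⟩ := minpoly.isIntegrallyClosed_dvd hx hq
      rw [eval₂_mul, map_mul, h0, zero_mul]
    obtain ⟨b, hb, -⟩ := hensel_step P (φ τ₀) θ 0 (h1 _ P.hasMap.1) (by
      have h2 := h1 (P.g * u - C a) (by rw [map_sub, map_mul, hua, aeval_C, sub_self])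
      rw [eval₂_sub, eval₂_mul, eval₂_C, map_sub, sub_eq_zero] at h2
      refine isUnit_of_mul_isUnit_left (isUnit_of_red_eq h2 ?_)
      by_contra h3
      have h4 : φ τ₀ a ∈ IsLocalRing.maximalIdeal ℤ_[p] := h3
      rw [PadicInt.maximalIdeal_eq_span_p, Ideal.mem_span_singleton] at h4
      apply hpa
      simpa using (PadicInt.pow_p_dvd_int_iff (p := p) 1 (MvPolynomial.eval τ₀ a)).1
        (by simpa [φ] using h4))
    exact ⟨_, τ₀, b, hb, rfl⟩
  · rintro _ ⟨τ, b, hb, rfl⟩ r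
    have h1 : ∀ q : A[X], b (aeval P.x q) = aeval (b P.x) (q.map (MvPolynomial.eval τ)) := by
      intro q
      rw [aeval_def, hom_eval₂, hb, aeval_def, eval₂_map]
      rfl
    have h2 : IsIntegral ℤ (b P.x) :=
      ⟨P.f.map (MvPolynomial.eval τ), P.monic_f.map _, by
        rw [← aeval_def, ← h1, P.hasMap.1, map_zero]⟩
    have h3 : ∀ q : A[X], IsIntegral ℤ (b (aeval P.x q)) := fun q => by
      rw [h1]
      exact IsIntegral.of_mem_of_fg _ h2.fg_adjoin_singleton _ (aeval_mem_adjoin_singleton ℤ _)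
    obtain ⟨q, m, h⟩ := P.exists_mul_aeval_x_g_pow_eq_aeval_x (algebraMap R R' r)
    refine IsAlgebraic.of_mul
      (mem_nonZeroDivisors_of_ne_zero ((P.hasMap.2.map b).pow m).ne_zero)
      ((h3 _).pow m).isAlgebraic ?_
    rw [RingHom.comp_apply, ← map_pow, ← map_mul, mul_comm, h]
    exact (h3 _).isAlgebraic
  · rintro _ ⟨τ₁, b₁, hb₁, rfl⟩ k r hr
    obtain ⟨a', ha', hdvd⟩ := (halg (algebraMap R R' r)).exists_nonzero_dvd
      (mem_nonZeroDivisors_of_ne_zero ((map_ne_zero_iff _ hinj).2 hr))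
    obtain ⟨τ, hτ, hτ'⟩ : ∃ τ : Fin n → ℤ, (∀ i, (p : ℤ) ^ (k + 1) ∣ τ i - τ₁ i) ∧
        MvPolynomial.eval τ a' ≠ 0 := by
      by_contra! h
      refine ha' (MvPolynomial.funext_set (fun i => {m | (p : ℤ) ^ (k + 1) ∣ m - τ₁ i}) (fun i => ?_)
        fun τ hτ => by simpa using h τ fun i => hτ i (Set.mem_univ _))
      refine Set.infinite_of_injective_forall_mem (f := fun m : ℤ => τ₁ i + (p : ℤ) ^ (k + 1) * m)
        (fun a b hab => mul_left_cancel₀ (pow_ne_zero _ (Int.natCast_ne_zero.2 hp.ne_zero))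
          (add_left_cancel hab)) fun m => by simp
    have h1 : (red p k).comp (φ τ) = (red p k).comp (φ τ₁) := by
      refine MvPolynomial.ringHom_ext (fun r => by simp [φ]) fun i => ?_
      simp only [φ, RingHom.comp_apply, MvPolynomial.eval_X]
      rw [red_eq_iff]
      simpa using map_dvd (Int.castRingHom ℤ_[p]) (hτ i)
    have h2 : ∀ q : A[X], red p k (q.eval₂ (φ τ) (b₁ P.x)) = red p k (b₁ (aeval P.x q)) := by
      intro q
      rw [aeval_def, hom_eval₂ _ _ b₁, hb₁, hom_eval₂, hom_eval₂, h1]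
    obtain ⟨b, hb, hbx⟩ := hensel_step P (φ τ) (b₁ P.x) k
      (by rw [h2, P.hasMap.1, map_zero, map_zero])
      (isUnit_of_red_eq (h2 _) (P.hasMap.2.map b₁))
    refine ⟨_, ⟨τ, b, hb, rfl⟩, ?_, fun h => hτ' ?_⟩
    · let : Algebra A (QQ p k) := ((red p k).comp (φ τ)).toAlgebra
      let f₁ : R' →ₐ[A] QQ p k := ⟨(red p k).comp b, fun a => by
        change (red p k) (b.comp (algebraMap A R') a) = _
        rw [hb]; rfl⟩
      let f₂ : R' →ₐ[A] QQ p k := ⟨(red p k).comp b₁, fun a => by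
        change ((red p k).comp (b₁.comp (algebraMap A R'))) a = _
        rw [hb₁, ← h1]; rfl⟩
      have h3 : f₁ = f₂ := P.hom_ext hbx
      exact RingHom.ext fun r => AlgHom.congr_fun h3 (algebraMap R R' r)
    · have h3 := map_dvd b hdvd
      rw [show b (algebraMap R R' r) = 0 from h, zero_dvd_iff] at h3
      have h4 : φ τ a' = 0 := by rw [← hb]; exact h3
      simpa [φ] using h4

end Pool.Agent.P.MP_f6c533_ag
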