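import Mathlib
import Pool.Agent.P.MP_f6c533_ag.Atlas

/-! The standard charts of projective space and of its closed subschemes. -/

set_option autoImplicit false

namespace Pool.Agent.P.MP_f6c533_ag

open AlgebraicGeometry CategoryTheory CategoryTheory.Limits MvPolynomial HomogeneousLocalization

variable {σ : Type}

theorem X_mem (a : σ) : (X a : MvPolynomial σ ℤ) ∈ homogeneousSubmodule σ ℤ 1 :=
  isHomogeneous_X ℤ a

variable [GradedAlgebra (homogeneousSubmodule σ ℤ)]

/-- The fraction `X a / X j`. -/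
noncomputable def frac (j a : σ) : Away (homogeneousSubmodule σ ℤ) (X j) :=
  Away.mk _ (X_mem j) 1 (X a) (X_mem a)

/-- The standard chart. -/
noncomputable abbrev chart (j : σ) : (Proj (homogeneousSubmodule σ ℤ)).Opens :=
  Proj.basicOpen (homogeneousSubmodule σ ℤ) (X j)

/-- The coordinate functions on the standard chart. -/
noncomputable def coord (j a : σ) : Γ(Proj (homogeneousSubmodule σ ℤ), chart j) :=
  Proj.awayToSection _ (X j) (frac j a)

theorem coord_self (j : σ) : coord j j = 1 := by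
  have : frac j j = 1 := by
    ext
    rw [frac, Away.val_mk, val_one, ← Localization.mk_one, Localization.mk_eq_mk_iff,
      Localization.r_iff_exists]
    exact ⟨1, by simp⟩
  rw [coord, this, map_one]

theorem basicOpen_coord (j k : σ) :
    (Proj (homogeneousSubmodule σ ℤ)).basicOpen (coord j k) = chart j ⊓ chart k := by
  have h1 := Proj.awayι_preimage_basicOpen (homogeneousSubmodule σ ℤ) (X_mem j) one_pos
    (X_mem k) one_pos
  have h2 : Away.isLocalizationElem (X_mem j) (X_mem k) = frac j k := by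
    ext
    simp [frac]
  have h3 : (chart j).ι ⁻¹ᵁ chart k =
      (chart j).ι ⁻¹ᵁ (Proj (homogeneousSubmodule σ ℤ)).basicOpen (coord j k) := by
    rw [← Scheme.Opens.toSpecΓ_preimage_basicOpen, ← Iso.hom_inv_id_assoc
      (Proj.basicOpenIsoSpec _ _ (X_mem j) one_pos) (chart j).ι, Proj.basicOpenIsoSpec_inv_ι,
      Scheme.Hom.comp_preimage, h1, h2, Proj.basicOpenIsoSpec_hom, Proj.basicOpenToSpec,
      Scheme.Hom.comp_preimage]
    rfl
  ext x
  constructor
  · intro hx
    have hj : x ∈ chart j := Scheme.basicOpen_le _ _ hx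
    exact ⟨hj, h3.ge (x := ⟨x, hj⟩) hx⟩
  · rintro ⟨hj, hk⟩
    exact h3.le (x := ⟨x, hj⟩) hk

theorem ev_coord {Λ : Type} [CommRing Λ]
    (t : Spec (CommRingCat.of Λ) ⟶ Proj (homogeneousSubmodule σ ℤ)) (j k a : σ)
    (hj : ⊤ ≤ t ⁻¹ᵁ chart j) (hk : ⊤ ≤ t ⁻¹ᵁ chart k) :
    ev t _ hj (coord j a) = ev t _ hj (coord j k) * ev t _ hk (coord k a) := by
  have hjk : ⊤ ≤ t ⁻¹ᵁ Proj.basicOpen (homogeneousSubmodule σ ℤ) (X j * X k) := by
    rw [Proj.basicOpen_mul, Scheme.Hom.preimage_inf]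
    exact le_inf hj hk
  have h1 : ∀ b, ev t _ hj (coord j b) = ev t _ hjk (Proj.awayToSection _ (X j * X k)
      (awayMap _ (X_mem k) rfl (frac j b))) := fun b => by
    rw [← ev_res t (Proj.basicOpen_mono _ _ _ ⟨_, rfl⟩) hjk hj]
    congr 1
    exact (congr($(Proj.awayMap_awayToSection _ (X_mem k) rfl) (frac j b))).symm
  have h2 : ∀ b, ev t _ hk (coord k b) = ev t _ hjk (Proj.awayToSection _ (X j * X k)
      (awayMap _ (X_mem j) (mul_comm _ _) (frac k b))) := fun b => by
    rw [← ev_res t (Proj.basicOpen_mono _ _ _ ⟨_, mul_comm _ _⟩) hjk hk]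
    congr 1
    exact (congr($(Proj.awayMap_awayToSection _ (X_mem j) (mul_comm _ _)) (frac k b))).symm
  rw [h1, h1, h2, ← map_mul, ← map_mul]
  congr 2
  ext
  simp only [frac, awayMap_mk, val_mul, Away.val_mk, Localization.mk_mul]
  rw [Localization.mk_eq_mk_iff, Localization.r_iff_exists]
  exact ⟨1, by simp; ring⟩

theorem exists_eval₂_coord (j : σ) (s : Γ(Proj (homogeneousSubmodule σ ℤ), chart j)) :
    ∃ P : MvPolynomial σ ℤ, eval₂ (Int.castRingHom _) (coord j) P = s := by
  obtain ⟨s, rfl⟩ := (Proj.basicOpenIsoAway _ _ (X_mem j)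
    one_pos).commRingCatIsoToRingEquiv.surjective s
  obtain ⟨n, P, hP, rfl⟩ := Away.mk_surjective _ (X_mem j) s
  refine ⟨P, ?_⟩
  have h1 : eval₂ (Int.castRingHom _) (frac j) P = Away.mk _ (X_mem j) n P hP := by
    apply HomogeneousLocalization.val_injective
    have hP' : P.IsHomogeneous n := by simpa using hP
    have h2 := eval₂_comp_left (algebraMap (Away (homogeneousSubmodule σ ℤ) (X j))
      (Localization.Away (X j : MvPolynomial σ ℤ))) (Int.castRingHom _) (frac j) P
    refine h2.trans ?_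
    have h3 : (algebraMap (Away (homogeneousSubmodule σ ℤ) (X j))
        (Localization.Away (X j : MvPolynomial σ ℤ))) ∘ frac j =
        fun a => Localization.mk 1 ⟨X j, Submonoid.mem_powers _⟩ *
          algebraMap (MvPolynomial σ ℤ) _ (X a) := by
      ext a
      simp [frac, ← Localization.mk_one_eq_algebraMap, Localization.mk_mul]
    rw [h3, eval₂_smul_of_isHomogeneous hP', RingHom.ext_int (RingHom.comp _ _)
      ((algebraMap (MvPolynomial σ ℤ) (Localization.Away (X j : MvPolynomial σ ℤ))).comp C),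
      ← hom_eq_eval₂, Away.val_mk, ← Localization.mk_one_eq_algebraMap, Localization.mk_pow,
      Localization.mk_mul]
    simp
  rw [← h1]
  refine Eq.trans ?_ (eval₂_comp_left (Proj.awayToSection _ (X j)).hom _ _ P).symm
  congr 1
  exact RingHom.ext_int _ _

theorem exists_mem_chart (x : Proj (homogeneousSubmodule σ ℤ)) : ∃ j, x ∈ chart j := by
  have h := Proj.iSup_basicOpen_eq_top' (homogeneousSubmodule σ ℤ) X (fun i => ⟨1, X_mem i⟩) (by
    rw [eq_top_iff]
    rintro P -
    induction P using MvPolynomial.induction_on with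
    | C r => exact Subalgebra.algebraMap_mem _ (⟨C r, isHomogeneous_C σ r⟩ : homogeneousSubmodule σ ℤ 0)
    | add p q hp hq => exact add_mem hp hq
    | mul_X p a hp => exact mul_mem hp (Algebra.subset_adjoin ⟨a, rfl⟩))
  exact TopologicalSpace.Opens.mem_iSup.1 (h.ge (Set.mem_univ x))

variable {B Z : Scheme.{0}}

/-- The chart of a scheme over `V` with a map to projective space. -/
noncomputable def chartO (p : Z ⟶ B) (π : Z ⟶ Proj (homogeneousSubmodule σ ℤ)) (V : B.Opens)
    (j : σ) : Z.Opens := p ⁻¹ᵁ V ⊓ π ⁻¹ᵁ chart j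

/-- The coordinate map of a chart. -/
noncomputable def chartθ (p : Z ⟶ B) (π : Z ⟶ Proj (homogeneousSubmodule σ ℤ)) (V : B.Opens)
    (j : σ) : MvPolynomial σ Γ(B, V) →+* Γ(Z, chartO p π V j) :=
  eval₂Hom (p.appLE V (chartO p π V j) inf_le_left).hom
    fun b => π.appLE (chart j) (chartO p π V j) inf_le_right (coord j b)

section

variable {p : Z ⟶ B} {π : Z ⟶ Proj (homogeneousSubmodule σ ℤ)} {V : B.Opens}
  {Λ : Type} [CommRing Λ] {t : Spec (CommRingCat.of Λ) ⟶ Z} {j : σ}

theorem le_chartO_left (h : ⊤ ≤ t ⁻¹ᵁ chartO p π V j) : ⊤ ≤ (t ≫ p) ⁻¹ᵁ V := by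
  rw [Scheme.Hom.comp_preimage]
  exact h.trans (t.preimage_mono inf_le_left)

theorem le_chartO_right (h : ⊤ ≤ t ⁻¹ᵁ chartO p π V j) : ⊤ ≤ (t ≫ π) ⁻¹ᵁ chart j := by
  rw [Scheme.Hom.comp_preimage]
  exact h.trans (t.preimage_mono inf_le_right)

theorem ev_chartθ_C (h : ⊤ ≤ t ⁻¹ᵁ chartO p π V j) (r : Γ(B, V)) :
    ev t _ h (chartθ p π V j (C r)) = ev (t ≫ p) V (le_chartO_left h) r := by
  rw [chartθ, eval₂Hom_C]
  exact ev_appLE t p _ h _ r

theorem ev_chartθ_X (h : ⊤ ≤ t ⁻¹ᵁ chartO p π V j) (b : σ) :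
    ev t _ h (chartθ p π V j (X b)) = ev (t ≫ π) (chart j) (le_chartO_right h) (coord j b) := by
  rw [chartθ, eval₂Hom_X']
  exact ev_appLE t π _ h _ _

end

/-- The charts of a closed subscheme of projective space over an affine open of the base. -/
noncomputable def projAtlas (p : Z ⟶ B) (π : Z ⟶ Proj (homogeneousSubmodule σ ℤ)) (V : B.Opens)
    (h1 : ∀ j, IsAffineOpen (chartO p π V j)) (h2 : ∀ j, Function.Surjective (chartθ p π V j)) :
    Atlas Z Γ(B, V) σ where
  O := chartO p π V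
  aff := h1
  θ := chartθ p π V
  surj := h2
  one j := by rw [chartθ, eval₂Hom_X', coord_self, map_one]
  basic j k := by
    rw [chartθ, eval₂Hom_X', Scheme.basicOpen_appLE, basicOpen_coord, Scheme.Hom.preimage_inf,
      chartO, chartO]
    ext x
    simp only [TopologicalSpace.Opens.coe_inf, Set.mem_inter_iff]
    tauto
  evC Λ _ t j k hj hk r := by rw [ev_chartθ_C, ev_chartθ_C]
  evX Λ _ t j k hj hk b := by
    rw [ev_chartθ_X, ev_chartθ_X, ev_chartθ_X]
    exact ev_coord _ _ _ _ _ _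

variable {a : B ⟶ Spec (CommRingCat.of ℤ)}
  {c : Proj (homogeneousSubmodule σ ℤ) ⟶ Spec (CommRingCat.of ℤ)} {P : Scheme.{0}}
  {p₁ : P ⟶ B} {p₂ : P ⟶ Proj (homogeneousSubmodule σ ℤ)} (H : IsPullback p₁ p₂ a c) (i : Z ⟶ P)
  [IsClosedImmersion i] {V : B.Opens} (hV : IsAffineOpen V)

include H hV

theorem isAffineOpen_pullback (j : σ) : IsAffineOpen (chartO p₁ p₂ V j) := by
  have : IsAffine _ := hV
  have : IsAffine _ := Proj.isAffineOpen_basicOpen _ _ (X_mem j) one_pos
  have : IsAffine _ := isAffineOpen_top (Spec (CommRingCat.of ℤ))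
  exact .of_isIso (Scheme.Hom.isPullback_resLE H (US := ⊤) le_top le_top rfl).isoPullback.hom

theorem isAffineOpen_chartO (j : σ) : IsAffineOpen (chartO (i ≫ p₁) (i ≫ p₂) V j) :=
  (isAffineOpen_pullback H hV j).preimage i

theorem surjective_pullback (j : σ) : Function.Surjective (chartθ p₁ p₂ V j) := by
  have h1 := CommRingCat.closure_range_union_range_eq_top_of_isPushout
    ((isIso_pushoutSection_iff H (US := ⊤) (UT := chart j) (UX := V) (UY := chartO p₁ p₂ V j)
      le_top le_top rfl).1 (isIso_pushoutSection_of_isAffineOpen H le_top le_top rfl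
        (isAffineOpen_top _) (Proj.isAffineOpen_basicOpen _ _ (X_mem j) one_pos) hV))
  rw [← RingHom.range_eq_top, eq_top_iff, ← h1, Subring.closure_le]
  rintro _ (⟨r, rfl⟩ | ⟨s, rfl⟩)
  · exact ⟨C r, eval₂Hom_C _ _ _⟩
  · obtain ⟨q, rfl⟩ := exists_eval₂_coord j s
    refine ⟨map (Int.castRingHom _) q, ?_⟩
    rw [chartθ, coe_eval₂Hom, eval₂_map]
    refine Eq.trans ?_ (eval₂_comp_left (p₂.appLE (chart j) (chartO p₁ p₂ V j) _).hom _ _ q).symm
    congr 1
    exact RingHom.ext_int _ _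

theorem surjective_chartθ (j : σ) : Function.Surjective (chartθ (i ≫ p₁) (i ≫ p₂) V j) := by
  have e : chartO (i ≫ p₁) (i ≫ p₂) V j ≤ i ⁻¹ᵁ chartO p₁ p₂ V j := le_rfl
  have h1 : chartθ (i ≫ p₁) (i ≫ p₂) V j =
      (i.appLE (chartO p₁ p₂ V j) _ e).hom.comp (chartθ p₁ p₂ V j) := by
    refine MvPolynomial.ringHom_ext (fun r => ?_) fun b => ?_
    · rw [RingHom.comp_apply, chartθ, chartθ, eval₂Hom_C, eval₂Hom_C,
        ← Scheme.Hom.appLE_comp_appLE i p₁ V _ _ inf_le_left e]
      rfl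
    · rw [RingHom.comp_apply, chartθ, chartθ, eval₂Hom_X', eval₂Hom_X',
        ← Scheme.Hom.appLE_comp_appLE i p₂ (chart j) _ _ inf_le_right e]
      rfl
  have h2 := i.app_surjective _ (isAffineOpen_pullback H hV j)
  rw [Scheme.Hom.app_eq_appLE] at h2
  rw [h1, RingHom.coe_comp]
  exact Function.Surjective.comp h2 (surjective_pullback H hV j)

end Pool.Agent.P.MP_f6c533_ag
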