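import Mathlib
import Pool.Agent.P.MP_f6c533_ag.Rigid
import Pool.Agent.P.MP_f6c533_ag.Disc

/-! If all `p`-adic specialisations in a rich family are preperiodic, so is the generic one. -/

set_option autoImplicit false

namespace Pool.Agent.P.MP_f6c533_ag

open MvPolynomial

theorem mem_periodicPts_of_eq {α : Type} {f : α → α} {z : α} {n m : ℕ} (hnm : n ≠ m)
    (h : f^[n] z = f^[m] z) : ∃ t, f^[t] z ∈ Function.periodicPts f := by
  wlog hlt : m < n generalizing n m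
  · exact this hnm.symm h.symm (by omega)
  refine ⟨m, n - m, by omega, ?_⟩
  change f^[n - m] (f^[m] z) = _
  rw [← Function.iterate_add_apply, Nat.sub_add_cancel hlt.le, h]

theorem padic_main {R₀ R : Type} [CommRing R₀] [Algebra.FiniteType ℤ R₀] [CommRing R]
    {σ ι κ : Type} [Fintype σ] [Fintype κ] (S : Sys R₀ σ ι κ) (p : ℕ) [Fact p.Prime]
    (U : Set (R →+* ℤ_[p])) (hne : U.Nonempty)
    (hU : ∀ b₀ ∈ U, ∀ (k : ℕ) (r : R), r ≠ 0 →
      ∃ b ∈ U, (red p k).comp b = (red p k).comp b₀ ∧ b r ≠ 0)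
    (ξ : Pt S R)
    (hpre : ∀ b ∈ U, ∃ n m, n ≠ m ∧ Pt.step^[n] (ξ.map b) = Pt.step^[m] (ξ.map b))
    {L : Type} [Field L] (ψ : R →+* L) :
    ∃ n m, n ≠ m ∧ Pt.step^[n] (ξ.map ψ) = Pt.step^[m] (ξ.map ψ) := by
  classical
  obtain ⟨N, hN, hper⟩ := exists_period_bound S p
  have hgmap : ∀ {Λ Λ' : Type} [CommRing Λ] [CommRing Λ'] [IsLocalRing Λ] [IsLocalRing Λ']
      (χ : Λ →+* Λ') (z : Pt S Λ) (n : ℕ),
      ((Pt.step^[N])^[n] z).map χ = (Pt.step^[N])^[n] (z.map χ) := by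
    intro Λ Λ' _ _ _ _ χ z n
    rw [← Function.iterate_mul, ← Function.iterate_mul, Pt.map_iterate]
  have hy : ∀ b : R →+* ℤ_[p], ∃ (m : ℕ) (y : Pt S ℤ_[p]), b ∈ U →
      Pt.step^[N] y = y ∧ ∀ n, m ≤ n → (Pt.step^[N])^[n] (ξ.map b) = y := by
    intro b
    by_cases hb : b ∈ U
    swap
    · exact ⟨0, ξ.map b, fun h => absurd h hb⟩
    obtain ⟨n, m, hnm, h⟩ := hpre b hb
    obtain ⟨t, ht⟩ := mem_periodicPts_of_eq hnm h
    have h1 : (Pt.step^[N])^[t] (ξ.map b) ∈ Function.periodicPts Pt.step := by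
      obtain ⟨s, hs⟩ : ∃ s, N * t = s + t := ⟨N * t - t, by
        have := Nat.le_mul_of_pos_left t hN; omega⟩
      rw [← Function.iterate_mul, hs, Function.iterate_add_apply]
      exact ((Function.bijOn_periodicPts _).mapsTo.iterate s) ht
    refine ⟨t, _, fun _ => ⟨hper _ h1, fun n hn => ?_⟩⟩
    obtain ⟨s, rfl⟩ := Nat.exists_eq_add_of_le' hn
    rw [Function.iterate_add_apply]
    exact Function.iterate_fixed (hper _ h1) s
  choose m y hy using hy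
  let Δ : (R →+* ℤ_[p]) → ℕ → Set (R →+* ℤ_[p]) := fun b₁ k =>
    {b | b ∈ U ∧ (red p k).comp b = (red p k).comp b₁}
  have hΔ : ∀ {b₁ b₂ k k'}, b₂ ∈ Δ b₁ k → k ≤ k' → Δ b₂ k' ⊆ Δ b₁ k := by
    intro b₁ b₂ k k' h hk b hb
    refine ⟨hb.1, Eq.trans (RingHom.ext fun r => ?_) h.2⟩
    have h1 := (red_eq_iff p).1 (RingHom.congr_fun hb.2 r)
    exact (red_eq_iff p).2 ((pow_dvd_pow _ (by omega)).trans h1)
  have hcong : ∀ {b₁ k b}, b₁ ∈ U → b ∈ Δ b₁ k → ∀ n, m b₁ ≤ n →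
      ((Pt.step^[N])^[n] (ξ.map b)).map (red p k) = (y b₁).map (red p k) := by
    intro b₁ k b h₁ h n hn
    rw [← (hy b₁ h₁).2 n hn, hgmap, hgmap, Pt.map_map, Pt.map_map, h.2]
  have hcong' : ∀ {b₁ k b}, b₁ ∈ U → b ∈ Δ b₁ k →
      (y b).map (red p k) = (y b₁).map (red p k) := by
    intro b₁ k b h₁ h
    rw [← hcong h₁ h (max (m b₁) (m b)) (le_max_left _ _), (hy b h.1).2 _ (le_max_right _ _)]
  have hUj : ∀ {w w' : Pt S ℤ_[p]} {k j}, w.map (red p k) = w'.map (red p k) → w'.U j → w.U j :=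
    fun {w w' k j} h h' => Pt.U.of_map (red p k) (h ▸ h'.map (red p k))
  obtain ⟨b₀, hb₀⟩ := hne
  obtain ⟨j, hj⟩ := (y b₀).exists_U
  have hyj : ∀ b ∈ Δ b₀ 0, (y b).U j := fun b hb => hUj (hcong' hb₀ hb) hj
  let ev : (R →+* ℤ_[p]) → MvPolynomial σ R₀ →+* ℤ_[p] := fun b =>
    eval₂Hom (y b).base ((y b).nv j)
  have hev : ∀ {b₁ k b}, b₁ ∈ Δ b₀ 0 → b ∈ Δ b₁ k →
      (red p k).comp (ev b) = (red p k).comp (ev b₁) := by
    intro b₁ k b h₁ h
    have h2 := hcong' h₁.1 h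
    refine MvPolynomial.ringHom_ext (fun r => ?_) fun a => ?_
    · have h3 := congrArg Pt.base h2
      rw [Pt.base_map, Pt.base_map] at h3
      simpa [ev] using RingHom.congr_fun h3 r
    · have h3 := congrArg (fun z => Pt.nv z j a) h2
      simp only [Pt.nv_map (hyj b (hΔ h₁ (Nat.zero_le k) h)), Pt.nv_map (hyj b₁ h₁)] at h3
      simpa [ev] using h3
  let 𝔭 : (R →+* ℤ_[p]) → ℕ → Ideal (MvPolynomial σ R₀) := fun b₁ k =>
    ⨅ b ∈ Δ b₁ k, RingHom.ker (ev b)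
  have h𝔭 : ∀ {b₁ k q}, q ∈ 𝔭 b₁ k ↔ ∀ b ∈ Δ b₁ k, ev b q = 0 := by
    intro b₁ k q
    simp only [𝔭, Submodule.mem_iInf, RingHom.mem_ker]
  have : IsNoetherianRing R₀ := Algebra.FiniteType.isNoetherianRing ℤ R₀
  obtain ⟨_, ⟨b₁, hb₁, k, rfl⟩, hmax⟩ := set_has_maximal_iff_noetherian.2
    (inferInstance : IsNoetherian (MvPolynomial σ R₀) (MvPolynomial σ R₀))
    {I | ∃ b₁ ∈ Δ b₀ 0, ∃ k, I = 𝔭 b₁ k} ⟨_, b₀, ⟨hb₀, rfl⟩, 0, rfl⟩
  have hb₁' : b₁ ∈ Δ b₁ k := ⟨hb₁.1, rfl⟩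
  have hsub : Δ b₁ k ⊆ Δ b₀ 0 := hΔ hb₁ (Nat.zero_le k)
  have hprime : (𝔭 b₁ k).IsPrime := by
    refine ⟨fun h => ?_, fun {u v} huv => ?_⟩
    · have := h𝔭.1 ((Ideal.eq_top_iff_one _).1 h) b₁ hb₁'
      rw [map_one] at this
      exact one_ne_zero this
    · by_contra! hcon
      obtain ⟨b₂, hb₂, hu⟩ : ∃ b ∈ Δ b₁ k, ev b u ≠ 0 := by
        by_contra! h
        exact hcon.1 (h𝔭.2 h)
      obtain ⟨k', hk', hu'⟩ := exists_red_ne_zero p hu k
      refine hmax _ ⟨b₂, hsub hb₂, k', rfl⟩ (lt_of_le_of_ne (fun q hq => h𝔭.2 fun b hb =>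
        h𝔭.1 hq b (hΔ hb₂ hk' hb)) fun h => hcon.2 ?_)
      rw [h]
      refine h𝔭.2 fun b hb => ?_
      have h1 := h𝔭.1 huv b (hΔ hb₂ hk' hb)
      rw [map_mul] at h1
      refine (mul_eq_zero.1 h1).resolve_left fun h2 => hu' ?_
      rw [← RingHom.comp_apply, ← hev (hsub hb₂) hb, RingHom.comp_apply, h2, map_zero]
  let A := MvPolynomial σ R₀ ⧸ 𝔭 b₁ k
  let π : MvPolynomial σ R₀ →+* A := Ideal.Quotient.mk _
  let eA : ∀ b ∈ Δ b₁ k, A →+* ℤ_[p] := fun b hb =>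
    Ideal.Quotient.lift _ (ev b) fun q hq => h𝔭.1 hq b hb
  have heA : ∀ b hb q, eA b hb (π q) = ev b q := fun b hb q => rfl
  have hdense : ∀ a : A, (∀ b hb, eA b hb a = 0) → a = 0 := by
    intro a ha
    obtain ⟨q, rfl⟩ := Ideal.Quotient.mk_surjective a
    exact Ideal.Quotient.eq_zero_iff_mem.2 (h𝔭.2 ha)
  have : CharZero A := (eA b₁ hb₁').charZero
  have hXj : π (X j) = 1 := by
    rw [← sub_eq_zero]
    refine hdense _ fun b hb => ?_
    rw [map_sub, map_one, heA b hb, eval₂Hom_X', Pt.nv_self (hyj b (hsub hb)), sub_self]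
  let yA : PV S A := ⟨π.comp C, fun a => π (X a), ⟨j, by rw [hXj]; exact isUnit_one⟩, fun i => by
    have h1 := eval₂_comp_left π C X (S.G i)
    rw [eval₂_eta] at h1
    refine h1.symm.trans (hdense _ fun b hb => ?_)
    rw [heA b hb]
    exact Pt.nv_zero _ j i⟩
  have hyA : ∀ b hb, (Pt.mk yA).map (eA b hb) = y b := by
    intro b hb
    rw [Pt.map_mk, ← Pt.mk_rep (y b) (hyj b (hsub hb))]
    congr 1
    refine PV.ext (RingHom.ext fun r => ?_) (funext fun a => ?_)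
    · exact eval₂Hom_C _ _ _
    · exact eval₂Hom_X' _ _ _
  let ρ : ℤ_[p] →+* ℚ_[p] := algebraMap _ _
  have hρ : Function.Injective ρ := IsFractionRing.injective _ _
  obtain ⟨r, c, hc, hrig⟩ := rigid N yA hXj (density (m := 0) (algebraMap A (FractionRing A))
    {e | ∃ b hb, e = ρ.comp (eA b hb)}
    (fun a ha => by
      rw [hdense a fun b hb => hρ (by rw [map_zero]; exact ha _ ⟨b, hb, rfl⟩), map_zero])
    (Pt.mk yA) (by
      rintro _ ⟨b, hb, rfl⟩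
      rw [← Pt.map_map, hyA b hb, ← Pt.map_iterate, (hy b hb.1).1]
      rfl))
  obtain ⟨b₂, hb₂, hc₂⟩ : ∃ b hb, eA b hb (eval yA.v c) ≠ 0 := by
    by_contra! h
    exact hc (hdense _ h)
  obtain ⟨k', hk', hc'⟩ := exists_red_ne_zero p hc₂ k
  have hstep : ∀ b ∈ Δ b₂ k', ∀ n, m b₂ ≤ n →
      (Pt.step^[N])^[r + 1 + n] (ξ.map b) = y b → (Pt.step^[N])^[r + n] (ξ.map b) = y b := by
    intro b hb n hn h
    have hb' : b ∈ Δ b₁ k := hΔ hb₂ hk' hb
    have h1 := hcong hb₂.1 hb n hn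
    rw [Function.iterate_add_apply] at h ⊢
    set w := (Pt.step^[N])^[n] (ξ.map b) with hw
    have hwj : w.U j := hUj h1 (hyj _ (hsub hb₂))
    have h2 : w.base = (y b).base := by
      rw [← h, ← Function.iterate_mul, Pt.base_iterate]
    apply Pt.map_injective hρ
    have h3 := hrig ℚ_[p] (ρ.comp (eA b hb')) ((w.rep hwj).map ρ) ?_ ?_ ?_ ?_
    · rwa [← Pt.map_mk, Pt.mk_rep, ← Pt.map_map, hyA b hb', ← hgmap] at h3
    · change ρ.comp w.base = _
      rw [h2, ← hyA b hb', Pt.base_map]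
      rfl
    · change ρ (w.nv j j) = 1
      rw [Pt.nv_self hwj, map_one]
    · intro h4
      apply hc'
      have h5 : eval₂ (eA b hb') (w.nv j) c = 0 := hρ (by
        rw [map_zero, eval₂_comp_left]; exact h4)
      have h6 := congrArg (red p k') h5
      rw [map_zero, eval₂_comp_left] at h6
      rw [← h6, ← RingHom.comp_apply]
      refine (eval₂_comp_left _ (RingHom.id A) yA.v c).trans ?_
      congr 1
      · refine Ideal.Quotient.ringHom_ext (RingHom.ext fun q => ?_)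
        exact (RingHom.congr_fun (hev (hsub hb₂) hb) q).symm
      · ext a
        have h7 := congrArg (fun z => Pt.nv z j a) h1
        simp only [Pt.nv_map hwj, Pt.nv_map (hyj _ (hsub hb₂))] at h7
        change red p k' (ev b₂ (X a)) = red p k' (w.nv j a)
        rw [h7, eval₂Hom_X']
    · rw [← Pt.map_mk, Pt.mk_rep, ← Pt.map_map, hyA b hb', ← hgmap, h]
  have hall : ∀ b ∈ Δ b₂ k', (Pt.step^[N])^[r + m b₂] (ξ.map b) = y b := by
    intro b hb
    have h1 : ∀ t, (Pt.step^[N])^[r + (m b₂ + t)] (ξ.map b) = y b →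
        (Pt.step^[N])^[r + m b₂] (ξ.map b) = y b := by
      intro t
      induction t with
      | zero => exact id
      | succ t ih =>
        intro h
        refine ih (hstep b hb _ (Nat.le_add_right _ _) ?_)
        rwa [show r + 1 + (m b₂ + t) = r + (m b₂ + (t + 1)) by ring]
    exact h1 (m b) ((hy b hb.1).2 _ (by omega))
  refine ⟨N * (r + m b₂) + N, N * (r + m b₂), by omega,
    density ψ {e | ∃ b ∈ Δ b₂ k', e = ρ.comp b} (fun a ha => ?_) ξ ?_⟩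
  · by_contra h
    obtain ⟨b, hb, h1, h2⟩ := hU b₂ hb₂.1 k' a fun h0 => h (by rw [h0, map_zero])
    exact h2 (hρ (by rw [map_zero]; exact ha _ ⟨b, ⟨hb, h1⟩, rfl⟩))
  · rintro _ ⟨b, hb, rfl⟩
    rw [← Pt.map_map, ← Pt.map_iterate ρ, ← Pt.map_iterate ρ, add_comm, Function.iterate_add_apply,
      Function.iterate_mul, hall b hb, (hy b hb.1).1]

end Pool.Agent.P.MP_f6c533_ag
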