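import Mathlib
import Pool.Agent.P.MP_f6c533_ag.Main

/-! Spreading out a system to a finitely generated ring, and the algebraic form of the theorem. -/

set_option autoImplicit false

namespace Pool.Agent.P.MP_f6c533_ag

open MvPolynomial Filter

section res

variable {R₀ R : Type} [CommRing R₀] [CommRing R] {σ ι κ : Type} {S₀ : Sys R₀ σ ι κ}
  {S : Sys R σ ι κ} {ρ : R₀ →+* R}

/-- `S` is the base change of `S₀` along `ρ`. -/
structure Sys.Over (S₀ : Sys R₀ σ ι κ) (S : Sys R σ ι κ) (ρ : R₀ →+* R) : Prop where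
  G : ∀ i, map ρ (S₀.G i) = S.G i
  W : ∀ l a, map ρ (S₀.W l a) = S.W l a

variable {Λ Λ' : Type} [CommRing Λ] [CommRing Λ']

/-- Forget the base. -/
def PV.res (h : S₀.Over S ρ) (p : PV S Λ) : PV S₀ Λ where
  φ := p.φ.comp ρ
  v := p.v
  unit := p.unit
  zero := fun i => by rw [← eval₂_map, h.G, p.zero]

/-- Forget the base. -/
def Pt.res (h : S₀.Over S ρ) (z : Pt S Λ) : Pt S₀ Λ :=
  Quotient.map (PV.res h) (by
    rintro p q ⟨h1, u, hu⟩
    exact ⟨congrArg (·.comp ρ) h1, u, hu⟩) z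

theorem Pt.res_mk (h : S₀.Over S ρ) (p : PV S Λ) : (Pt.mk p).res h = Pt.mk (p.res h) := rfl

theorem Pt.res_map (h : S₀.Over S ρ) (z : Pt S Λ) (ψ : Λ →+* Λ') :
    (z.map ψ).res h = (z.res h).map ψ := by
  obtain ⟨p, rfl⟩ := z.mk_surjective
  rfl

theorem Pt.eq_of_res_eq (h : S₀.Over S ρ) {z z' : Pt S Λ} (hb : z.base = z'.base)
    (hz : z.res h = z'.res h) : z = z' := by
  obtain ⟨p, rfl⟩ := z.mk_surjective
  obtain ⟨q, rfl⟩ := z'.mk_surjective
  exact Pt.mk_eq_iff.2 ⟨hb, (Pt.mk_eq_iff.1 hz).2⟩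

theorem Pt.res_step [IsLocalRing Λ] (h : S₀.Over S ρ) (z : Pt S Λ) :
    (Pt.step z).res h = Pt.step (z.res h) := by
  obtain ⟨p, rfl⟩ := z.mk_surjective
  obtain ⟨l, a, hl⟩ := p.exists_col
  have h1 : ∀ a, eval₂ (p.res h).φ (p.res h).v (S₀.W l a) = eval₂ p.φ p.v (S.W l a) := fun a => by
    rw [← h.W, eval₂_map]; rfl
  rw [Pt.step_mk p l ⟨a, hl⟩, Pt.res_mk, Pt.res_mk,
    Pt.step_mk (p.res h) l ⟨a, by rw [h1]; exact hl⟩]
  congr 1
  exact PV.ext rfl (funext fun a => (h1 a).symm)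

theorem Pt.res_iterate [IsLocalRing Λ] (h : S₀.Over S ρ) (z : Pt S Λ) (n : ℕ) :
    (Pt.step^[n] z).res h = Pt.step^[n] (z.res h) := by
  induction n with
  | zero => rfl
  | succ n ih => rw [Function.iterate_succ_apply', Function.iterate_succ_apply', Pt.res_step, ih]

end res

section spread

variable {B : Type} [CommRing B] {σ ι κ : Type}

theorem eventually_lift (P : MvPolynomial σ B) : ∀ᶠ T : Finset B in atTop,
    ∃ P₀ : MvPolynomial σ (Algebra.adjoin ℤ (T : Set B)), map (algebraMap _ B) P₀ = P := by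
  filter_upwards [eventually_ge_atTop P.coeffs] with T hT
  refine mem_range_map_iff_coeffs_subset.2 fun c hc => ?_
  exact ⟨⟨c, Algebra.subset_adjoin (hT hc)⟩, rfl⟩

theorem eventually_mem_span {τ : Type} [Finite τ] {g : τ → MvPolynomial σ B}
    {P : MvPolynomial σ B} (hP : P ∈ Ideal.span (Set.range g)) : ∀ᶠ T : Finset B in atTop,
    ∀ (g₀ : τ → MvPolynomial σ (Algebra.adjoin ℤ (T : Set B)))
      (P₀ : MvPolynomial σ (Algebra.adjoin ℤ (T : Set B))),
      (∀ t, map (algebraMap _ B) (g₀ t) = g t) → map (algebraMap _ B) P₀ = P →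
      P₀ ∈ Ideal.span (Set.range g₀) := by
  have := Fintype.ofFinite τ
  obtain ⟨c, hc⟩ := Ideal.mem_span_range_iff_exists_fun.1 hP
  filter_upwards [eventually_all.2 fun t => eventually_lift (c t)] with T hT g₀ P₀ hg hP₀
  choose c₀ hc₀ using hT
  refine Ideal.mem_span_range_iff_exists_fun.2 ⟨c₀, ?_⟩
  apply map_injective (algebraMap _ B) Subtype.val_injective
  simp only [map_sum, map_mul, hc₀, hg, hP₀, hc]

theorem eventually_over [Finite σ] [Finite ι] [Finite κ] (S : Sys B σ ι κ) :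
    ∀ᶠ T : Finset B in atTop,
      ∃ S₀ : Sys (Algebra.adjoin ℤ (T : Set B)) σ ι κ, S₀.Over S (algebraMap _ B) := by
  choose N hN using S.cover
  have hN' : ∀ j, X j ^ N j ∈ Ideal.span (Set.range (Sum.elim S.G fun p : κ × σ => S.W p.1 p.2)) := by
    intro j
    rw [Set.Sum.elim_range, Ideal.span_union]
    exact hN j
  filter_upwards [eventually_all.2 fun i => eventually_lift (S.G i),
    eventually_all.2 fun l => eventually_all.2 fun a => eventually_lift (S.W l a),
    eventually_all.2 fun l => eventually_all.2 fun l' => eventually_all.2 fun a =>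
      eventually_all.2 fun a' => eventually_mem_span (S.prop l l' a a'),
    eventually_all.2 fun l => eventually_all.2 fun i => eventually_mem_span (S.col l i),
    eventually_all.2 fun j => eventually_mem_span (hN' j)] with T h1 h2 h3 h4 h5
  choose G hG using h1
  choose W hW using h2
  have hinj : Function.Injective (algebraMap (Algebra.adjoin ℤ (T : Set B)) B) :=
    Subtype.val_injective
  refine ⟨⟨G, S.dG, fun i => .of_map hinj (hG i ▸ S.hG i), W, S.d,
    fun l a => .of_map hinj (hW l a ▸ S.hW l a), fun l l' a a' => h3 l l' a a' G _ hG ?_,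
    fun l i => h4 l i G _ hG ?_, fun j => ⟨N j, ?_⟩⟩, hG, hW⟩
  · simp only [map_sub, map_mul, hW]
  · simp only [map_bind₁, hW, hG]
  · rw [← Ideal.span_union, ← Set.Sum.elim_range]
    refine h5 j _ _ ?_ (by rw [map_pow, map_X])
    rintro (i | ⟨l, a⟩)
    · exact hG i
    · exact hW l a

end spread

theorem exists_algHom {k B D : Type} [Field k] [CharZero k] [IsAlgClosed k]
    [Algebra.IsAlgebraic ℤ k] [CommRing B] [Algebra k B] (R : Subalgebra ℤ B)
    (hR : Algebra.adjoin k (R : Set B) = ⊤) [CommRing D] [IsDomain D] [CharZero D] (b : R →+* D)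
    (hb : ∀ r, IsAlgebraic ℤ (b r)) : ∃ β : B →ₐ[k] k, ∀ r : R, β r = 0 → b r = 0 := by
  let B' := integralClosure R B
  have hq : (RingHom.ker b).IsPrime := RingHom.ker_isPrime _
  obtain ⟨Q', -, hQ', hQ'q⟩ := Ideal.exists_ideal_over_prime_of_isIntegral (S := B')
    (RingHom.ker b) ⊥ (fun r hr => by
      have h1 : algebraMap R B' r = 0 := hr
      have h3 : ((algebraMap R B' r : B') : B) = ((0 : B') : B) := congrArg _ h1
      have h2 : r = 0 := Subtype.ext h3
      rw [h2]; exact zero_mem _)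
  let M : Submonoid B' := (nonZeroDivisors ℤ).map (Int.castRingHom B')
  have hsurj : ∀ z : B, ∃ N : ℤ, N ≠ 0 ∧ IsIntegral R (z * N) := by
    intro z
    have hz : z ∈ Algebra.adjoin k (R : Set B) := hR ▸ Algebra.mem_top
    induction hz using Algebra.adjoin_induction with
    | mem x hx =>
      refine ⟨1, one_ne_zero, ?_⟩
      rw [Int.cast_one, mul_one]
      exact isIntegral_algebraMap (x := (⟨x, hx⟩ : R))
    | algebraMap c =>
      obtain ⟨N, hN, h⟩ := (Algebra.IsAlgebraic.isAlgebraic (R := ℤ) c).exists_integral_multiple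
      refine ⟨N, hN, ?_⟩
      have h1 := (h.map (algebraMap k B).toIntAlgHom).tower_top (A := R)
      simpa [mul_comm] using h1
    | add x y _ _ hx hy =>
      obtain ⟨N, hN, h⟩ := hx
      obtain ⟨N', hN', h'⟩ := hy
      refine ⟨N * N', mul_ne_zero hN hN', ?_⟩
      have h1 := (h.mul (isIntegral_algebraMap (x := (N' : R)))).add
        (h'.mul (isIntegral_algebraMap (x := (N : R))))
      convert h1 using 1
      simp only [map_intCast, Int.cast_mul]
      ring
    | mul x y _ _ hx hy =>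
      obtain ⟨N, hN, h⟩ := hx
      obtain ⟨N', hN', h'⟩ := hy
      refine ⟨N * N', mul_ne_zero hN hN', ?_⟩
      convert h.mul h' using 1
      simp only [Int.cast_mul]
      ring
  have : IsLocalization M B := by
    refine (isLocalization_iff M B).2 ⟨?_, fun z => ?_, fun {x y} h => ⟨1, by
      rw [show x = y from Subtype.ext h]⟩⟩
    · rintro ⟨_, N, hN, rfl⟩
      have h1 : IsUnit (N : k) := Ne.isUnit (Int.cast_ne_zero.2 (nonZeroDivisors.ne_zero hN))
      simpa using h1.map (algebraMap k B)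
    · obtain ⟨N, hN, h⟩ := hsurj z
      exact ⟨(⟨_, h⟩, ⟨_, N, mem_nonZeroDivisors_of_ne_zero hN, rfl⟩), by simp⟩
  have hd : Disjoint (M : Set B') Q' := by
    rw [Set.disjoint_left]
    rintro _ ⟨N, hN, rfl⟩ h
    have h1 : (N : R) ∈ Q'.comap (algebraMap R B') := by simpa using h
    rw [hQ'q, RingHom.mem_ker, map_intCast, Int.cast_eq_zero] at h1
    exact nonZeroDivisors.ne_zero hN h1
  let Q := Q'.map (algebraMap B' B)
  have hQ : Q.IsPrime := IsLocalization.isPrime_of_isPrime_disjoint M B Q' hQ' hd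
  have hQq : ∀ r : R, (r : B) ∈ Q ↔ b r = 0 := by
    intro r
    rw [← RingHom.mem_ker, ← hQ'q, Ideal.mem_comap,
      ← IsLocalization.under_map_of_isPrime_disjoint M B hQ' hd]
    rfl
  have : Algebra.IsIntegral k (B ⧸ Q) := by
    refine ⟨fun z => ?_⟩
    obtain ⟨z, rfl⟩ := Ideal.Quotient.mk_surjective z
    have hz : z ∈ Algebra.adjoin k (R : Set B) := hR ▸ Algebra.mem_top
    induction hz using Algebra.adjoin_induction with
    | mem x hx =>
      obtain ⟨q, hq, h⟩ := hb ⟨x, hx⟩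
      have h1 : IsAlgebraic ℤ (Ideal.Quotient.mk Q x) := by
        refine ⟨q, hq, ?_⟩
        have h2 : b (Polynomial.aeval (⟨x, hx⟩ : R) q) = 0 :=
          (Polynomial.aeval_algHom_apply b.toIntAlgHom _ q).symm.trans h
        have h3 := Ideal.Quotient.eq_zero_iff_mem.2 ((hQq _).2 h2)
        have h4 := Polynomial.aeval_algHom_apply
          ((Ideal.Quotient.mk Q).comp (algebraMap R B)).toIntAlgHom (⟨x, hx⟩ : R) q
        exact h4.trans h3
      exact (h1.extendScalars (S := k) Int.cast_injective).isIntegral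
    | algebraMap c => exact isIntegral_algebraMap
    | add x y _ _ hx hy => rw [map_add]; exact hx.add hy
    | mul x y _ _ hx hy => rw [map_mul]; exact hx.mul hy
  let e := AlgEquiv.ofBijective (Algebra.ofId k (B ⧸ Q))
    IsAlgClosed.algebraMap_bijective_of_isIntegral
  refine ⟨e.symm.toAlgHom.comp (Ideal.Quotient.mkₐ k Q), fun r hr => (hQq r).1 ?_⟩
  exact Ideal.Quotient.eq_zero_iff_mem.1 ((map_eq_zero_iff _ e.symm.injective).1 hr)

theorem alg_main {k B : Type} [Field k] [CharZero k] [IsAlgClosed k] [Algebra.IsAlgebraic ℤ k]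
    [CommRing B] [IsDomain B] [Algebra k B] [Algebra.FiniteType k B] {σ ι κ : Type} [Fintype σ]
    [Finite ι] [Fintype κ] (S : Sys B σ ι κ) (ξ : Pt S B) (hξ : ξ.base = RingHom.id B)
    (hpre : ∀ β : B →ₐ[k] k, ∃ n m, n ≠ m ∧
      Pt.step^[n] (ξ.map (β : B →+* k)) = Pt.step^[m] (ξ.map (β : B →+* k)))
    {L : Type} [Field L] (ψ : B →+* L) :
    ∃ n m, n ≠ m ∧ Pt.step^[n] (ξ.map ψ) = Pt.step^[m] (ξ.map ψ) := by
  classical
  obtain ⟨j, hj⟩ := ξ.exists_U
  obtain ⟨T₀, hT₀⟩ := Algebra.FiniteType.out (R := k) (A := B)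
  obtain ⟨T, ⟨S₀, hS⟩, hT1, hT2⟩ := ((eventually_over S).and ((eventually_ge_atTop T₀).and
    (eventually_ge_atTop (Finset.univ.image (ξ.nv j))))).exists
  let R := Algebra.adjoin ℤ (T : Set B)
  have : CharZero B := charZero_of_injective_algebraMap (algebraMap k B).injective
  have : Algebra.FiniteType ℤ R := (Subalgebra.fg_iff_finiteType _).1 (Subalgebra.fg_adjoin_finset _)
  have hR : Algebra.adjoin k (R : Set B) = ⊤ := by
    rw [eq_top_iff, ← hT₀]
    exact Algebra.adjoin_mono fun x hx => Algebra.subset_adjoin (hT1 hx)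
  let v : σ → R := fun a => ⟨ξ.nv j a, Algebra.subset_adjoin (hT2 (by simp))⟩
  let ξ₀ : PV S₀ R := ⟨RingHom.id R, v, ⟨j, by
      rw [show v j = 1 from Subtype.ext (Pt.nv_self hj)]; exact isUnit_one⟩, fun i => by
    apply Subtype.val_injective
    have h1 := Pt.nv_zero ξ j i
    rw [← hS.G, eval₂_map, hξ] at h1
    exact (eval₂_comp_left (algebraMap R B) _ _ _).trans h1⟩
  have h0 : (Pt.mk ξ₀).map (algebraMap R B) = ξ.res hS := by
    rw [← Pt.mk_rep ξ hj, Pt.res_mk, Pt.map_mk]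
    congr 1
    refine PV.ext ?_ rfl
    change _ = ξ.base.comp _
    rw [hξ]
    rfl
  obtain ⟨p, _, U, hne, halg, hU⟩ := exists_discs R
  obtain ⟨n, m, hnm, h⟩ := padic_main S₀ p U hne hU (Pt.mk ξ₀) (fun b hb => by
    obtain ⟨β, hβ⟩ := exists_algHom R hR b (halg b hb)
    obtain ⟨n, m, hnm, h⟩ := hpre β
    let ρ : ℤ_[p] →+* ℚ_[p] := algebraMap _ _
    have hρ : Function.Injective ρ := IsFractionRing.injective _ _
    refine ⟨n, m, hnm, Pt.map_injective hρ ?_⟩
    rw [Pt.map_iterate, Pt.map_iterate, Pt.map_map]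
    refine density _ {(β : B →+* k).comp (algebraMap R B)} (fun a ha => ?_) _ ?_
    · rw [RingHom.comp_apply, hβ a (ha _ rfl), map_zero]
    · rintro _ rfl
      rw [← Pt.map_map, h0, ← Pt.res_map, ← Pt.res_iterate, ← Pt.res_iterate, h])
    (ψ.comp (algebraMap R B))
  refine ⟨n, m, hnm, Pt.eq_of_res_eq hS (by rw [Pt.base_iterate, Pt.base_iterate]) ?_⟩
  rwa [← Pt.map_map, h0, ← Pt.res_map, ← Pt.res_iterate, ← Pt.res_iterate] at h

end Pool.Agent.P.MP_f6c533_ag
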