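import Mathlib
import Pool.Agent.P.MP_f6c533_ag.ProjAtlas
import Pool.Agent.P.MP_f6c533_ag.Spread

/-! The scheme form of the theorem. -/

set_option autoImplicit false

namespace Pool.Agent.P.MP_f6c533_ag

open AlgebraicGeometry CategoryTheory CategoryTheory.Limits MvPolynomial

theorem isAlgebraic_int {k : Type} [Field k] [CharZero k] [inst : Algebra ℚ k]
    (h : Algebra.IsAlgebraic ℚ k) : Algebra.IsAlgebraic ℤ k := by
  obtain rfl : inst = DivisionRing.toRatAlgebra := Subsingleton.elim _ _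
  exact (IsFractionRing.comap_isAlgebraic_iff (A := ℤ) (K := ℚ)).2 h

theorem iterate_comp {W B Z : Scheme.{0}} (g : W ⟶ B) (x : B ⟶ Z) (f : Z ⟶ Z) (n : ℕ) :
    (fun u : W ⟶ Z => u ≫ f)^[n] (g ≫ x) = g ≫ (fun u : B ⟶ Z => u ≫ f)^[n] x := by
  induction n with
  | zero => rfl
  | succ n ih =>
    rw [Function.iterate_succ_apply', Function.iterate_succ_apply', ih, Category.assoc]

theorem iterate_comp_base {B Z : Scheme.{0}} {p : Z ⟶ B} {x : B ⟶ Z} {f : Z ⟶ Z}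
    (hf : f ≫ p = p) (n : ℕ) : (fun u : B ⟶ Z => u ≫ f)^[n] x ≫ p = x ≫ p := by
  induction n with
  | zero => rfl
  | succ n ih => rw [Function.iterate_succ_apply', Category.assoc, hf, ih]

theorem scheme_main {k : Type} [Field k] [CharZero k] [IsAlgClosed k] [Algebra.IsAlgebraic ℤ k]
    {σ : Type} [Fintype σ] [GradedAlgebra (homogeneousSubmodule σ ℤ)]
    {B Z : Scheme.{0}} (s : B ⟶ Spec (CommRingCat.of k)) (p : Z ⟶ B) (f : Z ⟶ Z) (x : B ⟶ Z)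
    [AlgebraicGeometry.IsIntegral B] [LocallyOfFiniteType s] [IsSeparated p]
    (π : Z ⟶ Proj (homogeneousSubmodule σ ℤ))
    (h1 : ∀ V, IsAffineOpen V → ∀ j, IsAffineOpen (chartO p π V j))
    (h2 : ∀ V, IsAffineOpen V → ∀ j, Function.Surjective (chartθ p π V j))
    (hf : f ≫ p = p) (hx : x ≫ p = 𝟙 B)
    (hpre : ∀ b : Spec (CommRingCat.of k) ⟶ B, b ≫ s = 𝟙 _ → ∃ n m : ℕ, n ≠ m ∧
      (fun g : Spec (CommRingCat.of k) ⟶ Z => g ≫ f)^[n] (b ≫ x) =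
        (fun g : Spec (CommRingCat.of k) ⟶ Z => g ≫ f)^[m] (b ≫ x)) :
    ∃ n m : ℕ, n ≠ m ∧ (fun g : B ⟶ Z => g ≫ f)^[n] x = (fun g : B ⟶ Z => g ≫ f)^[m] x := by
  obtain ⟨b₀⟩ : Nonempty B := inferInstance
  obtain ⟨j, hj⟩ := exists_mem_chart ((x ≫ π) b₀)
  obtain ⟨V, hV, hb₀, hVj⟩ := exists_isAffineOpen_mem_and_subset
    (U := (x ≫ π) ⁻¹ᵁ chart j) (x := b₀) hj
  have : Nonempty V := ⟨⟨b₀, hb₀⟩⟩
  let α : CommRingCat.of k ⟶ Γ(B, V) :=
    (Scheme.ΓSpecIso (CommRingCat.of k)).inv ≫ s.appLE ⊤ V le_top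
  let : Algebra k Γ(B, V) := α.hom.toAlgebra
  have : Algebra.FiniteType k Γ(B, V) :=
    (s.finiteType_appLE (isAffineOpen_top _) hV le_top).comp (RingHom.FiniteType.of_surjective _
      (Scheme.ΓSpecIso (CommRingCat.of k)).symm.commRingCatIsoToRingEquiv.surjective)
  have : IsNoetherianRing Γ(B, V) := Algebra.FiniteType.isNoetherianRing k _
  have hs : hV.fromSpec ≫ s = Spec.map α := by
    rw [← IsAffineOpen.SpecMap_appLE_fromSpec s (isAffineOpen_top _) hV le_top,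
      IsAffineOpen.fromSpec_top, Scheme.isoSpec_Spec_inv, ← Spec.map_comp]
  let 𝒜 := projAtlas p π V (h1 V hV) (h2 V hV)
  have hmaps : ∀ j, ∀ z ∈ 𝒜.O j, ∃ k, f z ∈ 𝒜.O k := by
    intro j z hz
    obtain ⟨k, hk⟩ := exists_mem_chart (π (f z))
    refine ⟨k, ?_, hk⟩
    change (f ≫ p) z ∈ V
    rw [hf]
    exact hz.1
  have hbase : ∀ (L : Type) [Field L] (t : Spec (CommRingCat.of L) ⟶ Z) (j : σ)
      (hj : ⊤ ≤ t ⁻¹ᵁ 𝒜.O j) (k : σ) (hk : ⊤ ≤ (t ≫ f) ⁻¹ᵁ 𝒜.O k),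
      (𝒜.e (t ≫ f) k hk).comp C = (𝒜.e t j hj).comp C := by
    intro L _ t j hj k hk
    refine RingHom.ext fun r => (ev_chartθ_C hk r).trans (Eq.trans ?_ (ev_chartθ_C hj r).symm)
    exact RingHom.congr_fun (ev_congr (by rw [Category.assoc, hf]) _ _ _) r
  obtain ⟨ι, κ, _, _, S, hG, hW⟩ := 𝒜.exists_sys f hmaps hbase
  let u₀ : Spec (CommRingCat.of Γ(B, V)) ⟶ B :=
    Spec.map (CommRingCat.ofHom (RingHom.id Γ(B, V))) ≫ hV.fromSpec
  have hu₀ : u₀ = hV.fromSpec := by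
    rw [show u₀ = Spec.map (𝟙 _) ≫ hV.fromSpec from rfl, Spec.map_id, Category.id_comp]
  have hu : ⊤ ≤ u₀ ⁻¹ᵁ V := le_fromSpec hV _
  have ht₀ : ⊤ ≤ (u₀ ≫ x) ⁻¹ᵁ 𝒜.O j := by
    change ⊤ ≤ u₀ ⁻¹ᵁ ((x ≫ p) ⁻¹ᵁ V ⊓ (x ≫ π) ⁻¹ᵁ chart j)
    rw [hx]
    exact hu.trans (u₀.preimage_mono (le_inf le_rfl hVj))
  obtain ⟨n, m, hnm, h⟩ := alg_main (k := k) S (Pt.mk (Atlas.pv hG (u₀ ≫ x) j ht₀))
    (RingHom.ext fun r => (ev_chartθ_C ht₀ r).trans ((RingHom.congr_fun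
      (ev_congr (by rw [Category.assoc, hx, Category.comp_id]) _ _ hu) r).trans
      (RingHom.congr_fun (ev_fromSpec hV _ hu) r)))
    (fun β => by
      obtain ⟨n, m, hnm, h⟩ := hpre (Spec.map (CommRingCat.ofHom (β : Γ(B, V) →+* k)) ≫ u₀) (by
        rw [hu₀, Category.assoc, hs, ← Spec.map_comp, ← Spec.map_id]
        congr 1
        ext r
        exact β.commutes r)
      refine ⟨n, m, hnm, ?_⟩
      rw [Atlas.map_mk_pv, ← Atlas.iterate_eq_iff hG hW hmaps hbase]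
      exact h)
    (algebraMap Γ(B, V) (FractionRing Γ(B, V)))
  rw [Atlas.map_mk_pv, ← Atlas.iterate_eq_iff hG hW hmaps hbase, ← Category.assoc, iterate_comp,
    iterate_comp] at h
  have : IsDominant (Spec.map (CommRingCat.ofHom (algebraMap Γ(B, V) (FractionRing Γ(B, V))))) :=
    ⟨(PrimeSpectrum.denseRange_comap_iff_ker_le_nilRadical _).2 (by
      rw [CommRingCat.hom_ofHom, (RingHom.injective_iff_ker_eq_bot _).1
        (IsFractionRing.injective _ _)]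
      exact bot_le)⟩
  have : IsDominant u₀ := by
    rw [hu₀]
    refine ⟨?_⟩
    rw [DenseRange, hV.range_fromSpec]
    exact V.isOpen.dense ⟨b₀, hb₀⟩
  exact ⟨n, m, hnm, ext_of_isDominant_of_isSeparated p
    (by rw [iterate_comp_base hf, iterate_comp_base hf]) _ h⟩

end Pool.Agent.P.MP_f6c533_ag
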